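import Mathlib

/-!
Step channels (helper38), task C: a uniqueness lemma for families of polynomials.
-/

namespace Pool.Agent.NH38.Step

open Polynomial Filter Topology

/-- value of a bivariate polynomial: inner variable `t`, outer variable `w` -/
noncomputable def bev (F : ℂ[X][X]) (t w : ℂ) : ℂ := (F.map (evalRingHom t)).eval w

theorem bev_mul (F G : ℂ[X][X]) (t w : ℂ) : bev (F * G) t w = bev F t w * bev G t w := by
  simp [bev, Polynomial.map_mul]

theorem bev_C (p : ℂ[X]) (t w : ℂ) : bev (C p) t w = p.eval t := by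
  simp [bev]

theorem bev_cont (F : ℂ[X][X]) {β : ℂ → ℂ} {t₁ : ℂ} (hβ : ContinuousAt β t₁) :
    ContinuousAt (fun t => bev F t (β t)) t₁ := by
  have h : (fun t => bev F t (β t)) = fun t => ∑ i ∈ F.support, (F.coeff i).eval t * (β t)^i := by
    funext t
    unfold bev
    rw [Polynomial.eval_map, Polynomial.eval₂_eq_sum, Polynomial.sum]
    rfl
  rw [h]
  refine tendsto_finsetSum _ fun i _ => ?_
  exact ((F.coeff i).continuous.continuousAt).mul (hβ.pow i)

/-- a relation which forces a zero at `z` when `t → t₁` -/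
def Rel (F : ℂ[X][X]) (t₁ z : ℂ) : Prop :=
  ∃ α β c d : ℂ → ℂ, ContinuousAt α t₁ ∧ ContinuousAt β t₁ ∧ ContinuousAt c t₁ ∧
    ContinuousAt d t₁ ∧ β t₁ = z ∧ c t₁ = 0 ∧ d t₁ ≠ 0 ∧
    ∀ᶠ t in 𝓝[≠] t₁, bev F t (β t) * d t = bev F t (α t) * c t

theorem Rel.zero {F : ℂ[X][X]} {t₁ z : ℂ} (h : Rel F t₁ z) : bev F t₁ z = 0 := by
  obtain ⟨α, β, c, d, hα, hβ, hc, hd, rfl, hc0, hd0, hev⟩ := h
  have h1 : Tendsto (fun t => bev F t (β t) * d t) (𝓝[≠] t₁) (𝓝 (bev F t₁ (β t₁) * d t₁)) :=
    ((bev_cont F hβ).mul hd).tendsto.mono_left nhdsWithin_le_nhds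
  have h2 : Tendsto (fun t => bev F t (α t) * c t) (𝓝[≠] t₁) (𝓝 (bev F t₁ (α t₁) * c t₁)) :=
    ((bev_cont F hα).mul hc).tendsto.mono_left nhdsWithin_le_nhds
  have h3 := tendsto_nhds_unique (h1.congr' hev) h2
  rw [hc0, mul_zero] at h3
  exact (mul_eq_zero.mp h3).resolve_right hd0

theorem Rel.div {F : ℂ[X][X]} {t₁ z : ℂ} (h : Rel (C (X - C t₁) * F) t₁ z) : Rel F t₁ z := by
  obtain ⟨α, β, c, d, hα, hβ, hc, hd, hz, hc0, hd0, hev⟩ := h
  refine ⟨α, β, c, d, hα, hβ, hc, hd, hz, hc0, hd0, ?_⟩
  have h1 : ∀ᶠ t in 𝓝[≠] t₁, t ≠ t₁ := self_mem_nhdsWithin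
  filter_upwards [hev, h1] with t ht ht1
  rw [bev_mul, bev_mul, bev_C, bev_C] at ht
  have h2 : (X - C t₁ : ℂ[X]).eval t ≠ 0 := by
    simpa using sub_ne_zero.mpr ht1
  have h3 : (X - C t₁ : ℂ[X]).eval t * (bev F t (β t) * d t) =
      (X - C t₁ : ℂ[X]).eval t * (bev F t (α t) * c t) := by
    rw [← mul_assoc, ht, mul_assoc]
  exact mul_left_cancel₀ h2 h3

/-- **Uniqueness.** -/
theorem uniq {I : Type} [Fintype I] (n : ℕ) (t₁ : ℂ) (z : I → ℂ) (hz : Function.Injective z)
    (hz0 : ∀ i, z i ≠ 0) (hI : n ≤ Fintype.card I + 1) (F : ℂ[X][X]) (hF : F.natDegree ≤ n)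
    (h0 : F.coeff 0 = 0) (hn : F.coeff n = 0) (hr : ∀ i, Rel F t₁ (z i)) : F = 0 := by
  classical
  have key : ∀ D : ℕ, ∀ F : ℂ[X][X], F.natDegree ≤ n → F.coeff 0 = 0 → F.coeff n = 0 →
      (∀ i, Rel F t₁ (z i)) → (∀ j, (F.coeff j).degree < (D : WithBot ℕ)) → F = 0 := by
    intro D
    induction D with
    | zero =>
      intro F _ _ _ _ hD
      ext1 j
      have := hD j
      rw [Nat.cast_zero] at this
      rw [Polynomial.coeff_zero]
      by_contra hne
      have h2 := Polynomial.zero_le_degree_iff.mpr hne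
      exact absurd this (not_lt.mpr h2)
    | succ D ih =>
      intro F hF h0 hn hr hD
      -- the value at `t₁` vanishes
      have hv : F.map (evalRingHom t₁) = 0 := by
        set f := F.map (evalRingHom t₁) with hf
        have hc0 : f.coeff 0 = 0 := by rw [hf, coeff_map, h0]; simp
        have hcn : f.coeff n = 0 := by rw [hf, coeff_map, hn]; simp
        have hfd : f.natDegree ≤ n := (Polynomial.natDegree_map_le).trans hF
        let S : Finset ℂ := insert 0 (Finset.univ.image z)
        have hS : S.card = Fintype.card I + 1 := by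
          rw [Finset.card_insert_of_notMem, Finset.card_image_of_injective _ hz, Finset.card_univ]
          intro h
          rw [Finset.mem_image] at h
          obtain ⟨i, _, hi⟩ := h
          exact hz0 i hi
        by_contra hne
        have hlt : f.natDegree < n := by
          rcases lt_or_eq_of_le hfd with h | h
          · exact h
          · exfalso
            apply hne
            rw [← Polynomial.leadingCoeff_eq_zero, Polynomial.leadingCoeff, h]
            exact hcn
        apply hne
        refine Polynomial.eq_zero_of_natDegree_lt_card_of_eval_eq_zero' f S ?_ ?_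
        · intro y hy
          rw [Finset.mem_insert, Finset.mem_image] at hy
          rcases hy with rfl | ⟨i, _, rfl⟩
          · rw [← Polynomial.coeff_zero_eq_eval_zero]; exact hc0
          · exact (hr i).zero
        · omega
      have hdvd : C (X - C t₁ : ℂ[X]) ∣ F := by
        rw [Polynomial.C_dvd_iff_dvd_coeff]
        intro j
        rw [Polynomial.dvd_iff_isRoot]
        have := congrArg (fun p : ℂ[X] => p.coeff j) hv
        simpa [coeff_map] using this
      obtain ⟨G, rfl⟩ := hdvd
      have hX : (X - C t₁ : ℂ[X]) ≠ 0 := Polynomial.X_sub_C_ne_zero t₁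
      have hco : ∀ j, (C (X - C t₁ : ℂ[X]) * G).coeff j = (X - C t₁) * G.coeff j :=
        fun j => Polynomial.coeff_C_mul _
      have hG : G = 0 := by
        refine ih G ?_ ?_ ?_ (fun i => (hr i).div) ?_
        · rw [Polynomial.natDegree_le_iff_coeff_eq_zero] at hF ⊢
          intro N hN
          have := hF N hN
          rw [hco] at this
          exact (mul_eq_zero.mp this).resolve_left hX
        · rw [hco] at h0
          exact (mul_eq_zero.mp h0).resolve_left hX
        · rw [hco] at hn
          exact (mul_eq_zero.mp hn).resolve_left hX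
        · intro j
          have h1 := hD j
          rw [hco, Polynomial.degree_mul, Polynomial.degree_X_sub_C] at h1
          by_cases hj : G.coeff j = 0
          · rw [hj, Polynomial.degree_zero]
            exact WithBot.bot_lt_coe D
          · rw [Polynomial.degree_eq_natDegree hj] at h1 ⊢
            have h2 : (1 + (G.coeff j).natDegree : ℕ) < D + 1 := by
              exact_mod_cast h1
            have h3 : (G.coeff j).natDegree < D := by omega
            exact_mod_cast h3
      rw [hG, mul_zero]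
  refine key (F.support.sup (fun j => (F.coeff j).natDegree) + 1) F hF h0 hn hr ?_
  intro j
  by_cases hj : F.coeff j = 0
  · rw [hj, Polynomial.degree_zero]
    exact WithBot.bot_lt_coe _
  · rw [Polynomial.degree_eq_natDegree hj]
    have : (F.coeff j).natDegree ≤ F.support.sup (fun j => (F.coeff j).natDegree) :=
      Finset.le_sup (f := fun j => (F.coeff j).natDegree) (Polynomial.mem_support_iff.mpr hj)
    exact_mod_cast Nat.lt_succ_of_le this

end Pool.Agent.NH38.Step
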