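import Pool.Agent.NH38.Step.C6
import Pool.Agent.NH38.Step.CU
import Pool.Agent.H492C.Joint

/-!
Step channels (helper38), task C, part 7: the difference along polynomial families of parameters.
-/

namespace Pool.Agent.NH38.Step

open Pool.Agent.H988R2.Perc hiding X
open Pool.Agent.H988C Polynomial

variable {ι : Type} (x : ι → ℂ)

/-! ### permutations -/

theorem TQ_perm {A A' : List ℂ} (L : List ℂ) (ha : Odd A.length) (k : ℕ) (hk : L.length = 2 * k)
    (w v : ℂ) (h : A.Perm A') : TQ A w L v = TQ A' w L v := by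
  obtain ⟨m, hm⟩ := ha
  unfold TQ
  congr 1
  · refine Z_perm ?_ (List.Perm.append_right _ h)
    simp only [List.length_cons, List.length_append, List.length_nil]
    exact ⟨m + k + 2, by omega⟩
  · refine Z_perm ?_ (List.Perm.append_right _ (h.map _))
    simp only [List.length_cons, List.length_append, List.length_nil, List.length_map]
    exact ⟨m + 1, by omega⟩

open Classical in
theorem RHS_perm {A A' : List ℂ} (ha : Odd A.length) (w v : ℂ) (s : Finset ι) (h : A.Perm A') :
    RHS x A w v s = RHS x A' w v s := by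
  obtain ⟨m, hm⟩ := ha
  have e1 : ∀ z : ℂ, zs (z :: A) = zs (z :: A') := by
    intro z
    refine zs_perm ?_ (h.cons _)
    rw [List.length_cons]; exact ⟨m + 1, by omega⟩
  have e2 : zs (v :: (A ++ prF x s)) = zs (v :: (A' ++ prF x s)) := by
    refine zs_perm ?_ ((List.Perm.append_right _ h).cons _)
    rw [List.length_cons, List.length_append, prF_length]; exact ⟨m + s.card + 1, by omega⟩
  unfold RHS
  rw [e1, e2]
  congr 1
  refine Finset.sum_congr rfl fun i hi => ?_
  rw [e1]
  congr 1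
  refine zs_perm ?_ ((((List.Perm.append_right _ h).cons _).cons _).cons _)
  simp only [List.length_cons]
  rw [List.length_append, prF_length]; exact ⟨m + (s.erase i).card + 2, by omega⟩

theorem DD_perm (h3 : S_D3) {A A' : List ℂ} (ha : Odd A.length) (ha' : Odd A'.length) (w v : ℂ)
    (s : Finset ι) (h : A.Perm A') (hA0 : ∀ z ∈ A, z ≠ 0) :
    DD x A ha w v s = DD x A' ha' w v s := by
  unfold DD
  rw [TQ_perm (prF x s) ha s.card (prF_length x s) w v h,
    h3 A A' (prF x s) ha ha' w v (prF_even x s) h hA0, RHS_perm x ha w v s h]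
  unfold cst
  rw [h.prod_eq, h.length_eq]

/-! ### the function `FF` -/

/-- the difference, without denominators -/
noncomputable def FF (A : List ℂ) (ha : Odd A.length) (w v : ℂ) (s : Finset ι) : ℂ :=
  A.prod^(A.length - 1) * (PJ x w s * (TQ A w (prF x s) v - GQ A ha w (prF x s) v)) -
    kap A s.card * A.prod * GG x A w v s

theorem FF_eq (hx : ∀ i, x i ≠ 0) (A : List ℂ) (ha : Odd A.length) (hA0 : ∀ z ∈ A, z ≠ 0)
    (w v : ℂ) (hw : w ≠ 0) (hv : v ≠ 0) (s : Finset ι) (h : ∀ j ∈ s, om w ≠ om (x j)) :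
    FF x A ha w v s = A.prod^(A.length - 1) * PJ x w s * DD x A ha w v s := by
  unfold FF DD
  rw [GG_PR x hx s A ha hA0 w v hw hv, ← PR_eq x A w v s h, PJ_eq x w s hw]
  ring

open Classical in
theorem FF_zero (hx : ∀ i, x i ≠ 0) (A : List ℂ) (ha : Odd A.length) (hA0 : ∀ z ∈ A, z ≠ 0)
    (w v : ℂ) (hw : w ≠ 0) (hv : v ≠ 0) (s : Finset ι) (i : ι) (hi : i ∈ s) (h : om w = om (x i))
    (h2 : ∀ j ∈ s.erase i, om w ≠ om (x j)) : FF x A ha w v s = 0 := by
  unfold FF
  rw [GG_PR x hx s A ha hA0 w v hw hv, PR_zero x hx s i hi A ha w v hw h h2, PJ_eq x w s hw]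
  have : (∏ j ∈ s, (om w - om (x j))) = 0 := by
    apply Finset.prod_eq_zero hi
    rw [h, sub_self]
  rw [this]
  ring

/-! ### bivariate polynomials -/

theorem bev_add (F G : ℂ[X][X]) (t w : ℂ) : bev (F + G) t w = bev F t w + bev G t w := by
  simp [bev, Polynomial.map_add]

theorem bev_sub (F G : ℂ[X][X]) (t w : ℂ) : bev (F - G) t w = bev F t w - bev G t w := by
  simp [bev, Polynomial.map_sub]

theorem bev_X (t w : ℂ) : bev (X : ℂ[X][X]) t w = w := by simp [bev]

theorem bev_CC (c t w : ℂ) : bev (C (C c) : ℂ[X][X]) t w = c := by simp [bev]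

theorem bev_pow (F : ℂ[X][X]) (n : ℕ) (t w : ℂ) : bev (F^n) t w = (bev F t w)^n := by
  simp [bev, Polynomial.map_pow]

theorem bev_one (t w : ℂ) : bev (1 : ℂ[X][X]) t w = 1 := by simp [bev]

theorem bev_sum {κ : Type} (s : Finset κ) (F : κ → ℂ[X][X]) (t w : ℂ) :
    bev (∑ i ∈ s, F i) t w = ∑ i ∈ s, bev (F i) t w := by
  simp [bev, Polynomial.map_sum, Polynomial.eval_finsetSum]

theorem bev_prod {κ : Type} (s : Finset κ) (F : κ → ℂ[X][X]) (t w : ℂ) :
    bev (∏ i ∈ s, F i) t w = ∏ i ∈ s, bev (F i) t w := by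
  simp [bev, Polynomial.map_prod, Polynomial.eval_prod]

/-- a polynomial function of bivariate polynomials -/
theorem bev_PD {N d : ℕ} {F : List ℂ → ℂ} (hF : PD N d F) (L : List ℂ[X][X]) (hL : L.length = N) :
    ∃ Q : ℂ[X][X], ∀ t w, bev Q t w = F (L.map (fun p => bev p t w)) := by
  obtain ⟨p, _, hp'⟩ := hF
  refine ⟨MvPolynomial.eval₂ ((C : ℂ[X] →+* ℂ[X][X]).comp (C : ℂ →+* ℂ[X]))
    (fun i : Fin N => L.getD i 0) p, ?_⟩
  intro t w
  rw [hp' _ (by rw [List.length_map, hL])]
  let Θ : ℂ[X][X] →+* ℂ := (evalRingHom w).comp (mapRingHom (evalRingHom t))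
  have h1 : ∀ Q : ℂ[X][X], bev Q t w = Θ Q := fun Q => rfl
  rw [h1, MvPolynomial.eval₂_comp_left]
  have h2 : Θ.comp ((C : ℂ[X] →+* ℂ[X][X]).comp (C : ℂ →+* ℂ[X])) = RingHom.id ℂ := by
    ext z
    simp [Θ]
  rw [h2]
  have h3 : (⇑Θ ∘ fun i : Fin N => L.getD i 0) = fun i : Fin N =>
      (L.map (fun p => bev p t w)).getD i 0 := by
    funext i
    have h4 : L.map (fun p => bev p t w) = L.map Θ := rfl
    simp only [Function.comp_apply]
    rw [h4, List.getD_eq_getElem?_getD, List.getD_eq_getElem?_getD, List.getElem?_map]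
    cases L[(i : ℕ)]? <;> simp
  rw [h3]
  rfl

/-- the values of a list of polynomials -/
noncomputable def ev (A : List ℂ[X]) (t : ℂ) : List ℂ := A.map (fun p => p.eval t)

theorem ev_length (A : List ℂ[X]) (t : ℂ) : (ev A t).length = A.length := by simp [ev]

theorem ev_odd {A : List ℂ[X]} (ha : Odd A.length) (t : ℂ) : Odd (ev A t).length := by
  rw [ev_length]; exact ha

open Classical in
theorem F_exists (h2 : S_D2) (s : Finset ι) (A : List ℂ[X])
    (ha : Odd A.length) (v : ℂ[X]) : ∃ F : ℂ[X][X], ∀ t, (∀ p ∈ A, p.eval t ≠ 0) → ∀ w,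
      bev F t w = FF x (ev A t) (ev_odd ha t) w (v.eval t) s := by
  have hY : Even ((prF x s).map (C : ℂ → ℂ[X])).length := by
    rw [List.length_map]; exact prF_even x s
  obtain ⟨gF, _, hg⟩ := h2 A ((prF x s).map C) v ha hY
  obtain ⟨m, hm⟩ := ha
  have ha : Odd A.length := ⟨m, hm⟩
  have hev : ∀ t, ((prF x s).map (C : ℂ → ℂ[X])).map (fun p => p.eval t) = prF x s := by
    intro t; rw [List.map_map]; simp [Function.comp_def]
  -- total mass, first factor
  obtain ⟨T1, hT1⟩ := bev_PD (Z_pd (2 * (m + s.card + 2)) (even_two_mul _))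
    (A.map C ++ X :: ((prF x s).map (fun z => C (C z)) ++ [C v, 0])) (by
      simp only [List.length_cons, List.length_append, List.length_nil, List.length_map, prF_length]
      omega)
  obtain ⟨T2, hT2⟩ := Pool.Agent.H492C.joint_inv A (Z_pd (A.length + 1) ha.add_one)
  obtain ⟨pA, hpA⟩ : ∃ pA : ℂ[X], ∀ t, pA.eval t = (ev A t).prod := by
    refine ⟨A.prod, fun t => ?_⟩
    unfold ev
    rw [← Polynomial.coe_evalRingHom, map_list_prod]
  obtain ⟨Z1, hZ1⟩ := bev_PD (Z_pd (A.length + 1) ha.add_one) (X :: A.map C) (by simp)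
  obtain ⟨Z2, hZ2⟩ := bev_PD (Z_pd (2 * (m + s.card + 1)) (even_two_mul _))
    (C v :: (A.map C ++ (prF x s).map (fun z => C (C z)))) (by
      simp only [List.length_cons, List.length_append, List.length_map, prF_length]
      omega)
  have hAm : ∀ t w, (A.map (C : ℂ[X] → ℂ[X][X])).map (fun p => bev p t w) = ev A t := by
    intro t w
    rw [List.map_map]
    unfold ev
    refine List.map_congr_left fun p _ => ?_
    exact bev_C p t w
  have hPm : ∀ (r : Finset ι) (t w : ℂ), ((prF x r).map (fun z => (C (C z) : ℂ[X][X]))).map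
      (fun p => bev p t w) = prF x r := by
    intro r t w
    rw [List.map_map]
    conv_rhs => rw [← List.map_id (prF x r)]
    refine List.map_congr_left fun p _ => ?_
    exact bev_CC p t w
  have hZ3 : ∀ i ∈ s, ∃ Q : ℂ[X][X], ∀ t w, bev Q t w = Z (x i :: ev A t) := by
    intro i _
    obtain ⟨Q, hQ⟩ := bev_PD (Z_pd (A.length + 1) ha.add_one) (C (C (x i)) :: A.map C) (by simp)
    refine ⟨Q, fun t w => ?_⟩
    rw [hQ, List.map_cons, bev_CC, hAm]
  have hZ4 : ∀ i ∈ s, ∃ Q : ℂ[X][X], ∀ t w, bev Q t w =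
      Z (w :: v.eval t :: x i :: (ev A t ++ prF x (s.erase i))) := by
    intro i hi
    have hc := Finset.card_erase_add_one hi
    obtain ⟨Q, hQ⟩ := bev_PD (Z_pd (2 * (m + s.card + 1)) (even_two_mul _))
      (X :: C v :: C (C (x i)) :: (A.map C ++ (prF x (s.erase i)).map (fun z => C (C z)))) (by
        simp only [List.length_cons, List.length_append, List.length_map, prF_length]
        omega)
    refine ⟨Q, fun t w => ?_⟩
    rw [hQ, List.map_cons, List.map_cons, List.map_cons, List.map_append, hAm, hPm, bev_CC, bev_C,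
      bev_X]
  choose! Q3 hQ3 using hZ3
  choose! Q4 hQ4 using hZ4
  have hkap : ∀ t, kap (ev A t) s.card = q^(A.length + 1 + 2 * s.card) := by
    intro t; unfold kap; rw [ev_length]
  let G1 : ℂ[X][X] := C (v^2 + 1) * X - C (C (q^2) * v) * X^2 - C (C q * v)
  let G2 : ℂ[X][X] := ∏ j ∈ s, ((X^2+1)^2 + (X^2+1) * X * C (C (om (x j))) +
    X^2 * C (C ((om (x j))^2 - 3)))
  let G3 : ι → ℂ[X][X] := fun i => (X * (C (C q * v) * X^2 + C (C (q^2) * v) +
    X * C v * C (C (om (x i))) + X * C (v^2 + 1))) *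
    (∏ j ∈ s.erase i, (X^2 + 1 - X * C (C (om (x j))))) *
    C (C (EE (om (x i)) (om (x i)) *
      (∏ j ∈ s.erase i, EE (om (x i)) (om (x j)) / (om (x i) - om (x j))) *
      ((x i)^(A.length - 1 + s.card))⁻¹)) * Q3 i * Q4 i
  refine ⟨(∏ j ∈ s, (X^2 + 1 - X * C (C (om (x j))))) * (T1 * C T2 - gF) -
    C (C (q^(A.length + 1 + 2 * s.card))) * C pA * (G1 * G2 * Z1 * Z2 - ∑ i ∈ s, G3 i), ?_⟩
  intro t ht w
  have hgt := hg t w ht
  have hgt' : bev gF t w = (ev A t).prod^(A.length - 1) *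
      GQ (ev A t) (ev_odd ha t) w (prF x s) (v.eval t) := by
    have : bev gF t w = (gF.map (evalRingHom t)).eval w := rfl
    rw [this, hgt]
    congr 1
    congr 1
    exact hev t
  have hT1' : bev T1 t w = Z (ev A t ++ w :: (prF x s ++ [v.eval t, 0])) := by
    rw [hT1, List.map_append, List.map_cons, List.map_append, hAm, hPm, bev_X]
    simp only [List.map_cons, List.map_nil, bev_C]
    congr 4
    simp [bev]
  have hT2' : T2.eval t = (ev A t).prod^(A.length - 1) * Z ((ev A t).map (fun x => x⁻¹) ++ [0]) := by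
    have := hT2 t ht
    have e : A.length + 1 - 2 = A.length - 1 := by omega
    rw [e] at this
    exact this
  have hZ1' : bev Z1 t w = Z (w :: ev A t) := by
    rw [hZ1, List.map_cons, hAm, bev_X]
  have hZ2' : bev Z2 t w = Z (v.eval t :: (ev A t ++ prF x s)) := by
    rw [hZ2, List.map_cons, List.map_append, hAm, hPm, bev_C]
  have hG1 : bev G1 t w = (v.eval t)^2 * w + w - q^2 * w^2 * (v.eval t) - q * (v.eval t) := by
    simp only [G1, bev_sub, bev_mul, bev_C, bev_X, bev_pow, Polynomial.eval_add,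
      Polynomial.eval_mul, Polynomial.eval_pow, Polynomial.eval_C, Polynomial.eval_one]
    ring
  have hG2 : bev G2 t w = ∏ j ∈ s, ((w^2+1)^2 + (w^2+1) * w * om (x j) +
      w^2 * ((om (x j))^2 - 3)) := by
    simp only [G2, bev_prod, bev_add, bev_mul, bev_CC, bev_X, bev_pow, bev_one]
  have hG3 : ∀ i ∈ s, bev (G3 i) t w = (w * (q * w^2 * (v.eval t) + q^2 * (v.eval t) +
      w * (v.eval t) * om (x i) + w * ((v.eval t)^2 + 1))) *
      (∏ j ∈ s.erase i, (w^2 + 1 - w * om (x j))) *
      (EE (om (x i)) (om (x i)) *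
        (∏ j ∈ s.erase i, EE (om (x i)) (om (x j)) / (om (x i) - om (x j))) *
        ((x i)^((ev A t).length - 1 + s.card))⁻¹) * Z (x i :: ev A t) *
      Z (w :: v.eval t :: x i :: (ev A t ++ prF x (s.erase i))) := by
    intro i hi
    rw [ev_length]
    simp only [G3, bev_prod, bev_add, bev_sub, bev_mul, bev_CC, bev_X, bev_pow, bev_one]
    rw [hQ3 i hi, hQ4 i hi]
    simp only [bev_C, Polynomial.eval_add,
      Polynomial.eval_mul, Polynomial.eval_pow, Polynomial.eval_C, Polynomial.eval_one]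
    ring
  unfold FF PJ GG
  rw [bev_sub, bev_mul, bev_mul, bev_mul, bev_CC, bev_C, bev_sub, bev_sub, bev_mul, bev_mul,
    bev_mul, bev_mul, bev_C, hT1', hT2', hgt', hZ1', hZ2', hG1, hG2, bev_sum,
    Finset.sum_congr rfl hG3, hkap, hpA, ev_length]
  simp only [bev_prod, bev_sub, bev_add, bev_mul, bev_CC, bev_X, bev_pow, bev_one]
  unfold TQ
  ring

end Pool.Agent.NH38.Step
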