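import Pool.Agent.NH38.Step.C1

/-!
Step channels (helper38), task C, part 2: recursion and cup relation of the formula.
-/

namespace Pool.Agent.NH38.Step

open Pool.Agent.H988R2.Perc hiding X
open Pool.Agent.H988C Polynomial

/-! ### lists of pairs -/

theorem prs_nil : prs [] = [] := rfl

theorem prs_cons (x : ℂ) (X : List ℂ) : prs (x :: X) = x :: x⁻¹ :: prs X := rfl

theorem prs_perm {X X' : List ℂ} (h : X.Perm X') : (prs X).Perm (prs X') := by
  unfold prs
  exact h.flatMap_right _

theorem prs_ne {X : List ℂ} (h : ∀ z ∈ X, z ≠ 0) : ∀ z ∈ prs X, z ≠ 0 := by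
  intro z hz
  unfold prs at hz
  rw [List.mem_flatMap] at hz
  obtain ⟨y, hy, hz⟩ := hz
  simp only [List.mem_cons, List.not_mem_nil, or_false] at hz
  rcases hz with rfl | rfl
  · exact h _ hy
  · exact inv_ne_zero (h _ hy)

theorem prs_prod {X : List ℂ} (h : ∀ z ∈ X, z ≠ 0) : (prs X).prod = 1 := by
  induction X with
  | nil => simp [prs]
  | cons x X ih =>
    rw [prs_cons, List.prod_cons, List.prod_cons, ih (fun z hz => h z (by simp [hz])), mul_one,
      mul_inv_cancel₀ (h x (by simp))]

variable {ι : Type} (x : ι → ℂ)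

theorem prF_length (s : Finset ι) : (prF x s).length = 2 * s.card := by
  unfold prF
  rw [prs_length, List.length_map, Finset.length_toList]

theorem prF_even (s : Finset ι) : Even (prF x s).length := by
  rw [prF_length]; exact even_two_mul _

theorem prF_ne (hx : ∀ i, x i ≠ 0) (s : Finset ι) : ∀ z ∈ prF x s, z ≠ 0 := by
  unfold prF
  apply prs_ne
  intro z hz
  rw [List.mem_map] at hz
  obtain ⟨i, _, rfl⟩ := hz
  exact hx i

theorem prF_prod (hx : ∀ i, x i ≠ 0) (s : Finset ι) : (prF x s).prod = 1 := by
  unfold prF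
  apply prs_prod
  intro z hz
  rw [List.mem_map] at hz
  obtain ⟨i, _, rfl⟩ := hz
  exact hx i

open Classical in
theorem prF_erase {s : Finset ι} {i : ι} (hi : i ∈ s) :
    (prF x s).Perm (x i :: (x i)⁻¹ :: prF x (s.erase i)) := by
  have h1 : s.toList.Perm (i :: (s.erase i).toList) := by
    conv_lhs => rw [← Finset.insert_erase hi]
    exact Finset.toList_insert (Finset.notMem_erase i s)
  have h2 := prs_perm (h1.map x)
  rw [List.map_cons, prs_cons] at h2
  exact h2

open Classical in
theorem prF_erase' (hx : ∀ i, x i ≠ 0) {s : Finset ι} {i : ι} (hi : i ∈ s) (y : ℂ) (hy : y ≠ 0)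
    (h : om y = om (x i)) : (prF x s).Perm (y :: y⁻¹ :: prF x (s.erase i)) := by
  have h1 := prF_erase x hi
  rcases (om_eq_iff hy (hx i)).mp h with h2 | h2
  · rw [h2]; exact h1
  · have h3 : y = (x i)⁻¹ := eq_inv_of_mul_eq_one_left h2
    rw [h3, inv_inv]
    exact h1.trans (List.Perm.swap _ _ _)

theorem pom_prs (a : ℂ) (X : List ℂ) : pom a (prs X) = (X.map (fun y => (a - om y)^2)).prod := by
  induction X with
  | nil => simp [prs, pom]
  | cons x X ih =>
    rw [prs_cons, pom_cons, pom_cons, ih, om_inv, List.map_cons, List.prod_cons]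
    ring

theorem pom_prF (a : ℂ) (s : Finset ι) : pom a (prF x s) = ∏ j ∈ s, (a - om (x j))^2 := by
  unfold prF
  rw [pom_prs, List.map_map, Finset.prod_map_toList]
  rfl

/-! ### `zs`: derived forms -/

theorem zs_om (x y : ℂ) (l : List ℂ) (hx : x ≠ 0) (hy : y ≠ 0) (h : om x = om y)
    (hl : Odd l.length) : zs (x :: l) = zs (y :: l) := by
  rcases (om_eq_iff hx hy).mp h with h1 | h1
  · rw [h1]
  · have : x = y⁻¹ := eq_inv_of_mul_eq_one_left h1
    rw [this]
    exact (zs_inv y l hy hl).symm

theorem zs_rec1 (y : ℂ) (l : List ℂ) (hy : y ≠ 0) (hl : ∀ z ∈ l, z ≠ 0) (h : Even l.length) :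
    zs ((q * y) :: y :: l) = pom (om (q^2 * y)) l * zs l := by
  have h1 := zs_rec (q * y) l (mul_ne_zero q_ne_zero hy) hl h
  have e : q^2 * (q * y) = y := by rw [← mul_assoc, ← pow_succ, q_cube, one_mul]
  rw [e, om_qq] at h1
  exact h1

theorem zs_rec2 (u : ℂ) (l : List ℂ) (hu : u ≠ 0) (hl : ∀ z ∈ l, z ≠ 0) (h : Even l.length) :
    zs ((q^2 * u) :: u :: l) = pom (om (q * u)) l * zs l := by
  rw [← zs_rec u l hu hl h]
  refine zs_perm ?_ (List.Perm.swap _ _ _)
  rw [List.length_cons, List.length_cons]
  exact (h.add_one).add_one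

/-! ### the recursion of the formula -/

open Classical in
theorem RHS_rec (hx : ∀ i, x i ≠ 0) (s : Finset ι) (i : ι) (hi : i ∈ s) (A : List ℂ)
    (hA : Odd A.length) (hA0 : ∀ z ∈ A, z ≠ 0) (v y : ℂ) (hv : v ≠ 0) (hy : y ≠ 0)
    (hom : om (x i) = om y) (h1 : ∀ j ∈ s, om (q * y) ≠ om (x j))
    (h2 : ∀ j ∈ s.erase i, om y ≠ om (x j)) :
    RHS x A (q * y) v s = (om y - om (q^2*y)) *
      pom (om (q^2 * y)) (v :: (A ++ prF x (s.erase i))) * RHS x A y⁻¹ v (s.erase i) := by
  have hqy : q * y ≠ 0 := mul_ne_zero q_ne_zero hy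
  have hyi : y⁻¹ ≠ 0 := inv_ne_zero hy
  have hyy : om (q * y) ≠ om y := by rw [← hom]; exact h1 i hi
  have hsum := om_sum y
  obtain ⟨m, hm⟩ := hA
  unfold RHS
  -- the first term vanishes
  have z0 : (∏ j ∈ s, EE (om (q * y)) (om (x j)) / (om (q * y) - om (x j))) = 0 := by
    apply Finset.prod_eq_zero hi
    rw [hom, EE_fac _ y hy, sub_self, zero_mul, zero_div]
  rw [z0, mul_zero, zero_mul, zero_mul, zero_sub, ← Finset.add_sum_erase s _ hi, neg_add]
  rw [mul_sub]
  have t1 : -((om (q * (q * y)) + om (x i) + om v) / (om (q * y) - om (x i)) *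
      EE (om (x i)) (om (x i)) *
      (∏ j ∈ s.erase i, EE (om (x i)) (om (x j)) / (om (x i) - om (x j))) * zs (x i :: A) *
      zs ((q * y) :: v :: x i :: (A ++ prF x (s.erase i)))) =
      (om y - om (q^2*y)) * pom (om (q^2 * y)) (v :: (A ++ prF x (s.erase i))) *
      ((om v - om (q^2*y⁻¹)) * (∏ j ∈ s.erase i, EE (om y⁻¹) (om (x j)) / (om y⁻¹ - om (x j))) *
        zs (y⁻¹ :: A) * zs (v :: (A ++ prF x (s.erase i)))) := by
    have hlen : (v :: (A ++ prF x (s.erase i))).length = 2 * (m + (s.erase i).card + 1) := by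
      rw [List.length_cons, List.length_append, prF_length, hm]; omega
    have hev : Even (v :: (A ++ prF x (s.erase i))).length := by
      rw [hlen]; exact even_two_mul _
    have e1 : zs ((q * y) :: v :: x i :: (A ++ prF x (s.erase i))) =
        pom (om (q^2 * y)) (v :: (A ++ prF x (s.erase i))) * zs (v :: (A ++ prF x (s.erase i))) := by
      rw [← zs_rec1 y _ hy _ hev]
      · have p1 : ((q * y) :: v :: x i :: (A ++ prF x (s.erase i))).Perm
            (x i :: (q * y) :: v :: (A ++ prF x (s.erase i))) := by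
          refine (List.Perm.cons _ (List.Perm.swap _ _ _)).trans (List.Perm.swap _ _ _)
        have p2 : ((q * y) :: y :: v :: (A ++ prF x (s.erase i))).Perm
            (y :: (q * y) :: v :: (A ++ prF x (s.erase i))) := List.Perm.swap _ _ _
        rw [zs_perm _ p1, zs_perm _ p2]
        · refine zs_om _ _ _ (hx i) hy hom ?_
          rw [List.length_cons, hlen]
          exact (even_two_mul _).add_one
        · rw [List.length_cons, List.length_cons, hlen]
          exact ((even_two_mul _).add_one).add_one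
        · have : ((q * y) :: v :: x i :: (A ++ prF x (s.erase i))).length =
            (v :: (A ++ prF x (s.erase i))).length + 1 + 1 := by simp
          rw [this, hlen]
          exact ((even_two_mul _).add_one).add_one
      · intro z hz
        rw [List.mem_cons, List.mem_append] at hz
        rcases hz with rfl | hz | hz
        · exact hv
        · exact hA0 z hz
        · exact prF_ne x hx _ z hz
    have e2 : zs (x i :: A) = zs (y⁻¹ :: A) := by
      refine zs_om _ _ _ (hx i) hyi ?_ ⟨m, hm⟩
      rw [om_inv, hom]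
    rw [e1, e2, hom, om_qq, om_inv, om_q2_inv, EE_fac (om y) y hy]
    have hd : om (q * y) - om y ≠ 0 := sub_ne_zero.mpr hyy
    have e3 : om (q^2 * y) + om y + om v = om v - om (q * y) := by linear_combination hsum
    rw [e3]
    field_simp
    ring
  rw [t1]
  have t2 : -(∑ j ∈ s.erase i, (om (q * (q * y)) + om (x j) + om v) / (om (q * y) - om (x j)) *
      EE (om (x j)) (om (x j)) *
      (∏ l ∈ s.erase j, EE (om (x j)) (om (x l)) / (om (x j) - om (x l))) * zs (x j :: A) *
      zs ((q * y) :: v :: x j :: (A ++ prF x (s.erase j)))) =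
      -((om y - om (q^2*y)) * pom (om (q^2 * y)) (v :: (A ++ prF x (s.erase i))) *
      ∑ j ∈ s.erase i, (om (q * y⁻¹) + om (x j) + om v) / (om y⁻¹ - om (x j)) *
      EE (om (x j)) (om (x j)) *
      (∏ l ∈ (s.erase i).erase j, EE (om (x j)) (om (x l)) / (om (x j) - om (x l))) *
        zs (x j :: A) * zs (y⁻¹ :: v :: x j :: (A ++ prF x ((s.erase i).erase j)))) := by
    congr 1
    rw [Finset.mul_sum]
    refine Finset.sum_congr rfl fun j hj => ?_
    have hji : j ≠ i := Finset.ne_of_mem_erase hj
    have hjs : j ∈ s := Finset.mem_of_mem_erase hj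
    have hij : i ∈ s.erase j := Finset.mem_erase.mpr ⟨hji.symm, hi⟩
    rw [← Finset.mul_prod_erase (s.erase j) _ hij, Finset.erase_right_comm]
    set r := (s.erase i).erase j with hr
    -- the list
    have hlen : (y⁻¹ :: v :: x j :: (A ++ prF x r)).length = 2 * (m + r.card + 2) := by
      simp only [List.length_cons]
      rw [List.length_append, prF_length, hm]; omega
    have hev : Even (y⁻¹ :: v :: x j :: (A ++ prF x r)).length := by
      rw [hlen]; exact even_two_mul _
    have e1 : zs ((q * y) :: v :: x j :: (A ++ prF x (s.erase j))) =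
        pom (om (q^2 * y)) (y⁻¹ :: v :: x j :: (A ++ prF x r)) *
          zs (y⁻¹ :: v :: x j :: (A ++ prF x r)) := by
      rw [← zs_rec1 y _ hy _ hev]
      · have p0 := prF_erase' x hx hij y hy hom.symm
        rw [Finset.erase_right_comm, ← hr] at p0
        refine zs_perm ?_ ?_
        · simp only [List.length_cons]
          rw [List.length_append, prF_length, hm]
          exact ⟨m + (s.erase j).card + 2, by omega⟩
        · refine List.Perm.cons _ ?_
          have p1 : (v :: x j :: (A ++ prF x (s.erase j))).Perm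
              (v :: x j :: (A ++ (y :: y⁻¹ :: prF x r))) :=
            ((List.Perm.append_left _ p0).cons _).cons _
          refine p1.trans ?_
          have p2 : (A ++ (y :: y⁻¹ :: prF x r)).Perm (y :: y⁻¹ :: (A ++ prF x r)) := by
            refine List.perm_middle.trans (List.Perm.cons _ List.perm_middle)
          refine ((p2.cons _).cons _).trans ?_
          -- v :: xj :: y :: y⁻¹ :: l ~ y :: y⁻¹ :: v :: xj :: l
          have p3 : ∀ (a b c d : ℂ) (l : List ℂ), (a :: b :: c :: d :: l).Perm (c :: d :: a :: b :: l) := by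
            intro a b c d l
            have : (a :: b :: c :: d :: l) = [a, b] ++ ([c, d] ++ l) := rfl
            rw [this]
            have h' : (c :: d :: a :: b :: l) = [c, d] ++ ([a, b] ++ l) := rfl
            rw [h', ← List.append_assoc, ← List.append_assoc]
            exact List.Perm.append_right _ List.perm_append_comm
          exact p3 _ _ _ _ _
      · intro z hz
        simp only [List.mem_cons, List.mem_append] at hz
        rcases hz with rfl | rfl | rfl | hz | hz
        · exact hyi
        · exact hv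
        · exact hx j
        · exact hA0 z hz
        · exact prF_ne x hx _ z hz
    have e2 : pom (om (q^2 * y)) (v :: (A ++ prF x (s.erase i))) =
        (om (q^2 * y) - om v) * pom (om (q^2 * y)) A * ((om (q^2 * y) - om (x j))^2 *
          ∏ l ∈ r, (om (q^2 * y) - om (x l))^2) := by
      rw [pom_cons, pom_app, pom_prF, ← Finset.mul_prod_erase (s.erase i) _ hj]
      ring
    have e3 : pom (om (q^2 * y)) (y⁻¹ :: v :: x j :: (A ++ prF x r)) =
        (om (q^2 * y) - om y) * ((om (q^2 * y) - om v) * ((om (q^2 * y) - om (x j)) *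
          (pom (om (q^2 * y)) A * ∏ l ∈ r, (om (q^2 * y) - om (x l))^2))) := by
      rw [pom_cons, pom_cons, pom_cons, pom_app, pom_prF, om_inv]
    rw [e1, e2, e3, hom, om_qq, om_q_inv, om_inv, EE_fac (om (x j)) y hy]
    have hd1 : om (q * y) - om (x j) ≠ 0 := sub_ne_zero.mpr (h1 j hjs)
    have hd2 : om y - om (x j) ≠ 0 := sub_ne_zero.mpr (h2 j hj)
    have hd3 : om (x j) - om y ≠ 0 := sub_ne_zero.mpr (h2 j hj).symm
    field_simp
    ring
  rw [t2]
  ring

end Pool.Agent.NH38.Step
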