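import Pool.Agent.NH38.Step.C2

/-!
Step channels (helper38), task C, part 3: the cup relation of the formula.
-/

namespace Pool.Agent.NH38.Step

open Pool.Agent.H988R2.Perc hiding X
open Pool.Agent.H988C Polynomial

variable {ι : Type} (x : ι → ℂ)

theorem zs_star1 (u : ℂ) (l L : List ℂ) (hu : u ≠ 0) (hl : ∀ z ∈ l, z ≠ 0) (h : Even l.length)
    (hL : L.Perm (u :: l)) : zs ((q^2 * u) :: L) = pom (om (q * u)) l * zs l := by
  rw [← zs_rec2 u l hu hl h]
  refine zs_perm ?_ (hL.cons _)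
  rw [List.length_cons, hL.length_eq, List.length_cons]
  exact (h.add_one).add_one

theorem zs_star2 (u : ℂ) (l L : List ℂ) (hu : u ≠ 0) (hl : ∀ z ∈ l, z ≠ 0) (h : Even l.length)
    (hL : L.Perm (u :: l)) : zs ((q^2 * u⁻¹) :: L) = pom (om (q^2 * u)) l * zs l := by
  have hui : u⁻¹ ≠ 0 := inv_ne_zero hu
  have h1 := zs_rec u⁻¹ l hui hl h
  rw [om_q_inv] at h1
  rw [← h1]
  have p1 : ((q^2 * u⁻¹) :: L).Perm (u :: (q^2 * u⁻¹) :: l) :=
    (hL.cons _).trans (List.Perm.swap _ _ _)
  rw [zs_perm _ p1]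
  · refine zs_om _ _ _ hu hui (om_inv u).symm ?_
    rw [List.length_cons]; exact h.add_one
  · rw [List.length_cons, hL.length_eq, List.length_cons]
    exact (h.add_one).add_one

open Classical in
theorem RHS_star (hx : ∀ i, x i ≠ 0) (s : Finset ι) (A : List ℂ) (hA : Even A.length)
    (hA0 : ∀ z ∈ A, z ≠ 0) (u v : ℂ) (hu : u ≠ 0) (hv : v ≠ 0)
    (h1 : ∀ j ∈ s, om (q * u) ≠ om (x j)) (h2 : ∀ j ∈ s, om (q^2 * u) ≠ om (x j)) :
    RHS x (A ++ [u]) (q^2 * u) v s * pom (om (q^2*u)) (A ++ (prF x s ++ [v])) =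
      RHS x (A ++ [u]) (q^2 * u⁻¹) v s * pom (om (q*u)) (A ++ (prF x s ++ [v])) := by
  obtain ⟨m, hm⟩ := hA
  have pA : (A ++ [u]).Perm (u :: A) := List.perm_append_comm
  unfold RHS
  rw [zs_star1 u A _ hu hA0 ⟨m, hm⟩ pA, zs_star2 u A _ hu hA0 ⟨m, hm⟩ pA]
  rw [om_q2q2, om_q2q2, om_q_inv, om_q2_inv]
  simp only [om_qq2, om_inv]
  have hP : ∀ a, pom a (A ++ (prF x s ++ [v])) = pom a A * (∏ j ∈ s, (a - om (x j))^2) *
      (a - om v) := by
    intro a
    rw [pom_app, pom_app, pom_prF, pom_cons, pom_nil]; ring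
  rw [hP, hP]
  refine (sub_mul _ _ _).trans ((congrArg₂ (fun a b : ℂ => a - b) ?_ ?_).trans (sub_mul _ _ _).symm)
  · -- first term
    have e : (∏ j ∈ s, EE (om (q^2 * u)) (om (x j)) / (om (q^2 * u) - om (x j))) *
        (∏ j ∈ s, (om (q^2 * u) - om (x j))^2) =
        (∏ j ∈ s, EE (om (q * u)) (om (x j)) / (om (q * u) - om (x j))) *
        (∏ j ∈ s, (om (q * u) - om (x j))^2) := by
      rw [← Finset.prod_mul_distrib, ← Finset.prod_mul_distrib]
      refine Finset.prod_congr rfl fun j hj => ?_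
      have hd1 : om (q * u) - om (x j) ≠ 0 := sub_ne_zero.mpr (h1 j hj)
      have hd2 : om (q^2 * u) - om (x j) ≠ 0 := sub_ne_zero.mpr (h2 j hj)
      rw [EE_comm (om (q^2 * u)), EE_comm (om (q * u)),
        EE_fac _ (q^2 * u) (mul_ne_zero (pow_ne_zero 2 q_ne_zero) hu),
        EE_fac _ (q * u) (mul_ne_zero q_ne_zero hu), om_qq2, om_q2q2, om_qq, om_q2q]
      field_simp
      ring
    linear_combination ((om v - om (q * u)) * pom (om (q * u)) A * zs A *
      zs (v :: (A ++ [u] ++ prF x s)) * pom (om (q^2 * u)) A * (om (q^2 * u) - om v)) * e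
  · rw [Finset.sum_mul, Finset.sum_mul]
    refine Finset.sum_congr rfl fun i hi => ?_
    set r := s.erase i with hr
    have hlen : (v :: x i :: (A ++ prF x r)).length = 2 * (m + r.card + 1) := by
      simp only [List.length_cons]
      rw [List.length_append, prF_length, hm]; omega
    have hne : ∀ z ∈ (v :: x i :: (A ++ prF x r)), z ≠ 0 := by
      intro z hz
      simp only [List.mem_cons, List.mem_append] at hz
      rcases hz with rfl | rfl | hz | hz
      · exact hv
      · exact hx i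
      · exact hA0 z hz
      · exact prF_ne x hx _ z hz
    have pL : (v :: x i :: (A ++ [u] ++ prF x r)).Perm (u :: v :: x i :: (A ++ prF x r)) := by
      have p1 : (A ++ [u] ++ prF x r).Perm (u :: (A ++ prF x r)) := by
        rw [List.append_assoc, List.singleton_append]
        exact List.perm_middle
      refine ((p1.cons _).cons _).trans ?_
      exact ((List.Perm.swap _ _ _).cons _).trans (List.Perm.swap _ _ _)
    have hev : Even (v :: x i :: (A ++ prF x r)).length := by rw [hlen]; exact even_two_mul _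
    rw [zs_star1 u _ _ hu hne hev pL, zs_star2 u _ _ hu hne hev pL]
    have hQ : ∀ a, pom a (v :: x i :: (A ++ prF x r)) = (a - om v) * ((a - om (x i)) *
        (pom a A * ∏ j ∈ r, (a - om (x j))^2)) := by
      intro a
      rw [pom_cons, pom_cons, pom_app, pom_prF]
    rw [hQ, hQ, ← Finset.mul_prod_erase s _ hi, ← Finset.mul_prod_erase s _ hi, ← hr]
    have hd1 : om (q * u) - om (x i) ≠ 0 := sub_ne_zero.mpr (h1 i hi)
    have hd2 : om (q^2 * u) - om (x i) ≠ 0 := sub_ne_zero.mpr (h2 i hi)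
    generalize zs (v :: x i :: (A ++ prF x r)) = Z1
    generalize zs (x i :: (A ++ [u])) = Z2
    generalize (∏ j ∈ r, EE (om (x i)) (om (x j)) / (om (x i) - om (x j))) = E1
    generalize (∏ j ∈ r, (om (q * u) - om (x j))^2) = P1
    generalize (∏ j ∈ r, (om (q^2 * u) - om (x j))^2) = P2
    generalize pom (om (q * u)) A = R1
    generalize pom (om (q^2 * u)) A = R2
    generalize EE (om (x i)) (om (x i)) = E2
    have k0 : ∀ d : ℂ, d ≠ 0 → d⁻¹ * d^2 = d := by
      intro d hd
      rw [sq, ← mul_assoc, inv_mul_cancel₀ hd, one_mul]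
    have k1 := k0 _ hd1
    have k2 := k0 _ hd2
    rw [div_eq_mul_inv, div_eq_mul_inv]
    linear_combination ((om u + om (x i) + om v) * E2 * E1 * Z2 * Z1 * (om (q * u) - om v) *
      (om (q^2 * u) - om v) * R1 * P1 * R2 * P2) * ((om (q * u) - om (x i)) * k2 -
        (om (q^2 * u) - om (x i)) * k1)

end Pool.Agent.NH38.Step
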