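import Pool.Agent.NH38.Step.C7

/-!
Step channels (helper38), task C, part 8: the special point.
-/

namespace Pool.Agent.NH38.Step

open Pool.Agent.H988R2.Perc hiding X
open Pool.Agent.H988C Polynomial Filter Topology

variable {ι : Type} (x : ι → ℂ)

/-! ### absolute values -/

theorem nq : ‖q‖ = 1 := by
  have h : ‖q‖^3 = 1 := by rw [← norm_pow, q_cube, norm_one]
  exact (pow_eq_one_iff_of_nonneg (norm_nonneg _) (by norm_num)).mp h

theorem nq2 : ‖q^2‖ = 1 := by rw [norm_pow, nq, one_pow]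

/-- the special point: `r, q²r, r², q²r², …` -/
noncomputable def sp (r : ℝ) (i : ℕ) : ℂ := if Even i then (r:ℂ)^(i/2+1) else q^2 * (r:ℂ)^(i/2+1)

theorem sp_norm (r : ℝ) (hr : 1 < r) (i : ℕ) : ‖sp r i‖ = r^(i/2+1) := by
  have h : ‖(r:ℂ)‖ = r := by
    rw [Complex.norm_real, Real.norm_of_nonneg (by linarith)]
  unfold sp
  split_ifs
  · rw [norm_pow, h]
  · rw [norm_mul, nq2, norm_pow, h, one_mul]

theorem sp_ne (r : ℝ) (hr : 1 < r) (i : ℕ) : sp r i ≠ 0 := by
  rw [← norm_pos_iff, sp_norm r hr]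
  exact pow_pos (by linarith) _

theorem pow_lt1 (r : ℝ) (hr : 1 < r) (i : ℕ) : r ≤ r^(i+1) := by
  calc r = r^1 := (pow_one r).symm
    _ ≤ r^(i+1) := pow_le_pow_right₀ hr.le (by omega)

theorem sp_ge (r : ℝ) (hr : 1 < r) (i : ℕ) : r ≤ ‖sp r i‖ := by
  rw [sp_norm r hr]; exact pow_lt1 r hr _

/-- radius condition -/
def Rad (r : ℝ) (s : Finset ι) : Prop := 1 < r ∧ ∀ j ∈ s, ‖x j‖ < r ∧ ‖(x j)⁻¹‖ < r

theorem rad_exists (s : Finset ι) : ∃ r, Rad x r s := by
  classical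
  induction s using Finset.induction_on with
  | empty => exact ⟨2, by norm_num, by simp⟩
  | insert i s hi ih =>
    obtain ⟨r, hr, h⟩ := ih
    refine ⟨max r (max (‖x i‖ + 1) (‖(x i)⁻¹‖ + 1)), lt_of_lt_of_le hr (le_max_left _ _), ?_⟩
    intro j hj
    rcases Finset.mem_insert.mp hj with rfl | hj
    · constructor
      · refine lt_of_lt_of_le (lt_add_one _) ((le_max_left _ _).trans (le_max_right _ _))
      · refine lt_of_lt_of_le (lt_add_one _) ((le_max_right _ _).trans (le_max_right _ _))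
    · exact ⟨lt_of_lt_of_le (h j hj).1 (le_max_left _ _), lt_of_lt_of_le (h j hj).2 (le_max_left _ _)⟩

variable {x}

/-- large numbers have another `ω` -/
theorem om_ne_large {r : ℝ} {s : Finset ι} (hR : Rad x r s) (hx : ∀ i, x i ≠ 0) {j : ι}
    (hj : j ∈ s) (w : ℂ) (hw : r ≤ ‖w‖) : om w ≠ om (x j) := by
  obtain ⟨hr, h⟩ := hR
  have hw0 : w ≠ 0 := by rw [← norm_pos_iff]; linarith
  intro he
  rcases (om_eq_iff hw0 (hx j)).mp he with h1 | h1
  · rw [h1] at hw; linarith [(h j hj).1]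
  · have : w = (x j)⁻¹ := eq_inv_of_mul_eq_one_left h1
    rw [this] at hw; linarith [(h j hj).2]

theorem om_ne_small {r : ℝ} {s : Finset ι} (hR : Rad x r s) (hx : ∀ i, x i ≠ 0) {j : ι}
    (hj : j ∈ s) (w : ℂ) (hw0 : w ≠ 0) (hw : r ≤ ‖w⁻¹‖) : om w ≠ om (x j) := by
  rw [← om_inv]
  exact om_ne_large hR hx hj _ hw

theorem PJ_ne {w : ℂ} {s : Finset ι} (hw : w ≠ 0) (h : ∀ j ∈ s, om w ≠ om (x j)) :
    PJ x w s ≠ 0 := by
  classical
  rw [PJ_eq x w s hw]
  exact mul_ne_zero (pow_ne_zero _ hw)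
    (Finset.prod_ne_zero_iff.mpr fun j hj => sub_ne_zero.mpr (h j hj))

theorem fac_ne' (z : ℂ) (m : List ℂ) (h : ∀ y ∈ m, z ≠ q^2 * y ∧ z * y ≠ q^2) : fac z m ≠ 0 := by
  unfold fac
  apply List.prod_ne_zero
  intro h0
  rw [List.mem_map] at h0
  obtain ⟨y, hy, hy0⟩ := h0
  rcases mul_eq_zero.mp hy0 with h1 | h1
  · exact (h y hy).1 (sub_eq_zero.mp h1)
  · exact (h y hy).2 (sub_eq_zero.mp h1)

theorem fac_eq_zero (z : ℂ) (m : List ℂ) (y : ℂ) (hy : y ∈ m) (h : z = q^2 * y ∨ z * y = q^2) :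
    fac z m = 0 := by
  unfold fac
  apply List.prod_eq_zero
  rw [List.mem_map]
  refine ⟨y, hy, ?_⟩
  rcases h with h | h
  · rw [sub_eq_zero.mpr h, zero_mul]
  · rw [sub_eq_zero.mpr h, mul_zero]

/-! ### continuity -/

theorem fac_cont (L : List ℂ[X]) (u : ℂ → ℂ) (t₁ : ℂ) (hu : ContinuousAt u t₁) :
    ContinuousAt (fun t => fac (u t) (ev L t)) t₁ := by
  induction L with
  | nil => simp only [ev, List.map_nil, fac_nil']; exact continuousAt_const
  | cons p L ih =>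
    have : (fun t => fac (u t) (ev (p :: L) t)) = fun t =>
        ((u t - q^2 * p.eval t) * (u t * p.eval t - q^2)) * fac (u t) (ev L t) := by
      funext t
      simp only [ev, List.map_cons, fac_cons']
    rw [this]
    have hp : ContinuousAt (fun t => p.eval t) t₁ := p.continuous.continuousAt
    exact (((hu.sub (continuousAt_const.mul hp))).mul ((hu.mul hp).sub continuousAt_const)).mul ih

theorem PJ_cont (s : Finset ι) (u : ℂ → ℂ) (t₁ : ℂ) (hu : ContinuousAt u t₁) :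
    ContinuousAt (fun t => PJ x (u t) s) t₁ := by
  classical
  unfold PJ
  refine tendsto_finsetProd _ fun j _ => ?_
  exact ((hu.pow 2).add continuousAt_const).sub (hu.mul continuousAt_const)

/-! ### generic position -/

theorem pow6_eq {a b c : ℂ} (hc : c^6 = 1) (h : a = c * b) : a^6 = b^6 := by
  rw [h, mul_pow, hc, one_mul]

theorem q6 : q^6 = 1 := by
  have : q^6 = (q^3)^2 := by ring
  rw [this, q_cube, one_pow]

theorem q26 : (q^2)^6 = 1 := by
  rw [← pow_mul, mul_comm, pow_mul, q6, one_pow]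

theorem Gen.om_ne (hg : Gen x) {i j : ι} (hij : i ≠ j) (y c : ℂ) (hc : c^6 = 1) (hc0 : c ≠ 0)
    (hy : y ≠ 0) (hom : om (x i) = om y) : om (c * y) ≠ om (x j) := by
  obtain ⟨h1, h2⟩ := hg
  intro he
  have hcy : c * y ≠ 0 := mul_ne_zero hc0 hy
  have k1 := (om_eq_iff (h1 i).1 hy).mp hom
  have k2 := (om_eq_iff hcy (h1 j).1).mp he
  have e1 : (c * y)^6 = y^6 := by rw [mul_pow, hc, one_mul]
  have e2 : (x i)^6 = y^6 ∨ (x i)^6 * y^6 = 1 := by
    rcases k1 with h | h
    · left; rw [h]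
    · right; rw [← mul_pow, h, one_pow]
  have e3 : y^6 = (x j)^6 ∨ y^6 * (x j)^6 = 1 := by
    rcases k2 with h | h
    · left; rw [← e1, h]
    · right; rw [← e1, ← mul_pow, h, one_pow]
  have hy6 : y^6 ≠ 0 := pow_ne_zero _ hy
  obtain ⟨h3, h4⟩ := h2 i j hij
  rw [mul_pow] at h4
  rcases e2 with h | h <;> rcases e3 with h' | h'
  · exact h3 (h.trans h')
  · exact h4 (by rw [h]; exact h')
  · exact h4 (by rw [← h']; exact h)
  · apply h3
    have : (x i)^6 * y^6 = (x j)^6 * y^6 := by rw [h, mul_comm, h']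
    exact mul_right_cancel₀ hy6 this

theorem Gen.om_ne_self (hg : Gen x) {i : ι} (y : ℂ) (hy : y ≠ 0) (hom : om (x i) = om y) :
    om (q * y) ≠ om (x i) := by
  obtain ⟨h1, _⟩ := hg
  rw [hom]
  intro he
  have hqy : q * y ≠ 0 := mul_ne_zero q_ne_zero hy
  have hy6 : y^6 ≠ 1 := by
    rcases (om_eq_iff (h1 i).1 hy).mp hom with h | h
    · rw [← h]; exact (h1 i).2
    · intro h6
      apply (h1 i).2
      have : (x i)^6 * y^6 = 1 := by rw [← mul_pow, h, one_pow]
      rw [h6, mul_one] at this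
      exact this
  rcases (om_eq_iff hqy hy).mp he with h | h
  · apply q_ne_one
    have : q * y = 1 * y := by rw [h, one_mul]
    exact mul_right_cancel₀ hy this
  · apply hy6
    have h' : (q * y * y)^3 = 1 := by rw [h, one_pow]
    have h3 := q_cube
    linear_combination h' - y^6 * h3

end Pool.Agent.NH38.Step
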