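import Pool.Agent.NH38.Step.C5

/-!
Step channels (helper38), task C, part 6: the difference as a polynomial in `w`.
-/

namespace Pool.Agent.NH38.Step

open Pool.Agent.H988R2.Perc hiding X
open Pool.Agent.H988C Polynomial

variable {ι : Type} (x : ι → ℂ)

theorem refl_coeff (P : ℂ[X]) (N : ℕ) (h1 : P.natDegree ≤ N)
    (h2 : ∀ w : ℂ, w ≠ 0 → P.eval w = w^N * P.eval w⁻¹) : P.coeff N = P.coeff 0 := by
  have h3 : P.reflect N = P := by
    apply Polynomial.eq_of_infinite_eval_eq
    refine Set.Infinite.mono (s := {w : ℂ | w ≠ 0}) ?_ ?_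
    · intro w hw
      have hw' : w ≠ 0 := hw
      show (P.reflect N).eval w = P.eval w
      let _ : Invertible (w⁻¹) := invertibleOfNonzero (inv_ne_zero hw')
      have h4 := Polynomial.eval₂_reflect_mul_pow (RingHom.id ℂ) (w⁻¹) N P h1
      simp only [Polynomial.eval₂_id, invOf_eq_inv, inv_inv] at h4
      have h6 := h2 w hw'
      rw [h6, ← h4, mul_comm, mul_assoc, ← mul_pow, inv_mul_cancel₀ hw', one_pow, mul_one]
    · exact (Set.finite_singleton (0:ℂ)).infinite_compl
  conv_lhs => rw [← h3]
  rw [Polynomial.coeff_reflect, Polynomial.revAt_le le_rfl, Nat.sub_self]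

theorem Z_inv_all : ∀ (A R : List ℂ), (∀ z ∈ A, z ≠ 0) → Even (A.length + R.length) →
    Z (A ++ R) = A.prod^(A.length + R.length - 2) * Z (A.map (fun x => x⁻¹) ++ R) := by
  intro A
  induction A with
  | nil => intro R _ _; simp
  | cons a A ih =>
    intro R hA hev
    have ha : a ≠ 0 := hA a (by simp)
    have hlen : (A ++ R).length + 1 = (a :: A).length + R.length := by
      simp only [List.length_append, List.length_cons]; omega
    have hodd : Odd (A ++ R).length := by
      rcases Nat.even_or_odd (A ++ R).length with h | h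
      · exfalso
        have := h.add_one
        rw [hlen] at this
        exact (Nat.not_even_iff_odd.mpr this) hev
      · exact h
    have e1 : Z (a :: A ++ R) = a^((A ++ R).length - 1) * Z (a⁻¹ :: (A ++ R)) := Z_inv a _ ha hodd
    have p1 : (a⁻¹ :: (A ++ R)).Perm (A ++ a⁻¹ :: R) := List.perm_middle.symm
    have hev1 : Even (a⁻¹ :: (A ++ R)).length := by
      rw [List.length_cons]; exact hodd.add_one
    have e2 := ih (a⁻¹ :: R) (fun z hz => hA z (by simp [hz])) (by
      rw [← List.length_append, ← p1.length_eq]; exact hev1)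
    have p2 : (A.map (fun x => x⁻¹) ++ a⁻¹ :: R).Perm ((a :: A).map (fun x => x⁻¹) ++ R) := by
      rw [List.map_cons, List.cons_append]
      exact List.perm_middle
    have hev2 : Even (A.map (fun x => x⁻¹) ++ a⁻¹ :: R).length := by
      rw [List.length_append, List.length_map, ← List.length_append, ← p1.length_eq]; exact hev1
    rw [e1, Z_perm hev1 p1, e2, Z_perm hev2 p2, List.prod_cons, mul_pow]
    have n1 : (A ++ R).length - 1 = (a :: A).length + R.length - 2 := by omega
    have n2 : A.length + (a⁻¹ :: R).length - 2 = (a :: A).length + R.length - 2 := by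
      simp only [List.length_cons]; omega
    rw [n1, n2]
    ring

theorem fac_zero_left : ∀ l : List ℂ, fac 0 l = q^l.length * l.prod := by
  intro l
  induction l with
  | nil => simp [fac]
  | cons y l ih =>
    rw [fac_cons', ih, List.length_cons, List.prod_cons]
    have h4 := q4
    linear_combination (q^l.length * l.prod * y) * h4

theorem TQ_zero (A L : List ℂ) (ha : Odd A.length) (hA0 : ∀ z ∈ A, z ≠ 0) (hL : L.prod = 1)
    (k : ℕ) (hk : L.length = 2 * k) (v : ℂ) :
    A.prod^(A.length - 1) * TQ A 0 L v =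
      kap A k * A.prod * (v * Z (0 :: A) * Z (v :: (A ++ L))) := by
  obtain ⟨m, hm⟩ := ha
  unfold TQ
  have hl1 : (A ++ 0 :: (L ++ [v, 0])).length = 2 * (m + k + 2) := by
    simp only [List.length_cons, List.length_append, List.length_nil]; omega
  have p1 : (A ++ 0 :: (L ++ [v, 0])).Perm (0 :: (q^2 * 0) :: (v :: (A ++ L))) := by
    rw [mul_zero]
    refine List.perm_middle.trans (List.Perm.cons _ ?_)
    have e : A ++ (L ++ [v, 0]) = (A ++ L) ++ [v, 0] := by rw [List.append_assoc]
    rw [e]
    refine List.perm_append_comm.trans ?_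
    exact List.Perm.swap _ _ _
  have e1 : Z (A ++ 0 :: (L ++ [v, 0])) = kap A k * A.prod * v * Z (v :: (A ++ L)) := by
    rw [Z_perm (by rw [hl1]; exact even_two_mul _) p1]
    have h := Z_rec [] (v :: (A ++ L)) 0 (by
      simp only [List.length_cons, List.length_append, List.length_nil]
      exact ⟨m + k + 1, by omega⟩)
    simp only [List.nil_append] at h
    rw [h, fac_zero_left]
    simp only [List.length_cons, List.length_append, List.prod_cons, List.prod_append]
    rw [hL, hk]
    unfold kap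
    ring
  have e2 : A.prod^(A.length - 1) * Z (A.map (fun x => x⁻¹) ++ [0]) = Z (0 :: A) := by
    have h := Z_inv_all A [0] hA0 (by simp only [List.length_cons, List.length_nil]; exact ⟨m + 1, by omega⟩)
    have n1 : A.length + [(0:ℂ)].length - 2 = A.length - 1 := by simp
    rw [n1] at h
    rw [← h]
    refine Z_perm ?_ ?_
    · simp only [List.length_append, List.length_cons, List.length_nil]; exact ⟨m + 1, by omega⟩
    · exact List.perm_append_comm
  rw [e1]
  linear_combination (kap A k * A.prod * v * Z (v :: (A ++ L))) * e2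

theorem TQ_refl (A L : List ℂ) (ha : Odd A.length) (k : ℕ) (hk : L.length = 2 * k) (v w : ℂ)
    (hw : w ≠ 0) : TQ A w L v = w^(A.length + L.length + 1) * TQ A w⁻¹ L v := by
  obtain ⟨m, hm⟩ := ha
  unfold TQ
  have hl1 : ∀ z : ℂ, (A ++ z :: (L ++ [v, 0])).length = 2 * (m + k + 2) := by
    intro z
    simp only [List.length_cons, List.length_append, List.length_nil]; omega
  have p : ∀ z : ℂ, (A ++ z :: (L ++ [v, 0])).Perm (z :: (A ++ (L ++ [v, 0]))) :=
    fun z => List.perm_middle
  have hlo : (A ++ (L ++ [v, 0])).length = 2 * (m + k + 1) + 1 := by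
    simp only [List.length_cons, List.length_append, List.length_nil]; omega
  rw [Z_perm (by rw [hl1]; exact even_two_mul _) (p w),
    Z_perm (by rw [hl1]; exact even_two_mul _) (p w⁻¹), Z_inv w _ hw ⟨_, hlo⟩]
  have : (A ++ (L ++ [v, 0])).length - 1 = A.length + L.length + 1 := by
    rw [hlo]; omega
  rw [this]
  ring

theorem Z_top (A : List ℂ) (ha : Odd A.length) (P : ℂ[X]) (h1 : P.natDegree ≤ A.length - 1)
    (h2 : ∀ w, Z (w :: A) = P.eval w) : P.coeff (A.length - 1) = Z (0 :: A) := by
  rw [refl_coeff P _ h1, Polynomial.coeff_zero_eq_eval_zero, ← h2]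
  intro w hw
  rw [← h2, ← h2]
  exact Z_inv w A hw ha

open Classical in
/-- `∏ (w² + 1 - w ω_j)` -/
noncomputable def PJ (w : ℂ) (s : Finset ι) : ℂ := ∏ j ∈ s, (w^2 + 1 - w * om (x j))

open Classical in
theorem PJ_eq (w : ℂ) (s : Finset ι) (hw : w ≠ 0) :
    PJ x w s = w^s.card * ∏ j ∈ s, (om w - om (x j)) := by
  unfold PJ
  rw [← Finset.prod_const, ← Finset.prod_mul_distrib]
  refine Finset.prod_congr rfl fun j _ => ?_
  unfold om
  field_simp

open Classical in
theorem f_exists (h1 : S_D1) (h1T : S_D1T) (h8 : S_D8) (h9 : S_D9) (hx : ∀ i, x i ≠ 0)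
    (s : Finset ι) (A : List ℂ) (ha : Odd A.length) (hA0 : ∀ z ∈ A, z ≠ 0) (v : ℂ) (hv : v ≠ 0) :
    ∃ f : ℂ[X], f.natDegree ≤ A.length + 4 * s.card + 1 ∧ f.coeff 0 = 0 ∧
      f.coeff (A.length + 4 * s.card + 1) = 0 ∧
      ∀ w, f.eval w = A.prod^(A.length - 1) * (PJ x w s * (TQ A w (prF x s) v -
        GQ A ha w (prF x s) v)) - kap A s.card * A.prod * GG x A w v s := by
  obtain ⟨m, hm⟩ := ha
  have ha : Odd A.length := ⟨m, hm⟩
  obtain ⟨gP, gd, hg⟩ := h1 A (prF x s) ha (prF_even x s) v
  obtain ⟨tP, td, ht⟩ := h1T A (prF x s) ha (prF_even x s) v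
  have h9' := h9 A (prF x s) ha (prF_even x s) v gP tP gd td hg ht
  have h8' := h8 A (prF x s) ha (prF_even x s) v (prF_ne x hx s) hv
  have hE0 := TQ_zero A (prF x s) ha hA0 (prF_prod x hx s) s.card (prF_length x s) v
  set k := s.card with hk
  have hN : A.length + (prF x s).length + 1 = 2 * m + 2 + 2 * k := by
    rw [prF_length, hm]; omega
  -- top coefficient of `TQ`
  have htop : tP.coeff (A.length + (prF x s).length + 1) = TQ A 0 (prF x s) v := by
    rw [refl_coeff tP _ td, Polynomial.coeff_zero_eq_eval_zero, ← ht]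
    intro w hw
    rw [← ht, ← ht]
    exact TQ_refl A (prF x s) ha k (prF_length x s) v w hw
  -- `Z (w :: A)`
  obtain ⟨zP, zd, hz⟩ := (Z_pd (A.length + 1) ha.add_one).univ [] A (by simp)
  have zd' : zP.natDegree ≤ A.length - 1 := by
    have : A.length + 1 - 2 = A.length - 1 := by omega
    rw [this] at zd; exact zd
  have hz' : ∀ w, Z (w :: A) = zP.eval w := fun w => hz w
  have ztop := Z_top A ha zP zd' hz'
  -- the other terms
  have hy : ∀ i ∈ s, ∃ yP : ℂ[X], yP.natDegree ≤ 2 * m + 2 * k ∧
      ∀ w, Z (w :: v :: x i :: (A ++ prF x (s.erase i))) = yP.eval w := by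
    intro i hi
    have hl : (v :: x i :: (A ++ prF x (s.erase i))).length = 2 * m + 2 * k + 1 := by
      have hc := Finset.card_erase_add_one hi
      simp only [List.length_cons, List.length_append, prF_length]; omega
    obtain ⟨yP, yd, hy⟩ := (Z_pd (2 * m + 2 * k + 2) ⟨m + k + 1, by ring⟩).univ []
      (v :: x i :: (A ++ prF x (s.erase i))) (by simp only [List.length_nil]; rw [hl]; ring)
    refine ⟨yP, ?_, fun w => hy w⟩
    simpa using yd
  choose! yP yd hyP using hy
  -- the polynomials
  let P1 : ℂ[X] := C (v^2 + 1) * X - C (q^2 * v) * X^2 - C (q * v)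
  let P2 : ℂ[X] := ∏ j ∈ s, ((X^2+1)^2 + (X^2+1) * X * C (om (x j)) + X^2 * C ((om (x j))^2 - 3))
  let PJp : ℂ[X] := ∏ j ∈ s, (X^2 + 1 - X * C (om (x j)))
  let cc : ι → ℂ := fun i => EE (om (x i)) (om (x i)) *
      (∏ j ∈ s.erase i, EE (om (x i)) (om (x j)) / (om (x i) - om (x j))) *
      ((x i)^(A.length - 1 + s.card))⁻¹ * Z (x i :: A)
  let P3 : ι → ℂ[X] := fun i => (X * (C (q * v) * X^2 + C (q^2 * v) + C (v * om (x i)) * X +
    C (v^2 + 1) * X)) * (∏ j ∈ s.erase i, (X^2 + 1 - X * C (om (x j)))) * C (cc i) * yP i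
  let GP : ℂ[X] := P1 * P2 * zP * C (Z (v :: (A ++ prF x s))) - ∑ i ∈ s, P3 i
  let f : ℂ[X] := C (A.prod^(A.length - 1)) * (PJp * (tP - gP)) - C (kap A k * A.prod) * GP
  have hPJ : ∀ w, PJp.eval w = PJ x w s := by
    intro w
    simp only [PJp, PJ, Polynomial.eval_prod]
    refine Finset.prod_congr rfl fun j _ => ?_
    simp only [Polynomial.eval_sub, Polynomial.eval_add, Polynomial.eval_mul, Polynomial.eval_C,
      Polynomial.eval_X, Polynomial.eval_pow, Polynomial.eval_one]
  have hGP : ∀ w, GP.eval w = GG x A w v s := by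
    intro w
    simp only [GP, GG, Polynomial.eval_sub, Polynomial.eval_mul, Polynomial.eval_C,
      Polynomial.eval_finsetSum]
    congr 1
    · rw [← hz' w]
      congr 2
      congr 1
      · simp only [P1, Polynomial.eval_sub, Polynomial.eval_mul, Polynomial.eval_C,
          Polynomial.eval_X, Polynomial.eval_pow]; ring
      · simp only [P2, Polynomial.eval_prod]
        refine Finset.prod_congr rfl fun j _ => by simp
    · refine Finset.sum_congr rfl fun i hi => ?_
      simp only [P3, Polynomial.eval_mul, Polynomial.eval_add, Polynomial.eval_X,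
        Polynomial.eval_C, Polynomial.eval_pow, Polynomial.eval_prod, Polynomial.eval_sub,
        Polynomial.eval_one]
      rw [← hyP i hi w]
      simp only [cc]
      ring
  have hf : ∀ w, f.eval w = A.prod^(A.length - 1) * (PJ x w s * (TQ A w (prF x s) v -
        GQ A ha w (prF x s) v)) - kap A k * A.prod * GG x A w v s := by
    intro w
    simp only [f, Polynomial.eval_sub, Polynomial.eval_mul, Polynomial.eval_C]
    rw [hPJ, hGP, ← hg, ← ht]
  -- degrees
  have d1 : P1.natDegree ≤ 2 := by
    simp only [P1]; compute_degree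
  have d2 : P2.natDegree ≤ k * 4 := by
    refine (Polynomial.natDegree_prod_le _ _).trans ?_
    refine (Finset.sum_le_card_nsmul _ _ 4 ?_).trans (by rw [smul_eq_mul])
    intro j _
    compute_degree
  have dJ : ∀ r : Finset ι, (∏ j ∈ r, (X^2 + 1 - X * C (om (x j))) : ℂ[X]).natDegree ≤ r.card * 2 := by
    intro r
    refine (Polynomial.natDegree_prod_le _ _).trans ?_
    refine (Finset.sum_le_card_nsmul _ _ 2 ?_).trans (by rw [smul_eq_mul])
    intro j _
    compute_degree
  have c2 : P2.coeff (k * 4) = 1 := by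
    simp only [P2]
    rw [hk, Polynomial.coeff_prod_of_natDegree_le]
    · refine Finset.prod_eq_one fun j _ => ?_
      have : ((X^2+1)^2 + (X^2+1) * X * C (om (x j)) + X^2 * C ((om (x j))^2 - 3) : ℂ[X]) =
        X^4 + C (om (x j)) * X^3 + C (2 + (om (x j))^2 - 3) * X^2 + C (om (x j)) * X + 1 := by
        simp only [map_sub, map_add, map_pow]
        have : (C (2:ℂ)) = (2 : ℂ[X]) := rfl
        rw [this]
        ring
      rw [this]
      simp only [Polynomial.coeff_add, Polynomial.coeff_C_mul, Polynomial.coeff_X_pow,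
        Polynomial.coeff_X, Polynomial.coeff_one]
      norm_num
    · intro j _
      compute_degree
  have cJ : PJp.coeff (k * 2) = 1 := by
    simp only [PJp]
    rw [hk, Polynomial.coeff_prod_of_natDegree_le]
    · refine Finset.prod_eq_one fun j _ => ?_
      simp [Polynomial.coeff_X, Polynomial.coeff_one, Polynomial.coeff_X_pow]
    · intro j _
      compute_degree
  have c1 : P1.coeff 2 = -(q^2 * v) := by
    simp only [P1]
    simp only [Polynomial.coeff_sub, Polynomial.coeff_C_mul, Polynomial.coeff_X_pow,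
      Polynomial.coeff_X, Polynomial.coeff_C]
    norm_num
  have n1 : A.length + 4 * k + 1 = 2 * m + 4 * k + 2 := by omega
  have nz : A.length - 1 = 2 * m := by omega
  rw [nz] at zd' ztop
  have dP3 : ∀ i ∈ s, (P3 i).natDegree ≤ 2 * m + 4 * k + 1 := by
    intro i hi
    have hc := Finset.card_erase_add_one hi
    simp only [P3]
    have e1 : (X * (C (q * v) * X^2 + C (q^2 * v) + C (v * om (x i)) * X +
      C (v^2 + 1) * X) : ℂ[X]).natDegree ≤ 3 := by compute_degree
    have e2 := dJ (s.erase i)
    have e3 := yd i hi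
    have e4 := Polynomial.natDegree_mul_le_of_le (Polynomial.natDegree_mul_le_of_le
      (Polynomial.natDegree_mul_le_of_le e1 e2) (Polynomial.natDegree_C (cc i)).le) e3
    refine e4.trans ?_
    omega
  have dS : (∑ i ∈ s, P3 i).natDegree ≤ 2 * m + 4 * k + 1 :=
    Polynomial.natDegree_sum_le_of_forall_le _ _ dP3
  have dmain : (P1 * P2 * zP).natDegree ≤ 2 + k * 4 + 2 * m :=
    Polynomial.natDegree_mul_le_of_le (Polynomial.natDegree_mul_le_of_le d1 d2) zd'
  have dGP : GP.natDegree ≤ 2 * m + 4 * k + 2 := by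
    simp only [GP]
    refine (Polynomial.natDegree_sub_le _ _).trans (max_le ?_ (dS.trans (by omega)))
    refine (Polynomial.natDegree_mul_le_of_le dmain (Polynomial.natDegree_C _).le).trans ?_
    omega
  have cGP : GP.coeff (2 * m + 4 * k + 2) = -(q^2 * v) * Z (0 :: A) * Z (v :: (A ++ prF x s)) := by
    simp only [GP]
    rw [Polynomial.coeff_sub, Polynomial.coeff_mul_C,
      Polynomial.coeff_eq_zero_of_natDegree_lt (lt_of_le_of_lt dS (by omega)), sub_zero]
    have e : 2 * m + 4 * k + 2 = (2 + k * 4) + 2 * m := by ring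
    rw [e, Polynomial.coeff_mul_add_eq_of_natDegree_le (Polynomial.natDegree_mul_le_of_le d1 d2) zd',
      Polynomial.coeff_mul_add_eq_of_natDegree_le d1 d2, c1, c2, ztop]
    ring
  have dTG : (tP - gP).natDegree ≤ 2 * m + 2 + 2 * k := by
    refine (Polynomial.natDegree_sub_le _ _).trans (max_le ?_ ?_)
    · rw [← hN]; exact td
    · rw [← hN]; exact gd
  have dJ' : PJp.natDegree ≤ k * 2 := dJ s
  have cTG : (tP - gP).coeff (2 * m + 2 + 2 * k) = (1 + q) * TQ A 0 (prF x s) v := by
    rw [Polynomial.coeff_sub, ← hN, h9', htop]; ring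
  refine ⟨f, ?_, ?_, ?_, hf⟩
  · rw [n1]
    simp only [f]
    refine (Polynomial.natDegree_sub_le _ _).trans (max_le ?_ ?_)
    · refine (Polynomial.natDegree_C_mul_le _ _).trans ?_
      refine (Polynomial.natDegree_mul_le_of_le dJ' dTG).trans ?_
      omega
    · exact (Polynomial.natDegree_C_mul_le _ _).trans dGP
  · rw [Polynomial.coeff_zero_eq_eval_zero, hf, h8']
    have e1 : PJ x 0 s = 1 := by
      unfold PJ
      refine Finset.prod_eq_one fun j _ => ?_
      simp
    have e2 : GG x A 0 v s = -(q * v) * Z (0 :: A) * Z (v :: (A ++ prF x s)) := by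
      unfold GG
      have e3 : (∏ j ∈ s, (((0:ℂ)^2+1)^2 + ((0:ℂ)^2+1) * 0 * om (x j) +
          (0:ℂ)^2 * ((om (x j))^2 - 3))) = 1 := by
        refine Finset.prod_eq_one fun j _ => ?_
        simp
      rw [e3]
      simp
    rw [e1, e2]
    have h3 := q_spec
    linear_combination (-q) * hE0 + (A.prod^(A.length - 1) * TQ A 0 (prF x s) v) * h3
  · rw [n1]
    simp only [f]
    rw [Polynomial.coeff_sub, Polynomial.coeff_C_mul, Polynomial.coeff_C_mul, cGP]
    have e : 2 * m + 4 * k + 2 = k * 2 + (2 * m + 2 + 2 * k) := by ring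
    rw [e, Polynomial.coeff_mul_add_eq_of_natDegree_le dJ' dTG, cJ, cTG]
    have h3 := q_spec
    linear_combination (-q^2) * hE0 + (A.prod^(A.length - 1) * TQ A 0 (prF x s) v) * h3

end Pool.Agent.NH38.Step
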