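import Pool.Agent.NH38.Step.C8

/-!
Step channels (helper38), task C, part 9: the special point (continued).
-/

namespace Pool.Agent.NH38.Step

open Pool.Agent.H988R2.Perc hiding X
open Pool.Agent.H988C Polynomial Filter Topology

variable {ι : Type} {x : ι → ℂ}

/-- elements of `prF` -/
theorem mem_prF {s : Finset ι} {y : ℂ} (hy : y ∈ prF x s) : ∃ j ∈ s, y = x j ∨ y = (x j)⁻¹ := by
  unfold prF prs at hy
  rw [List.mem_flatMap] at hy
  obtain ⟨a, ha, hy⟩ := hy
  rw [List.mem_map] at ha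
  obtain ⟨j, hj, rfl⟩ := ha
  refine ⟨j, Finset.mem_toList.mp hj, ?_⟩
  simpa using hy

theorem prF_norm {r : ℝ} {s : Finset ι} (hR : Rad x r s) {y : ℂ} (hy : y ∈ prF x s) :
    ‖y‖ < r ∧ ‖y⁻¹‖ < r := by
  obtain ⟨j, hj, h⟩ := mem_prF hy
  rcases h with rfl | rfl
  · exact hR.2 j hj
  · rw [inv_inv]; exact ⟨(hR.2 j hj).2, (hR.2 j hj).1⟩

theorem q_pow4_ne : q^4 ≠ 1 := by
  rw [q4]; exact q_ne_one

theorem sp_half {r : ℝ} (hr : 1 < r) {i l : ℕ} (h : ‖sp r i‖ = ‖sp r l‖) : i / 2 = l / 2 := by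
  rw [sp_norm r hr, sp_norm r hr] at h
  have := pow_right_injective₀ (by linarith) (by linarith) h
  simpa using this

/-- `u ≠ q² y` for two different special values, first of even index -/
theorem sp_even {r : ℝ} (hr : 1 < r) {i l : ℕ} (hi : Even i) (hil : i ≠ l) :
    sp r i ≠ q^2 * sp r l := by
  intro h
  have hn : ‖sp r i‖ = ‖sp r l‖ := by rw [h, norm_mul, nq2, one_mul]
  have h2 := sp_half hr hn
  have hl : ¬ Even l := by
    intro hl
    obtain ⟨a, ha⟩ := hi
    obtain ⟨b, hb⟩ := hl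
    omega
  unfold sp at h
  rw [if_pos hi, if_neg hl, h2, ← mul_assoc, ← pow_add] at h
  have h0 : (r:ℂ)^(l/2+1) ≠ 0 := pow_ne_zero _ (by exact_mod_cast (by linarith : r ≠ 0))
  have h3 : (1 - q^4) * (r:ℂ)^(l/2+1) = 0 := by linear_combination h
  rcases mul_eq_zero.mp h3 with h4 | h4
  · exact q_pow4_ne (sub_eq_zero.mp h4).symm
  · exact h0 h4

theorem sp_prod {r : ℝ} (hr : 1 < r) (i l : ℕ) : sp r i * sp r l ≠ q^2 := by
  intro h
  have hn : ‖sp r i‖ * ‖sp r l‖ = 1 := by rw [← norm_mul, h, nq2]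
  have h1 := sp_ge r hr i
  have h2 := sp_ge r hr l
  nlinarith

/-- the special list, without `i` -/
noncomputable def spr (r : ℝ) (N : ℕ) (i : Fin N) : List ℂ :=
  (Finset.univ.erase i).toList.map (fun l : Fin N => sp r l)

theorem mem_spr {r : ℝ} {N : ℕ} {i : Fin N} {y : ℂ} (hy : y ∈ spr r N i) :
    ∃ l : ℕ, l ≠ i ∧ l < N ∧ y = sp r l := by
  unfold spr at hy
  rw [List.mem_map] at hy
  obtain ⟨l, hl, rfl⟩ := hy
  rw [Finset.mem_toList, Finset.mem_erase] at hl
  exact ⟨l, fun h => hl.1 (Fin.ext h), l.2, rfl⟩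

theorem spr_mem {r : ℝ} {N : ℕ} (i : Fin N) (l : ℕ) (hl : l < N) (h : l ≠ i) :
    sp r l ∈ spr r N i := by
  unfold spr
  rw [List.mem_map]
  refine ⟨⟨l, hl⟩, ?_, rfl⟩
  rw [Finset.mem_toList, Finset.mem_erase]
  exact ⟨fun h' => h (congrArg Fin.val h'), Finset.mem_univ _⟩

/-- the list of the relation at the special point -/
noncomputable def spL (x : ι → ℂ) (r : ℝ) (N : ℕ) (s : Finset ι) (i : Fin N) : List ℂ :=
  spr r N i ++ (prF x s ++ [q^2 * sp r (N-1), 0])

theorem mem_spL {r : ℝ} {N : ℕ} {s : Finset ι} {i : Fin N} {y : ℂ} (hy : y ∈ spL x r N s i) :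
    (∃ l : ℕ, l ≠ i ∧ l < N ∧ y = sp r l) ∨ y ∈ prF x s ∨ y = q^2 * sp r (N-1) ∨ y = 0 := by
  unfold spL at hy
  simp only [List.mem_append, List.mem_cons, List.not_mem_nil, or_false] at hy
  rcases hy with h | h | h | h
  · exact Or.inl (mem_spr h)
  · exact Or.inr (Or.inl h)
  · exact Or.inr (Or.inr (Or.inl h))
  · exact Or.inr (Or.inr (Or.inr h))

theorem even_zero {r : ℝ} (hr : 1 < r) {N : ℕ} (hN : Odd N) (s : Finset ι) (i : Fin N)
    (hi : Even (i:ℕ)) : fac (sp r i)⁻¹ (spL x r N s i) = 0 := by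
  have hu := sp_ne r hr i
  obtain ⟨m, hm⟩ := hN
  obtain ⟨a, ha⟩ := hi
  have hlt := i.2
  refine fac_eq_zero _ _ (q^2 * sp r i) ?_ (Or.inr ?_)
  · unfold spL
    rw [List.mem_append]
    by_cases h : (i:ℕ) = N - 1
    · right
      rw [List.mem_append]; right
      rw [h]; simp
    · left
      have e : q^2 * sp r i = sp r (i+1) := by
        unfold sp
        rw [if_pos ⟨a, ha⟩, if_neg]
        · congr 3; omega
        · rw [Nat.even_add_one, not_not]; exact ⟨a, ha⟩
      rw [e]
      exact spr_mem i _ (by omega) (by omega)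
  · rw [mul_comm (q^2), ← mul_assoc, inv_mul_cancel₀ hu, one_mul]

theorem even_ne {r : ℝ} {s : Finset ι} (hR : Rad x r s) {N : ℕ} (hN : Odd N) (i : Fin N)
    (hi : Even (i:ℕ)) : fac (sp r i) (spL x r N s i) ≠ 0 := by
  have hr := hR.1
  have hu := sp_ne r hr i
  have hun := sp_ge r hr i
  refine fac_ne' _ _ fun y hy => ?_
  rcases mem_spL hy with ⟨l, hl, _, rfl⟩ | hy | rfl | rfl
  · exact ⟨sp_even hr hi hl.symm, sp_prod hr _ _⟩
  · have hn := prF_norm hR hy
    constructor
    · intro h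
      rw [h, norm_mul, nq2, one_mul] at hun
      linarith [hn.1]
    · intro h
      have hy0 : y ≠ 0 := by
        intro h0
        rw [h0, mul_zero] at h
        exact pow_ne_zero 2 q_ne_zero h.symm
      have : sp r i = q^2 * y⁻¹ := by rw [← h, mul_assoc, mul_inv_cancel₀ hy0, mul_one]
      rw [this, norm_mul, nq2, one_mul] at hun
      linarith [hn.2]
  · constructor
    · intro h
      have hn : ‖sp r i‖ = ‖sp r (N-1)‖ := by
        rw [h, norm_mul, norm_mul, nq2, one_mul, one_mul]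
      have h2 := sp_half hr hn
      have hiN : (i:ℕ) = N - 1 := by
        obtain ⟨m, hm⟩ := hN
        obtain ⟨a, ha⟩ := hi
        omega
      rw [← hiN, ← mul_assoc, ← pow_add] at h
      have h3 : (1 - q^4) * sp r i = 0 := by linear_combination h
      rcases mul_eq_zero.mp h3 with h4 | h4
      · exact q_pow4_ne (sub_eq_zero.mp h4).symm
      · exact hu h4
    · intro h
      have hn : ‖sp r i‖ * ‖sp r (N-1)‖ = 1 := by
        rw [← norm_mul]
        have : ‖sp r i * (q^2 * sp r (N-1))‖ = ‖sp r i * sp r (N-1)‖ := by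
          rw [norm_mul, norm_mul, nq2, one_mul, norm_mul]
        rw [← this, h, nq2]
      have h2 := sp_ge r hr (N-1)
      nlinarith
  · constructor
    · rw [mul_zero]; exact hu
    · rw [mul_zero]; exact (pow_ne_zero 2 q_ne_zero).symm

theorem odd_zero {r : ℝ} (hr : 1 < r) {N : ℕ} (s : Finset ι) (i : Fin N)
    (hi : ¬ Even (i:ℕ)) : fac (sp r i) (spL x r N s i) = 0 := by
  rw [Nat.not_even_iff_odd] at hi
  obtain ⟨a, ha⟩ := hi
  have hlt := i.2
  refine fac_eq_zero _ _ (sp r (i-1)) ?_ (Or.inl ?_)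
  · unfold spL
    rw [List.mem_append]
    left
    exact spr_mem i _ (by omega) (by omega)
  · unfold sp
    rw [if_neg, if_pos]
    · congr 2; omega
    · exact ⟨a, by omega⟩
    · rw [Nat.not_even_iff_odd]; exact ⟨a, ha⟩

theorem odd_ne {r : ℝ} {s : Finset ι} (hR : Rad x r s) {N : ℕ} (hN : Odd N) (i : Fin N)
    (hi : ¬ Even (i:ℕ)) : fac (sp r i)⁻¹ (spL x r N s i) ≠ 0 := by
  have hr := hR.1
  have hu := sp_ne r hr i
  have hun := sp_ge r hr i
  have hq2 : q^2 ≠ 0 := pow_ne_zero 2 q_ne_zero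
  have hinv : ∀ y : ℂ, (sp r i)⁻¹ = q^2 * y → ‖y‖ * ‖sp r i‖ = 1 := by
    intro y h
    have h1 : ‖(sp r i)⁻¹‖ = ‖y‖ := by rw [h, norm_mul, nq2, one_mul]
    rw [← h1, norm_inv, inv_mul_cancel₀]
    exact norm_ne_zero_iff.mpr hu
  have hinv2 : ∀ y : ℂ, (sp r i)⁻¹ * y = q^2 → y = q^2 * sp r i := by
    intro y h
    rw [← h, mul_comm _ y, mul_assoc, inv_mul_cancel₀ hu, mul_one]
  refine fac_ne' _ _ fun y hy => ?_
  rcases mem_spL hy with ⟨l, hl, _, rfl⟩ | hy | rfl | rfl
  · constructor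
    · intro h
      have h1 := hinv _ h
      have h2 := sp_ge r hr l
      nlinarith
    · intro h
      have h1 := hinv2 _ h
      have hle : Even l := by
        by_contra hlo
        rw [Nat.not_even_iff_odd] at hlo hi
        have hn : ‖sp r l‖ = ‖sp r i‖ := by rw [h1, norm_mul, nq2, one_mul]
        have := sp_half hr hn
        obtain ⟨a, ha⟩ := hi
        obtain ⟨b, hb⟩ := hlo
        omega
      exact sp_even hr hle hl h1
  · have hn := prF_norm hR hy
    constructor
    · intro h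
      have h1 := hinv _ h
      have hy0 : ‖y‖ ≠ 0 := by
        intro h0; rw [h0, zero_mul] at h1; exact zero_ne_one h1
      have h2 : ‖y⁻¹‖ = ‖sp r i‖ := by
        rw [norm_inv]; field_simp; linarith
      linarith [hn.2]
    · intro h
      have h1 := hinv2 _ h
      rw [h1, norm_mul, nq2, one_mul] at hn
      linarith [hn.1]
  · constructor
    · intro h
      have h1 := hinv _ h
      rw [norm_mul, nq2, one_mul] at h1
      have h2 := sp_ge r hr (N-1)
      nlinarith
    · intro h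
      have h1 := hinv2 _ h
      have h2 : sp r (N-1) = sp r i := mul_left_cancel₀ hq2 h1
      have h3 := sp_half hr (congrArg norm h2)
      rw [Nat.not_even_iff_odd] at hi
      obtain ⟨m, hm⟩ := hN
      obtain ⟨a, ha⟩ := hi
      have hlt := i.2
      omega
  · constructor
    · rw [mul_zero]; exact inv_ne_zero hu
    · rw [mul_zero]; exact hq2.symm

/-! ### the zeros -/

/-- the star zeros -/
noncomputable def zst (r : ℝ) (i : ℕ) : ℂ := if Even i then q^2 * (sp r i)⁻¹ else q^2 * sp r i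

/-- the zeros -/
noncomputable def zz (x : ι → ℂ) (r : ℝ) (N : ℕ) (s : Finset ι) :
    (s × Bool × Bool) ⊕ Fin N → ℂ
  | Sum.inl (j, b, c) => (if c then q else 1) * (if b then (x j)⁻¹ else x j)
  | Sum.inr i => zst r i

theorem zst_ne {r : ℝ} (hr : 1 < r) (i : ℕ) : zst r i ≠ 0 := by
  unfold zst
  have := sp_ne r hr i
  have hq2 : q^2 ≠ 0 := pow_ne_zero 2 q_ne_zero
  split_ifs
  · exact mul_ne_zero hq2 (inv_ne_zero this)
  · exact mul_ne_zero hq2 this

theorem zst_norm {r : ℝ} (hr : 1 < r) (i : ℕ) :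
    ‖zst r i‖ = if Even i then (‖sp r i‖)⁻¹ else ‖sp r i‖ := by
  unfold zst
  split_ifs
  · rw [norm_mul, nq2, one_mul, norm_inv]
  · rw [norm_mul, nq2, one_mul]

theorem zst_inj {r : ℝ} (hr : 1 < r) {i l : ℕ} (h : zst r i = zst r l) : i = l := by
  have hn := congrArg norm h
  rw [zst_norm hr, zst_norm hr] at hn
  have h1 := sp_ge r hr i
  have h2 := sp_ge r hr l
  have h3 : (‖sp r i‖)⁻¹ < 1 := inv_lt_one_of_one_lt₀ (by linarith)
  have h4 : (‖sp r l‖)⁻¹ < 1 := inv_lt_one_of_one_lt₀ (by linarith)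
  by_cases hi : Even i <;> by_cases hl : Even l
  · rw [if_pos hi, if_pos hl, inv_inj] at hn
    have := sp_half hr hn
    obtain ⟨a, ha⟩ := hi
    obtain ⟨b, hb⟩ := hl
    omega
  · rw [if_pos hi, if_neg hl] at hn
    linarith
  · rw [if_neg hi, if_pos hl] at hn
    linarith
  · rw [if_neg hi, if_neg hl] at hn
    have := sp_half hr hn
    rw [Nat.not_even_iff_odd] at hi hl
    obtain ⟨a, ha⟩ := hi
    obtain ⟨b, hb⟩ := hl
    omega

theorem zz_ne (hx : ∀ i, x i ≠ 0) {r : ℝ} (hr : 1 < r) (N : ℕ) (s : Finset ι) :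
    ∀ i, zz x r N s i ≠ 0 := by
  rintro (⟨j, b, c⟩ | i)
  · unfold zz
    refine mul_ne_zero ?_ ?_
    · split_ifs
      · exact q_ne_zero
      · exact one_ne_zero
    · split_ifs
      · exact inv_ne_zero (hx _)
      · exact hx _
  · exact zst_ne hr i

theorem zz_inj (hg : Gen x) {r : ℝ} {s : Finset ι} (hR : Rad x r s) (N : ℕ) :
    Function.Injective (zz x r N s) := by
  have hr := hR.1
  have hx : ∀ i, x i ≠ 0 := fun i => (hg.1 i).1
  have hnl : ∀ (j : s) (b c : Bool), ‖zz x r N s (Sum.inl (j, b, c))‖ < r ∧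
      r⁻¹ < ‖zz x r N s (Sum.inl (j, b, c))‖ := by
    intro j b c
    have hj := hR.2 j j.2
    have hx0 : 0 < ‖x j‖ := norm_pos_iff.mpr (hx j)
    have hz : ‖zz x r N s (Sum.inl (j, b, c))‖ = ‖(if b then (x j)⁻¹ else x j)‖ := by
      unfold zz
      rw [norm_mul]
      split_ifs <;> simp [nq]
    rw [hz]
    have hr0 : 0 < r := by linarith
    rw [norm_inv] at hj
    split_ifs
    · rw [norm_inv]
      exact ⟨hj.2, (inv_lt_inv₀ hr0 hx0).mpr hj.1⟩
    · refine ⟨hj.1, ?_⟩
      rw [inv_lt_comm₀ hr0 hx0]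
      exact hj.2
  have hnr : ∀ i : Fin N, ‖zz x r N s (Sum.inr i)‖ ≤ r⁻¹ ∨ r ≤ ‖zz x r N s (Sum.inr i)‖ := by
    intro i
    have e : zz x r N s (Sum.inr i) = zst r i := rfl
    rw [e, zst_norm hr]
    have h1 := sp_ge r hr i
    split_ifs
    · left; exact inv_anti₀ (by linarith) h1
    · right; exact h1
  have hlr : ∀ (j : s) (b c : Bool) (i : Fin N),
      zz x r N s (Sum.inl (j, b, c)) ≠ zz x r N s (Sum.inr i) := by
    intro j b c i h
    have h1 := hnl j b c
    rw [h] at h1
    rcases hnr i with h2 | h2 <;> linarith [h1.1, h1.2]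
  rintro (⟨j, b, c⟩ | i) (⟨j', b', c'⟩ | i') h
  · -- both from the pairs
    have hq3 := q_cube
    have hxx : ∀ j : ι, x j * (x j)⁻¹ = 1 := fun j => mul_inv_cancel₀ (hx j)
    by_cases hj : j = j'
    · subst hj
      have h6 : (x j)^6 ≠ 1 := (hg.1 j).2
      have hxj := hx j
      by_cases hb : b = b'
      · subst hb
        by_cases hc : c = c'
        · subst hc; rfl
        · exfalso
          have hne : (if b then (x j)⁻¹ else x j) ≠ 0 := by
            split_ifs
            · exact inv_ne_zero hxj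
            · exact hxj
          have h2 := mul_right_cancel₀ hne h
          cases c <;> cases c' <;> simp at hc h2
          · exact q_ne_one h2.symm
          · exact q_ne_one h2
      · exfalso
        apply h6
        -- `x² = c'/c` has cube one
        have key : ∀ c c' : ℂ, c^3 = 1 → c'^3 = 1 → c * x j = c' * (x j)⁻¹ → (x j)^6 = 1 := by
          intro c c' h1 h2 h3
          have h4 : c * (x j)^2 = c' := by
            have : c * (x j)^2 = (c * x j) * x j := by ring
            rw [this, h3, mul_assoc, inv_mul_cancel₀ hxj, mul_one]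
          have h5 : c^3 * (x j)^6 = c'^3 := by rw [← h4]; ring
          rw [h1, h2, one_mul] at h5
          exact h5
        have hcc : ∀ c : Bool, (if c then q else 1)^3 = 1 := by
          intro c; cases c <;> simp [q_cube]
        cases b <;> cases b' <;> simp only [not_true_eq_false, reduceCtorEq] at hb
        · exact key _ _ (hcc c) (hcc c') h
        · exact key _ _ (hcc c') (hcc c) h.symm
    · exfalso
      have hjj : (j : ι) ≠ (j' : ι) := fun h' => hj (Subtype.ext h')
      have hcc : ∀ c : Bool, (if c then q else (1:ℂ))^6 = 1 := by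
        intro c; cases c <;> simp [q6]
      have hcc0 : ∀ c : Bool, (if c then q else (1:ℂ)) ≠ 0 := by
        intro c; cases c <;> simp [q_ne_zero]
      set y := (if b then (x j)⁻¹ else x j) with hy
      set y' := (if b' then (x j')⁻¹ else x j') with hy'
      have hom : om (x j) = om y := by
        rw [hy]; split_ifs
        · rw [om_inv]
        · rfl
      have hom' : om (x j') = om y' := by
        rw [hy']; split_ifs
        · rw [om_inv]
        · rfl
      have hy0 : y ≠ 0 := by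
        rw [hy]; split_ifs
        · exact inv_ne_zero (hx _)
        · exact hx _
      have h' : (if c then q else 1) * y = (if c' then q else 1) * y' := h
      have h2 : ((if c' then q else 1)⁻¹ * (if c then q else 1)) * y = y' := by
        rw [mul_assoc, h', ← mul_assoc, inv_mul_cancel₀ (hcc0 c'), one_mul]
      have h3 := hg.om_ne hjj y ((if c' then q else 1)⁻¹ * (if c then q else 1)) (by
        rw [mul_pow, inv_pow, hcc, hcc]; simp) (mul_ne_zero (inv_ne_zero (hcc0 c')) (hcc0 c)) hy0 hom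
      rw [h2] at h3
      exact h3 hom'.symm
  · exact absurd h (hlr _ _ _ _)
  · exact absurd h.symm (hlr _ _ _ _)
  · have := zst_inj hr h
    rw [Fin.ext this]

end Pool.Agent.NH38.Step
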