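import Pool.Agent.NH38.Step.Stubs2
import Pool.Agent.H988C.BotTop
import Pool.Agent.H492C.Joint

/-!
Step channels, task D (job 25, helper58), first part: polynomiality, bottom and top coefficients.
-/

namespace Pool.Agent.NH38.Step

open Pool.Agent.H988R2.Perc hiding X
open Pool.Agent.H988C Polynomial Filter Topology

namespace TD

/-! ### linearity -/

theorem single_eq (R : St) (x : ℂ) : (Finsupp.single R x : St →₀ ℂ) = x • Finsupp.single R (1:ℂ) := by
  rw [Finsupp.smul_single, smul_eq_mul, mul_one]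

/-- the functional as a linear map in the middle argument -/
noncomputable def triM (a b : ℕ) (ha : Odd a) (f h : St →₀ ℂ) : (St →₀ ℂ) →ₗ[ℂ] ℂ where
  toFun g := tri a b ha f g h
  map_add' g g' := tri_add_mid f g g' h
  map_smul' c g := by simpa using tri_smul_mid c f g h

theorem triM_apply (a b : ℕ) (ha : Odd a) (f g h : St →₀ ℂ) : triM a b ha f h g = tri a b ha f g h :=
  rfl

theorem lin_Psi (F : (St →₀ ℂ) →ₗ[ℂ] ℂ) (l : List ℂ) {N : ℕ} (hl : l.length = N) :
    F (Psi l) = ∑ w ∈ LP N, Fw w l * F (Finsupp.single (Phi (N / 2) w) 1) := by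
  subst hl
  unfold Psi
  rw [map_sum]
  refine Finset.sum_congr rfl (fun w _ => ?_)
  rw [single_eq, map_smul, smul_eq_mul]

/-- polynomiality of a linear functional in one variable -/
theorem lin_poly (F : (St →₀ ℂ) →ₗ[ℂ] ℂ) (u v : List ℂ) :
    ∃ P : ℂ[X], P.natDegree ≤ u.length + v.length - 1 ∧ ∀ t, F (Psi (u ++ t :: v)) = P.eval t := by
  have h1 : ∀ w ∈ LP (u.length + v.length + 1), ∃ P : ℂ[X], P.natDegree ≤ u.length + v.length - 1 ∧
      ∀ t, Fw w (u ++ t :: v) = P.eval t := by
    intro w hw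
    obtain ⟨P, hP, hP'⟩ := (Fw_V hw).pd.univ u v rfl
    exact ⟨P, by omega, hP'⟩
  choose! P hP hP' using h1
  refine ⟨∑ w ∈ LP (u.length + v.length + 1), P w *
    C (F (Finsupp.single (Phi ((u.length + v.length + 1) / 2) w) 1)), ?_, ?_⟩
  · refine Polynomial.natDegree_sum_le_of_forall_le _ _ (fun w hw => ?_)
    exact (Polynomial.natDegree_mul_C_le _ _).trans (hP w hw)
  · intro t
    rw [lin_Psi F (u ++ t :: v) (N := u.length + v.length + 1) (by simp; omega),
      Polynomial.eval_finsetSum]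
    refine Finset.sum_congr rfl (fun w hw => ?_)
    rw [eval_mul, eval_C, hP' w hw]

/-- continuity of a linear functional along continuous families -/
theorem lin_cont (F : (St →₀ ℂ) →ₗ[ℂ] ℂ) (l : ℂ → List ℂ) (N : ℕ) (hl : ∀ t, (l t).length = N)
    (t₀ : ℂ) (hc : ∀ i, ContinuousAt (fun t => (l t).getD i 0) t₀) :
    ContinuousAt (fun t => F (Psi (l t))) t₀ := by
  have e : (fun t => F (Psi (l t))) = fun t => ∑ w ∈ LP N, Fw w (l t) *
      F (Finsupp.single (Phi (N / 2) w) 1) := by
    funext t; exact lin_Psi F (l t) (hl t)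
  rw [e]
  refine tendsto_finsetSum _ (fun w hw => ?_)
  refine Tendsto.mul ?_ tendsto_const_nhds
  have h := (Fw_V hw).pd.cont (fun i t => (l t).getD i 0) t₀ (fun i => hc i)
  have e2 : (fun s => Fw w (List.ofFn fun i : Fin N => (l s).getD i 0)) = fun s => Fw w (l s) := by
    funext s
    congr 1
    apply List.ext_getElem
    · rw [List.length_ofFn, hl]
    · intro i h1 h2
      rw [List.getElem_ofFn, List.getD_eq_getElem?_getD, List.getElem?_eq_getElem h2,
        Option.getD_some]
  rw [e2] at h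
  exact h

/-- expansion of `tri` -/
theorem tri_expand {a b : ℕ} {ha : Odd a} (l m : List ℂ) (h : St →₀ ℂ) {N M : ℕ}
    (hl : l.length = N) (hm : m.length = M) : tri a b ha (Psi l) (Psi m) h =
      ∑ w0 ∈ LP N, ∑ w1 ∈ LP M, Fw w0 l * Fw w1 m *
        tri a b ha (Finsupp.single (Phi (N / 2) w0) 1) (Finsupp.single (Phi (M / 2) w1) 1) h := by
  rw [← triL_apply, lin_Psi _ l hl]
  refine Finset.sum_congr rfl (fun w0 _ => ?_)
  rw [triL_apply, ← triM_apply, lin_Psi _ m hm, Finset.mul_sum]
  refine Finset.sum_congr rfl (fun w1 _ => ?_)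
  rw [triM_apply]; ring

/-! ### bottom and top -/

theorem exists_bot (n : ℕ) : ∃ w : Word, Dyck w ∧ w.length = 2*n ∧ Phi n w = St.bot := by
  induction n with
  | zero => exact ⟨[], Dyck.nil, rfl, rfl⟩
  | succ n ih =>
    obtain ⟨w, hw, hl, hP⟩ := ih
    refine ⟨ins 0 w, Dyck.ins _ _ (Nat.zero_le _) hw, by rw [length_ins, hl]; ring, ?_⟩
    rw [Phi_ins hw hl (Nat.zero_le _), hP]
    exact ins_zero_bot

theorem slide_bot {a b : ℕ} {ha : Odd a} (hb : Odd b) {c : ℂ} (hc : c^2 + c + 1 = 0)
    (f g : St →₀ ℂ) :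
    tri a b ha (Cs c a b (Finsupp.mapDomain (St.ins (a+b)) f)) g (Finsupp.single St.bot 1) =
      -c^2 * mass f * mass g := by
  obtain ⟨n, rfl⟩ := hb
  obtain ⟨w, hw, hl, hP⟩ := exists_bot (n+1)
  rw [← hP]
  exact slide_main hc n w hw (by omega) f g

end TD

open TD

theorem GQ_def (A : List ℂ) (ha : Odd A.length) (w : ℂ) (Y : List ℂ) (v : ℂ) : GQ A ha w Y v =
    tri A.length (Y.length + 1) ha (Psi (A ++ w :: (Y ++ [v, 0])))
      (Psi (A.map (fun x => x⁻¹) ++ [0])) (Finsupp.single St.bot 1) := rfl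

theorem t_D1 : S_D1 := by
  intro A Y ha hY v
  obtain ⟨P, hP, hP'⟩ := lin_poly (triL A.length (Y.length + 1) ha
    (Psi (A.map (fun x => x⁻¹) ++ [0])) (Finsupp.single St.bot 1)) A (Y ++ [v, 0])
  refine ⟨P, ?_, fun w => ?_⟩
  · rw [List.length_append] at hP
    simp only [List.length_cons, List.length_nil] at hP
    omega
  · rw [← hP' w, triL_apply, GQ_def]

theorem t_D1T : S_D1T := by
  intro A Y ha hY v
  obtain ⟨P, hP, hP'⟩ := lin_poly massL A (Y ++ [v, 0])
  refine ⟨P * C (Z (A.map (fun x => x⁻¹) ++ [0])), ?_, fun w => ?_⟩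
  · refine (Polynomial.natDegree_mul_C_le _ _).trans ?_
    rw [List.length_append] at hP
    simp only [List.length_cons, List.length_nil] at hP
    omega
  · rw [eval_mul, eval_C, ← hP' w, massL_apply]
    rfl

theorem t_D2 : S_D2 := by
  intro A Y v ha hY
  have h0 : ∀ w0 ∈ LP (A.length + (Y ++ [v]).length + 2), ∃ Q : ℂ[X][X],
      Q.natDegree ≤ A.length + Y.length + 1 ∧ ∀ s W : ℂ, (Q.map (evalRingHom s)).eval W =
      Fw w0 (A.map (fun p => p.eval s) ++ W :: ((Y ++ [v]).map (fun p => p.eval s) ++ [0])) := by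
    intro w0 hw0
    have h := (Fw_V hw0).pd
    rw [Nat.add_sub_cancel] at h
    obtain ⟨Q, hQ, hQ'⟩ := Pool.Agent.H492C.joint_biv h A (Y ++ [v]) rfl
    refine ⟨Q, ?_, hQ'⟩
    rw [List.length_append, List.length_singleton] at hQ
    omega
  have h1 : ∀ w1 ∈ LP (A.length + 1), ∃ Q : ℂ[X], ∀ s : ℂ, (∀ x ∈ A, x.eval s ≠ 0) → Q.eval s =
      ((A.map (fun p => p.eval s)).prod) ^ (A.length - 1) *
        Fw w1 ((A.map (fun p => p.eval s)).map (fun x => x⁻¹) ++ [0]) := by
    intro w1 hw1
    have h := (Fw_V hw1).pd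
    have e : A.length + 1 - 2 = A.length - 1 := by omega
    rw [e] at h
    exact Pool.Agent.H492C.joint_inv A h
  choose! Q0 hQ0 hQ0e using h0
  choose! Q1 hQ1 using h1
  refine ⟨∑ w0 ∈ LP (A.length + (Y ++ [v]).length + 2), ∑ w1 ∈ LP (A.length + 1),
    Q0 w0 * C (Q1 w1 * C (tri A.length (Y.length + 1) ha
      (Finsupp.single (Phi ((A.length + (Y ++ [v]).length + 2) / 2) w0) 1)
      (Finsupp.single (Phi ((A.length + 1) / 2) w1) 1) (Finsupp.single St.bot 1))), ?_, ?_⟩
  · refine Polynomial.natDegree_sum_le_of_forall_le _ _ fun w0 hw0 => ?_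
    refine Polynomial.natDegree_sum_le_of_forall_le _ _ fun w1 _ => ?_
    refine (Polynomial.natDegree_mul_le).trans ?_
    rw [Polynomial.natDegree_C, add_zero]
    exact hQ0 w0 hw0
  · intro s W hs
    have key : ∀ (a b : ℕ) (h1 : Odd a) (a' b' : ℕ) (h2 : Odd a') (_ : a = a') (_ : b = b')
        (f g h : St →₀ ℂ), tri a b h1 f g h = tri a' b' h2 f g h := by
      intro a b h1 a' b' h2 e1 e2 f g h
      subst e1; subst e2; rfl
    rw [GQ_def, key _ _ _ A.length (Y.length + 1) ha (List.length_map _) (by rw [List.length_map]),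
      tri_expand (N := A.length + (Y ++ [v]).length + 2) (M := A.length + 1) _ _ _
        (by simp only [List.length_append, List.length_map, List.length_cons, List.length_nil]; omega)
        (by simp only [List.length_append, List.length_map, List.length_cons, List.length_nil]),
      Polynomial.map_sum, Polynomial.eval_finsetSum, Finset.mul_sum]
    refine Finset.sum_congr rfl fun w0 hw0 => ?_
    rw [Polynomial.map_sum, Polynomial.eval_finsetSum, Finset.mul_sum]
    refine Finset.sum_congr rfl fun w1 hw1 => ?_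
    rw [Polynomial.map_mul, Polynomial.eval_mul, hQ0e w0 hw0, Polynomial.map_C, Polynomial.eval_C]
    simp only [coe_evalRingHom, Polynomial.eval_mul, Polynomial.eval_C]
    rw [hQ1 w1 hw1 s hs]
    have e : (List.map (fun p => eval s p) (Y ++ [v]) ++ [0]) =
        (List.map (fun p => eval s p) Y ++ [eval s v, 0]) := by simp
    rw [e]
    ring

theorem t_D8 : S_D8 := by
  intro A Y ha hY v hYn hv
  obtain ⟨B, hB⟩ : ∃ B : List ℂ, B = Y ++ [v] := ⟨_, rfl⟩
  have hBl : B.length = Y.length + 1 := by rw [hB, List.length_append, List.length_singleton]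
  have hBn : ∀ y ∈ B, y ≠ 0 := by
    intro y hy
    rw [hB, List.mem_append, List.mem_singleton] at hy
    rcases hy with h | h
    · exact hYn y h
    · rw [h]; exact hv
  have hbo : Odd B.length := by rw [hBl]; exact hY.add_one
  have hE : Even (A.length + B.length) := ha.add_odd hbo
  have e1 : A ++ 0 :: (Y ++ [v, 0]) = A ++ 0 :: (B ++ [0]) := by simp [hB]
  have hT : TQ A 0 Y v = mass (Psi (A ++ 0 :: (B ++ [0]))) *
      mass (Psi (A.map (fun x => x⁻¹) ++ [0])) := by
    rw [← e1]; rfl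
  rw [hT, GQ_def, e1, ← hBl, exch0_all B hBn A hE, Psi_zero_zero (A ++ B) (by simpa using hE),
    List.length_append, mass_Cs q_spec, mass_smul, mass_mapDomain, Cs_smul, tri_smul_left,
    slide_bot hbo q_spec]
  ring

theorem t_D9 : S_D9 := by
  intro A Y ha hY v p t hp ht hpe hte
  obtain ⟨B, hB⟩ : ∃ B : List ℂ, B = Y ++ [v] := ⟨_, rfl⟩
  have hBl : B.length = Y.length + 1 := by rw [hB, List.length_append, List.length_singleton]
  have hbo : Odd B.length := by rw [hBl]; exact hY.add_one
  have hE : Even (A.length + B.length) := ha.add_odd hbo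
  have e1 : ∀ W, A ++ W :: (Y ++ [v, 0]) = A ++ W :: (B ++ [0]) := by intro W; simp [hB]
  have hn : A.length + Y.length + 1 = A.length + B.length := by rw [hBl]; ring
  rw [hn] at hp ht ⊢
  set g := Psi (A.map (fun x => x⁻¹) ++ [0]) with hg
  have h1 := top_gen (triL A.length B.length ha g (Finsupp.single St.bot 1)) A B hE p hp
    (fun W => by rw [triL_apply, ← hpe W, GQ_def, e1, ← hBl])
  have h2 := top_gen ((mass g) • massL) A B hE t ht
    (fun W => by
      rw [LinearMap.smul_apply, massL_apply, smul_eq_mul, ← hte W]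
      unfold TQ Z
      rw [e1]; ring)
  rw [h1, h2, triL_apply, LinearMap.smul_apply, massL_apply, smul_eq_mul,
    Psi_zero_zero (A ++ B) (by simpa using hE), List.length_append, Cs_smul, tri_smul_left,
    slide_bot hbo q_sq_spec, mass_smul, mass_Cs q_sq_spec, mass_mapDomain]
  have h3 := q_cube
  linear_combination (-(fac 0 (A ++ B)) * mass (Psi (A ++ B)) * mass g * q) * h3

end Pool.Agent.NH38.Step
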