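import Pool.Agent.NH38.Step.DA

/-!
Step channels, task D (job 25, helper58), second part: symmetries, cup relation, recursion.
-/

namespace Pool.Agent.NH38.Step

open Pool.Agent.H988R2.Perc hiding X
open Pool.Agent.H988C Polynomial Filter Topology

namespace TD

/-! ### continuity -/

theorem eq_of_cont {F G : ℂ → ℂ} {t₀ : ℂ} (hF : ContinuousAt F t₀) (hG : ContinuousAt G t₀)
    (S : Set ℂ) (hS : S.Finite) (h : ∀ t, t ∉ S → F t = G t) : F t₀ = G t₀ := by
  have h1 : Tendsto F (𝓝[≠] t₀) (𝓝 (F t₀)) := hF.tendsto.mono_left nhdsWithin_le_nhds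
  have h2 : Tendsto G (𝓝[≠] t₀) (𝓝 (G t₀)) := hG.tendsto.mono_left nhdsWithin_le_nhds
  have hfin : (S \ {t₀}).Finite := hS.subset Set.sdiff_subset
  have h3 : (S \ {t₀})ᶜ ∈ 𝓝 t₀ := hfin.isClosed.isOpen_compl.mem_nhds (by simp)
  have h4 : ∀ᶠ t in 𝓝[≠] t₀, F t = G t := by
    filter_upwards [nhdsWithin_le_nhds h3, self_mem_nhdsWithin] with t ht ht2
    apply h
    intro hS'
    exact ht ⟨hS', ht2⟩
  exact tendsto_nhds_unique h1 (h2.congr' (h4.mono fun t ht => ht.symm))

/-- a family of lists of fixed length, continuous at a point -/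
def CL (N : ℕ) (l : ℂ → List ℂ) (t₀ : ℂ) : Prop :=
  (∀ t, (l t).length = N) ∧ ∀ i, ContinuousAt (fun t => (l t).getD i 0) t₀

theorem CL.const (l : List ℂ) (t₀ : ℂ) : CL l.length (fun _ => l) t₀ :=
  ⟨fun _ => rfl, fun _ => continuousAt_const⟩

theorem CL.cons {N : ℕ} {l : ℂ → List ℂ} {t₀ : ℂ} {f : ℂ → ℂ} (hf : ContinuousAt f t₀)
    (hl : CL N l t₀) : CL (N+1) (fun t => f t :: l t) t₀ := by
  refine ⟨fun t => by rw [List.length_cons, hl.1], fun i => ?_⟩
  cases i with
  | zero => simpa using hf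
  | succ i => simpa using hl.2 i

theorem CL.append {N M : ℕ} {l m : ℂ → List ℂ} {t₀ : ℂ}
    (hl : CL N l t₀) (hm : CL M m t₀) : CL (N+M) (fun t => l t ++ m t) t₀ := by
  refine ⟨fun t => by rw [List.length_append, hl.1, hm.1], fun i => ?_⟩
  rcases lt_or_ge i N with h | h
  · have e : (fun t => (l t ++ m t).getD i 0) = fun t => (l t).getD i 0 := by
      funext t
      rw [List.getD_append _ _ _ _ (by rw [hl.1]; exact h)]
    rw [e]; exact hl.2 i
  · have e : (fun t => (l t ++ m t).getD i 0) = fun t => (m t).getD (i - N) 0 := by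
      funext t
      rw [List.getD_append_right _ _ _ _ (by rw [hl.1]; exact h), hl.1]
    rw [e]; exact hm.2 (i - N)

theorem fw_cont {N : ℕ} {w : Word} (hw : w ∈ LP N) {l : ℂ → List ℂ} {t₀ : ℂ} (hl : CL N l t₀) :
    ContinuousAt (fun t => Fw w (l t)) t₀ := by
  have h := (Fw_V hw).pd.cont (fun i t => (l t).getD i 0) t₀ (fun i => hl.2 i)
  have e2 : (fun s => Fw w (List.ofFn fun i : Fin N => (l s).getD i 0)) = fun s => Fw w (l s) := by
    funext s
    congr 1
    apply List.ext_getElem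
    · rw [List.length_ofFn, hl.1]
    · intro i h1 h2
      rw [List.getElem_ofFn, List.getD_eq_getElem?_getD, List.getElem?_eq_getElem h2,
        Option.getD_some]
  rw [e2] at h
  exact h

theorem tri_cont {a b : ℕ} {ha : Odd a} {l m : ℂ → List ℂ} {N M : ℕ} {t₀ : ℂ} (hl : CL N l t₀)
    (hm : CL M m t₀) (h : St →₀ ℂ) :
    ContinuousAt (fun t => tri a b ha (Psi (l t)) (Psi (m t)) h) t₀ := by
  have e : (fun t => tri a b ha (Psi (l t)) (Psi (m t)) h) = fun t =>
      ∑ w0 ∈ LP N, ∑ w1 ∈ LP M, Fw w0 (l t) * Fw w1 (m t) *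
        tri a b ha (Finsupp.single (Phi (N / 2) w0) 1) (Finsupp.single (Phi (M / 2) w1) 1) h := by
    funext t; exact tri_expand _ _ _ (hl.1 t) (hm.1 t)
  rw [e]
  refine tendsto_finsetSum _ (fun w hw => tendsto_finsetSum _ (fun w1 hw1 => ?_))
  exact ((fw_cont hw hl).mul (fw_cont hw1 hm)).mul continuousAt_const

theorem GQ_congr {A A' : List ℂ} (h : A = A') (ha : Odd A.length) (ha' : Odd A'.length) (w : ℂ)
    (Y : List ℂ) (v : ℂ) : GQ A ha w Y v = GQ A' ha' w Y v := by
  subst h; rfl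

theorem tri_congr_nat {a b : ℕ} {ha : Odd a} {a' b' : ℕ} {ha' : Odd a'} (h1 : a = a') (h2 : b = b')
    (f g h : St →₀ ℂ) : tri a b ha f g h = tri a' b' ha' f g h := by
  subst h1; subst h2; rfl

/-! ### swaps in the upper strip -/

theorem core_swap {a b i : ℕ} {ha : Odd a} (hi : i + 2 ≤ a) (x y : ℂ) (P P' g g' h : St →₀ ℂ)
    (hP : (q * x - q^2 * y) • P' = (q * y - q^2 * x) • P +
      (y - x) • Finsupp.mapDomain (St.act i) P)
    (hg : (q * y - q^2 * x) • g' = (q * x - q^2 * y) • g +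
      (x - y) • Finsupp.mapDomain (St.act i) g)
    (hxy : q * x - q^2 * y ≠ 0) (hyx : q * y - q^2 * x ≠ 0) :
    tri a b ha P' g' h = tri a b ha P g h := by
  have main : (q * y - q^2 * x) * ((q * x - q^2 * y) * tri a b ha P' g' h) =
      (q * y - q^2 * x) * ((q * x - q^2 * y) * tri a b ha P g h) := by
    have s1 : (q * y - q^2 * x) * ((q * x - q^2 * y) * tri a b ha P' g' h) =
        tri a b ha ((q * x - q^2 * y) • P') ((q * y - q^2 * x) • g') h := by
      rw [tri_smul_left, tri_smul_mid]; ring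
    rw [s1, hP, hg]
    simp only [tri_add_left, tri_add_mid, tri_smul_left, tri_smul_mid,
      tri_act_left hi, t17_mapDomain_act_act]
    have hq := q_spec
    linear_combination (y - x) * (x - y) * tri a b ha P (Finsupp.mapDomain (St.act i) g) h * hq
  exact mul_left_cancel₀ hxy (mul_left_cancel₀ hyx main)

/-- the exchange relation for inverted parameters -/
theorem inv_exch (u v : List ℂ) (x y : ℂ) (h : Odd (u.length + v.length))
    (hx : x ≠ 0) (hy : y ≠ 0) :
    (q * y - q^2 * x) • Psi ((u ++ y :: x :: v).map (fun x => x⁻¹) ++ [0]) =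
      (q * x - q^2 * y) • Psi ((u ++ x :: y :: v).map (fun x => x⁻¹) ++ [0]) +
      (x - y) • Finsupp.mapDomain (St.act u.length)
        (Psi ((u ++ x :: y :: v).map (fun x => x⁻¹) ++ [0])) := by
  have hev' : Even ((u.map (fun x => x⁻¹)).length + ((v.map (fun x => x⁻¹)) ++ [0]).length) := by
    rw [List.length_append, List.length_map, List.length_map, List.length_singleton, ← add_assoc]
    exact Odd.add_one h
  have e2 := Psi_exch (u.map (fun x => x⁻¹)) ((v.map (fun x => x⁻¹)) ++ [0]) x⁻¹ y⁻¹ hev'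
  rw [List.length_map] at e2
  have := congrArg (fun F => (x * y) • F) e2
  simp only [smul_add, smul_smul] at this
  have k1 : x * y * (q * x⁻¹ - q^2 * y⁻¹) = q * y - q^2 * x := by field_simp
  have k2 : x * y * (q * y⁻¹ - q^2 * x⁻¹) = q * x - q^2 * y := by field_simp
  have k3 : x * y * (y⁻¹ - x⁻¹) = x - y := by field_simp
  rw [k1, k2, k3] at this
  have t1 : ∀ a b : ℂ, Psi ((u ++ a :: b :: v).map (fun x => x⁻¹) ++ [0]) =
      Psi (u.map (fun x => x⁻¹) ++ a⁻¹ :: b⁻¹ :: (v.map (fun x => x⁻¹) ++ [0])) := by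
    intro a b
    congr 1
    simp
  rw [t1, t1]
  exact this

theorem GQ_len {A : List ℂ} (ha : Odd A.length) {a b : ℕ} (h1 : A.length = a) (ha' : Odd a) (w : ℂ)
    (Y : List ℂ) (h2 : Y.length + 1 = b) (v : ℂ) : GQ A ha w Y v =
    tri a b ha' (Psi (A ++ w :: (Y ++ [v, 0])))
      (Psi (A.map (fun x => x⁻¹) ++ [0])) (Finsupp.single St.bot 1) := by
  subst h1; subst h2; rfl

theorem swapA_gen (u v Y : List ℂ) (x y w c : ℂ) (ha : Odd (u ++ y :: x :: v).length)
    (ha' : Odd (u ++ x :: y :: v).length) (hY : Even Y.length) (hx : x ≠ 0) (hy : y ≠ 0)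
    (hxy : q * x - q^2 * y ≠ 0) (hyx : q * y - q^2 * x ≠ 0) :
    GQ (u ++ y :: x :: v) ha w Y c = GQ (u ++ x :: y :: v) ha' w Y c := by
  have hl : ∀ a b : ℂ, (u ++ a :: b :: v).length = u.length + v.length + 2 := by
    intro a b; simp only [List.length_append, List.length_cons]; ring
  have hodd : Odd (u.length + v.length + 2) := by rw [← hl y x]; exact ha
  have hA : Odd (u.length + v.length) := by
    obtain ⟨n, hn⟩ := hodd
    exact ⟨n - 1, by omega⟩
  have hev : Even (u.length + (v ++ w :: (Y ++ [c, 0])).length) := by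
    simp only [List.length_append, List.length_cons, List.length_nil]
    obtain ⟨n, hn⟩ := hA
    obtain ⟨m, hm⟩ := hY
    exact ⟨n + m + 2, by omega⟩
  have e1 := Psi_exch u (v ++ w :: (Y ++ [c, 0])) x y hev
  have e2 := inv_exch u v x y hA hx hy
  have hps : ∀ a b : ℂ, Psi ((u ++ a :: b :: v) ++ w :: (Y ++ [c, 0])) =
      Psi (u ++ a :: b :: (v ++ w :: (Y ++ [c, 0]))) := by
    intro a b; congr 1; simp
  rw [GQ_len ha (hl y x) hodd w Y rfl c, GQ_len ha' (hl x y) hodd w Y rfl c, hps, hps]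
  exact core_swap (i := u.length) (by omega) x y _ _ _ _ _ e1 e2 hxy hyx

theorem bad_finite (x : ℂ) : ({0, q * x / q^2, q^2 * x / q} : Set ℂ).Finite := Set.toFinite _

theorem bad_spec (x z : ℂ) (hz : z ∉ ({0, q * x / q^2, q^2 * x / q} : Set ℂ)) :
    z ≠ 0 ∧ q * x - q^2 * z ≠ 0 ∧ q * z - q^2 * x ≠ 0 := by
  have hq0 := q_ne_zero
  simp only [Set.mem_insert_iff, Set.mem_singleton_iff, not_or] at hz
  obtain ⟨hz0, hz1, hz2⟩ := hz
  refine ⟨hz0, ?_, ?_⟩
  · intro h'
    apply hz1
    rw [eq_div_iff (pow_ne_zero _ hq0)]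
    linear_combination -h'
  · intro h'
    apply hz2
    rw [eq_div_iff hq0]
    linear_combination h'

/-- `GQ` is symmetric in neighbouring variables of `A` -/
theorem swapA (u v Y : List ℂ) (x y w c : ℂ) (ha : Odd (u ++ y :: x :: v).length)
    (ha' : Odd (u ++ x :: y :: v).length) (hY : Even Y.length) (hx : x ≠ 0) (hy : y ≠ 0) :
    GQ (u ++ y :: x :: v) ha w Y c = GQ (u ++ x :: y :: v) ha' w Y c := by
  have hl : ∀ a b : ℂ, (u ++ a :: b :: v).length = u.length + v.length + 2 := by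
    intro a b; simp only [List.length_append, List.length_cons]; ring
  have hodd : Odd (u.length + v.length + 2) := by rw [← hl y x]; exact ha
  have hod : ∀ a b : ℂ, Odd (u ++ a :: b :: v).length := by
    intro a b; rw [hl]; exact hodd
  have hcont : ∀ (f g : ℂ → ℂ), ContinuousAt f y → ContinuousAt g y → f y ≠ 0 → g y ≠ 0 →
      ContinuousAt (fun t => GQ (u ++ f t :: g t :: v) (hod _ _) w Y c) y := by
    intro f g hf hg hf0 hg0
    have e : (fun t => GQ (u ++ f t :: g t :: v) (hod _ _) w Y c) = fun t =>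
        tri (u.length + v.length + 2) (Y.length + 1) hodd
          (Psi (u ++ f t :: g t :: (v ++ w :: (Y ++ [c, 0]))))
          (Psi (u.map (fun x => x⁻¹) ++ (f t)⁻¹ :: (g t)⁻¹ :: (v.map (fun x => x⁻¹) ++ [0])))
          (Finsupp.single St.bot 1) := by
      funext t
      rw [GQ_len (hod _ _) (hl _ _) hodd w Y rfl c]
      congr 2 <;> simp
    rw [e]
    have c1 : CL _ (fun t => u ++ f t :: g t :: (v ++ w :: (Y ++ [c, 0]))) y :=
      (CL.const u y).append (((CL.const (v ++ w :: (Y ++ [c, 0])) y).cons hg).cons hf)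
    have c2 : CL _ (fun t => u.map (fun x => x⁻¹) ++ (f t)⁻¹ :: (g t)⁻¹ ::
        (v.map (fun x => x⁻¹) ++ [0])) y :=
      (CL.const (u.map (fun x => x⁻¹)) y).append
        (((CL.const (v.map (fun x => x⁻¹) ++ [0]) y).cons (hg.inv₀ hg0)).cons (hf.inv₀ hf0))
    exact tri_cont c1 c2 _
  have h1 := hcont (fun t => t) (fun _ => x) continuousAt_id continuousAt_const hy hx
  have h2 := hcont (fun _ => x) (fun t => t) continuousAt_const continuousAt_id hx hy
  have key := eq_of_cont (F := fun t => GQ (u ++ t :: x :: v) (hod _ _) w Y c)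
    (G := fun t => GQ (u ++ x :: t :: v) (hod _ _) w Y c) h1 h2 _ (bad_finite x) (fun z hz => by
      obtain ⟨hz0, h3, h4⟩ := bad_spec x z hz
      exact swapA_gen u v Y x z w c (hod _ _) (hod _ _) hY hx hz0 h3 h4)
  exact key

theorem permA (Y : List ℂ) (w c : ℂ) (hY : Even Y.length) {l l' : List ℂ} (hp : l.Perm l') :
    ∀ (u : List ℂ) (h1 : Odd (u ++ l).length) (h2 : Odd (u ++ l').length),
      (∀ z ∈ u ++ l, z ≠ 0) → GQ (u ++ l) h1 w Y c = GQ (u ++ l') h2 w Y c := by
  induction hp with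
  | nil => intro u h1 h2 _; rfl
  | @cons x l1 l2 h ih =>
    intro u h1 h2 h0
    have e1 : u ++ x :: l1 = (u ++ [x]) ++ l1 := by simp
    have e2 : u ++ x :: l2 = (u ++ [x]) ++ l2 := by simp
    rw [GQ_congr e1 h1 (by rw [← e1]; exact h1), GQ_congr e2 h2 (by rw [← e2]; exact h2)]
    exact ih (u ++ [x]) _ _ (by rw [← e1]; exact h0)
  | swap x y l =>
    intro u h1 h2 h0
    exact swapA u l Y x y w c h1 h2 hY (h0 x (by simp)) (h0 y (by simp))
  | @trans l1 l2 l3 p1 p2 ih1 ih2 =>
    intro u h1 h2 h0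
    have h3 : Odd (u ++ l2).length := by
      rw [List.length_append, ← p1.length_eq, ← List.length_append]; exact h1
    rw [ih1 u h1 h3 h0]
    refine ih2 u h3 h2 (fun z hz => h0 z ?_)
    rw [List.mem_append] at hz ⊢
    rcases hz with h | h
    · exact Or.inl h
    · exact Or.inr (p1.mem_iff.mpr h)

/-! ### inversion of a variable of `A` -/

theorem invA_front (A Y : List ℂ) (x w c : ℂ) (hA : Even A.length) (hY : Even Y.length)
    (hx : x ≠ 0) (h1 : Odd (x :: A).length) (h2 : Odd (x⁻¹ :: A).length) :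
    GQ (x :: A) h1 w Y c = x^(Y.length + 2) * GQ (x⁻¹ :: A) h2 w Y c := by
  have e1 := Psi_inv1 x (A ++ w :: (Y ++ [c, 0])) hx (by
    simp only [List.length_append, List.length_cons, List.length_nil]
    obtain ⟨m, hm⟩ := hA
    obtain ⟨n, hn⟩ := hY
    exact ⟨m + n + 1, by omega⟩)
  have e2 := Psi_inv1 x⁻¹ (A.map (fun x => x⁻¹) ++ [0]) (inv_ne_zero hx) (by
    simp only [List.length_append, List.length_map, List.length_singleton]
    exact hA.add_one)
  have l1 : (A ++ w :: (Y ++ [c, 0])).length - 1 = A.length + (Y.length + 2) := by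
    simp only [List.length_append, List.length_cons, List.length_nil]; omega
  have l2 : (A.map (fun x => x⁻¹) ++ [0]).length - 1 = A.length := by
    simp only [List.length_append, List.length_map, List.length_singleton, Nat.add_sub_cancel]
  rw [l1] at e1
  rw [l2, inv_inv] at e2
  rw [GQ_def, GQ_def]
  simp only [List.cons_append, List.map_cons, inv_inv]
  rw [e1, e2, tri_smul_left, tri_smul_mid]
  have h3 : x ^ (A.length + (Y.length + 2)) * x⁻¹ ^ A.length = x^(Y.length + 2) := by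
    rw [pow_add, mul_right_comm, ← mul_pow, mul_inv_cancel₀ hx, one_pow, one_mul]
  rw [← mul_assoc, h3]
  rfl

theorem invA_last (A Y : List ℂ) (x w c : ℂ) (hA : Even A.length) (hY : Even Y.length)
    (hx : x ≠ 0) (h0 : ∀ z ∈ A, z ≠ 0) (h1 : Odd (A ++ [x]).length) (h2 : Odd (A ++ [x⁻¹]).length) :
    GQ (A ++ [x]) h1 w Y c = x^(Y.length + 2) * GQ (A ++ [x⁻¹]) h2 w Y c := by
  have key : ∀ z : ℂ, z ≠ 0 → ∀ (h1 : Odd (A ++ [z]).length) (h2 : Odd (z :: A).length),
      GQ (A ++ [z]) h1 w Y c = GQ (z :: A) h2 w Y c := by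
    intro z hz h1 h2
    have hp : (A ++ [z]).Perm (z :: A) := List.perm_append_singleton z A
    have := permA Y w c hY hp [] h1 h2 (by
      intro y hy
      rw [List.nil_append, List.mem_append, List.mem_singleton] at hy
      rcases hy with h | h
      · exact h0 y h
      · rw [h]; exact hz)
    exact this
  have o1 : Odd (x :: A).length := by rw [List.length_cons]; exact hA.add_one
  have o2 : Odd (x⁻¹ :: A).length := by rw [List.length_cons]; exact hA.add_one
  rw [key x hx h1 o1, key x⁻¹ (inv_ne_zero hx) h2 o2]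
  exact invA_front A Y x w c hA hY hx o1 o2

/-- the cup functional -/
noncomputable def EA (A Y : List ℂ) (c u : ℂ) (h : Odd (A.length + 1)) : ℂ :=
  tri (A.length + 1) (Y.length + 1) h
    (Finsupp.mapDomain (St.ins A.length) (Psi (A ++ (Y ++ [c, 0]))))
    (Psi ((A ++ [u]).map (fun x => x⁻¹) ++ [0])) (Finsupp.single St.bot 1)

theorem cup_val (A Y : List ℂ) (c u : ℂ) (hA : Even A.length) (hY : Even Y.length)
    (h1 : Odd (A ++ [u]).length) :
    GQ (A ++ [u]) h1 (q^2 * u) Y c = fac u (A ++ (Y ++ [c, 0])) * EA A Y c u hA.add_one := by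
  have hpar : Even (A.length + (Y ++ [c, 0]).length) := by
    simp only [List.length_append, List.length_cons, List.length_nil]
    obtain ⟨m, hm⟩ := hA
    obtain ⟨n, hn⟩ := hY
    exact ⟨m + n + 1, by omega⟩
  have e1 := Psi_rec A (Y ++ [c, 0]) u hpar
  have hl : (A ++ [u]).length = A.length + 1 := by simp
  rw [GQ_len h1 hl hA.add_one _ Y rfl c]
  unfold EA
  rw [List.append_assoc, List.singleton_append, e1, tri_smul_left]

theorem EA_inv (A Y : List ℂ) (c u : ℂ) (hA : Even A.length) (hu : u ≠ 0) :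
    EA A Y c u hA.add_one = (u⁻¹)^A.length * EA A Y c u⁻¹ hA.add_one := by
  have h1 := Psi_inv0 u⁻¹ (A.map (fun x => x⁻¹)) (inv_ne_zero hu) (by rw [List.length_map]; exact hA)
  rw [List.length_map] at h1
  have hm : ∀ z : ℂ, (A ++ [z]).map (fun x => x⁻¹) ++ [0] = A.map (fun x => x⁻¹) ++ [z⁻¹, 0] := by
    intro z; simp
  unfold EA
  rw [hm, hm, h1, tri_smul_mid]

/-! ### the recursion -/

theorem bot_rel (x y : ℕ) : St.bot.rel x y ↔ x = y := Iff.rfl

theorem glue_rel (a : ℕ) (ha : Odd a) (R1 R2 : St) (x y : ℕ) : (glue a ha R1 R2).rel x y ↔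
    x = y ∨ (x ≤ a ∧ y ≤ a ∧ R1.rel x y) ∨
    (a < x ∧ a < y ∧ R2.rel (x - (a+1)) (y - (a+1))) := Iff.rfl

theorem glue_bot_rel (a : ℕ) (ha : Odd a) (R1 : St) (x y : ℕ) : (glue a ha R1 St.bot).rel x y ↔
    x = y ∨ (x ≤ a ∧ y ≤ a ∧ R1.rel x y) := by
  rw [glue_rel, bot_rel]
  constructor
  · rintro (h | h | ⟨h1, h2, h3⟩)
    · exact Or.inl h
    · exact Or.inr h
    · left; omega
  · rintro (h | h)
    · exact Or.inl h
    · exact Or.inr (Or.inl h)

theorem cap_glue_bot (a : ℕ) (ha : Odd a) (R1 : St) :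
    St.cap a (glue a ha R1 St.bot) = glue a ha R1 St.bot := by
  apply St.ext'
  intro x y
  rw [St.cap_rel, St.act_rel]
  simp only [glue_bot_rel]
  have hodd := Nat.odd_iff.mp ha
  have hr := R1.eqv.1
  have ho := R1.odd x y
  have up1 : ∀ x, x ≤ a → St.up a x = x := fun x h => by unfold St.up; rw [if_pos h]
  have up2 : ∀ x, ¬ x ≤ a → St.up a x = x + 2 := fun x h => by unfold St.up; rw [if_neg h]
  by_cases hx : x ≤ a
  · by_cases hy : y ≤ a
    · rw [up1 x hx, up1 y hy]
      constructor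
      · rintro (h | ⟨h1, h2, h3, h4, (h | ⟨h, h'⟩ | ⟨h, h'⟩)⟩)
        · exact Or.inl h
        · exact h
        · rcases h' with h' | ⟨h', _⟩ <;> omega
        · rcases h with h | ⟨_, h, _⟩ <;> omega
      · rintro (h | ⟨h1, h2, h3⟩)
        · exact Or.inl h
        · rcases ho h3 with h | ⟨k1, k2⟩
          · exact Or.inl h
          · exact Or.inr ⟨k1, k2, by omega, by omega, Or.inl (Or.inr ⟨h1, h2, h3⟩)⟩
    · rw [up1 x hx, up2 y hy]
      constructor
      · rintro (h | ⟨h1, h2, h3, h4, (h | ⟨h, h'⟩ | ⟨h, h'⟩)⟩)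
        · omega
        · rcases h with h | ⟨_, h, _⟩ <;> omega
        · rcases h' with h' | ⟨h', _⟩ <;> omega
        · rcases h with h | ⟨_, h, _⟩ <;> omega
      · rintro (h | ⟨h1, h2, h3⟩) <;> omega
  · by_cases hy : y ≤ a
    · rw [up2 x hx, up1 y hy]
      constructor
      · rintro (h | ⟨h1, h2, h3, h4, (h | ⟨h, h'⟩ | ⟨h, h'⟩)⟩)
        · omega
        · rcases h with h | ⟨h, _⟩ <;> omega
        · rcases h with h | ⟨h, _⟩ <;> omega
        · rcases h with h | ⟨h, _⟩ <;> omega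
      · rintro (h | ⟨h1, h2, h3⟩) <;> omega
    · rw [up2 x hx, up2 y hy]
      constructor
      · rintro (h | ⟨h1, h2, h3, h4, (h | ⟨h, h'⟩ | ⟨h, h'⟩)⟩)
        · left; omega
        · rcases h with h | ⟨h, _⟩
          · left; omega
          · omega
        · rcases h with h | ⟨h, _⟩ <;> omega
        · rcases h with h | ⟨h, _⟩ <;> omega
      · rintro (h | ⟨h1, h2, h3⟩)
        · left; omega
        · omega

theorem tri_ins_bot {a b : ℕ} {ha : Odd a} (f g : St →₀ ℂ) :
    tri a (b+2) ha (Finsupp.mapDomain (St.ins a) f) g (Finsupp.single St.bot 1) =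
      tri a b ha f g (Finsupp.single St.bot 1) := by
  have h := tri_map_congr (a := a) (b := b+2) (ha := ha) (a' := a) (b' := b) (ha' := ha)
    (St.ins a) id id id (fun _ => St.bot) (fun _ => St.bot) (by
      intro R R1 R2
      simp only [id]
      have hs : St.up a a = a := by unfold St.up; rw [if_pos le_rfl]
      have ht : St.up a (a+b+1) = a+(b+2)+1 := by
        unfold St.up; rw [if_neg (by omega)]; omega
      have := gconn_ins_left a (a+b+1) a R (glue a ha R1 St.bot)
      rw [hs, ht, cap_glue_bot] at this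
      exact this) f g (Finsupp.single St.bot 1)
  simpa only [Finsupp.mapDomain_id, Finsupp.mapDomain_single] using h

/-! ### the reflected pairs -/

theorem act_bot_even {j : ℕ} (hj : Even j) : St.act j St.bot = St.bot := by
  apply St.ext'
  intro x y
  rw [act_bot_rel, bot_rel]
  have := Nat.even_iff.mp hj
  constructor
  · rintro (h | ⟨h, _⟩)
    · exact h
    · omega
  · exact Or.inl

theorem L_act {a b j : ℕ} {ha : Odd a} (hj : Even j) (hjb : j + 2 ≤ b) (f g : St →₀ ℂ) :
    tri a b ha (Finsupp.mapDomain (St.act (j + (a+1))) f) g (Finsupp.single St.bot 1) =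
      tri a b ha f g (Finsupp.single St.bot 1) := by
  rw [tri_act_right hjb, Finsupp.mapDomain_single, act_bot_even hj]

theorem swapY_gen (A Y1 Y2 : List ℂ) (ha : Odd A.length) (h1 : Even Y1.length)
    (h2 : Even Y2.length) (w x y v : ℂ) (hne : q * x - q^2 * y ≠ 0) :
    GQ A ha w (Y1 ++ y :: x :: Y2) v = GQ A ha w (Y1 ++ x :: y :: Y2) v := by
  have hl : ∀ a b : ℂ, (Y1 ++ a :: b :: Y2).length + 1 = Y1.length + Y2.length + 3 := by
    intro a b; simp only [List.length_append, List.length_cons]; ring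
  have hps : ∀ a b : ℂ, Psi (A ++ w :: ((Y1 ++ a :: b :: Y2) ++ [v, 0])) =
      Psi ((A ++ w :: Y1) ++ a :: b :: (Y2 ++ [v, 0])) := by
    intro a b; congr 1; simp
  have hk : (A ++ w :: Y1).length = Y1.length + (A.length + 1) := by
    simp only [List.length_append, List.length_cons]; omega
  have e1 := Psi_exch (A ++ w :: Y1) (Y2 ++ [v, 0]) x y (by
    rw [hk]
    simp only [List.length_append, List.length_cons, List.length_nil]
    obtain ⟨n, hn⟩ := ha
    obtain ⟨m, hm⟩ := h1
    obtain ⟨k, hk⟩ := h2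
    exact ⟨n + m + k + 2, by omega⟩)
  rw [hk] at e1
  rw [GQ_len ha rfl ha w _ (hl y x) v, GQ_len ha rfl ha w _ (hl x y) v, hps, hps]
  apply mul_left_cancel₀ hne
  rw [← tri_smul_left, e1, tri_add_left, tri_smul_left, tri_smul_left, L_act h1 (by omega)]
  have hq := q_spec
  linear_combination ((y - x) * tri A.length (Y1.length + Y2.length + 3) ha
    (Psi ((A ++ w :: Y1) ++ x :: y :: (Y2 ++ [v, 0])))
    (Psi (A.map (fun x => x⁻¹) ++ [0])) (Finsupp.single St.bot 1)) * hq

/-- braid-like computation for two neighbouring pairs -/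
theorem pair_core (L : (St →₀ ℂ) →ₗ[ℂ] ℂ) (i : ℕ)
    (hL0 : ∀ f, L (Finsupp.mapDomain (St.act i) f) = L f)
    (hL2 : ∀ f, L (Finsupp.mapDomain (St.act (i+2)) f) = L f)
    (x x' y y' : ℂ) (hx : x * x' = 1) (hy : y * y' = 1) (f0 f1 f2 f3 f4 : St →₀ ℂ)
    (e1 : (q * x' - q^2 * y) • f1 = (q * y - q^2 * x') • f0 +
      (y - x') • Finsupp.mapDomain (St.act (i+1)) f0)
    (e2 : (q * x - q^2 * y) • f2 = (q * y - q^2 * x) • f1 +
      (y - x) • Finsupp.mapDomain (St.act i) f1)
    (e3 : (q * x' - q^2 * y') • f3 = (q * y' - q^2 * x') • f2 +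
      (y' - x') • Finsupp.mapDomain (St.act (i+2)) f2)
    (e4 : (q * x - q^2 * y') • f4 = (q * y' - q^2 * x) • f3 +
      (y' - x) • Finsupp.mapDomain (St.act (i+1)) f3)
    (d1 : q * x' - q^2 * y ≠ 0) (d2 : q * x - q^2 * y ≠ 0) (d3 : q * x' - q^2 * y' ≠ 0)
    (d4 : q * x - q^2 * y' ≠ 0) : L f4 = L f0 := by
  have hx0 : x ≠ 0 := left_ne_zero_of_mul_eq_one hx
  have hy0 : y ≠ 0 := left_ne_zero_of_mul_eq_one hy
  have hq := q_spec
  -- the functional `N`
  set N : (St →₀ ℂ) → ℂ := fun f => L (Finsupp.mapDomain (St.act (i+1)) f) with hN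
  have Nadd : ∀ f g, N (f + g) = N f + N g := by
    intro f g; simp only [hN, Finsupp.mapDomain_add, map_add]
  have Nsmul : ∀ (c : ℂ) f, N (c • f) = c * N f := by
    intro c f; simp only [hN, Finsupp.mapDomain_smul, map_smul, smul_eq_mul]
  have N1 : ∀ f, N (Finsupp.mapDomain (St.act (i+1)) f) = N f := by
    intro f; simp only [hN, t17_mapDomain_act_act]
  have T0 : ∀ R, St.act i (St.act (i+1) (St.act i R)) = St.act i R := by
    intro R
    rw [St.act_eq i R, St.act_succ_ins, St.act_ins_succ]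
  have T2 : ∀ R, St.act (i+2) (St.act (i+1) (St.act (i+2) R)) = St.act (i+2) R := by
    intro R
    rw [St.act_eq (i+2) R, St.act_ins_succ (i+1), St.act_succ_ins (i+1)]
  have N0 : ∀ f, N (Finsupp.mapDomain (St.act i) f) = L f := by
    intro f
    simp only [hN]
    rw [← hL0, ← Finsupp.mapDomain_comp, ← Finsupp.mapDomain_comp]
    have : (St.act i ∘ St.act (i+1)) ∘ St.act i = St.act i := funext T0
    rw [this, hL0]
  have N2 : ∀ f, N (Finsupp.mapDomain (St.act (i+2)) f) = L f := by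
    intro f
    simp only [hN]
    rw [← hL2, ← Finsupp.mapDomain_comp, ← Finsupp.mapDomain_comp]
    have : (St.act (i+2) ∘ St.act (i+1)) ∘ St.act (i+2) = St.act (i+2) := funext T2
    rw [this, hL2]
  have l1 := congrArg L e1
  have n1 := congrArg N e1
  have l2 := congrArg L e2
  have n2 := congrArg N e2
  have l3 := congrArg L e3
  have n3 := congrArg N e3
  have l4 := congrArg L e4
  rw [map_add, map_smul, map_smul, map_smul, smul_eq_mul, smul_eq_mul, smul_eq_mul] at l1 l2 l3 l4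
  rw [Nadd, Nsmul, Nsmul, Nsmul] at n1 n2 n3
  rw [N1] at n1
  rw [N0] at n2
  rw [N2] at n3
  rw [hL0] at l2
  rw [hL2] at l3
  have c1 : L (Finsupp.mapDomain (St.act (i+1)) f0) = N f0 := rfl
  have c4 : L (Finsupp.mapDomain (St.act (i+1)) f3) = N f3 := rfl
  rw [c1] at l1
  rw [c4] at l4
  have m1 : N f1 = N f0 := mul_left_cancel₀ d1 (by linear_combination n1 + (y - x') * N f0 * hq)
  have m2 : L f2 = L f1 := mul_left_cancel₀ d2 (by linear_combination l2 + (y - x) * L f1 * hq)
  have m3 : L f3 = L f2 := mul_left_cancel₀ d3 (by linear_combination l3 + (y' - x') * L f2 * hq)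
  have k3 : (q * x' - q^2 * y') * (x * y) = q * y - q^2 * x := by
    linear_combination q * y * hx - q^2 * x * hy
  have k3' : (q * y' - q^2 * x') * (x * y) = q * x - q^2 * y := by
    linear_combination q * x * hy - q^2 * y * hx
  have k3'' : (y' - x') * (x * y) = x - y := by
    linear_combination x * hy - y * hx
  have hA2 : q * y - q^2 * x ≠ 0 := by
    rw [← k3]; exact mul_ne_zero d3 (mul_ne_zero hx0 hy0)
  have m4 : N f3 = N f0 := by
    apply mul_left_cancel₀ hA2
    have : (q * y - q^2 * x) * N f3 = (q * x - q^2 * y) * N f2 + (x - y) * L f2 := by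
      rw [← k3, ← k3', ← k3'']
      linear_combination (x * y) * n3
    rw [this, n2, m1, m2]; ring
  have k4 : (q * x - q^2 * y') * y = (q * y - q^2 * x') * x := by
    linear_combination q^2 * hx - q^2 * hy
  have k4' : (q * y' - q^2 * x) * y = (q * x' - q^2 * y) * x := by
    linear_combination q * hy - q * hx
  have k4'' : (y' - x) * y = -((y - x') * x) := by
    linear_combination hy - hx
  have hA1 : (q * y - q^2 * x') * x ≠ 0 := by
    rw [← k4]; exact mul_ne_zero d4 hy0
  apply mul_left_cancel₀ hA1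
  have : (q * y - q^2 * x') * x * L f4 = (q * x' - q^2 * y) * x * L f3 + -((y - x') * x) * N f3 := by
    rw [← k4, ← k4', ← k4'']
    linear_combination y * l4
  rw [this, m3, m2, m4]
  linear_combination x * l1

theorem prs_cons (x : ℂ) (X : List ℂ) : prs (x :: X) = x :: x⁻¹ :: prs X := rfl

theorem prs_append (X X' : List ℂ) : prs (X ++ X') = prs X ++ prs X' := by
  simp [prs]

theorem swapP_gen (A X1 X2 : List ℂ) (ha : Odd A.length) (w x y v : ℂ) (hx : x ≠ 0) (hy : y ≠ 0)
    (d1 : q * x⁻¹ - q^2 * y ≠ 0) (d2 : q * x - q^2 * y ≠ 0) (d3 : q * x⁻¹ - q^2 * y⁻¹ ≠ 0)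
    (d4 : q * x - q^2 * y⁻¹ ≠ 0) :
    GQ A ha w (prs (X1 ++ y :: x :: X2)) v = GQ A ha w (prs (X1 ++ x :: y :: X2)) v := by
  have hl : ∀ a b : ℂ, (prs (X1 ++ a :: b :: X2)).length + 1 = 2 * X1.length + 2 * X2.length + 5 := by
    intro a b
    rw [prs_length]; simp only [List.length_append, List.length_cons]; ring
  have hps : ∀ a b : ℂ, Psi (A ++ w :: (prs (X1 ++ a :: b :: X2) ++ [v, 0])) =
      Psi ((A ++ w :: prs X1) ++ a :: a⁻¹ :: b :: b⁻¹ :: (prs X2 ++ [v, 0])) := by
    intro a b; congr 1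
    rw [prs_append, prs_cons, prs_cons]; simp
  have hk : (A ++ w :: prs X1).length = 2 * X1.length + (A.length + 1) := by
    simp only [List.length_append, List.length_cons, prs_length]; omega
  set U := A ++ w :: prs X1 with hU
  set V := prs X2 ++ [v, 0] with hV
  have hVl : V.length = 2 * X2.length + 2 := by
    rw [hV]; simp only [List.length_append, List.length_cons, List.length_nil, prs_length]
  have hUe : Even U.length := by
    rw [hk]; exact (even_two_mul _).add ha.add_one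
  have hVe : Even V.length := by rw [hVl]; exact ⟨X2.length + 1, by ring⟩
  rw [GQ_len ha rfl ha w _ (hl y x) v, GQ_len ha rfl ha w _ (hl x y) v, hps, hps]
  -- the exchanges
  have e1 := Psi_exch (U ++ [x]) (y⁻¹ :: V) x⁻¹ y (by
    simp only [List.length_append, List.length_cons, List.length_nil]
    obtain ⟨m, hm⟩ := hUe
    obtain ⟨n, hn⟩ := hVe
    exact ⟨m + n + 1, by omega⟩)
  have e2 := Psi_exch U (x⁻¹ :: y⁻¹ :: V) x y (by
    simp only [List.length_cons]
    obtain ⟨m, hm⟩ := hUe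
    obtain ⟨n, hn⟩ := hVe
    exact ⟨m + n + 1, by omega⟩)
  have e3 := Psi_exch (U ++ [y, x]) V x⁻¹ y⁻¹ (by
    simp only [List.length_append, List.length_cons, List.length_nil]
    obtain ⟨m, hm⟩ := hUe
    obtain ⟨n, hn⟩ := hVe
    exact ⟨m + n + 1, by omega⟩)
  have e4 := Psi_exch (U ++ [y]) (x⁻¹ :: V) x y⁻¹ (by
    simp only [List.length_append, List.length_cons, List.length_nil]
    obtain ⟨m, hm⟩ := hUe
    obtain ⟨n, hn⟩ := hVe
    exact ⟨m + n + 1, by omega⟩)
  simp only [List.append_assoc, List.cons_append, List.nil_append, List.length_append,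
    List.length_cons, List.length_nil, zero_add] at e1 e3 e4
  have hj : Even (2 * X1.length) := even_two_mul _
  have hj2 : Even (2 * X1.length + 2) := ⟨X1.length + 1, by ring⟩
  have key := pair_core (triL A.length (2 * X1.length + 2 * X2.length + 5) ha
    (Psi (A.map (fun x => x⁻¹) ++ [0])) (Finsupp.single St.bot 1)) U.length
    (fun f => by
      rw [triL_apply, triL_apply, hk]
      exact L_act hj (by omega) f _)
    (fun f => by
      rw [triL_apply, triL_apply, hk,
        show 2 * X1.length + (A.length + 1) + 2 = (2 * X1.length + 2) + (A.length + 1) by ring]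
      exact L_act hj2 (by omega) f _)
    x x⁻¹ y y⁻¹ (mul_inv_cancel₀ hx) (mul_inv_cancel₀ hy) _ _ _ _ _ e1 e2 e3 e4 d1 d2 d3 d4
  rw [triL_apply, triL_apply] at key
  exact key

theorem badP_spec (x z : ℂ) (hx : x ≠ 0)
    (hz : z ∉ ({0, q * x⁻¹ / q^2, q * x / q^2, q * x, q * x⁻¹} : Set ℂ)) :
    z ≠ 0 ∧ q * x⁻¹ - q^2 * z ≠ 0 ∧ q * x - q^2 * z ≠ 0 ∧ q * x⁻¹ - q^2 * z⁻¹ ≠ 0 ∧
      q * x - q^2 * z⁻¹ ≠ 0 := by
  have hq0 := q_ne_zero
  simp only [Set.mem_insert_iff, Set.mem_singleton_iff, not_or] at hz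
  obtain ⟨hz0, hz1, hz2, hz3, hz4⟩ := hz
  refine ⟨hz0, ?_, ?_, ?_, ?_⟩
  · intro h'
    apply hz1
    rw [eq_div_iff (pow_ne_zero _ hq0)]
    linear_combination -h'
  · intro h'
    apply hz2
    rw [eq_div_iff (pow_ne_zero _ hq0)]
    linear_combination -h'
  · intro h'
    apply hz3
    have h2 : q * (z - q * x) = 0 := by
      have h3 : (q * x⁻¹ - q^2 * z⁻¹) * (x * z) = 0 := by rw [h', zero_mul]
      have h4 : (q * x⁻¹ - q^2 * z⁻¹) * (x * z) = q * z * (x⁻¹ * x) - q^2 * x * (z⁻¹ * z) := by ring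
      rw [h4, inv_mul_cancel₀ hx, inv_mul_cancel₀ hz0] at h3
      linear_combination h3
    have := (mul_eq_zero.mp h2).resolve_left hq0
    linear_combination this
  · intro h'
    apply hz4
    have h2 : q * (z * x - q) = 0 := by
      have h3 : (q * x - q^2 * z⁻¹) * z = 0 := by rw [h', zero_mul]
      have h4 : (q * x - q^2 * z⁻¹) * z = q * x * z - q^2 * (z⁻¹ * z) := by ring
      rw [h4, inv_mul_cancel₀ hz0] at h3
      linear_combination h3
    have := (mul_eq_zero.mp h2).resolve_left hq0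
    rw [← div_eq_mul_inv, eq_div_iff hx]
    linear_combination this

theorem swapP (A X1 X2 : List ℂ) (ha : Odd A.length) (w x y v : ℂ) (hx : x ≠ 0) (hy : y ≠ 0) :
    GQ A ha w (prs (X1 ++ y :: x :: X2)) v = GQ A ha w (prs (X1 ++ x :: y :: X2)) v := by
  have hl : ∀ a b : ℂ, (prs (X1 ++ a :: b :: X2)).length + 1 = 2 * X1.length + 2 * X2.length + 5 := by
    intro a b
    rw [prs_length]; simp only [List.length_append, List.length_cons]; ring
  have hcont : ∀ (f g : ℂ → ℂ), ContinuousAt f y → ContinuousAt g y → f y ≠ 0 → g y ≠ 0 →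
      ContinuousAt (fun t => GQ A ha w (prs (X1 ++ f t :: g t :: X2)) v) y := by
    intro f g hf hg hf0 hg0
    have e : (fun t => GQ A ha w (prs (X1 ++ f t :: g t :: X2)) v) = fun t =>
        tri A.length (2 * X1.length + 2 * X2.length + 5) ha
          (Psi ((A ++ w :: prs X1) ++ f t :: (f t)⁻¹ :: g t :: (g t)⁻¹ :: (prs X2 ++ [v, 0])))
          (Psi (A.map (fun x => x⁻¹) ++ [0])) (Finsupp.single St.bot 1) := by
      funext t
      rw [GQ_len ha rfl ha w _ (hl _ _) v]
      congr 2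
      rw [prs_append, prs_cons, prs_cons]; simp
    rw [e]
    have c1 : CL _ (fun t => (A ++ w :: prs X1) ++ f t :: (f t)⁻¹ :: g t :: (g t)⁻¹ ::
        (prs X2 ++ [v, 0])) y :=
      (CL.const (A ++ w :: prs X1) y).append
        (((((CL.const (prs X2 ++ [v, 0]) y).cons (hg.inv₀ hg0)).cons hg).cons (hf.inv₀ hf0)).cons hf)
    exact tri_cont c1 (CL.const (A.map (fun x => x⁻¹) ++ [0]) y) _
  have h1 := hcont (fun t => t) (fun _ => x) continuousAt_id continuousAt_const hy hx
  have h2 := hcont (fun _ => x) (fun t => t) continuousAt_const continuousAt_id hx hy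
  have key := eq_of_cont (F := fun t => GQ A ha w (prs (X1 ++ t :: x :: X2)) v)
    (G := fun t => GQ A ha w (prs (X1 ++ x :: t :: X2)) v) h1 h2
    ({0, q * x⁻¹ / q^2, q * x / q^2, q * x, q * x⁻¹} : Set ℂ) (Set.toFinite _)
    (fun z hz => by
      obtain ⟨hz0, h3, h4, h5, h6⟩ := badP_spec x z hx hz
      exact swapP_gen A X1 X2 ha w x z v hx hz0 h3 h4 h5 h6)
  exact key

theorem permP (A : List ℂ) (ha : Odd A.length) (w v : ℂ) {l l' : List ℂ} (hp : l.Perm l') :
    ∀ (u : List ℂ), (∀ z ∈ u ++ l, z ≠ 0) →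
      GQ A ha w (prs (u ++ l)) v = GQ A ha w (prs (u ++ l')) v := by
  induction hp with
  | nil => intro u _; rfl
  | @cons x l1 l2 h ih =>
    intro u h0
    have e1 : u ++ x :: l1 = (u ++ [x]) ++ l1 := by simp
    have e2 : u ++ x :: l2 = (u ++ [x]) ++ l2 := by simp
    rw [e1] at h0 ⊢
    rw [e2]
    exact ih (u ++ [x]) h0
  | swap x y l =>
    intro u h0
    exact swapP A u l ha w x y v (h0 x (by simp)) (h0 y (by simp))
  | @trans l1 l2 l3 p1 p2 ih1 ih2 =>
    intro u h0
    rw [ih1 u h0]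
    refine ih2 u (fun z hz => h0 z ?_)
    rw [List.mem_append] at hz ⊢
    rcases hz with h | h
    · exact Or.inl h
    · exact Or.inr (p1.mem_iff.mpr h)

end TD

open TD

theorem t_D3 : S_D3 := by
  intro A A' Y ha ha' w v hY hp h0
  exact permA Y w v hY hp [] ha ha' h0

theorem t_D4 : S_D4 := by
  intro A Y u v hA hY hu h0 _ _
  have o : ∀ z : ℂ, Odd (A ++ [z]).length := by
    intro z; rw [List.length_append, List.length_singleton]; exact hA.add_one
  rw [invA_last A Y u (q^2 * u⁻¹) v hA hY hu h0 _ (o u⁻¹), cup_val A Y v u hA hY,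
    cup_val A Y v u⁻¹ hA hY, EA_inv A Y v u hA hu]
  have h1 : u^A.length * (u⁻¹)^A.length = 1 := by
    rw [← mul_pow, mul_inv_cancel₀ hu, one_pow]
  have h2 : u^(A.length + Y.length + 2) = u^A.length * u^(Y.length + 2) := by ring
  rw [h2]
  linear_combination (fac u (A ++ (Y ++ [v, 0])) * EA A Y v u⁻¹ hA.add_one * u^(Y.length + 2) *
    fac u⁻¹ (A ++ (Y ++ [v, 0]))) * h1

theorem t_D5 : S_D5 := by
  intro A Y ha hY w y v
  have e1 := Psi_rec A (y :: (Y ++ [v, 0])) w (by
    simp only [List.length_append, List.length_cons, List.length_nil]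
    obtain ⟨m, hm⟩ := ha
    obtain ⟨n, hn⟩ := hY
    exact ⟨m + n + 2, by omega⟩)
  rw [GQ_len ha rfl ha w ((q^2 * w) :: y :: Y) (b := Y.length + 1 + 2)
    (by simp only [List.length_cons]) v, GQ_def]
  simp only [List.cons_append]
  rw [e1, tri_smul_left, tri_ins_bot]

theorem t_D6 : S_D6 := by
  intro A X X' ha w v hp h0
  exact permP A ha w v hp [] h0

theorem t_D7 : S_D7 := by
  intro A Y1 Y2 ha h1 h2 w x y v
  have hl : ∀ a b : ℂ, (Y1 ++ a :: b :: Y2).length + 1 = Y1.length + Y2.length + 3 := by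
    intro a b; simp only [List.length_append, List.length_cons]; ring
  have hcont : ∀ (f g : ℂ → ℂ), ContinuousAt f x → ContinuousAt g x →
      ContinuousAt (fun t => GQ A ha w (Y1 ++ f t :: g t :: Y2) v) x := by
    intro f g hf hg
    have e : (fun t => GQ A ha w (Y1 ++ f t :: g t :: Y2) v) = fun t =>
        tri A.length (Y1.length + Y2.length + 3) ha
          (Psi ((A ++ w :: Y1) ++ f t :: g t :: (Y2 ++ [v, 0])))
          (Psi (A.map (fun x => x⁻¹) ++ [0])) (Finsupp.single St.bot 1) := by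
      funext t
      rw [GQ_len ha rfl ha w _ (hl _ _) v]
      congr 2
      simp
    rw [e]
    have c1 : CL _ (fun t => (A ++ w :: Y1) ++ f t :: g t :: (Y2 ++ [v, 0])) x :=
      (CL.const (A ++ w :: Y1) x).append (((CL.const (Y2 ++ [v, 0]) x).cons hg).cons hf)
    exact tri_cont c1 (CL.const (A.map (fun x => x⁻¹) ++ [0]) x) _
  have c1 := hcont (fun t => t) (fun _ => y) continuousAt_id continuousAt_const
  have c2 := hcont (fun _ => y) (fun t => t) continuousAt_const continuousAt_id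
  have key := eq_of_cont (F := fun t => GQ A ha w (Y1 ++ t :: y :: Y2) v)
    (G := fun t => GQ A ha w (Y1 ++ y :: t :: Y2) v) c1 c2 _ (bad_finite y) (fun z hz => by
      obtain ⟨_, h3, _⟩ := bad_spec y z hz
      exact swapY_gen A Y1 Y2 ha h1 h2 w y z v h3)
  exact key

end Pool.Agent.NH38.Step
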