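import Pool.Agent.NH38.Step.C3

/-!
Step channels (helper38), task C, part 4: recursion and cup relation of the difference.
-/

namespace Pool.Agent.NH38.Step

open Pool.Agent.H988R2.Perc hiding X
open Pool.Agent.H988C Polynomial

variable {ι : Type} (x : ι → ℂ)

/-! ### total mass -/

theorem TQ_rec (A Y : List ℂ) (ha : Odd A.length) (hY : Even Y.length) (w y v : ℂ) :
    TQ A w ((q^2 * w) :: y :: Y) v = fac w (A ++ y :: (Y ++ [v, 0])) * TQ A y Y v := by
  unfold TQ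
  have h := Z_rec A (y :: (Y ++ [v, 0])) w (by
    simp only [List.length_cons, List.length_append, List.length_nil]
    obtain ⟨a, ha⟩ := ha
    obtain ⟨b, hb⟩ := hY
    exact ⟨a + b + 2, by omega⟩)
  have e : (A ++ w :: (((q^2 * w) :: y :: Y) ++ [v, 0])) =
      A ++ w :: (q^2 * w) :: y :: (Y ++ [v, 0]) := rfl
  rw [e, h, mul_assoc]

theorem TQ_star (A Y : List ℂ) (u v : ℂ) (hA : Even A.length) (hY : Even Y.length) (hu : u ≠ 0) :
    TQ (A ++ [u]) (q^2 * u) Y v * (u^(A.length + Y.length + 2) * fac u⁻¹ (A ++ (Y ++ [v, 0]))) =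
      TQ (A ++ [u]) (q^2 * u⁻¹) Y v * fac u (A ++ (Y ++ [v, 0])) := by
  unfold TQ
  obtain ⟨a, ha⟩ := hA
  obtain ⟨b, hb⟩ := hY
  have hev : Even (A.length + (Y ++ [v, 0]).length) := by
    simp only [List.length_cons, List.length_append, List.length_nil]
    exact ⟨a + b + 1, by omega⟩
  have h1 := Z_rec A (Y ++ [v, 0]) u hev
  have h2 := Z_rec A (Y ++ [v, 0]) u⁻¹ hev
  have e1 : Z ((A ++ [u]) ++ (q^2 * u) :: (Y ++ [v, 0])) =
      fac u (A ++ (Y ++ [v, 0])) * Z (A ++ (Y ++ [v, 0])) := by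
    rw [List.append_assoc, List.singleton_append, h1]
  have e2 : Z ((A ++ [u]) ++ (q^2 * u⁻¹) :: (Y ++ [v, 0])) =
      u^(A.length + Y.length + 2) * (fac u⁻¹ (A ++ (Y ++ [v, 0])) * Z (A ++ (Y ++ [v, 0]))) := by
    rw [List.append_assoc, List.singleton_append]
    have hl : ∀ z : ℂ, (A ++ z :: (q^2 * u⁻¹) :: (Y ++ [v, 0])).length = 2 * (a + b + 2) := by
      intro z
      simp only [List.length_cons, List.length_append, List.length_nil]; omega
    have p : ∀ z : ℂ, (A ++ z :: (q^2 * u⁻¹) :: (Y ++ [v, 0])).Perm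
        (z :: (A ++ (q^2 * u⁻¹) :: (Y ++ [v, 0]))) := fun z => List.perm_middle
    rw [Z_perm (by rw [hl]; exact even_two_mul _) (p u), ← h2,
      Z_perm (by rw [hl]; exact even_two_mul _) (p u⁻¹)]
    have hlo : (A ++ (q^2 * u⁻¹) :: (Y ++ [v, 0])).length = 2 * (a + b + 1) + 1 := by
      simp only [List.length_cons, List.length_append, List.length_nil]; omega
    rw [Z_inv u _ hu ⟨a + b + 1, by rw [hlo]⟩]
    congr 2
    rw [hlo]; omega
  rw [e1, e2]
  ring

/-! ### the normalisation -/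

theorem cst_rec (A L : List ℂ) (ha : Odd A.length) (hA0 : ∀ z ∈ A, z ≠ 0) (hL0 : ∀ z ∈ L, z ≠ 0)
    (hL : L.prod = 1) (v y : ℂ) (hv : v ≠ 0) (hy : y ≠ 0) (k : ℕ) (hk : L.length = 2 * k) :
    cst A (q * y) v (k+1) * ((om y - om (q^2*y)) * pom (om (q^2 * y)) (v :: (A ++ L))) =
      fac (q * y) (A ++ y⁻¹ :: (L ++ [v, 0])) * cst A y⁻¹ v k := by
  obtain ⟨m, hm⟩ := ha
  have hyi : y⁻¹ ≠ 0 := inv_ne_zero hy
  have hp : (A ++ y⁻¹ :: (L ++ [v, 0])).Perm ((y⁻¹ :: v :: (A ++ L)) ++ [0]) := by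
    have e : (A ++ y⁻¹ :: (L ++ [v, 0])) = (A ++ y⁻¹ :: (L ++ [v])) ++ [0] := by simp
    rw [e]
    refine List.Perm.append_right _ ?_
    refine List.perm_middle.trans (List.Perm.cons _ ?_)
    rw [← List.append_assoc]
    exact List.perm_append_comm
  have hne : ∀ z ∈ (y⁻¹ :: v :: (A ++ L)), z ≠ 0 := by
    intro z hz
    simp only [List.mem_cons, List.mem_append] at hz
    rcases hz with rfl | rfl | hz | hz
    · exact hyi
    · exact hv
    · exact hA0 z hz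
    · exact hL0 z hz
  rw [fac_perm' _ hp, fac_app, fac_zero_right, fac_eq_pom _ (mul_ne_zero q_ne_zero hy) _ hne,
    om_qq, pom_cons _ y⁻¹, om_inv]
  simp only [List.length_cons, List.prod_cons, List.length_append, List.prod_append]
  rw [hL, hk, hm]
  unfold cst
  rw [hm]
  have e1 : (2 * m + 1 + 1) / 2 = m + 1 := by omega
  rw [e1]
  have e2 : q^2 * (q * y) = y := by rw [← mul_assoc, ← pow_succ, q_cube, one_mul]
  have e3 : -q^2 * (q * y) = -y := by rw [neg_mul, e2]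
  rw [e2, e3]
  have e4 : (y⁻¹ * v)^(m + 1 + k) * y^(2 * m + 1 + 2 * k + 1 + 1) = v^(m+1+k) * y^(m+1+k+1) := by
    have : y^(2 * m + 1 + 2 * k + 1 + 1) = y^(m+1+k) * y^(m+1+k+1) := by ring
    rw [this, mul_pow, inv_pow]
    field_simp
  have e5 : q^((m + 1 + (k + 1) + 1) * (m + 1 + (k + 1)) + (m + 1) * (m + 1 - 1)) * q^(m+1+(k+1)) =
      q^((m + 1 + k + 1) * (m + 1 + k) + (m + 1) * (m + 1 - 1)) := by
    have h3 : q^(3 * (m + 1 + k + 1)) = 1 := by rw [pow_mul, q_cube, one_pow]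
    have : q^((m + 1 + (k + 1) + 1) * (m + 1 + (k + 1)) + (m + 1) * (m + 1 - 1)) * q^(m+1+(k+1)) =
      q^((m + 1 + k + 1) * (m + 1 + k) + (m + 1) * (m + 1 - 1)) * q^(3 * (m + 1 + k + 1)) := by
      rw [Nat.add_sub_cancel]; ring
    rw [this, h3, mul_one]
  have e6 : (q * y * v)^(m + 1 + (k + 1)) = q^(m+1+(k+1)) * (v^(m+1+k) * y^(m+1+k+1)) * v := by
    ring
  rw [e6, ← e4]
  have hyy : y⁻¹ * y = 1 := inv_mul_cancel₀ hy
  generalize pom (om (q^2 * y)) (v :: (A ++ L)) = P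
  generalize (y⁻¹ * v)^(m + 1 + k) = V at *
  generalize y^(2 * m + 1 + 2 * k + 1 + 1) = W at *
  rw [← e5]
  generalize q^((m + 1 + (k + 1) + 1) * (m + 1 + (k + 1)) + (m + 1) * (m + 1 - 1)) = Q1
  generalize q^(m+1+(k+1)) = Q2
  generalize om y = o0
  generalize om (q^2 * y) = o2
  linear_combination (A.prod^(k+1+1) * V * W * v * Q1 * Q2 * (o2 - o0) * P) * hyy

theorem cst_star (A L : List ℂ) (ha : Even A.length) (hA0 : ∀ z ∈ A, z ≠ 0) (hL0 : ∀ z ∈ L, z ≠ 0)
    (u v : ℂ) (hu : u ≠ 0) (hv : v ≠ 0) (k : ℕ) (hk : L.length = 2 * k) (R1 R2 : ℂ)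
    (h : R1 * pom (om (q^2*u)) (A ++ (L ++ [v])) = R2 * pom (om (q*u)) (A ++ (L ++ [v]))) :
    cst (A ++ [u]) (q^2 * u) v k * R1 *
        (u^(A.length + L.length + 2) * fac u⁻¹ (A ++ (L ++ [v, 0]))) =
      cst (A ++ [u]) (q^2 * u⁻¹) v k * R2 * fac u (A ++ (L ++ [v, 0])) := by
  obtain ⟨m, hm⟩ := ha
  have hui : u⁻¹ ≠ 0 := inv_ne_zero hu
  have e : (A ++ (L ++ [v, 0])) = (A ++ (L ++ [v])) ++ [0] := by simp
  have hne : ∀ z ∈ (A ++ (L ++ [v])), z ≠ 0 := by
    intro z hz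
    simp only [List.mem_cons, List.mem_append, List.not_mem_nil, or_false] at hz
    rcases hz with hz | hz | rfl
    · exact hA0 z hz
    · exact hL0 z hz
    · exact hv
  rw [e, fac_app u⁻¹ (A ++ (L ++ [v])), fac_app u (A ++ (L ++ [v])), fac_zero_right,
    fac_zero_right, fac_eq_pom _ hui _ hne, fac_eq_pom _ hu _ hne, om_q_inv]
  unfold cst
  have hl : (A ++ (L ++ [v])).length = 2 * m + 2 * k + 1 := by
    simp only [List.length_cons, List.length_append, List.length_nil]; omega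
  have hl2 : ((A ++ [u]).length + 1) / 2 = m + 1 := by
    simp only [List.length_cons, List.length_append, List.length_nil]; omega
  rw [hl, hl2]
  have e0 : A.length + L.length + 2 = 2 * m + 2 * k + 2 := by omega
  rw [e0]
  generalize (A ++ [u]).prod^(k+1) = c1
  generalize q^((m + 1 + k + 1) * (m + 1 + k) + (m + 1) * (m + 1 - 1)) = c2
  generalize (A ++ (L ++ [v])).prod = c3
  generalize pom (om (q^2*u)) (A ++ (L ++ [v])) = P2 at *
  generalize pom (om (q*u)) (A ++ (L ++ [v])) = P1 at *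
  have huu : u * u⁻¹ = 1 := mul_inv_cancel₀ hu
  have k1 : (q^2 * u * v)^(m + 1 + k) * (u^(2 * m + 2 * k + 2) * ((q^2 * u⁻¹)^(2 * m + 2 * k + 1) *
      (-q^2 * u⁻¹))) = (q^2 * u⁻¹ * v)^(m + 1 + k) * ((q^2 * u)^(2 * m + 2 * k + 1) *
      (-q^2 * u)) := by
    have a1 : (q^2 * u * v)^(m + 1 + k) * (u^(2 * m + 2 * k + 2) * ((q^2 * u⁻¹)^(2 * m + 2 * k + 1) *
      (-q^2 * u⁻¹))) = -(q^2 * v)^(m+1+k) * u^(m+1+k) * (q^2)^(2 * m + 2 * k + 2) *
        (u * u⁻¹)^(2 * m + 2 * k + 2) := by ring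
    have a2 : (q^2 * u⁻¹ * v)^(m + 1 + k) * ((q^2 * u)^(2 * m + 2 * k + 1) *
      (-q^2 * u)) = -(q^2 * v)^(m+1+k) * u^(m+1+k) * (q^2)^(2 * m + 2 * k + 2) *
        (u * u⁻¹)^(m+1+k) := by ring
    rw [a1, a2, huu, one_pow, one_pow]
  linear_combination (c1 * (q^2 * u * v)^(m + 1 + k) * (u^(2 * m + 2 * k + 2) *
    ((q^2 * u⁻¹)^(2 * m + 2 * k + 1) * (-q^2 * u⁻¹))) * c2 * c3) * h +
    (c1 * c2 * c3 * R2 * P1) * k1

/-! ### the difference -/

/-- left side minus right side -/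
noncomputable def DD (A : List ℂ) (ha : Odd A.length) (w v : ℂ) (s : Finset ι) : ℂ :=
  TQ A w (prF x s) v - GQ A ha w (prF x s) v - cst A w v s.card * RHS x A w v s

open Classical in
theorem DD_rec (h5 : S_D5) (h6 : S_D6) (h7 : S_D7) (hx : ∀ i, x i ≠ 0) (s : Finset ι) (i : ι)
    (hi : i ∈ s) (A : List ℂ) (ha : Odd A.length) (hA0 : ∀ z ∈ A, z ≠ 0) (v y : ℂ) (hv : v ≠ 0)
    (hy : y ≠ 0) (hom : om (x i) = om y) (h1 : ∀ j ∈ s, om (q * y) ≠ om (x j))
    (h2 : ∀ j ∈ s.erase i, om y ≠ om (x j)) :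
    DD x A ha (q * y) v s =
      fac (q * y) (A ++ y⁻¹ :: (prF x (s.erase i) ++ [v, 0])) * DD x A ha y⁻¹ v (s.erase i) := by
  have e2 : q^2 * (q * y) = y := by rw [← mul_assoc, ← pow_succ, q_cube, one_mul]
  have hG : GQ A ha (q * y) (prF x s) v =
      fac (q * y) (A ++ y⁻¹ :: (prF x (s.erase i) ++ [v, 0])) *
        GQ A ha y⁻¹ (prF x (s.erase i)) v := by
    have h8 := h5 A (prF x (s.erase i)) ha (prF_even x _) (q * y) y⁻¹ v
    rw [e2] at h8
    rw [← h8]
    have p : (s.toList.map x).Perm (x i :: (s.erase i).toList.map x) := by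
      have : s.toList.Perm (i :: (s.erase i).toList) := by
        conv_lhs => rw [← Finset.insert_erase hi]
        exact Finset.toList_insert (Finset.notMem_erase i s)
      exact this.map x
    have h9 := h6 A _ _ ha (q * y) v p (by
      intro z hz
      rw [List.mem_map] at hz
      obtain ⟨j, _, rfl⟩ := hz
      exact hx j)
    rw [prs_cons] at h9
    have h10 : GQ A ha (q * y) (prF x s) v =
      GQ A ha (q * y) (x i :: (x i)⁻¹ :: prF x (s.erase i)) v := h9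
    rw [h10]
    rcases (om_eq_iff (hx i) hy).mp hom with h11 | h11
    · rw [h11]
    · have h12 : x i = y⁻¹ := eq_inv_of_mul_eq_one_left h11
      rw [h12, inv_inv]
      have h13 := h7 A [] (prF x (s.erase i)) ha (by simp) (prF_even x _) (q * y) y⁻¹ y v
      simpa using h13
  have hT : TQ A (q * y) (prF x s) v =
      fac (q * y) (A ++ y⁻¹ :: (prF x (s.erase i) ++ [v, 0])) *
        TQ A y⁻¹ (prF x (s.erase i)) v := by
    have h8 := TQ_rec A (prF x (s.erase i)) ha (prF_even x _) (q * y) y⁻¹ v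
    rw [e2] at h8
    rw [← h8]
    unfold TQ
    congr 1
    refine Z_perm ?_ ?_
    · simp only [List.length_cons, List.length_append, List.length_nil, prF_length]
      obtain ⟨a, ha⟩ := ha
      exact ⟨a + s.card + 2, by omega⟩
    · refine List.Perm.append_left _ (List.Perm.cons _ (List.Perm.append_right _ ?_))
      exact prF_erase' x hx hi y hy hom.symm
  have hR := RHS_rec x hx s i hi A ha hA0 v y hv hy hom h1 h2
  have hcard : s.card = (s.erase i).card + 1 := (Finset.card_erase_add_one hi).symm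
  have hc := cst_rec A (prF x (s.erase i)) ha hA0 (prF_ne x hx _) (prF_prod x hx _) v y hv hy
    (s.erase i).card (prF_length x _)
  unfold DD
  rw [hG, hT, hR, hcard]
  linear_combination (-(RHS x A y⁻¹ v (s.erase i))) * hc

open Classical in
theorem DD_star (h4 : S_D4) (hx : ∀ i, x i ≠ 0) (s : Finset ι) (A : List ℂ) (hA : Even A.length)
    (hA0 : ∀ z ∈ A, z ≠ 0) (u v : ℂ) (hu : u ≠ 0) (hv : v ≠ 0)
    (h1 : ∀ j ∈ s, om (q * u) ≠ om (x j)) (h2 : ∀ j ∈ s, om (q^2 * u) ≠ om (x j)) 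
    (ho : Odd (A ++ [u]).length) :
    DD x (A ++ [u]) ho (q^2 * u) v s *
        (u^(A.length + (prF x s).length + 2) * fac u⁻¹ (A ++ (prF x s ++ [v, 0]))) =
      DD x (A ++ [u]) ho (q^2 * u⁻¹) v s * fac u (A ++ (prF x s ++ [v, 0])) := by
  have hG := h4 A (prF x s) u v hA (prF_even x s) hu hA0 (prF_ne x hx s) hv
  have hT := TQ_star A (prF x s) u v hA (prF_even x s) hu
  have hR := cst_star A (prF x s) hA hA0 (prF_ne x hx s) u v hu hv s.card (prF_length x s) _ _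
    (RHS_star x hx s A hA hA0 u v hu hv h1 h2)
  unfold DD
  linear_combination hT - hG - hR

end Pool.Agent.NH38.Step
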