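import Pool.Agent.NH38.Step.C9

/-!
Step channels (helper38), task C, part 10: the generic formula.
-/

namespace Pool.Agent.NH38.Step

open Pool.Agent.H988R2.Perc hiding X
open Pool.Agent.H988C Polynomial Filter Topology

variable {ι : Type} {x : ι → ℂ}

/-- polynomials through given values at `0` and `1` -/
noncomputable def seg (a b : ℂ) : ℂ[X] := C a + X * C (b - a)

theorem seg_zero (a b : ℂ) : (seg a b).eval 0 = a := by simp [seg]

theorem seg_one (a b : ℂ) : (seg a b).eval 1 = b := by simp [seg]

theorem zero_of_generic (c P : ℂ[X]) (hP : P ≠ 0) (h : ∀ t, P.eval t ≠ 0 → c.eval t = 0) : c = 0 := by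
  have h1 : c * P = 0 := by
    apply Polynomial.funext
    intro t
    rw [Polynomial.eval_mul, Polynomial.eval_zero]
    by_cases ht : P.eval t = 0
    · rw [ht, mul_zero]
    · rw [h t ht, zero_mul]
  exact (mul_eq_zero.mp h1).resolve_right hP

theorem PJ_om {w : ℂ} {s : Finset ι} (h : PJ x w s ≠ 0) (hw : w ≠ 0) :
    ∀ j ∈ s, om w ≠ om (x j) := by
  classical
  intro j hj he
  apply h
  rw [PJ_eq x w s hw]
  have : (∏ j ∈ s, (om w - om (x j))) = 0 := Finset.prod_eq_zero hj (by rw [he, sub_self])
  rw [this, mul_zero]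

open Classical in
theorem t_C_aux (h1 : S_D1) (h1T : S_D1T) (h2 : S_D2) (h3 : S_D3) (h4 : S_D4) (h5 : S_D5)
    (h6 : S_D6) (h7 : S_D7) (h8 : S_D8) (h9 : S_D9) (hg : Gen x) :
    ∀ (k : ℕ) (s : Finset ι), s.card = k → ∀ (A : List ℂ) (ha : Odd A.length),
      (∀ z ∈ A, z ≠ 0) → ∀ v w : ℂ, v ≠ 0 → w ≠ 0 → (∀ i ∈ s, om w ≠ om (x i)) →
      DD x A ha w v s = 0 := by
  have hx : ∀ i, x i ≠ 0 := fun i => (hg.1 i).1
  intro k
  induction k using Nat.strong_induction_on with
  | _ k ih =>
  intro s hs A ha hA0 v w hv hw hws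
  obtain ⟨r, hR⟩ := rad_exists x s
  have hr := hR.1
  set N := A.length with hN
  let p : Fin N → ℂ[X] := fun i => seg (A.get i) (sp r i)
  let AL : List ℂ[X] := List.ofFn p
  have hAL : AL.length = N := List.length_ofFn
  have haL : Odd AL.length := by rw [hAL]; exact ha
  let vP : ℂ[X] := seg v (q^2 * sp r (N-1))
  have hAL0 : ev AL 0 = A := by
    unfold ev
    simp only [AL]
    rw [List.map_ofFn]
    have : ((fun p : ℂ[X] => p.eval 0) ∘ p) = A.get := by
      funext i; simp only [Function.comp_apply, p, seg_zero]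
    rw [this, List.ofFn_get]
  have hv0 : q^2 * sp r (N-1) ≠ 0 := mul_ne_zero (pow_ne_zero 2 q_ne_zero) (sp_ne r hr _)
  -- generic values
  let P : ℂ[X] := AL.prod * vP
  have hgood : ∀ t, P.eval t ≠ 0 → (∀ p ∈ AL, p.eval t ≠ 0) ∧ vP.eval t ≠ 0 := by
    intro t ht
    simp only [P, Polynomial.eval_mul] at ht
    obtain ⟨ht1, ht2⟩ := mul_ne_zero_iff.mp ht
    refine ⟨?_, ht2⟩
    intro p' hp'
    rw [← Polynomial.coe_evalRingHom, map_list_prod] at ht1
    intro h0
    apply ht1
    apply List.prod_eq_zero
    rw [List.mem_map]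
    exact ⟨p', hp', h0⟩
  have hP0 : P.eval 0 ≠ 0 := by
    simp only [P, Polynomial.eval_mul]
    refine mul_ne_zero ?_ (by simp only [vP, seg_zero]; exact hv)
    rw [← Polynomial.coe_evalRingHom, map_list_prod]
    apply List.prod_ne_zero
    intro h0
    rw [List.mem_map] at h0
    obtain ⟨p', hp', h0⟩ := h0
    simp only [AL] at hp'
    rw [List.mem_ofFn] at hp'
    obtain ⟨i, rfl⟩ := hp'
    simp only [Polynomial.coe_evalRingHom, p, seg_zero] at h0
    exact hA0 _ (List.get_mem A i) h0
  have hP1 : P.eval 1 ≠ 0 := by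
    simp only [P, Polynomial.eval_mul]
    refine mul_ne_zero ?_ (by simp only [vP, seg_one]; exact hv0)
    rw [← Polynomial.coe_evalRingHom, map_list_prod]
    apply List.prod_ne_zero
    intro h0
    rw [List.mem_map] at h0
    obtain ⟨p', hp', h0⟩ := h0
    simp only [AL] at hp'
    rw [List.mem_ofFn] at hp'
    obtain ⟨i, rfl⟩ := hp'
    simp only [Polynomial.coe_evalRingHom, p, seg_one] at h0
    exact sp_ne r hr _ h0
  have hP : P ≠ 0 := by
    intro h; rw [h, Polynomial.eval_zero] at hP0; exact hP0 rfl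
  have hPev : ∀ᶠ t in 𝓝[≠] (1:ℂ), P.eval t ≠ 0 :=
    (P.continuous.continuousAt.eventually_ne hP1).filter_mono nhdsWithin_le_nhds
  -- the bivariate polynomial
  obtain ⟨F, hF⟩ := F_exists x h2 s AL haL vP
  have hev0 : ∀ t, (∀ p ∈ AL, p.eval t ≠ 0) → ∀ z ∈ ev AL t, z ≠ 0 := by
    intro t ht z hz
    unfold ev at hz
    rw [List.mem_map] at hz
    obtain ⟨p', hp', rfl⟩ := hz
    exact ht p' hp'
  set n := N + 4 * s.card + 1 with hn
  have hslice : ∀ t, P.eval t ≠ 0 → (F.map (evalRingHom t)).natDegree ≤ n ∧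
      (F.map (evalRingHom t)).coeff 0 = 0 ∧ (F.map (evalRingHom t)).coeff n = 0 := by
    intro t ht
    obtain ⟨ht1, ht2⟩ := hgood t ht
    obtain ⟨f, fd, f0, fn, hf⟩ := f_exists x h1 h1T h8 h9 hx s (ev AL t) (ev_odd haL t)
      (hev0 t ht1) (vP.eval t) ht2
    have hff : F.map (evalRingHom t) = f := by
      apply Polynomial.funext
      intro w'
      rw [hf w']
      exact hF t ht1 w'
    rw [ev_length, hAL] at fd fn
    rw [hff]
    exact ⟨fd, f0, fn⟩
  have hFd : F.natDegree ≤ n := by
    rw [Polynomial.natDegree_le_iff_coeff_eq_zero]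
    intro j hj
    apply zero_of_generic _ P hP
    intro t ht
    have h := (Polynomial.natDegree_le_iff_coeff_eq_zero.mp (hslice t ht).1) j hj
    rw [Polynomial.coeff_map] at h
    exact h
  have hF0 : F.coeff 0 = 0 := by
    apply zero_of_generic _ P hP
    intro t ht
    have h := (hslice t ht).2.1
    rw [Polynomial.coeff_map] at h
    exact h
  have hFn : F.coeff n = 0 := by
    apply zero_of_generic _ P hP
    intro t ht
    have h := (hslice t ht).2.2
    rw [Polynomial.coeff_map] at h
    exact h
  -- relations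
  have hrel : ∀ i, Rel F 1 (zz x r N s i) := by
    rintro (⟨j, b, c⟩ | i)
    · set y := (if b then (x j)⁻¹ else x j) with hy
      have hom : om (x j) = om y := by
        rw [hy]; split_ifs
        · rw [om_inv]
        · rfl
      have hy0 : y ≠ 0 := by
        rw [hy]; split_ifs
        · exact inv_ne_zero (hx _)
        · exact hx _
      have hjs : (j : ι) ∈ s := j.2
      refine ⟨fun _ => zz x r N s (Sum.inl (j, b, c)), fun _ => zz x r N s (Sum.inl (j, b, c)),
        fun _ => 0, fun _ => 1, continuousAt_const, continuousAt_const, continuousAt_const,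
        continuousAt_const, rfl, rfl, one_ne_zero, ?_⟩
      filter_upwards [hPev] with t ht
      obtain ⟨ht1, ht2⟩ := hgood t ht
      rw [mul_zero, mul_one]
      have e : zz x r N s (Sum.inl (j, b, c)) = (if c then q else 1) * y := rfl
      rw [e, hF t ht1]
      cases c
      · -- zero of the first kind
        rw [if_neg (by simp), one_mul]
        refine FF_zero x hx _ (ev_odd haL t) (hev0 t ht1) y _ hy0 ht2 s j hjs hom.symm ?_
        intro l hl
        have := hg.om_ne (Finset.ne_of_mem_erase hl).symm y 1 (by norm_num) one_ne_zero hy0 hom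
        rwa [one_mul] at this
      · rw [if_pos rfl]
        have hqy : q * y ≠ 0 := mul_ne_zero q_ne_zero hy0
        have hom1 : ∀ l ∈ s, om (q * y) ≠ om (x l) := by
          intro l hl
          by_cases hlj : (j : ι) = l
          · rw [← hlj]; exact hg.om_ne_self y hy0 hom
          · exact hg.om_ne hlj y q q6 q_ne_zero hy0 hom
        have hom2 : ∀ l ∈ s.erase (j : ι), om y ≠ om (x l) := by
          intro l hl
          have := hg.om_ne (Finset.ne_of_mem_erase hl).symm y 1 (by norm_num) one_ne_zero hy0 hom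
          rwa [one_mul] at this
        rw [FF_eq x hx _ (ev_odd haL t) (hev0 t ht1) _ _ hqy ht2 s hom1,
          DD_rec x h5 h6 h7 hx s j hjs _ (ev_odd haL t) (hev0 t ht1) _ y ht2 hy0 hom hom1 hom2]
        have hcard := Finset.card_erase_add_one hjs
        rw [ih (s.erase j).card (by omega) (s.erase j) rfl _ (ev_odd haL t) (hev0 t ht1) _ _ ht2
          (inv_ne_zero hy0) (by intro l hl; rw [om_inv]; exact hom2 l hl)]
        ring
    · -- star relations
      let rest : List ℂ[X] := (Finset.univ.erase i).toList.map p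
      let RL : List ℂ[X] := rest ++ ((prF x s).map C ++ [vP, 0])
      have hperm : AL.Perm (rest ++ [p i]) := by
        have e1 : AL = (List.finRange N).map p := by
          simp only [AL]; rw [List.ofFn_eq_map]
        have e2 : (List.finRange N).Perm ((Finset.univ : Finset (Fin N)).toList) := by
          rw [List.perm_ext_iff_of_nodup (List.nodup_finRange N) (Finset.nodup_toList _)]
          intro a; simp
        have e3 : ((Finset.univ : Finset (Fin N)).toList).Perm
            (i :: (Finset.univ.erase i).toList) := by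
          conv_lhs => rw [← Finset.insert_erase (Finset.mem_univ i)]
          exact Finset.toList_insert (Finset.notMem_erase i _)
        rw [e1]
        refine ((e2.trans e3).map p).trans ?_
        rw [List.map_cons]
        exact (List.perm_append_singleton _ _).symm
      have hpermt : ∀ t, (ev AL t).Perm (ev rest t ++ [(p i).eval t]) := by
        intro t
        have := hperm.map (fun p : ℂ[X] => p.eval t)
        simpa [ev] using this
      have hrl : rest.length + 1 = N := by
        have := hperm.length_eq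
        rw [hAL, List.length_append] at this
        simpa using this.symm
      have hRL : ∀ t, ev RL t = ev rest t ++ (prF x s ++ [vP.eval t, 0]) := by
        intro t
        simp only [RL, ev, List.map_append, List.map_map, List.map_cons, List.map_nil,
          Polynomial.eval_zero]
        congr 2
        conv_rhs => rw [← List.map_id (prF x s)]
        refine List.map_congr_left fun z _ => ?_
        simp
      have hRL1 : ev RL 1 = spL x r N s i := by
        rw [hRL]
        unfold spL spr
        congr 1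
        · simp only [rest, ev, List.map_map]
          refine List.map_congr_left fun l _ => ?_
          simp only [Function.comp_apply, p, seg_one]
        · simp only [vP, seg_one]
      let u : ℂ → ℂ := fun t => (p i).eval t
      have hu1 : u 1 = sp r i := by simp only [u, p, seg_one]
      have huc : ContinuousAt u 1 := (p i).continuous.continuousAt
      have hu1' : u 1 ≠ 0 := by rw [hu1]; exact sp_ne r hr _
      have huic : ContinuousAt (fun t => (u t)⁻¹) 1 := huc.inv₀ hu1'
      have hq2 : q^2 ≠ 0 := pow_ne_zero 2 q_ne_zero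
      have hac : ContinuousAt (fun t => q^2 * u t) 1 := continuousAt_const.mul huc
      have hbc : ContinuousAt (fun t => q^2 * (u t)⁻¹) 1 := continuousAt_const.mul huic
      let M : ℕ := rest.length + (prF x s).length + 2
      let c1 : ℂ → ℂ := fun t => PJ x (q^2 * (u t)⁻¹) s * ((u t)^M * fac (u t)⁻¹ (ev RL t))
      let c2 : ℂ → ℂ := fun t => PJ x (q^2 * u t) s * fac (u t) (ev RL t)
      have hc1c : ContinuousAt c1 1 :=
        (PJ_cont s _ 1 hbc).mul ((huc.pow M).mul (fac_cont RL _ 1 huic))
      have hc2c : ContinuousAt c2 1 := (PJ_cont s _ 1 hac).mul (fac_cont RL _ 1 huc)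
      have hPJ1 : PJ x (q^2 * u 1) s ≠ 0 := by
        refine PJ_ne (mul_ne_zero hq2 hu1') fun j hj => om_ne_large hR hx hj _ ?_
        rw [norm_mul, nq2, one_mul, hu1]; exact sp_ge r hr _
      have hPJ2 : PJ x (q^2 * (u 1)⁻¹) s ≠ 0 := by
        have h0 : q^2 * (u 1)⁻¹ ≠ 0 := mul_ne_zero hq2 (inv_ne_zero hu1')
        refine PJ_ne h0 fun j hj => om_ne_small hR hx hj _ h0 ?_
        rw [norm_inv, norm_mul, nq2, one_mul, norm_inv, inv_inv, hu1]; exact sp_ge r hr _
      have hrelt : ∀ᶠ t in 𝓝[≠] (1:ℂ), bev F t (q^2 * u t) * c1 t =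
          bev F t (q^2 * (u t)⁻¹) * c2 t := by
        have k1 : ∀ᶠ t in 𝓝[≠] (1:ℂ), PJ x (q^2 * u t) s ≠ 0 :=
          ((PJ_cont s _ 1 hac).eventually_ne hPJ1).filter_mono nhdsWithin_le_nhds
        have k2 : ∀ᶠ t in 𝓝[≠] (1:ℂ), PJ x (q^2 * (u t)⁻¹) s ≠ 0 :=
          ((PJ_cont s _ 1 hbc).eventually_ne hPJ2).filter_mono nhdsWithin_le_nhds
        filter_upwards [hPev, k1, k2] with t ht hk1 hk2
        obtain ⟨ht1, ht2⟩ := hgood t ht
        have hpi : p i ∈ AL := by simp only [AL]; exact List.mem_ofFn.mpr ⟨i, rfl⟩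
        have hut : u t ≠ 0 := ht1 _ hpi
        have hw1 : q^2 * u t ≠ 0 := mul_ne_zero hq2 hut
        have hw2 : q^2 * (u t)⁻¹ ≠ 0 := mul_ne_zero hq2 (inv_ne_zero hut)
        have ho1 := PJ_om hk1 hw1
        have ho2 := PJ_om hk2 hw2
        have hodd : Odd (ev rest t ++ [u t]).length := by
          rw [← (hpermt t).length_eq]; exact ev_odd haL t
        have hne : ∀ z ∈ ev AL t, z ≠ 0 := hev0 t ht1
        have hner : ∀ z ∈ ev rest t, z ≠ 0 := fun z hz =>
          hne z ((hpermt t).mem_iff.mpr (List.mem_append_left _ hz))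
        have hevr : Even (ev rest t).length := by
          rw [List.length_append, List.length_singleton] at hodd
          by_contra hno
          rw [Nat.not_even_iff_odd] at hno
          exact (Nat.not_odd_iff_even.mpr hno.add_one) hodd
        have hstar := DD_star x h4 hx s (ev rest t) hevr hner (u t) (vP.eval t) hut ht2
          (fun j hj => by have := ho2 j hj; rwa [om_q2_inv] at this) ho1 hodd
        rw [hF t ht1, hF t ht1, FF_eq x hx _ (ev_odd haL t) hne _ _ hw1 ht2 s ho1,
          FF_eq x hx _ (ev_odd haL t) hne _ _ hw2 ht2 s ho2,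
          DD_perm x h3 (ev_odd haL t) hodd _ _ s (hpermt t) hne,
          DD_perm x h3 (ev_odd haL t) hodd _ _ s (hpermt t) hne]
        simp only [c1, c2, M]
        rw [hRL]
        rw [ev_length] at hstar
        linear_combination ((ev AL t).prod^((ev AL t).length - 1) * PJ x (q^2 * u t) s *
          PJ x (q^2 * (u t)⁻¹) s) * hstar
      have hz : zz x r N s (Sum.inr i) = zst r i := rfl
      rw [hz]
      unfold zst
      by_cases hie : Even (i : ℕ)
      · rw [if_pos hie]
        refine ⟨fun t => q^2 * u t, fun t => q^2 * (u t)⁻¹, c1, c2, hac, hbc, hc1c, hc2c, ?_, ?_,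
          ?_, ?_⟩
        · simp only [hu1]
        · simp only [c1]
          rw [hRL1, hu1, even_zero hr ha s i hie]; ring
        · simp only [c2]
          refine mul_ne_zero hPJ1 ?_
          rw [hRL1, hu1]
          exact even_ne hR ha i hie
        · filter_upwards [hrelt] with t ht
          exact ht.symm
      · rw [if_neg hie]
        refine ⟨fun t => q^2 * (u t)⁻¹, fun t => q^2 * u t, c2, c1, hbc, hac, hc2c, hc1c, ?_, ?_,
          ?_, ?_⟩
        · simp only [hu1]
        · simp only [c2]
          rw [hRL1, hu1, odd_zero hr s i hie]; ring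
        · simp only [c1]
          refine mul_ne_zero hPJ2 (mul_ne_zero (pow_ne_zero _ hu1') ?_)
          rw [hRL1, hu1]
          exact odd_ne hR ha i hie
        · exact hrelt
  have hcardI : n ≤ Fintype.card ((s × Bool × Bool) ⊕ Fin N) + 1 := by
    rw [Fintype.card_sum, Fintype.card_prod, Fintype.card_prod, Fintype.card_bool,
      Fintype.card_fin, Fintype.card_coe]
    omega
  have hFz : F = 0 := uniq n 1 (zz x r N s) (zz_inj hg hR N) (zz_ne hx hr N s) hcardI F hFd hF0 hFn
    hrel
  -- conclusion at `t = 0`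
  obtain ⟨ht1, ht2⟩ := hgood 0 hP0
  have hfin := hF 0 ht1 w
  rw [hFz] at hfin
  have hb0 : bev (0 : ℂ[X][X]) 0 w = 0 := by simp [bev]
  rw [hb0, FF_eq x hx _ (ev_odd haL 0) (hev0 0 ht1) w _ hw ht2 s hws] at hfin
  have hvP : vP.eval 0 = v := by simp only [vP, seg_zero]
  have hDD : DD x (ev AL 0) (ev_odd haL 0) w (vP.eval 0) s = DD x A ha w v s := by
    have gen : ∀ (B : List ℂ) (hB : Odd B.length) (v' : ℂ), B = A → v' = v →
        DD x B hB w v' s = DD x A ha w v s := by
      intro B hB v' hBA hv'
      subst hBA; subst hv'; rfl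
    exact gen _ _ _ hAL0 hvP
  rw [hDD, hAL0] at hfin
  have hprod : A.prod ≠ 0 := List.prod_ne_zero (fun h => hA0 0 h rfl)
  have hPJw : PJ x w s ≠ 0 := PJ_ne hw hws
  have := hfin.symm
  rcases mul_eq_zero.mp this with h | h
  · exact absurd h (mul_ne_zero (pow_ne_zero _ hprod) hPJw)
  · exact h

/-- **The generic formula.** -/
theorem t_C (h1 : S_D1) (h1T : S_D1T) (h2 : S_D2) (h3 : S_D3) (h4 : S_D4) (h5 : S_D5)
    (h6 : S_D6) (h7 : S_D7) (h8 : S_D8) (h9 : S_D9) : S_C := by
  intro ι x hg s A ha hA0 v w hv hw hws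
  have h := t_C_aux h1 h1T h2 h3 h4 h5 h6 h7 h8 h9 hg s.card s rfl A ha hA0 v w hv hw hws
  unfold DD at h
  exact sub_eq_zero.mp h

end Pool.Agent.NH38.Step
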