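import Pool.Agent.NH38.Step.Stubs2

/-!
Step channels (helper38), task C, part 1: `om`, `EE`, `fac`, `zs`.
-/

namespace Pool.Agent.NH38.Step

open Pool.Agent.H988R2.Perc hiding X
open Pool.Agent.H988C Polynomial

theorem q4 : q^4 = q := by
  have := q_cube
  linear_combination q * this

theorem qinv : q⁻¹ = q^2 := by
  have h : q * q^2 = 1 := by rw [← pow_succ']; exact q_cube
  exact inv_eq_of_mul_eq_one_right h

theorem q2inv : (q^2)⁻¹ = q := by
  have h : q^2 * q = 1 := by rw [← pow_succ]; exact q_cube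
  exact inv_eq_of_mul_eq_one_right h

theorem om_inv (z : ℂ) : om z⁻¹ = om z := by
  unfold om; rw [inv_inv]; ring

theorem om_q (z : ℂ) : om (q * z) = q * z + q^2 * z⁻¹ := by
  unfold om
  have h := q_cube
  have hq := q_ne_zero
  rw [mul_inv]
  have : q⁻¹ = q^2 := qinv
  rw [this]

theorem om_q2 (z : ℂ) : om (q^2 * z) = q^2 * z + q * z⁻¹ := by
  unfold om
  rw [mul_inv, q2inv]

/-- `ω_z + ω_{qz} + ω_{q²z} = 0` -/
theorem om_sum (z : ℂ) : om z + om (q * z) + om (q^2 * z) = 0 := by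
  rw [om_q z, om_q2 z]
  unfold om
  have h := q_spec
  linear_combination (z + z⁻¹) * h

theorem om_q_inv (z : ℂ) : om (q * z⁻¹) = om (q^2 * z) := by
  rw [om_q _, om_q2 z, inv_inv]; ring

theorem om_q2_inv (z : ℂ) : om (q^2 * z⁻¹) = om (q * z) := by
  rw [om_q2 _, om_q z, inv_inv]; ring

theorem om_qq (z : ℂ) : om (q * (q * z)) = om (q^2 * z) := by
  rw [← mul_assoc, ← sq]

theorem om_qq2 (z : ℂ) : om (q * (q^2 * z)) = om z := by
  rw [← mul_assoc, ← pow_succ', q_cube, one_mul]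

theorem om_q2q (z : ℂ) : om (q^2 * (q * z)) = om z := by
  rw [← mul_assoc, ← pow_succ, q_cube, one_mul]

theorem om_q2q2 (z : ℂ) : om (q^2 * (q^2 * z)) = om (q * z) := by
  rw [← mul_assoc, ← pow_add, q4]

theorem om_mul (z : ℂ) (hz : z ≠ 0) : om (q * z) * om (q^2 * z) = (om z)^2 - 3 := by
  rw [om_q z, om_q2 z]
  unfold om
  have h := q_spec
  have h3 := q_cube
  have hz' : z * z⁻¹ = 1 := mul_inv_cancel₀ hz
  have h4 := q4
  linear_combination (z^2 + z⁻¹^2) * h3 + (q^2 + q^4 - 2) * hz' + h4 + h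

/-- `E(a, ω_z) = (a - ω_{qz}) (a - ω_{q²z})` -/
theorem EE_fac (a z : ℂ) (hz : z ≠ 0) : EE a (om z) = (a - om (q * z)) * (a - om (q^2 * z)) := by
  have h1 := om_sum z
  have h2 := om_mul z hz
  unfold EE
  linear_combination (-1) * h2 + a * h1

theorem EE_comm (a b : ℂ) : EE a b = EE b a := by
  unfold EE; ring

theorem om_sub (x y : ℂ) (hx : x ≠ 0) (hy : y ≠ 0) : x * y * (om x - om y) = (x - y) * (x * y - 1) := by
  unfold om
  field_simp
  ring

theorem om_eq_iff {x y : ℂ} (hx : x ≠ 0) (hy : y ≠ 0) : om x = om y ↔ x = y ∨ x * y = 1 := by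
  have h := om_sub x y hx hy
  constructor
  · intro he
    rw [he, sub_self, mul_zero] at h
    rcases mul_eq_zero.mp h.symm with h1 | h1
    · exact Or.inl (sub_eq_zero.mp h1)
    · exact Or.inr (sub_eq_zero.mp h1)
  · rintro (rfl | h1)
    · rfl
    · have : x = y⁻¹ := eq_inv_of_mul_eq_one_left h1
      rw [this, om_inv]

/-! ### `fac` -/

theorem fac_nil' (x : ℂ) : fac x [] = 1 := by simp [fac]

theorem fac_cons' (x y : ℂ) (l : List ℂ) :
    fac x (y :: l) = ((x - q^2 * y) * (x * y - q^2)) * fac x l := by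
  simp [fac]

theorem fac_app (x : ℂ) (u v : List ℂ) : fac x (u ++ v) = fac x u * fac x v := by
  simp [fac]

theorem fac_perm' (x : ℂ) {l m : List ℂ} (h : l.Perm m) : fac x l = fac x m := by
  unfold fac
  exact (h.map _).prod_eq

/-- `∏ (a - ω_y)` -/
noncomputable def pom (a : ℂ) (l : List ℂ) : ℂ := (l.map (fun y => a - om y)).prod

theorem pom_nil (a : ℂ) : pom a [] = 1 := by simp [pom]

theorem pom_cons (a y : ℂ) (l : List ℂ) : pom a (y :: l) = (a - om y) * pom a l := by simp [pom]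

theorem pom_app (a : ℂ) (u v : List ℂ) : pom a (u ++ v) = pom a u * pom a v := by simp [pom]

theorem pom_perm (a : ℂ) {l m : List ℂ} (h : l.Perm m) : pom a l = pom a m := by
  unfold pom
  exact (h.map _).prod_eq

theorem fac_eq_pom (x : ℂ) (hx : x ≠ 0) : ∀ l : List ℂ, (∀ y ∈ l, y ≠ 0) →
    fac x l = (q^2 * x)^l.length * l.prod * pom (om (q * x)) l := by
  intro l
  induction l with
  | nil => intro _; simp [fac, pom]
  | cons y l ih =>
    intro h
    have hy : y ≠ 0 := h y (by simp)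
    rw [fac_cons', pom_cons, ih (fun z hz => h z (by simp [hz])), om_q x]
    have h1 : (x - q^2 * y) * (x * y - q^2) = (q^2 * x) * y * (q * x + q^2 * x⁻¹ - om y) := by
      unfold om
      field_simp
      have h3 := q_cube
      linear_combination (-(x^2) * y) * h3
    rw [h1]
    simp only [List.length_cons, List.prod_cons]
    ring

theorem fac_zero_right (x : ℂ) : fac x [0] = -q^2 * x := by
  simp [fac]; ring

/-! ### `zs` -/

theorem zs_perm {l l' : List ℂ} (h : Even l.length) (hp : l.Perm l') : zs l = zs l' := by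
  unfold zs
  rw [Z_perm h hp, hp.prod_eq, hp.length_eq]

theorem zs_mul {l : List ℂ} (hl : ∀ z ∈ l, z ≠ 0) :
    zs l * (l.prod^(l.length/2 - 1) * q^((l.length/2) * (l.length/2 - 1))) = Z l := by
  unfold zs
  refine div_mul_cancel₀ _ (mul_ne_zero (pow_ne_zero _ ?_) (pow_ne_zero _ q_ne_zero))
  exact List.prod_ne_zero (fun h => hl 0 h rfl)

theorem zs_nil : zs [] = 1 := by
  unfold zs
  rw [Z_nil]; simp

theorem zs_two (x y : ℂ) : zs [x, y] = 1 := by
  unfold zs
  rw [Z_two]; simp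

theorem zs_inv (x : ℂ) (l : List ℂ) (hx : x ≠ 0) (h : Odd l.length) :
    zs (x :: l) = zs (x⁻¹ :: l) := by
  obtain ⟨m, hm⟩ := h
  unfold zs
  rw [Z_inv x l hx ⟨m, hm⟩]
  simp only [List.prod_cons, List.length_cons]
  have e1 : (l.length + 1) / 2 = m + 1 := by omega
  have e2 : l.length - 1 = m + m := by omega
  rw [e1, e2, Nat.add_sub_cancel, mul_pow, mul_pow, inv_pow, pow_add]
  have hxm : x^m ≠ 0 := pow_ne_zero _ hx
  field_simp

theorem zs_rec (x : ℂ) (l : List ℂ) (hx : x ≠ 0) (hl : ∀ z ∈ l, z ≠ 0) (h : Even l.length) :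
    zs (x :: (q^2 * x) :: l) = pom (om (q * x)) l * zs l := by
  obtain ⟨m, hm⟩ := h
  have hq := q_ne_zero
  have hp : l.prod ≠ 0 := List.prod_ne_zero (fun h => hl 0 h rfl)
  have h1 := Z_rec [] l x (by simp [hm])
  simp only [List.nil_append] at h1
  have h2 := zs_mul hl
  have h3 := fac_eq_pom x hx l hl
  have e1 : (l.length + 1 + 1) / 2 - 1 = m := by omega
  have e2 : (l.length + 1 + 1) / 2 = m + 1 := by omega
  have e3 : l.length / 2 = m := by omega
  rw [← h2, h3, e3] at h1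
  unfold zs at h1 ⊢
  rw [h1]
  simp only [List.prod_cons, List.length_cons]
  rw [e1, e2, e3]
  have hqx : q^2 * x ≠ 0 := mul_ne_zero (pow_ne_zero 2 hq) hx
  have hden : (x * (q^2 * x * l.prod))^m * q^((m+1) * m) ≠ 0 :=
    mul_ne_zero (pow_ne_zero _ (mul_ne_zero hx (mul_ne_zero hqx hp))) (pow_ne_zero _ hq)
  rw [div_eq_iff hden]
  have hl2 : l.length = 2 * m := by omega
  rw [hl2]
  rcases Nat.eq_zero_or_pos m with h0 | h0
  · subst h0
    have : l = [] := List.length_eq_zero_iff.mp (by omega)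
    subst this
    simp
  · obtain ⟨n, rfl⟩ : ∃ n, m = n + 1 := ⟨m - 1, by omega⟩
    rw [Nat.add_sub_cancel]
    have hd2 : l.prod^n * q^((n+1)*n) ≠ 0 := mul_ne_zero (pow_ne_zero _ hp) (pow_ne_zero _ hq)
    ring

end Pool.Agent.NH38.Step
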