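import Pool.Agent.NH38.Step.HomG

/-!
Step channels, task H (helper90): the homogeneous limit, `S_C → S_Alg`.
-/

namespace Pool.Agent.NH38.Step.Hom

open Pool.Agent.H988R2.Perc hiding X
open Pool.Agent.H988C
open LaurentPolynomial (T C invert)
open Filter Topology

theorem om_cube (z : ℂ) (hz : z ≠ 0) : om (z^3) = (om z)^3 - 3 * om z := by
  unfold om
  field_simp
  ring

theorem om_inv (z : ℂ) : om z⁻¹ = om z := by
  unfold om
  rw [inv_inv]; ring

theorem phi_prF {ι : Type} (x : ι → ℂ) (s : Finset ι) (w : ℂ) :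
    ((prF x s).map (fun c => om w - om c)).prod = ∏ j ∈ s, (om w - om (x j))^2 := by
  have h : ∀ l : List ι, ((prs (l.map x)).map (fun c => om w - om c)).prod =
      (l.map (fun j => (om w - om (x j))^2)).prod := by
    intro l
    induction l with
    | nil => simp [prs]
    | cons i l ih =>
      have h1 : prs ((i :: l).map x) = x i :: (x i)⁻¹ :: prs (l.map x) := rfl
      rw [h1, List.map_cons, List.map_cons, List.prod_cons, List.prod_cons, ih, List.map_cons,
        List.prod_cons, om_inv]
      ring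
  unfold prF
  rw [h, Finset.prod_map_toList]

theorem phi_cons (c : ℂ) (S : List ℂ) (w : ℂ) : phi (c :: S) w = (om w - om c) * phi S w := by
  unfold phi
  rw [List.map_cons, List.prod_cons]
  ring

theorem phi_app {ι : Type} (A : List ℂ) (x : ι → ℂ) (s : Finset ι) (w : ℂ) :
    phi (A ++ prF x s) w = phi A w * ∏ j ∈ s, (om w - om (x j))^2 := by
  unfold phi
  rw [List.map_append, List.prod_append, phi_prF]
  ring

theorem prF_len {ι : Type} (x : ι → ℂ) (s : Finset ι) : (prF x s).length = 2 * s.card := by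
  unfold prF
  rw [prs_length, List.length_map, Finset.length_toList]

theorem prF_ne {ι : Type} (x : ι → ℂ) (s : Finset ι) (h : ∀ i, x i ≠ 0) : ∀ c ∈ prF x s, c ≠ 0 := by
  intro c hc
  unfold prF prs at hc
  rw [List.mem_flatMap] at hc
  obtain ⟨d, hd, hc⟩ := hc
  rw [List.mem_map] at hd
  obtain ⟨i, _, rfl⟩ := hd
  rcases List.mem_cons.mp hc with rfl | hc
  · exact h i
  · rcases List.mem_cons.mp hc with rfl | hc
    · exact inv_ne_zero (h i)
    · exact absurd hc List.not_mem_nil

theorem on_ne (n : ℕ) : ∀ c ∈ on n, c ≠ 0 := by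
  intro c hc
  unfold on at hc
  rw [List.eq_of_mem_replicate hc]; exact one_ne_zero

theorem on_len (n : ℕ) : (on n).length = n := by simp [on]

/-- the function space and the evaluation map -/
noncomputable def Ev : LP →ₗ[ℂ] (DD → ℂ) where
  toFun F := fun w => eL w.1 (DD_ne w.2) F
  map_add' F G := by funext w; simp
  map_smul' c F := by
    funext w
    rw [LaurentPolynomial.smul_eq_C_mul, map_mul, eL_C]
    rfl

noncomputable def W0 (m : ℕ) : Submodule ℂ LP := (VV m).map (LinearMap.mulLeft ℂ oA) ⊔ VV m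

theorem VV_fin (m : ℕ) : FiniteDimensional ℂ (VV m) := by
  unfold VV
  exact FiniteDimensional.span_of_finite ℂ ((Set.finite_Iio m).image bs)

theorem W0_fin (m : ℕ) : FiniteDimensional ℂ (W0 m) := by
  have := VV_fin m
  unfold W0
  infer_instance

theorem W0_closed (m : ℕ) : IsClosed (((W0 m).map Ev : Submodule ℂ (DD → ℂ)) : Set (DD → ℂ)) := by
  have := W0_fin m
  exact Submodule.closed_of_finiteDimensional _

section fam

variable (a k : ℕ)

/-- `K` along the family -/
noncomputable def Kf (s w : ℂ) : ℂ :=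
  (∏ i : Fin k, (om (w^3) - om ((xs k s i)^3))) * (om w - 2) * (phi (on a) w * zs (w :: on a)) *
    zs (1 :: (on a ++ prF (xs k s) Finset.univ))

noncomputable def ff (ha : Odd (on a).length) (s w : ℂ) : ℂ :=
  (TQ (on a) w (prF (xs k s) Finset.univ) 1 - GQ (on a) ha w (prF (xs k s) Finset.univ) 1) /
    cst (on a) w 1 k * phi (1 :: (on a ++ prF (xs k s) Finset.univ)) w

theorem cst_ne (w : ℂ) (hw : w ≠ 0) : cst (on a) w 1 k ≠ 0 := by
  unfold cst
  have h : (on a).prod = 1 := by simp [on]
  rw [h, one_pow, one_mul]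
  exact mul_ne_zero (pow_ne_zero _ (by simpa using hw)) (pow_ne_zero _ q_ne_zero)

theorem fam_mem (hC : S_C) (hao : Odd a) (ha : Odd (on a).length) (s : ℂ) (hg : Gen (xs k s))
    (ho : ∀ w ∈ DD, ∀ i : Fin k, om w ≠ om (xs k s i)) :
    (fun w : DD => (2 - om (q^2 * w.1)) * Kf a k s w.1 - ff a k ha s w.1) ∈
      (W0 (a + 2*k + 1)).map Ev := by
  classical
  set x := xs k s with hx
  obtain ⟨na, hna⟩ := hao
  have hx0 : ∀ i, x i ≠ 0 := fun i => (hg.1 i).1
  -- the lists `S_i`
  let Sl : Fin k → List ℂ := fun i => 1 :: x i :: (on a ++ prF x (Finset.univ.erase i))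
  have hcard : ∀ i : Fin k, (Finset.univ.erase i).card = k - 1 := by
    intro i
    rw [Finset.card_erase_of_mem (Finset.mem_univ i), Finset.card_univ, Fintype.card_fin]
  have hSl : ∀ i : Fin k, (Sl i).length = 2 * (na + k) + 1 := by
    intro i
    simp only [Sl, List.length_cons, List.length_append, on_len, prF_len, hcard]
    have := i.2
    omega
  have hSn : ∀ i : Fin k, ∀ c ∈ Sl i, c ≠ 0 := by
    intro i c hc
    rcases List.mem_cons.mp hc with rfl | hc
    · exact one_ne_zero
    rcases List.mem_cons.mp hc with rfl | hc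
    · exact hx0 i
    rcases List.mem_append.mp hc with hc | hc
    · exact on_ne a c hc
    · exact prF_ne x _ hx0 c hc
  have hPex : ∀ i : Fin k, ∃ P : Polynomial ℂ, P.natDegree ≤ 2 * (na + k) ∧
      ∀ w, Z (w :: Sl i) = P.eval w := by
    intro i
    obtain ⟨P, hP, hP'⟩ := (Z_pd (2 * (na + k) + 2) ⟨na + k + 1, by ring⟩).univ [] (Sl i)
      (by rw [hSl]; simp)
    exact ⟨P, by omega, fun w => hP' w⟩
  choose P hPd hP using hPex
  let c : Fin k → ℂ := fun i => EE (om (x i)) (om (x i)) *
    (∏ j ∈ Finset.univ.erase i, EE (om (x i)) (om (x j)) / (om (x i) - om (x j))) * zs (x i :: on a)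
  let F : Fin k → LP := fun i => phiL (Sl i) * zsL (na + k) (Sl i) (P i)
  have hF : ∀ i, F i ∈ VV (a + 2*k + 1) := by
    intro i
    have h1 := FS_mem' (Sl i) (na + k) (hSl i) (hSn i) (P i) (hPd i) (hP i)
    rw [show a + 2*k + 1 = 2 * (na + k) + 2 by omega]
    exact h1
  refine ⟨oA * (∑ i, c i • F i) + ∑ i, ((om (x i) + 2) * c i) • F i, ?_, ?_⟩
  · show _ ∈ W0 (a + 2*k + 1)
    unfold W0
    refine Submodule.add_mem_sup ?_ ?_
    · exact ⟨∑ i, c i • F i, Submodule.sum_mem _ fun i _ => Submodule.smul_mem _ _ (hF i), rfl⟩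
    · exact Submodule.sum_mem _ fun i _ => Submodule.smul_mem _ _ (hF i)
  · funext w
    obtain ⟨w, hw⟩ := w
    have hw0 : w ≠ 0 := DD_ne hw
    show eL w hw0 _ = _
    have hFe : ∀ i, eL w hw0 (F i) = phi (Sl i) w * zs (w :: Sl i) := by
      intro i
      show eL w hw0 (phiL (Sl i) * zsL (na + k) (Sl i) (P i)) = _
      rw [map_mul, eL_phiL, eL_zsL (Sl i) (na + k) (hSl i) (P i) (hP i)]
    rw [map_add, map_mul, eL_oA, map_sum, map_sum]
    have e1 : ∀ i ∈ (Finset.univ : Finset (Fin k)), eL w hw0 (c i • F i) =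
        c i * (phi (Sl i) w * zs (w :: Sl i)) := by
      intro i _
      rw [LaurentPolynomial.smul_eq_C_mul, map_mul, eL_C, hFe]
    have e2 : ∀ i ∈ (Finset.univ : Finset (Fin k)), eL w hw0 (((om (x i) + 2) * c i) • F i) =
        (om (x i) + 2) * c i * (phi (Sl i) w * zs (w :: Sl i)) := by
      intro i _
      rw [LaurentPolynomial.smul_eq_C_mul, map_mul, eL_C, hFe]
    rw [Finset.sum_congr rfl e1, Finset.sum_congr rfl e2]
    simp only
    -- the formula
    have hform := hC x hg Finset.univ (on a) ha (on_ne a) 1 w one_ne_zero hw0 (fun i _ => ho w hw i)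
    rw [Finset.card_univ, Fintype.card_fin] at hform
    have hff : ff a k ha s w = RHS x (on a) w 1 Finset.univ *
        phi (1 :: (on a ++ prF x Finset.univ)) w := by
      unfold ff
      rw [← hx, hform, mul_div_cancel_left₀ _ (cst_ne a k w hw0)]
    have hphi : phi (1 :: (on a ++ prF x Finset.univ)) w =
        (om w - 2) * (phi (on a) w * ∏ j, (om w - om (x j))^2) := by
      rw [phi_cons, phi_app, om_one]
    have hphi2 : ∀ i : Fin k, phi (1 :: (on a ++ prF x Finset.univ)) w =
        (om w - om (x i)) * phi (Sl i) w := by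
      intro i
      rw [hphi]
      simp only [Sl]
      rw [phi_cons, phi_cons, phi_app, om_one, ← Finset.mul_prod_erase Finset.univ
        (fun j => (om w - om (x j))^2) (Finset.mem_univ i)]
      ring
    have hK : (∏ j, EE (om w) (om (x j)) / (om w - om (x j))) *
        phi (1 :: (on a ++ prF x Finset.univ)) w =
        (∏ i : Fin k, (om (w^3) - om ((x i)^3))) * (om w - 2) * phi (on a) w := by
      rw [hphi]
      have : (∏ j, EE (om w) (om (x j)) / (om w - om (x j))) * ∏ j, (om w - om (x j))^2 =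
          ∏ i : Fin k, (om (w^3) - om ((x i)^3)) := by
        rw [← Finset.prod_mul_distrib]
        refine Finset.prod_congr rfl fun j _ => ?_
        have hne : om w - om (x j) ≠ 0 := sub_ne_zero.mpr (ho w hw j)
        rw [om_cube w hw0, om_cube (x j) (hx0 j)]
        unfold EE
        field_simp
        ring
      rw [← this]
      ring
    have hR : RHS x (on a) w 1 Finset.univ * phi (1 :: (on a ++ prF x Finset.univ)) w =
        (2 - om (q^2*w)) * (∏ j, EE (om w) (om (x j)) / (om w - om (x j))) * zs (w :: on a) *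
          zs (1 :: (on a ++ prF x Finset.univ)) * phi (1 :: (on a ++ prF x Finset.univ)) w -
        ∑ i, (om (q*w) + om (x i) + 2) / (om w - om (x i)) * EE (om (x i)) (om (x i)) *
        (∏ j ∈ Finset.univ.erase i, EE (om (x i)) (om (x j)) / (om (x i) - om (x j))) *
          zs (x i :: on a) * zs (w :: 1 :: x i :: (on a ++ prF x (Finset.univ.erase i))) *
          phi (1 :: (on a ++ prF x Finset.univ)) w := by
      unfold RHS
      rw [om_one, sub_mul, Finset.sum_mul]
      have hinst' : (fun a b : Fin k => Classical.propDecidable (a = b)) = (fun a b => instDecidableEqFin k a b) := Subsingleton.elim _ _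
      rw [hinst']
    rw [hff, hR]
    unfold Kf
    rw [← hx]
    have hsum : ∀ i ∈ (Finset.univ : Finset (Fin k)),
        (om (q*w) + om (x i) + 2) / (om w - om (x i)) * EE (om (x i)) (om (x i)) *
        (∏ j ∈ Finset.univ.erase i, EE (om (x i)) (om (x j)) / (om (x i) - om (x j))) *
          zs (x i :: on a) * zs (w :: 1 :: x i :: (on a ++ prF x (Finset.univ.erase i))) *
          phi (1 :: (on a ++ prF x Finset.univ)) w =
        om (q*w) * (c i * (phi (Sl i) w * zs (w :: Sl i))) +
          (om (x i) + 2) * c i * (phi (Sl i) w * zs (w :: Sl i)) := by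
      intro i _
      rw [hphi2 i]
      have hne : om w - om (x i) ≠ 0 := sub_ne_zero.mpr (ho w hw i)
      simp only [c, Sl]
      field_simp
      ring
    rw [Finset.sum_congr rfl hsum, Finset.sum_add_distrib, ← Finset.mul_sum]
    linear_combination ((2 - om (q^2 * w)) * zs (w :: on a) * zs (1 :: (on a ++ prF x Finset.univ))) * hK

theorem listprod_cont (L : List (ℂ → ℂ)) (h : ∀ f ∈ L, ContinuousAt f 0) :
    ContinuousAt (fun s => (L.map (fun f => f s)).prod) 0 := by
  induction L with
  | nil => simpa using continuousAt_const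
  | cons f L ih =>
    simp only [List.map_cons, List.prod_cons]
    exact (h f List.mem_cons_self).mul (ih (fun g hg => h g (List.mem_cons_of_mem _ hg)))

theorem on_prod (n : ℕ) : (on n).prod = 1 := by simp [on]

theorem zs_cont (hao : Odd a) : ContinuousAt (fun s => zs (1 :: (on a ++ prF (xs k s) Finset.univ))) 0 := by
  have hl : ∀ s, (1 :: (on a ++ prF (xs k s) Finset.univ)).length = a + 2*k + 1 := by
    intro s
    rw [List.length_cons, List.length_append, on_len, prF_len, Finset.card_univ, Fintype.card_fin]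
  unfold zs
  simp only [hl]
  refine ContinuousAt.div ?_ ?_ ?_
  · have h := cont_mid (Z_pd (a + 2*k + 1) (by
      obtain ⟨r, hr⟩ := hao
      exact ⟨r + k + 1, by omega⟩)) k (1 :: on a) [] (by simp [on_len]; omega)
    simpa using h
  · refine ContinuousAt.mul (ContinuousAt.pow ?_ _) continuousAt_const
    have h := listprod_cont (Lx k) (Lx_cont k)
    simp only [Lx_map] at h
    simp only [List.prod_cons, List.prod_append, on_prod, one_mul]
    exact h
  · rw [prF_zero, List.prod_cons, List.prod_append, on_prod, on_prod]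
    exact mul_ne_zero (pow_ne_zero _ (by norm_num)) (pow_ne_zero _ q_ne_zero)

theorem Kf_cont (hao : Odd a) (w : ℂ) : ContinuousAt (fun s => Kf a k s w) 0 := by
  unfold Kf
  refine ContinuousAt.mul (ContinuousAt.mul (ContinuousAt.mul ?_ continuousAt_const) continuousAt_const)
    (zs_cont a k hao)
  refine tendsto_finsetProd _ fun i _ => ?_
  have h : ContinuousAt (fun s => xs k s i) 0 := (xs_cont k i).continuousAt
  refine continuousAt_const.sub ?_
  unfold om
  have h3 : ContinuousAt (fun s => (xs k s i)^3) 0 := h.pow 3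
  exact h3.add (h3.inv₀ (by rw [xs_zero]; norm_num))

theorem ff_cont (ha : Odd (on a).length) (w : ℂ) : ContinuousAt (fun s => ff a k ha s w) 0 := by
  unfold ff
  refine ContinuousAt.mul (ContinuousAt.div_const ?_ _) ?_
  · obtain ⟨F, hF, hF'⟩ := TQ_pd (on a) ha (2*k) (by simp)
    obtain ⟨G, hG, hG'⟩ := GQ_pd (on a) ha (2*k) (by simp)
    have hl : ∀ s, (prF (xs k s) Finset.univ).length = 2*k := by
      intro s
      rw [prF_len, Finset.card_univ, Fintype.card_fin]
    have h1 : (fun s => TQ (on a) w (prF (xs k s) Finset.univ) 1 -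
        GQ (on a) ha w (prF (xs k s) Finset.univ) 1) = fun s =>
        F ((on a ++ [w]) ++ (prF (xs k s) Finset.univ ++ [1, 0])) -
        G ((on a ++ [w]) ++ (prF (xs k s) Finset.univ ++ [1, 0])) := by
      funext s
      rw [hF' w _ 1 (hl s), hG' w _ 1 (hl s)]
      simp
    rw [h1]
    exact (cont_mid hF k (on a ++ [w]) [1, 0] (by simp; omega)).sub
      (cont_mid hG k (on a ++ [w]) [1, 0] (by simp; omega))
  · have h1 : (fun s => phi (1 :: (on a ++ prF (xs k s) Finset.univ)) w) = fun s =>
        (om w - om 1) * (phi (on a) w * ∏ j, (om w - om (xs k s j))^2) := by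
      funext s
      rw [phi_cons, phi_app]
    rw [h1]
    refine continuousAt_const.mul (continuousAt_const.mul ?_)
    refine tendsto_finsetProd _ fun i _ => ?_
    have h : ContinuousAt (fun s => xs k s i) 0 := (xs_cont k i).continuousAt
    refine ContinuousAt.pow ?_ 2
    refine continuousAt_const.sub ?_
    unfold om
    exact h.add (h.inv₀ (by rw [xs_zero]; norm_num))

theorem lim_mem (hC : S_C) (hao : Odd a) (ha : Odd (on a).length) :
    (fun w : DD => (2 - om (q^2 * w.1)) * Kf a k 0 w.1 - ff a k ha 0 w.1) ∈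
      (W0 (a + 2*k + 1)).map Ev := by
  have hcl := W0_closed (a + 2*k + 1)
  refine hcl.mem_of_tendsto (b := 𝓝[≠] (0:ℂ))
    (f := fun s => fun w : DD => (2 - om (q^2 * w.1)) * Kf a k s w.1 - ff a k ha s w.1) ?_ ?_
  · rw [tendsto_pi_nhds]
    intro w
    have h : ContinuousAt (fun s => (2 - om (q^2 * w.1)) * Kf a k s w.1 - ff a k ha s w.1) 0 :=
      (continuousAt_const.mul (Kf_cont a k hao w.1)).sub (ff_cont a k ha w.1)
    exact h.tendsto.mono_left nhdsWithin_le_nhds
  · filter_upwards [ev_gen k, ev_om k] with s h1 h2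
    exact fam_mem a k hC hao ha s h1 h2

end fam

theorem ones_list (a k : ℕ) : (1 : ℂ) :: (on a ++ on (2*k)) = on (a + 2*k + 1) := by
  unfold on
  rw [List.replicate_append_replicate, ← List.replicate_succ]

theorem phi_on (n : ℕ) (w : ℂ) : phi (on n) w = (w - w⁻¹) * (om w - 2)^n := by
  unfold phi on
  rw [List.map_replicate, List.prod_replicate, om_one]

theorem t_H : S_H := by
  intro hC a k ha
  have ha' : Odd (on a).length := on_odd ha
  obtain ⟨na, hna⟩ := id ha
  set j := na + 1 + k with hj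
  have hEk : Even (2*k) := by simp
  -- polynomials in `w`
  obtain ⟨FG, hFG, hFG'⟩ := GQ_pd (on a) ha' (2*k) hEk
  obtain ⟨PG, _, hPG⟩ := hFG.univ (on a) (on (2*k) ++ [1, 0]) (by simp [on_len]; omega)
  have hG : ∀ w, GQ (on a) ha' w (on (2*k)) 1 = PG.eval w := by
    intro w
    rw [← hPG, hFG' w _ 1 (on_len _)]
  obtain ⟨PO, hPOd, hPO'⟩ := (Z_pd (2*j+2) ⟨j+1, by ring⟩).univ [] (on (2*j) ++ [0])
    (by simp [on_len])
  have hPO : ∀ w, Z (w :: (on (2*j) ++ [0])) = PO.eval w := fun w => hPO' w
  obtain ⟨PA, hPAd, hPA'⟩ := (Z_pd (a+1) ⟨na+1, by omega⟩).univ [] (on a) (by simp [on_len])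
  have hPA : ∀ w, Z (w :: on a) = PA.eval w := fun w => hPA' w
  set Zc := Z ((on a).map (fun x => x⁻¹) ++ [0]) with hZc
  have hT : ∀ w, TQ (on a) w (on (2*k)) 1 = Zc * PO.eval w := by
    intro w
    unfold TQ
    rw [← hPO, mul_comm]
    congr 1
    apply Z_perm
    · simp [on_len]; exact ⟨na + k + 2, by omega⟩
    · refine List.perm_middle.trans (List.Perm.cons _ ?_)
      have : on a ++ (on (2*k) ++ [1, 0]) = on (2*j) ++ [0] := by
        have h1 : ([1, 0] : List ℂ) = on 1 ++ [0] := rfl
        rw [h1]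
        unfold on
        rw [← List.append_assoc, ← List.append_assoc, List.replicate_append_replicate,
          List.replicate_append_replicate]
        congr 2
        omega
      rw [this]
  set κ : ℂ := q^(((a+1)/2 + k + 1) * ((a+1)/2 + k) + (a+1)/2 * ((a+1)/2 - 1)) with hκ
  have hκ0 : κ ≠ 0 := pow_ne_zero _ q_ne_zero
  have ha2 : (a+1)/2 = na + 1 := by omega
  have hcst : ∀ w, cst (on a) w 1 k = w^j * κ := by
    intro w
    unfold cst
    rw [on_prod, on_len, one_pow, one_mul, mul_one, hκ, ha2, hj]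
  set g : LP := Polynomial.toLaurent (Polynomial.C Zc * PO - PG) * T (-(j:ℤ)) * C κ⁻¹ with hg
  set t : LP := Polynomial.toLaurent (Polynomial.C Zc * PO) * T (-(j:ℤ)) * C κ⁻¹ with ht
  set d : LP := zsL na (on a) PA with hd
  set z1 : ℂ := zs (1 :: (on a ++ on (2*k))) with hz1
  set ca : ℂ := PA.eval 0 * ((on a).prod^na * q^((na+1)*na))⁻¹ with hca
  -- the limit identity
  have hlim := lim_mem a k hC ha ha'
  obtain ⟨H, hH, hHe⟩ := hlim
  have hH' : H ∈ W0 (a + 2*k + 1) := hH
  unfold W0 at hH'
  rw [Submodule.mem_sup] at hH'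
  obtain ⟨y, hy, G1, hG1, hyz⟩ := hH'
  obtain ⟨G0, hG0, hG0e⟩ := hy
  have hG0e' : oA * G0 = y := hG0e
  have hN1 : a + 2*k + 2 - 1 = a + 2*k + 1 := by omega
  have h2j : a + 2*k + 1 = 2*j := by omega
  have L1 : g * (dl * (oL - 2)^(a + 2*k + 2 - 1)) = (2 - oB) * ((T 3 + T (-3) - 2)^k * (oL - 2) *
      (dl * (oL - 2)^a * d) * C z1) - oA * G0 - G1 := by
    apply LP_ext DD DD_inf
    intro w hw0 hw
    have h1 := congrFun hHe ⟨w, hw⟩
    have h2 : eL w hw0 H = (2 - om (q^2 * w)) * Kf a k 0 w - ff a k ha' 0 w := h1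
    rw [← hyz, ← hG0e'] at h2
    have h3 : eL w hw0 (g * (dl * (oL - 2)^(a + 2*k + 2 - 1))) = ff a k ha' 0 w := by
      unfold ff
      rw [prF_zero, ones_list, phi_on, hT, hG, hcst, hN1, hg]
      rw [map_mul, map_mul, map_mul, eL_poly, eL_T, eL_C, map_mul, map_pow, map_sub, eL_oL, eL_dl]
      rw [show eL w hw0 2 = 2 from map_ofNat (eL w hw0) 2]
      rw [Polynomial.eval_sub, Polynomial.eval_mul, Polynomial.eval_C, zpow_neg, zpow_natCast]
      field_simp
    have h4 : eL w hw0 ((T 3 + T (-3) - 2)^k * (oL - 2) * (dl * (oL - 2)^a * d) * C z1) =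
        Kf a k 0 w := by
      unfold Kf
      rw [prF_zero, phi_on, ← hz1]
      simp only [xs_zero, Finset.prod_const, Finset.card_univ, Fintype.card_fin, one_pow, om_one]
      rw [map_mul, map_mul, map_mul, map_pow, map_mul, map_mul, map_pow, eL_C, eL_dl, hd,
        eL_zsL (on a) na (by rw [on_len]; exact hna) PA hPA]
      simp only [map_sub, map_add, eL_T, eL_oL]
      rw [show eL w hw0 2 = 2 from map_ofNat (eL w hw0) 2]
      have h5 : w^(3:ℤ) + w^(-3:ℤ) = om (w^3) := by
        unfold om
        rw [zpow_neg]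
        norm_cast
      rw [h5]
    rw [map_sub, map_sub, map_mul (eL w hw0) (2 - oB), h4, map_sub, eL_oB,
      show eL w hw0 2 = 2 from map_ofNat (eL w hw0) 2, h3]
    rw [map_add] at h2
    linear_combination h2
  have L2 : dl * (oL - 2)^a * d - C ca * bs a ∈ VV a := by
    have h1 := FS_mem (on a) na (by rw [on_len]; exact hna) (on_ne a) PA (by omega) hPA
    rw [phiL_on, ← hna] at h1
    exact h1
  have L3 : t * (dl * (oL - 2)^(a + 2*k + 2 - 1)) - C (ca * z1) * bs (a + 2*k + 2 - 1) ∈
      VV (a + 2*k + 2 - 1) := by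
    rw [hN1, h2j]
    have h1 := Fodd_mem j PO (by omega) hPO
    have h2 := Submodule.smul_mem _ (Zc * κ⁻¹) h1
    have h3 : (Zc * κ⁻¹) • (Polynomial.toLaurent PO * T (-(j:ℤ)) * (dl * (oL - 2)^(2*j)) -
        C (PO.eval 0) * bs (2*j)) = t * (dl * (oL - 2)^(2*j)) - C (ca * z1) * bs (2*j) := by
      rw [LaurentPolynomial.smul_eq_C_mul]
      have h4 : Zc * κ⁻¹ * PO.eval 0 = ca * z1 := by
        have hZ0 : PO.eval 0 = q^(8*j) * Z (on (2*j)) := by
          rw [← hPO]
          have h1 : ((0:ℂ) :: (on (2*j) ++ [0])).Perm ([] ++ (0:ℂ) :: (q^2 * 0) :: on (2*j)) := by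
            rw [mul_zero, List.nil_append]
            refine List.Perm.cons _ ?_
            refine (List.perm_append_comm).trans ?_
            simp
          rw [Z_perm (by simp [on_len]; exact ⟨j+1, by ring⟩) h1, Z_rec [] _ 0 (by simp [on_len]),
            List.nil_append]
          congr 1
          unfold fac on
          rw [List.map_replicate, List.prod_replicate]
          rw [show ((0:ℂ) - q^2 * 1) * (0 * 1 - q^2) = q^4 by ring, ← pow_mul]
          congr 1
          ring
        have hZA : PA.eval 0 = Zc := by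
          rw [← hPA, hZc]
          apply Z_perm
          · simp [on_len]; exact ⟨na+1, by omega⟩
          · have : (on a).map (fun x => x⁻¹) = on a := by simp [on]
            rw [this]
            exact (List.perm_append_comm (l₁ := [0]) (l₂ := on a))
        have hz : z1 = Z (on (2*j)) / q^(j * (j-1)) := by
          rw [hz1, ones_list, h2j]
          unfold zs
          rw [on_prod, on_len, one_pow, one_mul, show 2*j/2 = j by omega]
        rw [hZ0, hz, hca, hZA, on_prod, one_pow, one_mul, hκ, ha2]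
        have hq0 := q_ne_zero
        have e1 : (na + 1 + k + 1) * (na + 1 + k) + (na+1) * (na + 1 - 1) = (j+1)*j + (na+1)*na := by
          rw [← hj, Nat.add_sub_cancel]
        rw [e1, pow_add]
        have e2 : q^(8*j) * q^(j*(j-1)) = q^((j+1)*j) := by
          obtain ⟨i, hi⟩ : ∃ i, j = i + 1 := ⟨j - 1, by omega⟩
          rw [hi, Nat.add_sub_cancel, ← pow_add]
          have : 8 * (i+1) + (i+1)*i = (i+1+1)*(i+1) + 3 * (2*(i+1)) := by ring
          rw [this, pow_add, pow_mul q 3, q_cube, one_pow, mul_one]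
        have p1 : q^(j*(j-1)) ≠ 0 := pow_ne_zero _ hq0
        have p2 : q^((j+1)*j) ≠ 0 := pow_ne_zero _ hq0
        have p3 : q^((na+1)*na) ≠ 0 := pow_ne_zero _ hq0
        field_simp
        linear_combination (Zc * Z (on (2*j))) * e2
      rw [← h4, ht, map_mul Polynomial.toLaurent, Polynomial.toLaurent_C]
      simp only [map_mul]
      ring
    rw [h3] at h2
    exact h2
  have hcore := core a k (a + 2*k + 2) j (na+1) (by omega) rfl (by omega) g t d G0 G1 ca z1
    (by rw [hN1]; exact hG0) (by rw [hN1]; exact hG1) L1 L2 L3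
  rw [hg, ht] at hcore
  simp only [map_mul e1, e1_toLaurent, e1_T, e1_C, Polynomial.eval_sub, Polynomial.eval_mul,
    Polynomial.eval_C] at hcore
  rw [← hG, ← hT] at hcore
  have h9 : (TQ (on a) 1 (on (2*k)) 1 - GQ (on a) ha' 1 (on (2*k)) 1) =
      (1 - ((UU a (a + 2*k + 2) : ℚ) : ℂ)) * TQ (on a) 1 (on (2*k)) 1 := by
    have hk : κ⁻¹ ≠ 0 := inv_ne_zero hκ0
    apply mul_right_cancel₀ hk
    linear_combination hcore
  linear_combination -h9

end Pool.Agent.NH38.Step.Hom

namespace Pool.Agent.NH38.Step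

/-- TASK H -/
theorem t_H : S_H := Hom.t_H

end Pool.Agent.NH38.Step
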