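import Mathlib

/-!
Step channels: partial sums of an array close to the increments of a function (helper98).
-/

set_option autoImplicit false

namespace Pool.Agent.NH38.Step.A2

open Finset Filter Topology

/-- the increments of `F` -/
noncomputable def dF (F : ℝ → ℝ) (p i : ℕ) : ℝ := F ((i+1:ℕ)/(p:ℝ)) - F (i/(p:ℝ))

theorem dF_sum (F : ℝ → ℝ) (p : ℕ) {a b : ℕ} (h : a ≤ b) :
    ∑ i ∈ Ico a b, dF F p i = F (b/(p:ℝ)) - F (a/(p:ℝ)) := by
  unfold dF
  exact Finset.sum_Ico_sub (fun i : ℕ => F (i/(p:ℝ))) h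

theorem dF_nonneg {F : ℝ → ℝ} (hmono : MonotoneOn F (Set.Icc 0 1)) {p i : ℕ} (h : i < p) :
    0 ≤ dF F p i := by
  have hp : (0:ℝ) < p := by exact_mod_cast (by omega : 0 < p)
  unfold dF
  rw [sub_nonneg]
  apply hmono
  · refine ⟨by positivity, ?_⟩
    rw [div_le_one hp]; exact_mod_cast h.le
  · refine ⟨by positivity, ?_⟩
    rw [div_le_one hp]; exact_mod_cast h
  · apply div_le_div_of_nonneg_right _ hp.le
    push_cast; linarith

theorem unif {σ : ℕ → ℕ → ℝ} {K : ℕ → ℝ} {F : ℝ → ℝ} {C : ℝ} {p0 : ℕ} (hC : 0 ≤ C)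
    (hK : ∀ p, p0 ≤ p → 0 < K p)
    (hF : ContinuousOn F (Set.Icc 0 1)) (hmono : MonotoneOn F (Set.Icc 0 1)) (hF0 : F 0 = 0)
    (hF1 : F 1 = 1)
    (h1 : ∀ p, p0 ≤ p → ∀ i, i < p → |σ p i - K p * dF F p i| ≤ C * (K p * dF F p i))
    (h2 : ∀ ε : ℝ, 0 < ε → ∃ M : ℕ, ∀ p, p0 ≤ p → ∀ i, M ≤ i → i + M < p →
      |σ p i - K p * dF F p i| ≤ ε * (K p * dF F p i)) :
    ∀ ε : ℝ, 0 < ε → ∃ p1 : ℕ, ∀ p, p1 ≤ p → ∀ m, m ≤ p →
      |(∑ i ∈ range m, σ p i) / K p - F (m/(p:ℝ))| ≤ ε := by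
  intro ε hε
  obtain ⟨M, hM⟩ := h2 (ε/2) (by positivity)
  -- the ends
  have c0 : Tendsto (fun p : ℕ => F ((M:ℝ)/p)) atTop (𝓝 0) := by
    rw [← hF0]
    have h0 : (0:ℝ) ∈ Set.Icc (0:ℝ) 1 := ⟨le_rfl, zero_le_one⟩
    have t1 : Tendsto (fun p : ℕ => (M:ℝ)/p) atTop (𝓝[Set.Icc 0 1] 0) := by
      rw [tendsto_nhdsWithin_iff]
      refine ⟨Tendsto.div_atTop tendsto_const_nhds tendsto_natCast_atTop_atTop, ?_⟩
      filter_upwards [eventually_ge_atTop (M+1)] with p hp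
      have hp' : (0:ℝ) < p := by exact_mod_cast (by omega : 0 < p)
      refine ⟨by positivity, ?_⟩
      rw [div_le_one hp']; exact_mod_cast (by omega : M ≤ p)
    exact (hF 0 h0).tendsto.comp t1
  have c1 : Tendsto (fun p : ℕ => F (((p-M:ℕ):ℝ)/p)) atTop (𝓝 1) := by
    rw [← hF1]
    have h0 : (1:ℝ) ∈ Set.Icc (0:ℝ) 1 := ⟨zero_le_one, le_rfl⟩
    have t1 : Tendsto (fun p : ℕ => ((p-M:ℕ):ℝ)/p) atTop (𝓝[Set.Icc 0 1] 1) := by
      rw [tendsto_nhdsWithin_iff]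
      constructor
      · have t2 : Tendsto (fun p : ℕ => 1 - (M:ℝ)/p) atTop (𝓝 (1 - 0)) :=
          (Tendsto.div_atTop tendsto_const_nhds tendsto_natCast_atTop_atTop).const_sub 1
        rw [sub_zero] at t2
        refine t2.congr' ?_
        filter_upwards [eventually_ge_atTop (M+1)] with p hp
        have hp' : (0:ℝ) < p := by exact_mod_cast (by omega : 0 < p)
        rw [Nat.cast_sub (by omega)]
        field_simp
      · filter_upwards [eventually_ge_atTop (M+1)] with p hp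
        have hp' : (0:ℝ) < p := by exact_mod_cast (by omega : 0 < p)
        refine ⟨by positivity, ?_⟩
        rw [div_le_one hp']; exact_mod_cast (by omega : p - M ≤ p)
    exact (hF 1 h0).tendsto.comp t1
  have e0 : ∀ᶠ p : ℕ in atTop, F ((M:ℝ)/p) < ε / (4 * (C + 1)) :=
    c0.eventually (gt_mem_nhds (by positivity))
  have e1 : ∀ᶠ p : ℕ in atTop, 1 - ε / (4 * (C + 1)) < F (((p-M:ℕ):ℝ)/p) :=
    c1.eventually (lt_mem_nhds (by linarith [show 0 < ε / (4 * (C + 1)) by positivity]))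
  obtain ⟨p1, hp1⟩ := eventually_atTop.1 (e0.and (e1.and (eventually_ge_atTop (p0 + 2*M+1))))
  refine ⟨p1, fun p hp m hm => ?_⟩
  obtain ⟨a0, a1, a2⟩ := hp1 p hp
  have hKp := hK p (by omega)
  have hp' : (0:ℝ) < p := by exact_mod_cast (by omega : 0 < p)
  have s1 : (∑ i ∈ range m, σ p i) / K p - F (m/(p:ℝ)) =
      (∑ i ∈ range m, (σ p i - K p * dF F p i)) / K p := by
    rw [sum_sub_distrib, ← mul_sum, sub_div, mul_div_cancel_left₀ _ hKp.ne', range_eq_Ico,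
      dF_sum F p (Nat.zero_le m)]
    simp [hF0]
  rw [s1, abs_div, abs_of_pos hKp, div_le_iff₀ hKp]
  have s2 : |∑ i ∈ range m, (σ p i - K p * dF F p i)| ≤ ∑ i ∈ range p, |σ p i - K p * dF F p i| := by
    refine (abs_sum_le_sum_abs _ _).trans ?_
    exact sum_le_sum_of_subset_of_nonneg (range_subset_range.2 hm) fun _ _ _ => abs_nonneg _
  refine s2.trans ?_
  rw [range_eq_Ico, ← sum_Ico_consecutive _ (Nat.zero_le M) (by omega : M ≤ p),
    ← sum_Ico_consecutive _ (by omega : M ≤ p - M) (by omega : p - M ≤ p)]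
  have b1 : ∑ i ∈ Ico 0 M, |σ p i - K p * dF F p i| ≤ C * (K p * F (M/(p:ℝ))) := by
    have : C * (K p * F (M/(p:ℝ))) = ∑ i ∈ Ico 0 M, C * (K p * dF F p i) := by
      rw [← mul_sum, ← mul_sum, dF_sum F p (Nat.zero_le M)]
      simp [hF0]
    rw [this]
    apply sum_le_sum
    intro i hi
    rw [mem_Ico] at hi
    exact h1 p (by omega) i (by omega)
  have b2 : ∑ i ∈ Ico (p-M) p, |σ p i - K p * dF F p i| ≤
      C * (K p * (1 - F (((p-M:ℕ):ℝ)/p))) := by
    have : C * (K p * (1 - F (((p-M:ℕ):ℝ)/p))) = ∑ i ∈ Ico (p-M) p, C * (K p * dF F p i) := by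
      rw [← mul_sum, ← mul_sum, dF_sum F p (by omega), div_self hp'.ne', hF1]
    rw [this]
    apply sum_le_sum
    intro i hi
    rw [mem_Ico] at hi
    exact h1 p (by omega) i (by omega)
  have b3 : ∑ i ∈ Ico M (p-M), |σ p i - K p * dF F p i| ≤ (ε/2) * (K p * 1) := by
    have : ∑ i ∈ Ico M (p-M), |σ p i - K p * dF F p i| ≤
        ∑ i ∈ Ico M (p-M), (ε/2) * (K p * dF F p i) := by
      apply sum_le_sum
      intro i hi
      rw [mem_Ico] at hi
      exact hM p (by omega) i (by omega) (by omega)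
    refine this.trans ?_
    rw [← mul_sum, ← mul_sum, dF_sum F p (by omega)]
    apply mul_le_mul_of_nonneg_left _ (by positivity)
    apply mul_le_mul_of_nonneg_left _ hKp.le
    have m1 : F (((p-M:ℕ):ℝ)/p) ≤ F 1 := by
      apply hmono
      · refine ⟨by positivity, ?_⟩
        rw [div_le_one hp']; exact_mod_cast (by omega : p - M ≤ p)
      · exact ⟨zero_le_one, le_rfl⟩
      · rw [div_le_one hp']; exact_mod_cast (by omega : p - M ≤ p)
    have m2 : F 0 ≤ F ((M:ℝ)/p) := by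
      apply hmono
      · exact ⟨le_rfl, zero_le_one⟩
      · refine ⟨by positivity, ?_⟩
        rw [div_le_one hp']; exact_mod_cast (by omega : M ≤ p)
      · positivity
    rw [hF1] at m1
    rw [hF0] at m2
    linarith
  have b1' : C * (K p * F (M/(p:ℝ))) ≤ (ε/4) * K p := by
    have : C * F (M/(p:ℝ)) ≤ C * (ε / (4 * (C + 1))) := mul_le_mul_of_nonneg_left a0.le hC
    have h3 : C * (ε / (4 * (C + 1))) ≤ ε/4 := by
      rw [mul_div_assoc', div_le_div_iff₀ (by positivity) (by positivity)]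
      nlinarith
    calc C * (K p * F (M/(p:ℝ))) = (C * F (M/(p:ℝ))) * K p := by ring
      _ ≤ (ε/4) * K p := mul_le_mul_of_nonneg_right (this.trans h3) hKp.le
  have b2' : C * (K p * (1 - F (((p-M:ℕ):ℝ)/p))) ≤ (ε/4) * K p := by
    have : C * (1 - F (((p-M:ℕ):ℝ)/p)) ≤ C * (ε / (4 * (C + 1))) :=
      mul_le_mul_of_nonneg_left (by linarith) hC
    have h3 : C * (ε / (4 * (C + 1))) ≤ ε/4 := by
      rw [mul_div_assoc', div_le_div_iff₀ (by positivity) (by positivity)]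
      nlinarith
    calc C * (K p * (1 - F (((p-M:ℕ):ℝ)/p))) = (C * (1 - F (((p-M:ℕ):ℝ)/p))) * K p := by ring
      _ ≤ (ε/4) * K p := mul_le_mul_of_nonneg_right (this.trans h3) hKp.le
  linarith

theorem ratio {σ : ℕ → ℕ → ℝ} {K : ℕ → ℝ} {F : ℝ → ℝ} {p0 : ℕ}
    (hK : ∀ p, p0 ≤ p → 0 < K p)
    (hF : ContinuousOn F (Set.Icc 0 1)) (hF1 : F 1 = 1)
    (h : ∀ ε : ℝ, 0 < ε → ∃ p1 : ℕ, ∀ p, p1 ≤ p → ∀ m, m ≤ p →
      |(∑ i ∈ range m, σ p i) / K p - F (m/(p:ℝ))| ≤ ε)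
    (p m : ℕ → ℕ) (x : ℝ) (hx : x ∈ Set.Icc (0:ℝ) 1) (hm : ∀ i, m i ≤ p i)
    (hp : Tendsto p atTop atTop) (hmp : Tendsto (fun i => (m i : ℝ) / p i) atTop (𝓝 x)) :
    Tendsto (fun i => (∑ j ∈ range (m i), σ (p i) j) / (∑ j ∈ range (p i), σ (p i) j)) atTop
      (𝓝 (F x)) := by
  have key : ∀ q : ℕ → ℕ, (∀ i, q i ≤ p i) → ∀ y ∈ Set.Icc (0:ℝ) 1,
      Tendsto (fun i => (q i : ℝ) / p i) atTop (𝓝 y) →
      Tendsto (fun i => (∑ j ∈ range (q i), σ (p i) j) / K (p i)) atTop (𝓝 (F y)) := by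
    intro q hq y hy hqy
    have t1 : Tendsto (fun i => F ((q i : ℝ) / p i)) atTop (𝓝 (F y)) := by
      refine (hF y hy).tendsto.comp ?_
      rw [tendsto_nhdsWithin_iff]
      refine ⟨hqy, Eventually.of_forall fun i => ⟨by positivity, ?_⟩⟩
      rcases Nat.eq_zero_or_pos (p i) with h0 | h0
      · rw [h0]; simp
      · rw [div_le_one (by exact_mod_cast h0)]; exact_mod_cast hq i
    have t2 : Tendsto (fun i => (∑ j ∈ range (q i), σ (p i) j) / K (p i) - F ((q i : ℝ) / p i))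
        atTop (𝓝 0) := by
      rw [Metric.tendsto_atTop]
      intro ε hε
      obtain ⟨p1, hp1⟩ := h (ε/2) (by positivity)
      obtain ⟨N, hN⟩ := eventually_atTop.1 (hp.eventually (eventually_ge_atTop p1))
      refine ⟨N, fun i hi => ?_⟩
      rw [Real.dist_eq, sub_zero]
      exact lt_of_le_of_lt (hp1 (p i) (hN i hi) (q i) (hq i)) (by linarith)
    simpa using t2.add t1
  have k1 := key m hm x hx hmp
  have k2 := key p (fun _ => le_rfl) 1 ⟨zero_le_one, le_rfl⟩ (by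
    refine tendsto_const_nhds.congr' ?_
    filter_upwards [hp.eventually (eventually_ge_atTop 1)] with i hi
    rw [div_self]
    have : (0:ℝ) < p i := by exact_mod_cast hi
    exact this.ne')
  have k3 := k1.div k2 (by rw [hF1]; exact one_ne_zero)
  rw [hF1, div_one] at k3
  refine k3.congr' ?_
  filter_upwards [hp.eventually (eventually_ge_atTop p0)] with i hi
  simp only [Pi.div_apply]
  rw [div_div_div_cancel_right₀ (hK _ hi).ne']

end Pool.Agent.NH38.Step.A2
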