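import Pool.Agent.NH38.Step.A2c

/-!
Step channels: the size of the products `cc k` (helper98).
-/

set_option autoImplicit false

namespace Pool.Agent.NH38.Step.A2

open Filter Topology

theorem lo_mono : Monotone (fun k : ℕ => (k:ℝ) * cc k ^ 3) := by
  apply monotone_nat_of_le_succ
  intro k
  have hk : (0:ℝ) ≤ k := Nat.cast_nonneg k
  have hc := cc_pos k
  rw [cc_succ, mul_pow, div_pow]
  have : (k:ℝ) ≤ ((k+1:ℕ):ℝ) * ((3*(k:ℝ)+1)^3 / (3*(k:ℝ)+2)^3) := by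
    push_cast
    rw [mul_div_assoc', le_div_iff₀ (by positivity)]
    nlinarith
  calc (k:ℝ) * cc k ^ 3 ≤ (((k+1:ℕ):ℝ) * ((3*(k:ℝ)+1)^3 / (3*(k:ℝ)+2)^3)) * cc k ^ 3 :=
        mul_le_mul_of_nonneg_right this (by positivity)
    _ = _ := by ring

theorem hi_anti : Antitone (fun k : ℕ => ((k:ℝ) + 1/7) * cc k ^ 3) := by
  apply antitone_nat_of_succ_le
  intro k
  have hk : (0:ℝ) ≤ k := Nat.cast_nonneg k
  have hc := cc_pos k
  rw [cc_succ, mul_pow, div_pow]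
  have : (((k+1:ℕ):ℝ) + 1/7) * ((3*(k:ℝ)+1)^3 / (3*(k:ℝ)+2)^3) ≤ (k:ℝ) + 1/7 := by
    push_cast
    rw [mul_div_assoc', div_le_iff₀ (by positivity)]
    nlinarith [sq_nonneg (k:ℝ), mul_nonneg hk hk]
  calc (((k+1:ℕ):ℝ) + 1/7) * (cc k ^ 3 * ((3*(k:ℝ)+1)^3 / (3*(k:ℝ)+2)^3)) =
        ((((k+1:ℕ):ℝ) + 1/7) * ((3*(k:ℝ)+1)^3 / (3*(k:ℝ)+2)^3)) * cc k ^ 3 := by ring
    _ ≤ _ := mul_le_mul_of_nonneg_right this (by positivity)

theorem lo_le_hi (j k : ℕ) : (j:ℝ) * cc j ^ 3 ≤ ((k:ℝ) + 1/7) * cc k ^ 3 := by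
  rcases le_total j k with h | h
  · refine (lo_mono h).trans ?_
    have := cc_pos k
    apply mul_le_mul_of_nonneg_right _ (by positivity)
    linarith
  · refine le_trans ?_ (hi_anti h)
    have := cc_pos j
    apply mul_le_mul_of_nonneg_right _ (by positivity)
    linarith

/-- the constant -/
noncomputable def LL : ℝ := ⨆ k : ℕ, (k:ℝ) * cc k ^ 3

theorem LL_bdd : BddAbove (Set.range fun k : ℕ => (k:ℝ) * cc k ^ 3) :=
  ⟨((0:ℕ):ℝ) + 1/7, by
    rintro _ ⟨k, rfl⟩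
    have := lo_le_hi k 0
    simpa [cc] using this⟩

theorem lo_le_LL (k : ℕ) : (k:ℝ) * cc k ^ 3 ≤ LL := le_ciSup LL_bdd k

theorem LL_le_hi (k : ℕ) : LL ≤ ((k:ℝ) + 1/7) * cc k ^ 3 := ciSup_le fun j => lo_le_hi j k

theorem LL_ge : 1/8 ≤ LL := by
  refine le_trans (le_of_eq ?_) (lo_le_LL 1)
  simp [cc]
  norm_num

theorem LL_pos : 0 < LL := lt_of_lt_of_le (by norm_num) LL_ge

theorem cc_cube_le (k : ℕ) : cc k ^ 3 ≤ 8 * LL / (k + 1) := by
  have hL := LL_ge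
  rcases Nat.eq_zero_or_pos k with rfl | h
  · simp [cc]; linarith
  · have h1 := lo_le_LL k
    have hk : (1:ℝ) ≤ k := by exact_mod_cast h
    rw [le_div_iff₀ (by positivity)]
    have := cc_pos k
    have : 0 < cc k ^ 3 := by positivity
    nlinarith

theorem cc_cube_ge (k : ℕ) : LL ≤ (k + 1) * cc k ^ 3 := by
  refine (LL_le_hi k).trans ?_
  have := cc_pos k
  apply mul_le_mul_of_nonneg_right _ (by positivity)
  linarith

/-- the scale -/
noncomputable def vv (n k : ℕ) : ℝ := cc k / (cc (n-k) * cc (n+k))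

theorem vv_pos (n k : ℕ) : 0 < vv n k := by
  have a := cc_pos k
  have b := cc_pos (n-k)
  have c := cc_pos (n+k)
  unfold vv
  positivity

/-- uniform bound -/
theorem vv_le {n k : ℕ} (h : k ≤ n) :
    vv n k ^ 3 ≤ 8 * ((n:ℝ) - k + 1) * ((n:ℝ) + k + 1) / (LL * (k + 1)) := by
  have a := cc_pos k
  have b := cc_pos (n-k)
  have c := cc_pos (n+k)
  have hL := LL_pos
  have h1 := cc_cube_le k
  have h2 := cc_cube_ge (n-k)
  have h3 := cc_cube_ge (n+k)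
  rw [Nat.cast_sub h] at h2
  push_cast at h3
  have hkn : (k:ℝ) ≤ n := by exact_mod_cast h
  unfold vv
  rw [div_pow, mul_pow, div_le_div_iff₀ (by positivity) (by positivity)]
  rw [le_div_iff₀ (by positivity)] at h1
  set A := cc k ^ 3
  set B := cc (n-k) ^ 3
  set C := cc (n+k) ^ 3
  have hA : 0 < A := by positivity
  have hB : 0 < B := by positivity
  have hC : 0 < C := by positivity
  have hb : 0 < (n:ℝ) - k + 1 := by linarith
  have hc : 0 < (n:ℝ) + k + 1 := by positivity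
  have h4 : LL * LL ≤ (((n:ℝ) - k + 1) * B) * (((n:ℝ) + k + 1) * C) :=
    mul_le_mul h2 h3 hL.le (by positivity)
  calc A * (LL * (k+1)) = (A * (k+1)) * LL := by ring
    _ ≤ (8 * LL) * LL := mul_le_mul_of_nonneg_right h1 hL.le
    _ = 8 * (LL * LL) := by ring
    _ ≤ 8 * ((((n:ℝ) - k + 1) * B) * (((n:ℝ) + k + 1) * C)) := by linarith
    _ = _ := by ring

/-- precise upper bound: `ratio = v³ L k / (n² - k²)` -/
theorem vv_upper {n k : ℕ} (h : k < n) (hk : 1 ≤ k) {M : ℝ} (hM : 0 < M) (h1 : M ≤ (n:ℝ) - k) :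
    vv n k ^ 3 ≤ (1 + 1/M)^2 * (((n:ℝ) - k) * ((n:ℝ) + k) / (LL * k)) := by
  have a := cc_pos k
  have b := cc_pos (n-k)
  have c := cc_pos (n+k)
  have hL := LL_pos
  have h2 := lo_le_LL k
  have h3 := LL_le_hi (n-k)
  have h4 := LL_le_hi (n+k)
  rw [Nat.cast_sub h.le] at h3
  push_cast at h4
  have hk' : (1:ℝ) ≤ k := by exact_mod_cast hk
  have e1 : (n:ℝ) - k + 1/7 ≤ (1 + 1/M) * ((n:ℝ) - k) := by
    have : 1 ≤ 1/M * ((n:ℝ) - k) := by rw [div_mul_eq_mul_div, le_div_iff₀ hM]; linarith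
    linarith
  have e2 : (n:ℝ) + k + 1/7 ≤ (1 + 1/M) * ((n:ℝ) + k) := by
    have : 1 ≤ 1/M * ((n:ℝ) + k) := by rw [div_mul_eq_mul_div, le_div_iff₀ hM]; linarith
    linarith
  unfold vv
  have hnk : 0 < (n:ℝ) - k := lt_of_lt_of_le hM h1
  rw [div_pow, mul_pow, mul_div_assoc', div_le_div_iff₀ (by positivity) (by positivity)]
  set A := cc k ^ 3
  set B := cc (n-k) ^ 3
  set C := cc (n+k) ^ 3
  have hA : 0 < A := by positivity
  have hB : 0 < B := by positivity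
  have hC : 0 < C := by positivity
  have h5 : LL ≤ ((1 + 1/M) * ((n:ℝ) - k)) * B := h3.trans (mul_le_mul_of_nonneg_right e1 hB.le)
  have h6 : LL ≤ ((1 + 1/M) * ((n:ℝ) + k)) * C := h4.trans (mul_le_mul_of_nonneg_right e2 hC.le)
  have h7 : LL * LL ≤ (((1 + 1/M) * ((n:ℝ) - k)) * B) * (((1 + 1/M) * ((n:ℝ) + k)) * C) :=
    mul_le_mul h5 h6 hL.le (by positivity)
  calc A * (LL * k) = (k * A) * LL := by ring
    _ ≤ LL * LL := mul_le_mul_of_nonneg_right h2 hL.le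
    _ ≤ (((1 + 1/M) * ((n:ℝ) - k)) * B) * (((1 + 1/M) * ((n:ℝ) + k)) * C) := h7
    _ = _ := by ring

/-- precise lower bound -/
theorem vv_lower {n k : ℕ} (h : k < n) (hk : 1 ≤ k) {M : ℝ} (hM : 0 < M) (h1 : M ≤ (k:ℝ)) :
    ((n:ℝ) - k) * ((n:ℝ) + k) / (LL * k) ≤ (1 + 1/M) * vv n k ^ 3 := by
  have a := cc_pos k
  have b := cc_pos (n-k)
  have c := cc_pos (n+k)
  have hL := LL_pos
  have h2 := LL_le_hi k
  have h3 := lo_le_LL (n-k)
  have h4 := lo_le_LL (n+k)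
  rw [Nat.cast_sub h.le] at h3
  push_cast at h4
  have hk' : (1:ℝ) ≤ k := by exact_mod_cast hk
  have hn' : (k:ℝ) < n := by exact_mod_cast h
  have e1 : (k:ℝ) + 1/7 ≤ (1 + 1/M) * k := by
    have : 1 ≤ 1/M * (k:ℝ) := by rw [div_mul_eq_mul_div, le_div_iff₀ hM]; linarith
    linarith
  unfold vv
  rw [div_pow, mul_pow, mul_div_assoc', div_le_div_iff₀ (by positivity) (by positivity)]
  set A := cc k ^ 3
  set B := cc (n-k) ^ 3
  set C := cc (n+k) ^ 3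
  have hA : 0 < A := by positivity
  have hB : 0 < B := by positivity
  have hC : 0 < C := by positivity
  have h5 : LL ≤ ((1 + 1/M) * k) * A := h2.trans (mul_le_mul_of_nonneg_right e1 hA.le)
  have hnk : 0 < (n:ℝ) - k := by linarith
  have h7 : (((n:ℝ) - k) * B) * (((n:ℝ) + k) * C) ≤ LL * LL :=
    mul_le_mul h3 h4 (by positivity) hL.le
  calc ((n:ℝ) - k) * ((n:ℝ) + k) * (B * C) = (((n:ℝ) - k) * B) * (((n:ℝ) + k) * C) := by ring
    _ ≤ LL * LL := h7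
    _ ≤ (((1 + 1/M) * k) * A) * LL := mul_le_mul_of_nonneg_right h5 hL.le
    _ = _ := by ring

end Pool.Agent.NH38.Step.A2
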