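import Mathlib
import Pool.Agent.H988C.BT31
import Pool.Agent.H337R2.CB.Inst
import Pool.Agent.H31C.Defs

/-!
Step channels (helper38): definitions.

Critical bond percolation on `ℤ²` in the step channel: a half-infinite strip of width `L` (columns
`0..L`, below) with a half-infinite strip of width `a` (columns `0..a`) on top of its left part.
-/

namespace Pool.Agent.NH38.Step

open Pool.Agent.H988R2.Perc hiding X
open Pool.Agent.H988C Polynomial

/-! ## the numbers `U(a,N)` -/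

/-- `U(a,N) = Res_{T=1} (T-1)^(-a-N-1) T^(-1/3) P_a(T) P*_N(T) dT` -/
noncomputable def UU (a N : ℕ) : ℚ := H337CB.R (a + N) (-1/3) (H337CB.P a * H337CB.Ps N)

/-! ## percolation -/

/-- column `u - v`, height `u + v`. Open edges of the step channel: columns in `[0,L]`, the edges
with both ends at height `≥ 1` and an end in a column `> a` are removed. -/
def StepAdj (a L : ℕ) (ω : Conf) (x y : ℤ × ℤ) : Prop :=
  OpenAdj ω x y ∧ (0 ≤ x.1 - x.2 ∧ x.1 - x.2 ≤ L) ∧ (0 ≤ y.1 - y.2 ∧ y.1 - y.2 ≤ L) ∧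
    ¬ (1 ≤ x.1 + x.2 ∧ 1 ≤ y.1 + y.2 ∧ ((a:ℤ) < x.1 - x.2 ∨ (a:ℤ) < y.1 - y.2))

/-- the right wall of the upper arm is joined to the right wall of the lower arm -/
def StepCross (a L : ℕ) : Set Conf :=
  {ω | ∃ x y : ℤ × ℤ, x.1 - x.2 = a ∧ 1 ≤ x.1 + x.2 ∧ y.1 - y.2 = L ∧
    Relation.ReflTransGen (StepAdj a L ω) x y}

/-! ## the glued qKZ vectors -/

/-- `ω_z` -/
noncomputable def om (z : ℂ) : ℂ := z + z⁻¹

/-- the list `x₁, 1/x₁, x₂, 1/x₂, …` -/
noncomputable def prs (X : List ℂ) : List ℂ := X.flatMap (fun x => [x, x⁻¹])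

/-- lower vector: parameters `A, w, Y, v, 0`; upper left strip: parameters `A⁻¹, 0`; the points to the
right of `w` are closed by small arcs. Indicator of `{face |A| ~ last odd face}`. -/
noncomputable def GQ (A : List ℂ) (ha : Odd A.length) (w : ℂ) (Y : List ℂ) (v : ℂ) : ℂ :=
  tri A.length (Y.length + 1) ha (Psi (A ++ w :: (Y ++ [v, 0]))) (Psi (A.map (fun x => x⁻¹) ++ [0]))
    (Finsupp.single St.bot 1)

/-- total mass -/
noncomputable def TQ (A : List ℂ) (w : ℂ) (Y : List ℂ) (v : ℂ) : ℂ :=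
  Z (A ++ w :: (Y ++ [v, 0])) * Z (A.map (fun x => x⁻¹) ++ [0])

/-- `1,…,1` -/
noncomputable def on (n : ℕ) : List ℂ := List.replicate n 1

/-- Cardy's function: the normalised primitive of `(t(1-t))^(-2/3)` -/
noncomputable def cardy (x : ℝ) : ℝ :=
  (∫ t in (0:ℝ)..x, (t*(1-t))^(-(2:ℝ)/3)) / ∫ t in (0:ℝ)..1, (t*(1-t))^(-(2:ℝ)/3)

end Pool.Agent.NH38.Step
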