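import Pool.Agent.H757R2.CardyLimit
import Pool.Agent.NH38.Step.Defs
import Pool.Agent.NH38.Step.A2d
import Pool.Agent.NH38.Step.A2e

/-!
Step channels: the increments of `cardy (x²)` (helper98).
-/

set_option autoImplicit false

namespace Pool.Agent.NH38.Step.A2

open Filter Topology MeasureTheory Pool.Agent.H757R2.CardyLimit

/-- the total integral -/
noncomputable def BB : ℝ := ∫ t in (0:ℝ)..1, gd t

theorem BB_pos : 0 < BB := int_gd_pos

theorem cardy_eq (x : ℝ) : cardy x = (∫ t in (0:ℝ)..x, gd t) / BB := by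
  have e : ∀ t : ℝ, (t * (1 - t)) ^ (-(2:ℝ)/3) = gd t := by
    intro t
    unfold gd
    congr 1
    ring
  unfold cardy BB
  simp_rw [e]

theorem gd_int {a b : ℝ} (ha : a ∈ Set.Icc (0:ℝ) 1) (hb : b ∈ Set.Icc (0:ℝ) 1) :
    IntervalIntegrable gd volume a b := by
  refine int_gd.1.mono_set ?_
  rw [Set.uIcc_of_le (zero_le_one (α := ℝ))]
  exact Set.uIcc_subset_Icc ha hb

theorem cardy_zero : cardy 0 = 0 := by rw [cardy_eq]; simp

theorem cardy_one : cardy 1 = 1 := by
  rw [cardy_eq]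
  exact div_self BB_pos.ne'

theorem cardy_mono : MonotoneOn cardy (Set.Icc 0 1) := by
  intro a ha b hb hab
  rw [cardy_eq, cardy_eq]
  apply div_le_div_of_nonneg_right _ BB_pos.le
  have h := intervalIntegral.integral_add_adjacent_intervals
    (gd_int ⟨le_rfl, zero_le_one⟩ ha) (gd_int ha hb)
  rw [← h]
  have : 0 ≤ ∫ t in a..b, gd t := by
    apply intervalIntegral.integral_nonneg hab
    intro u hu
    exact gd_nonneg ⟨ha.1.trans hu.1, hu.2.trans hb.2⟩
  linarith

theorem cardy_cont : ContinuousOn cardy (Set.Icc 0 1) := by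
  have h : ContinuousOn (fun x => ∫ t in (0:ℝ)..x, gd t) (Set.Icc 0 1) := by
    have h1 := intervalIntegral.continuousOn_primitive_interval' (μ := volume) (a := 0) (f := gd)
      (b₁ := 0) (b₂ := 1) int_gd.1 (by simp)
    rwa [Set.uIcc_of_le (zero_le_one (α := ℝ))] at h1
  have h2 := h.div_const BB
  refine h2.congr ?_
  intro x _
  exact cardy_eq x

theorem cardy_deriv {x : ℝ} (h0 : 0 < x) (h1 : x < 1) : HasDerivAt cardy (gd x / BB) x := by
  have hc : ContinuousOn gd (Set.Ioo 0 1) := by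
    intro t ht
    refine ContinuousAt.continuousWithinAt ?_
    unfold gd
    refine ContinuousAt.rpow_const (by fun_prop) (Or.inl ?_)
    have h2 : 0 < t := ht.1
    have h3 : 0 < 1 - t := by linarith [ht.2]
    positivity
  have h2 : HasDerivAt (fun u => ∫ t in (0:ℝ)..u, gd t) (gd x) x := by
    apply intervalIntegral.integral_hasDerivAt_right
    · exact gd_int ⟨le_rfl, zero_le_one⟩ ⟨h0.le, h1.le⟩
    · exact hc.stronglyMeasurableAtFilter isOpen_Ioo x ⟨h0, h1⟩
    · exact hc.continuousAt (isOpen_Ioo.mem_nhds ⟨h0, h1⟩)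
  have h3 := h2.div_const BB
  refine h3.congr_of_eventuallyEq ?_
  exact Eventually.of_forall fun u => cardy_eq u

/-- `F x = cardy (x²)` -/
noncomputable def FF (x : ℝ) : ℝ := cardy (x^2)

theorem FF_zero : FF 0 = 0 := by simp [FF, cardy_zero]

theorem FF_one : FF 1 = 1 := by simp [FF, cardy_one]

theorem sq_mem {x : ℝ} (h : x ∈ Set.Icc (0:ℝ) 1) : x^2 ∈ Set.Icc (0:ℝ) 1 :=
  ⟨by positivity, by nlinarith [h.1, h.2]⟩

theorem FF_mono : MonotoneOn FF (Set.Icc 0 1) := by
  intro a ha b hb hab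
  exact cardy_mono (sq_mem ha) (sq_mem hb) (by nlinarith [ha.1, hb.1])

theorem FF_cont : ContinuousOn FF (Set.Icc 0 1) :=
  cardy_cont.comp (by fun_prop) fun _ h => sq_mem h

theorem FF_deriv {x : ℝ} (h0 : 0 < x) (h1 : x < 1) :
    HasDerivAt FF (gd (x^2) / BB * (2 * x)) x := by
  have h2 : HasDerivAt (fun x : ℝ => x^2) (2 * x) x := by simpa using hasDerivAt_pow 2 x
  exact (cardy_deriv (by positivity) (by nlinarith)).comp x h2

theorem gd_cube {x : ℝ} (h0 : 0 < x) (h1 : x < 1) : gd x ^ 3 = ((x * (1 - x))^2)⁻¹ := by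
  have h2 : 0 < x * (1 - x) := by
    have : 0 < 1 - x := by linarith
    positivity
  unfold gd
  rw [← Real.rpow_natCast, ← Real.rpow_mul h2.le]
  norm_num

theorem dF_cube {p i : ℕ} (h : i < p) : ∃ u : ℝ, (i:ℝ) < u ∧ u < i + 1 ∧
    dF FF p i ^ 3 = 8 * (p:ℝ)^2 / (BB^3 * (u * ((p:ℝ)^2 - u^2)^2)) := by
  have hp : (0:ℝ) < p := by exact_mod_cast (by omega : 0 < p)
  have hi : (i:ℝ) + 1 ≤ p := by exact_mod_cast h
  have hi0 : (0:ℝ) ≤ i := Nat.cast_nonneg i
  have hlt : (i:ℝ)/p < ((i+1:ℕ):ℝ)/p := by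
    apply div_lt_div_of_pos_right _ hp
    push_cast; linarith
  have hsub : Set.Icc ((i:ℝ)/p) (((i+1:ℕ):ℝ)/p) ⊆ Set.Icc 0 1 := by
    intro t ht
    refine ⟨le_trans (by positivity) ht.1, ht.2.trans ?_⟩
    rw [div_le_one hp]; push_cast; exact hi
  obtain ⟨s, hs, hs2⟩ := exists_hasDerivAt_eq_slope FF (fun x => gd (x^2) / BB * (2 * x)) hlt
    (FF_cont.mono hsub) (by
      intro t ht
      apply FF_deriv
      · exact lt_of_le_of_lt (by positivity) ht.1
      · refine lt_of_lt_of_le ht.2 ?_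
        rw [div_le_one hp]; push_cast; exact hi)
  have hs0 : 0 < s := lt_of_le_of_lt (by positivity) hs.1
  have hs1 : s < 1 := by
    refine lt_of_lt_of_le hs.2 ?_
    rw [div_le_one hp]; push_cast; exact hi
  refine ⟨s * p, ?_, ?_, ?_⟩
  · have := hs.1
    rwa [div_lt_iff₀ hp] at this
  · have := hs.2
    rw [lt_div_iff₀ hp] at this
    push_cast at this
    exact this
  · have e1 : ((i+1:ℕ):ℝ)/p - (i:ℝ)/p = 1/p := by push_cast; field_simp; ring
    rw [e1] at hs2
    have e2 : dF FF p i = gd (s^2) / BB * (2 * s) / p := by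
      have : gd (s^2) / BB * (2 * s) = dF FF p i / (1/p) := hs2
      rw [this]
      field_simp
    have hB := BB_pos
    have hs3 : 0 < 1 - s^2 := by nlinarith
    rw [e2, div_pow, mul_pow, div_pow, gd_cube (by positivity) (by nlinarith)]
    have e3 : (p:ℝ)^2 - (s*p)^2 = p^2 * (1 - s^2) := by ring
    rw [e3]
    generalize 1 - s^2 = w at *
    field_simp
    ring

end Pool.Agent.NH38.Step.A2
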