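import Pool.Agent.NH38.Step.Perc1

/-!
Step channels: the percolation link, probability part (helper2).  Variant of the proofs C08, C10, C14
and of the bridge of the slit strip.
-/

namespace Pool.Agent.NH38.Step

open Pool.Agent.H988R2.Perc Pool.Agent.H980R3.Slit Relation MeasureTheory Finset Filter Topology

namespace PL

/-- index set of the coordinates -/
abbrev J2' (a b M : ℕ) := ↥(T23.SS (a+b+1) M) ⊕ ↥(T23.SS a M)

/-- the edges -/
def ee2 (a b M : ℕ) : J2' a b M → Edge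
  | Sum.inl j => T23.eP M j
  | Sum.inr j => T23.eF M j

theorem ee2_inj (a b M : ℕ) : Function.Injective (ee2 a b M) := by
  rintro (⟨⟨k, i⟩, h⟩ | ⟨⟨k, i⟩, h⟩) (⟨⟨k', i'⟩, h'⟩ | ⟨⟨k', i'⟩, h'⟩) hh
  all_goals
    simp only [ee2, T23.eP, T23.eF] at hh
    have := T23.edgeOf_inj hh
    rw [T23.mem_SS] at h h'
    simp only at h h'
    try simp only [Sum.inl.injEq, Sum.inr.injEq, Subtype.mk.injEq, Prod.mk.injEq]
    omega

/-- the bit prescribed by a pair of sets -/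
def bb2 (a b M : ℕ) (p0 p1 : Finset (ℕ × ℕ)) : J2' a b M → Bool
  | Sum.inl j => decide (j.1 ∈ p0)
  | Sum.inr j => decide (j.1 ∈ p1)

/-- a cell -/
def cell2 (a b M : ℕ) (p0 p1 : Finset (ℕ × ℕ)) : Set Conf :=
  {ω | T23.tP (a+b+1) M ω = p0 ∧ T23.tF a M ω = p1}

theorem cell2_eq (a b M : ℕ) (p0 p1 : Finset (ℕ × ℕ)) (h0 : p0 ⊆ T23.SS (a+b+1) M)
    (h1 : p1 ⊆ T23.SS a M) :
    cell2 a b M p0 p1 =
      ⋂ j : J2' a b M, (fun ω : Conf => ω (ee2 a b M j)) ⁻¹' {bb2 a b M p0 p1 j} := by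
  ext ω
  simp only [cell2, T23.tP, T23.tF, Set.mem_ofPred_eq, Set.mem_iInter, Set.mem_preimage,
    Set.mem_singleton_iff]
  rw [C08.filter_eq_iff _ _ (fun j => ω (T23.eP M j)) h0,
    C08.filter_eq_iff _ _ (fun j => ω (T23.eF M j)) h1]
  constructor
  · rintro ⟨e0, e1⟩ (j | j)
    · exact e0 j
    · exact e1 j
  · intro h
    exact ⟨fun j => h (Sum.inl j), fun j => h (Sum.inr j)⟩

theorem card_J2 (a b M : ℕ) :
    Fintype.card (J2' a b M) = 2*M*(a+b+1) + 2*M*a := by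
  have h : ∀ L, (T23.SS L M).card = 2*M*L := by
    intro L
    rw [T23.SS, card_product, card_range, Nat.card_Icc, Nat.add_sub_cancel]
  rw [Fintype.card_sum, Fintype.card_coe, Fintype.card_coe, h, h]

theorem cell2_prob (a b M : ℕ) (p0 p1 : Finset (ℕ × ℕ)) (h0 : p0 ⊆ T23.SS (a+b+1) M)
    (h1 : p1 ⊆ T23.SS a M) : MeasurableSet (cell2 a b M p0 p1) ∧
    perc (cell2 a b M p0 p1) = (1/2) ^ (2*M*(a+b+1) + 2*M*a) := by
  rw [cell2_eq a b M p0 p1 h0 h1]
  refine ⟨C08.measurableSet_cyl _ _, ?_⟩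
  rw [C08.perc_cyl _ (ee2_inj a b M), card_J2]

abbrev Tw := Finset (ℕ × ℕ) × Finset (ℕ × ℕ)

open Classical in
/-- the good cells -/
noncomputable def good2 (a b M : ℕ) : Finset Tw :=
  ((T23.SS (a+b+1) M).powerset ×ˢ (T23.SS a M).powerset).filter
    (fun p => conn3 a b (X (a+b+1) (actBit (T23.bits p.1)) M) (X a (actBit (T23.bits p.2)) M)
      St.bot)

theorem mem_good2 {a b M : ℕ} {p : Tw} :
    p ∈ good2 a b M ↔ (p.1 ⊆ T23.SS (a+b+1) M ∧ p.2 ⊆ T23.SS a M) ∧
      conn3 a b (X (a+b+1) (actBit (T23.bits p.1)) M) (X a (actBit (T23.bits p.2)) M)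
        St.bot := by
  classical
  unfold good2
  rw [Finset.mem_filter, Finset.mem_product, Finset.mem_powerset, Finset.mem_powerset]

theorem winT_eq (a b M : ℕ) :
    WinT a b M = ⋃ p ∈ good2 a b M, cell2 a b M p.1 p.2 := by
  ext ω
  simp only [WinT, Set.mem_ofPred_eq, Set.mem_iUnion, exists_prop]
  rw [T23.X_past, T23.X_fut]
  constructor
  · intro h
    refine ⟨(T23.tP (a+b+1) M ω, T23.tF a M ω), ?_, rfl, rfl⟩
    rw [mem_good2]
    exact ⟨⟨filter_subset _ _, filter_subset _ _⟩, h⟩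
  · rintro ⟨⟨p1, p2⟩, hp, h1, h2⟩
    simp only at h1 h2
    subst h1 h2
    rw [mem_good2] at hp
    exact hp.2

open Classical in
theorem sum_good2 (a b M : ℕ) :
    (∑ t0 ∈ (T23.SS (a+b+1) M).powerset, ∑ t1 ∈ (T23.SS a M).powerset,
        (if conn3 a b (X (a+b+1) (actBit (T23.bits t0)) M) (X a (actBit (T23.bits t1)) M)
          St.bot then (1 : ℂ) else 0)) = ((good2 a b M).card : ℂ) := by
  unfold good2
  rw [Finset.natCast_card_filter, Finset.sum_product]

open Classical in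
theorem prob_winT (a b M : ℕ) : ((perc.real (WinT a b M) : ℝ) : ℂ) =
    pair3 a b (law (a+b+1) M) (law a M) (Finsupp.single St.bot 1) := by
  have hc : ∀ p ∈ good2 a b M, MeasurableSet (cell2 a b M p.1 p.2) ∧
      perc (cell2 a b M p.1 p.2) = (1/2) ^ (2*M*(a+b+1) + 2*M*a) := by
    intro p hp
    obtain ⟨⟨h1, h2⟩, _⟩ := mem_good2.1 hp
    exact cell2_prob a b M p.1 p.2 h1 h2
  have hs : (Finsupp.single St.bot 1 : St →₀ ℂ) =
      (1 : ℂ) • ∑ t ∈ ({∅} : Finset (Finset (ℕ × ℕ))), Finsupp.single St.bot (1:ℂ) := by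
    simp
  rw [hs, T23.law_eq, T23.law_eq, t_C09 a b _ _ 1 _ _ {∅} _ _ (fun _ => St.bot), winT_eq,
    measureReal_biUnion_finset]
  · have h1 : ∀ p ∈ good2 a b M, perc.real (cell2 a b M p.1 p.2) =
        (1/2 : ℝ)^(2*M*(a+b+1) + 2*M*a) := by
      intro p hp
      rw [measureReal_def, (hc p hp).2]
      simp
    rw [Finset.sum_congr rfl h1, Finset.sum_const, nsmul_eq_mul]
    simp only [Finset.sum_singleton]
    rw [sum_good2]
    push_cast
    rw [← pow_add, mul_one, mul_comm]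
  · intro p _ p' _ hne
    rw [Function.onFun, Set.disjoint_left]
    rintro ω ⟨h1, h2⟩ ⟨h4, h5⟩
    exact hne (Prod.ext (h1.symm.trans h4) (h2.symm.trans h5))
  · intro p hp
    exact (hc p hp).1

theorem final2 (a b : ℕ) (ha : Odd a) (hb : Odd b) :
    ((perc.real (StepCross a (a+b+1)) : ℝ) : ℂ) =
      pair3 a b (psi1 (a+b+1)) (psi1 a) (Finsupp.single St.bot 1) /
        (mass (psi1 (a+b+1)) * mass (psi1 a)) := by
  have hL : Odd (a + b + 1) := (ha.add_odd hb).add_one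
  have e1 : Tendsto (fun M => perc.real (WinT a b M)) atTop
      (𝓝 (perc.real (StepCross a (a+b+1)))) := by
    have h1 : Tendsto (fun M => perc (WinT a b M)) atTop (𝓝 (perc (⋃ M, WinT a b M))) :=
      tendsto_measure_iUnion_atTop (winT_mono ha hb)
    rw [iUnion_winT ha hb] at h1
    exact (ENNReal.tendsto_toReal (measure_ne_top perc (StepCross a (a+b+1)))).comp h1
  have e2 : Tendsto (fun M => ((perc.real (WinT a b M) : ℝ) : ℂ)) atTop
      (𝓝 ((perc.real (StepCross a (a+b+1)) : ℝ) : ℂ)) :=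
    (Complex.continuous_ofReal.tendsto _).comp e1
  have e3 := t_C13 t_C11 a b (law (a+b+1)) (law a) (fun _ => Finsupp.single St.bot 1) _ _
    (Finsupp.single St.bot 1) (psi1_law t_C12 (a+b+1) hL) (psi1_law t_C12 a ha) (by
      have : (Finsupp.single St.bot 1 + (-1 : ℂ) • Finsupp.single St.bot 1 : St →₀ ℂ) = 0 := by
        simp
      simp only [this]
      have h0 : T24.nrm 0 = 0 := by simp [T24.nrm]
      rw [h0]
      exact tendsto_const_nhds)
  have e4 : Tendsto (fun M => ((perc.real (WinT a b M) : ℝ) : ℂ)) atTop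
      (𝓝 (pair3 a b ((mass (psi1 (a+b+1)))⁻¹ • psi1 (a+b+1)) ((mass (psi1 a))⁻¹ • psi1 a)
        (Finsupp.single St.bot 1))) := by
    refine e3.congr fun M => ?_
    rw [prob_winT a b M]
  have e5 := tendsto_nhds_unique e2 e4
  obtain ⟨_, _, _, s1, s2, s3, _⟩ := t_C11
  rw [e5, s1, s2]
  have n0 := psi1_mass_ne _ hL
  have n1 := psi1_mass_ne a ha
  field_simp

theorem tri_pair3 (a b : ℕ) (ha : Odd a) (f g h : St →₀ ℂ)
    (h1 : ∀ R ∈ g.support, ∀ x y, R.rel x y → x = y ∨ (x ≤ a ∧ y ≤ a)) :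
    H988C.tri a b ha f g h = pair3 a b f g h := by
  rw [← H988C.tri_eq a b ha f g h h1, tri_eq31 a b f g h h1]

theorem low_eq (a k : ℕ) : on a ++ 1 :: (on (2*k) ++ [1, 0]) =
    List.replicate (a+(2*k+1)+1) 1 ++ [0] := by
  unfold on
  have : List.replicate (a+(2*k+1)+1) (1:ℂ) = List.replicate a 1 ++ 1 :: (List.replicate (2*k) 1 ++ [1]) := by
    rw [show a + (2*k+1) + 1 = a + ((2*k+1) + 1) by ring, List.replicate_add, List.replicate_succ,
      List.replicate_succ']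
  rw [this]
  simp

theorem up_eq (a : ℕ) : (on a).map (fun x => x⁻¹) ++ [0] = List.replicate a 1 ++ [0] := by
  unfold on
  rw [List.map_replicate, inv_one]

theorem GQ_eq (a k : ℕ) (ha : Odd a) : GQ (on a) (on_odd ha) 1 (on (2*k)) 1 =
    pair3 a (2*k+1) (psi1 (a+(2*k+1)+1)) (psi1 a) (Finsupp.single St.bot 1) := by
  have hla : (on a).length = a := by simp [on]
  have hlb : (on (2*k)).length = 2*k := by simp [on]
  unfold GQ
  rw [tri_pair3]
  · rw [hla, hlb, low_eq, up_eq]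
    rfl
  · intro R hR x y hxy
    rw [up_eq] at hR
    have hlen : (List.replicate a (1:ℂ) ++ [0]).length = a + 1 := by simp
    have := Psi_supp (List.replicate a 1 ++ [0]) (by rw [hlen]; exact ha.add_one) R hR x y hxy
    rw [hlen] at this
    rw [hla]
    rcases this with k | ⟨k1, k2⟩
    · exact Or.inl k
    · exact Or.inr ⟨by omega, by omega⟩

theorem TQ_eq (a k : ℕ) : TQ (on a) 1 (on (2*k)) 1 =
    mass (psi1 (a+(2*k+1)+1)) * mass (psi1 a) := by
  unfold TQ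
  rw [low_eq, up_eq]
  rfl

end PL

open PL

theorem t_T : S_T := by
  intro a k ha
  have hL : Odd (a + (2*k+1) + 1) := (ha.add_odd ⟨k, rfl⟩).add_one
  rw [TQ_eq]
  exact mul_ne_zero (psi1_mass_ne _ hL) (psi1_mass_ne a ha)

theorem t_P : S_P := by
  intro a k ha
  have hL : Odd (a + (2*k+1) + 1) := (ha.add_odd ⟨k, rfl⟩).add_one
  have n0 := psi1_mass_ne _ hL
  have n1 := psi1_mass_ne a ha
  have h := final2 a (2*k+1) ha ⟨k, rfl⟩
  rw [TQ_eq, GQ_eq a k ha, show a + 2*k + 2 = a + (2*k+1) + 1 by ring, h]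
  field_simp

end Pool.Agent.NH38.Step
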