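import Pool.Agent.NH38.Step.Stubs

/-!
Step channels, task A1: algebra of the numbers `U(a,N)` (job 20, helper58).
-/

namespace Pool.Agent.NH38.Step

open Polynomial H337CB

namespace A1

/-- `(X-1) P_{i-1}`, with `P_{-1} = -1/(X-1)` -/
noncomputable def Pm : ℕ → ℚ[X]
  | 0 => -1
  | i+1 => (X - 1) * P i

/-- `(X-1) P*_{j-1}`, with `P*_{-1} = 1/(X-1)` -/
noncomputable def Psm : ℕ → ℚ[X]
  | 0 => 1
  | j+1 => (X - 1) * Ps j

/-- `u i N = U(i-1, N)` -/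
noncomputable def u : ℕ → ℕ → ℚ
  | 0, N => - UU 0 N
  | i+1, N => UU i N

/-- `z i N = U(i, N-1)` -/
noncomputable def z : ℕ → ℕ → ℚ
  | i, 0 => UU i 0
  | i, N+1 => UU i N

/-- `S(a,N)` -/
noncomputable def S (a N : ℕ) : ℚ := R (a + N + 1) (-1/3) ((1 + X) * (P a * Ps N))

lemma R_shift (m : ℕ) (c : ℚ) (F : ℚ[X]) : R (m + 1) c ((X - 1) * F) = R m c F := by
  have h := R_shift1 m c F
  have e : (X - 1 : ℚ[X]) * F = (0 : ℚ[X]) - (1 - X) * F := by ring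
  rw [e, R_sub, R_zero, h]; ring

lemma R_Pm (a N : ℕ) : R (a + N) (-1/3) (Pm a * Ps N) = u a N := by
  cases a with
  | zero =>
    simp only [Pm, u, UU]
    have e : (-1 : ℚ[X]) * Ps N = (0 : ℚ[X]) - P 0 * Ps N := by rw [P_zero]; ring
    rw [e, R_sub, R_zero]; ring
  | succ i =>
    simp only [Pm, u, UU]
    rw [show i + 1 + N = (i + N) + 1 by omega, mul_assoc, R_shift]

lemma R_Psm (a N : ℕ) : R (a + N) (-1/3) (P a * Psm N) = z a N := by
  cases N with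
  | zero =>
    simp only [Psm, z, UU]
    rw [Ps_zero]
  | succ i =>
    simp only [Psm, z, UU]
    rw [show a + (i + 1) = (a + i) + 1 by omega, mul_left_comm, R_shift]

lemma P_rec' (a : ℕ) : (3 * (a:ℚ[X]) + 2) * P (a + 1) + (3 * (a:ℚ[X]) + 1) * ((X - 1) * Pm a)
    = (6 * (a:ℚ[X]) + 3) * ((1 + X) * P a) := by
  cases a with
  | zero => simp only [Pm, P_zero, zero_add, P_one]; push_cast; ring
  | succ n =>
    simp only [Pm]
    have h := P_rec n
    push_cast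
    linear_combination h

lemma Ps_rec' (a : ℕ) : (3 * (a:ℚ[X]) + 2) * Ps (a + 1) + (3 * (a:ℚ[X]) + 1) * ((X - 1) * Psm a)
    = (6 * (a:ℚ[X]) + 3) * ((1 + X) * Ps a) := by
  cases a with
  | zero => simp only [Psm, Ps_zero, zero_add, Ps_one]; push_cast; ring
  | succ n =>
    simp only [Psm]
    have h := Ps_rec n
    push_cast
    linear_combination h

lemma P_der (a : ℕ) : 6 * X * derivative (P a) = (3 * (a:ℚ[X]) + 1) * (P a + Pm a) := by
  cases a with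
  | zero => simp only [Pm, P_zero, derivative_one]; ring
  | succ n =>
    simp only [Pm]
    have h := P_L1 n
    push_cast
    linear_combination h

lemma Ps_der (a : ℕ) : 6 * X * derivative (Ps a) =
    (3 * (a:ℚ[X]) - 1) * Ps a + (3 * (a:ℚ[X]) + 1) * Psm a := by
  cases a with
  | zero => simp only [Psm, Ps_zero, derivative_one]; push_cast; ring
  | succ n =>
    simp only [Psm]
    have h := Ps_L2 n
    push_cast
    linear_combination h

/-- relation A -/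
lemma relA (i N : ℕ) : (3 * (i:ℚ) + 2) * u (i+2) N + (3 * (i:ℚ) + 1) * u i N
    = (6 * (i:ℚ) + 3) * S i N := by
  have h : ((3 * i + 2 : ℕ) : ℚ[X]) * (P (i + 1) * Ps N)
      + ((3 * i + 1 : ℕ) : ℚ[X]) * ((X - 1) * (Pm i * Ps N))
      = ((6 * i + 3 : ℕ) : ℚ[X]) * ((1 + X) * (P i * Ps N)) := by
    push_cast
    linear_combination (Ps N) * P_rec' i
  have h2 := congrArg (R (i + N + 1) (-1/3)) h
  rw [R_add, R_nat, R_nat, R_nat, R_shift, R_Pm] at h2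
  have h3 : R (i + N + 1) (-1/3) (P (i + 1) * Ps N) = u (i+2) N := by
    simp only [u, UU]
    rw [show i + 1 + N = i + N + 1 by omega]
  rw [h3] at h2
  unfold S
  push_cast at h2
  exact h2

/-- relation B -/
lemma relB (i N : ℕ) : (3 * (N:ℚ) + 2) * u (i+1) (N+1) + (3 * (N:ℚ) + 1) * z i N
    = (6 * (N:ℚ) + 3) * S i N := by
  have h : ((3 * N + 2 : ℕ) : ℚ[X]) * (P i * Ps (N + 1))
      + ((3 * N + 1 : ℕ) : ℚ[X]) * ((X - 1) * (P i * Psm N))
      = ((6 * N + 3 : ℕ) : ℚ[X]) * ((1 + X) * (P i * Ps N)) := by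
    push_cast
    linear_combination (P i) * Ps_rec' N
  have h2 := congrArg (R (i + N + 1) (-1/3)) h
  rw [R_add, R_nat, R_nat, R_nat, R_shift, R_Psm] at h2
  have h3 : R (i + N + 1) (-1/3) (P i * Ps (N + 1)) = u (i+1) (N+1) := by
    simp only [u, UU]
    rw [show i + (N + 1) = i + N + 1 by omega]
  rw [h3] at h2
  unfold S
  push_cast at h2
  exact h2

/-- relation C -/
lemma relC (i N : ℕ) : 3 * ((i:ℚ) + N + 1) * S i N
    = u (i+1) N + (3 * (i:ℚ) + 1) * u i N + (3 * (N:ℚ) + 1) * z i N := by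
  have h0 := R_deriv (i + N + 1) (2/3) (P i * Ps N)
  have hC : (C (2/3 : ℚ)) * 3 = (2 : ℚ[X]) := by
    rw [show (3 : ℚ[X]) = C 3 from (map_ofNat C 3).symm, ← C_mul,
      show (2/3 : ℚ) * 3 = 2 by norm_num]
    exact map_ofNat C 2
  have key : (6 : ℚ[X]) * ((X - 1) * (C (2/3) * (P i * Ps N) + X * derivative (P i * Ps N))
      - ((i + N + 1 : ℕ) : ℚ[X]) * (X * (P i * Ps N))) =
      ((3 * i + 1 : ℕ) : ℚ[X]) * ((X - 1) * (Pm i * Ps N))
      + ((3 * N + 1 : ℕ) : ℚ[X]) * ((X - 1) * (P i * Psm N))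
      + (X - 1) * (P i * Ps N)
      - ((3 * (i + N + 1) : ℕ) : ℚ[X]) * ((1 + X) * (P i * Ps N)) := by
    rw [derivative_mul]
    push_cast
    linear_combination ((X - 1) * Ps N) * P_der i + ((X - 1) * P i) * Ps_der N
      + (2 * (X - 1) * (P i * Ps N)) * hC
  have h4 : R (i + N + 1) (2/3 - 1) ((6 : ℚ[X]) * ((X - 1) * (C (2/3) * (P i * Ps N)
      + X * derivative (P i * Ps N)) - ((i + N + 1 : ℕ) : ℚ[X]) * (X * (P i * Ps N)))) = 0 := by
    rw [show (6 : ℚ[X]) = C 6 by rw [map_ofNat], R_C, h0, mul_zero]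
  rw [key, show (2/3 - 1 : ℚ) = -1/3 by norm_num, R_sub, R_add, R_add, R_nat, R_nat, R_nat,
    R_shift, R_shift, R_shift, R_Pm, R_Psm] at h4
  have h3 : R (i + N) (-1/3) (P i * Ps N) = u (i+1) N := rfl
  rw [h3] at h4
  unfold S
  push_cast at h4
  linear_combination -h4

lemma S_ne (i : ℕ) : (6 * (i:ℚ) + 3) ≠ 0 := by positivity

/-- the relation `E2` -/
lemma relE2 (i N : ℕ) : (3 * (i:ℚ) + 2) * ((N:ℚ) - i) * u (i+2) N
    + (3 * (i:ℚ) + 1) * ((N:ℚ) + i + 1) * u i N + (2 * (i:ℚ) + 1) * u (i+1) N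
    - (2 * (i:ℚ) + 1) * (3 * (N:ℚ) + 2) * u (i+1) (N+1) = 0 := by
  have hA := relA i N
  have hB := relB i N
  have hC := relC i N
  linear_combination ((N:ℚ) - i) * hA - (2 * (i:ℚ) + 1) * hB - (2 * (i:ℚ) + 1) * hC

/-- the relation `E3` -/
lemma relE3 (i N : ℕ) : (3 * (i:ℚ) + 2) * ((N:ℚ) + i + 2) * u (i+2) (N+1)
    + (3 * (i:ℚ) + 1) * ((N:ℚ) + 1 - i) * u i (N+1) - (2 * (i:ℚ) + 1) * u (i+1) (N+1)
    - (2 * (i:ℚ) + 1) * (3 * (N:ℚ) + 4) * u (i+1) N = 0 := by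
  have hA := relA i (N+1)
  have hC := relC i (N+1)
  have hz : z i (N+1) = u (i+1) N := rfl
  rw [hz] at hC
  push_cast at hC
  linear_combination ((N:ℚ) + i + 2) * hA + (2 * (i:ℚ) + 1) * hC

/-- `V(i-1, N) = 0` -/
theorem relV (i N : ℕ) : ((i:ℚ) + N + 1) * (u (i+1) (N+1) - u i N)
    = ((N:ℚ) - i + 1) * (u (i+1) N - u i (N+1)) := by
  induction i with
  | zero => simp only [u]; push_cast; ring
  | succ i ih =>
    have h2 := relE2 i N
    have h3 := relE3 i N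
    have hne : (3 * (i:ℚ) + 2) ≠ 0 := by positivity
    apply mul_left_cancel₀ hne
    push_cast
    linear_combination h3 - h2 - (3 * (i:ℚ) + 1) * ih

lemma gg_eq (n k : ℕ) : gg n k = 2 * ((n:ℚ) - k) * (u (k+1) (n-1) - u k n) := by
  cases k with
  | zero => simp only [gg, u]; push_cast; ring
  | succ k => simp only [gg, u]; push_cast; ring

lemma gg_eq1 (N k : ℕ) : gg (N+1) k = 2 * ((N:ℚ) + 1 - k) * (u (k+1) N - u k (N+1)) := by
  rw [gg_eq, Nat.add_sub_cancel]; push_cast; ring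

lemma gg_eq2 (N k : ℕ) : gg (N+1) k = 2 * ((N:ℚ) + 1 + k) * (u (k+1) (N+1) - u k N) := by
  rw [gg_eq1]
  linear_combination -2 * relV k N

/-- difference of the two columns -/
lemma diff (N k : ℕ) : 2 * (2 * (k:ℚ) + 1) * (u (k+1) (N+1) - u (k+1) N)
    = (3 * (k:ℚ) + 2) * gg (N+1) (k+1) - (3 * (k:ℚ) + 1) * gg (N+1) k := by
  rw [gg_eq1 N (k+1), gg_eq2 N k]
  have h2 := relE2 k N
  push_cast
  linear_combination -2 * h2

end A1

open A1

theorem t_A1a : S_A1a := by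
  intro n k hk hkn
  obtain ⟨N, rfl⟩ : ∃ N, n = N + 1 := ⟨n - 1, by omega⟩
  obtain ⟨j, rfl⟩ : ∃ j, k = j + 1 := ⟨k - 1, by omega⟩
  rw [Nat.add_sub_cancel]
  have hd1 := diff N (j+1)
  have hd2 := diff N j
  have hg1 := gg_eq1 N (j+1)
  have hg2 := gg_eq2 N (j+1)
  have hm : ((N + 1 : ℕ) : ℚ) - ((j + 1 : ℕ) : ℚ) ≠ 0 := by
    have : ((j + 1 : ℕ) : ℚ) < ((N + 1 : ℕ) : ℚ) := by exact_mod_cast hkn
    exact sub_ne_zero.mpr this.ne'
  have hp : ((N + 1 : ℕ) : ℚ) + ((j + 1 : ℕ) : ℚ) ≠ 0 := by positivity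
  have hne : ((N + 1 : ℕ) : ℚ)^2 - ((j + 1 : ℕ) : ℚ)^2 ≠ 0 := by
    rw [sq_sub_sq]; exact mul_ne_zero hp hm
  rw [mul_div_assoc', div_mul_eq_mul_div, add_div' _ _ _ hne, div_eq_iff hne]
  push_cast at hd1 hd2 hg1 hg2 ⊢
  set G0 := gg (N+1) j
  set G1 := gg (N+1) (j+1)
  set G2 := gg (N+1) (j+1+1)
  set a1 := u (j+1) N
  set b1 := u (j+1) (N+1)
  set a2 := u (j+1+1) N
  set b2 := u (j+1+1) (N+1)
  linear_combination (-(2 * (j:ℚ) + 1) * (((N:ℚ)+1)^2 - ((j:ℚ)+1)^2)) * hd1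
    + (-(2 * (j:ℚ) + 3) * (((N:ℚ)+1)^2 - ((j:ℚ)+1)^2)) * hd2
    - ((2 * (j:ℚ) + 1) * (2 * (j:ℚ) + 3) * ((N:ℚ) + 1 - (j + 1))) * hg2
    + ((2 * (j:ℚ) + 1) * (2 * (j:ℚ) + 3) * ((N:ℚ) + 1 + (j + 1))) * hg1

theorem UU_zero_odd (N : ℕ) (hN : Odd N) : UU 0 N = 0 := by
  have h1 : UU 0 N = R N (-1/3) (Ps N) := by
    unfold UU; rw [P_zero, one_mul, zero_add]
  have h2 := R_swap N N (by omega) (-2/3) 1
  rw [mul_one, mul_one, show (-2/3 + 1/3 : ℚ) = -1/3 by norm_num] at h2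
  have h3 := R_refl N (-1/3) (Ps N) N (natDegree_Ps_le N)
  rw [reflect_Ps, hN.neg_one_pow, show (N:ℚ) - 1 - -1/3 - N = -2/3 by ring] at h3
  rw [h1]
  linarith

theorem t_A1b : S_A1b := by
  intro p m hm hmp
  obtain ⟨N, hN⟩ : ∃ N, 2 * p = N + 1 := ⟨2 * p - 1, by omega⟩
  have hN' : 2 * p - 1 = N := by omega
  have hNq : 2 * (p:ℚ) = (N:ℚ) + 1 := by exact_mod_cast hN
  rw [hN', hN]
  have hodd : Odd N := by
    rw [← hN']; exact ⟨p - 1, by omega⟩
  have key : ∀ m : ℕ, m ≤ p → u (2 * m) N = ∑ i ∈ Finset.range m,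
      (gg (N+1) (2*i+1) / (2*(p:ℚ) - 1 - 2*i) + gg (N+1) (2*i) / (2*(p:ℚ) + 2*i)) / 2 := by
    intro m
    induction m with
    | zero =>
      intro _
      simp only [Finset.range_zero, Finset.sum_empty, u]
      rw [UU_zero_odd N hodd, neg_zero]
    | succ m ih =>
      intro hmp
      rw [Finset.sum_range_succ, ← ih (by omega)]
      have h1 := gg_eq1 N (2*m+1)
      have h2 := gg_eq2 N (2*m)
      have hx : 2*(p:ℚ) - 1 - 2*m ≠ 0 := by
        have : (m:ℚ) + 1 ≤ p := by exact_mod_cast hmp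
        have : 0 < 2*(p:ℚ) - 1 - 2*m := by linarith
        exact this.ne'
      have hy : 2*(p:ℚ) + 2*m ≠ 0 := by
        have : (m:ℚ) + 1 ≤ p := by exact_mod_cast hmp
        have h0 : (0:ℚ) ≤ m := by positivity
        have : 0 < 2*(p:ℚ) + 2*m := by linarith
        exact this.ne'
      have e1 : gg (N+1) (2*m+1) / (2*(p:ℚ) - 1 - 2*m) = 2 * (u (2*m+1+1) N - u (2*m+1) (N+1)) := by
        rw [div_eq_iff hx, h1]
        push_cast
        linear_combination (-2 * (u (2*m+1+1) N - u (2*m+1) (N+1))) * hNq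
      have e2 : gg (N+1) (2*m) / (2*(p:ℚ) + 2*m) = 2 * (u (2*m+1) (N+1) - u (2*m) N) := by
        rw [div_eq_iff hy, h2]
        push_cast
        linear_combination (-2 * (u (2*m+1) (N+1) - u (2*m) N)) * hNq
      rw [e1, e2, show 2 * (m + 1) = 2*m+1+1 by ring]
      ring
  have h := key m hmp
  obtain ⟨j, hj⟩ : ∃ j, 2 * m = j + 1 := ⟨2 * m - 1, by omega⟩
  have hj' : 2 * m - 1 = j := by omega
  rw [hj'] 
  rw [hj] at h
  exact h

theorem t_A1c : S_A1c := by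
  intro n
  induction n with
  | zero =>
    unfold UU
    rw [P_zero, Ps_zero, mul_one]
    have h := R_Xpow (0 + 0) (-1/3) 0
    rw [pow_zero] at h
    rw [h]
    simp
  | succ n ih =>
    have h := relV (n+1) n
    have e1 : u (n+1+1) (n+1) = UU (n+1) (n+1) := rfl
    have e2 : u (n+1) n = UU n n := rfl
    rw [e1, e2] at h
    push_cast at h
    have hz : ((n:ℚ) - (n + 1) + 1) = 0 := by ring
    rw [hz, zero_mul] at h
    have hne : ((n:ℚ) + 1 + n + 1) ≠ 0 := by positivity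
    have := (mul_eq_zero.mp h).resolve_left hne
    rw [sub_eq_zero.mp this, ih]

end Pool.Agent.NH38.Step
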