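import Pool.Agent.NH38.Step.A2h

/-!
Step channels: task A2 (helper98).
-/

set_option autoImplicit false

namespace Pool.Agent.NH38.Step

open Filter Topology

/-- **Task A2** -/
theorem t_A2 : S_A2 := A2.t_A2'

theorem A2.nonpos (n : ℕ) (g : ℕ → ℝ) (h0 : g n = 0) (h1 : g (n-1) ≤ 0)
    (h : ∀ k : ℕ, 1 ≤ k → k < n →
    (3 * (k:ℝ) + 2) * (2 * k - 1) * g (k+1) +
      2 * k * (((n:ℝ)^2 + 3 * k^2 - 1) / ((n:ℝ)^2 - k^2)) * g k =
    (3 * (k:ℝ) - 2) * (2 * k + 1) * g (k-1)) :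
    ∀ j, j + 1 ≤ n → g (n-j) ≤ 0 ∧ g (n-(j+1)) ≤ 0 := by
  intro j
  induction j with
  | zero => intro _; exact ⟨by simpa using h0.le, by simpa using h1⟩
  | succ j ih =>
    intro hj
    obtain ⟨a, b⟩ := ih (by omega)
    refine ⟨b, ?_⟩
    have hk := h (n-(j+1)) (by omega) (by omega)
    rw [show n - (j+1) + 1 = n - j by omega, show n - (j+1) - 1 = n - (j+1+1) by omega] at hk
    have hk1 : (1:ℝ) ≤ ((n-(j+1):ℕ):ℝ) := by exact_mod_cast (by omega : 1 ≤ n - (j+1))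
    have hk2 : ((n-(j+1):ℕ):ℝ) < n := by exact_mod_cast (by omega : n - (j+1) < n)
    set k : ℝ := ((n-(j+1):ℕ):ℝ) with hkdef
    have c1 : 0 ≤ (3*k+2)*(2*k-1) := mul_nonneg (by linarith) (by linarith)
    have c2 : 0 ≤ 2 * k * (((n:ℝ)^2 + 3 * k^2 - 1) / ((n:ℝ)^2 - k^2)) := by
      apply mul_nonneg (by linarith)
      apply div_nonneg
      · nlinarith
      · nlinarith
    have c3 : 0 < (3*k-2)*(2*k+1) := mul_pos (by linarith) (by linarith)
    have d1 := mul_nonpos_of_nonneg_of_nonpos c1 a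
    have d2 := mul_nonpos_of_nonneg_of_nonpos c2 b
    by_contra hcon
    push Not at hcon
    have := mul_pos c3 hcon
    linarith

theorem gg_self (n : ℕ) (hn : 1 ≤ n) : gg n n = 0 := by
  obtain ⟨k, rfl⟩ : ∃ k, n = k + 1 := ⟨n - 1, by omega⟩
  unfold gg
  push_cast
  ring

theorem t_Asy : S_A1a → S_A1b → S_A1c → S_A2 → S_Asy := by
  intro ha hb hc h2 a N x hx ao No haN hN haNx
  set g : ℕ → ℕ → ℝ := fun n k => ((gg n k : ℚ) : ℝ) with hg
  have hSS : ∀ p m : ℕ, 1 ≤ m → m ≤ p → SS g p m = ((UU (2*m-1) (2*p-1) : ℚ) : ℝ) := by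
    intro p m hm hmp
    rw [hb p m hm hmp]
    unfold SS
    push_cast
    rfl
  have g0 : ∀ p, 1 ≤ p → g (2*p) (2*p) = 0 := by
    intro p hp
    rw [hg]
    simp only
    rw [gg_self _ (by omega)]
    simp
  have grec : ∀ p k : ℕ, 1 ≤ k → k < 2*p →
    (3 * (k:ℝ) + 2) * (2 * k - 1) * g (2*p) (k+1) +
      2 * k * (((2*p:ℝ)^2 + 3 * k^2 - 1) / ((2*p:ℝ)^2 - k^2)) * g (2*p) k =
    (3 * (k:ℝ) - 2) * (2 * k + 1) * g (2*p) (k-1) := by
    intro p k hk1 hk2
    have := ha (2*p) k hk1 hk2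
    have h3 := congrArg (fun q : ℚ => (q : ℝ)) this
    simp only [hg]
    push_cast at h3
    exact h3
  have g1 : ∀ p, 1 ≤ p → 0 < g (2*p) (2*p-1) := by
    intro p hp
    by_contra hcon
    push Not at hcon
    have hr : ∀ k : ℕ, 1 ≤ k → k < 2*p →
        (3 * (k:ℝ) + 2) * (2 * k - 1) * g (2*p) (k+1) +
        2 * k * ((((2*p:ℕ):ℝ)^2 + 3 * k^2 - 1) / (((2*p:ℕ):ℝ)^2 - k^2)) * g (2*p) k =
        (3 * (k:ℝ) - 2) * (2 * k + 1) * g (2*p) (k-1) := by
      intro k hk1 hk2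
      have := grec p k hk1 hk2
      push_cast
      exact this
    have hneg := A2.nonpos (2*p) (g (2*p)) (g0 p hp) hcon hr
    have hneg' : ∀ k, k < 2*p → g (2*p) k ≤ 0 := by
      intro k hk
      have := (hneg (2*p-k-1) (by omega)).2
      rwa [show 2*p - (2*p-k-1+1) = k by omega] at this
    have h1 : SS g p p ≤ 0 := by
      unfold SS
      apply Finset.sum_nonpos
      intro i hi
      rw [Finset.mem_range] at hi
      have hi' : (i:ℝ) + 1 ≤ p := by exact_mod_cast hi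
      have hi0 : (0:ℝ) ≤ i := Nat.cast_nonneg i
      have z1 := div_nonpos_of_nonpos_of_nonneg (hneg' (2*i+1) (by omega))
        (show 0 ≤ 2*(p:ℝ) - 1 - 2*i by linarith)
      have z2 := div_nonpos_of_nonpos_of_nonneg (hneg' (2*i) (by omega))
        (show 0 ≤ 2*(p:ℝ) + 2*i by linarith)
      linarith
    rw [hSS p p hp le_rfl, hc] at h1
    norm_num at h1
  have hm : ∀ i, a i = 2 * ((a i + 1)/2) - 1 := by
    intro i
    obtain ⟨t, ht⟩ := ao i
    omega
  have hp : ∀ i, N i = 2 * ((N i + 1)/2) - 1 := by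
    intro i
    obtain ⟨t, ht⟩ := No i
    omega
  have hm1 : ∀ i, 1 ≤ (a i + 1)/2 := by
    intro i
    obtain ⟨t, ht⟩ := ao i
    omega
  have hp1 : ∀ i, 1 ≤ (N i + 1)/2 := by
    intro i
    obtain ⟨t, ht⟩ := No i
    omega
  have hmp : ∀ i, (a i + 1)/2 ≤ (N i + 1)/2 := by
    intro i
    have := haN i
    omega
  have hptop : Tendsto (fun i => (N i + 1)/2) atTop atTop := by
    rw [tendsto_atTop]
    intro b
    filter_upwards [hN.eventually (eventually_ge_atTop (2*b))] with i hi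
    omega
  have hratio : Tendsto (fun i => (((a i + 1)/2 : ℕ) : ℝ) / (((N i + 1)/2 : ℕ) : ℝ)) atTop (𝓝 x) := by
    have hNr : Tendsto (fun i => ((N i : ℕ) : ℝ)) atTop atTop :=
      tendsto_natCast_atTop_atTop.comp hN
    have t1 : Tendsto (fun i => 1 / ((N i : ℕ) : ℝ)) atTop (𝓝 0) :=
      hNr.const_div_atTop 1
    have t2 := (haNx.add t1).div (t1.const_add 1) (by norm_num)
    rw [add_zero, add_zero, div_one] at t2
    refine t2.congr' ?_
    filter_upwards [hN.eventually (eventually_ge_atTop 1)] with i hi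
    have hNi : (0:ℝ) < N i := by exact_mod_cast hi
    have e1 : (((a i + 1)/2 : ℕ) : ℝ) = ((a i : ℝ) + 1)/2 := by
      have : a i + 1 = 2 * ((a i + 1)/2) := by
        have := hm i
        have := hm1 i
        omega
      have h3 : ((a i : ℝ) + 1) = 2 * (((a i + 1)/2 : ℕ) : ℝ) := by exact_mod_cast this
      rw [h3]; ring
    have e2 : (((N i + 1)/2 : ℕ) : ℝ) = ((N i : ℝ) + 1)/2 := by
      have : N i + 1 = 2 * ((N i + 1)/2) := by
        have := hp i
        have := hp1 i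
        omega
      have h3 : ((N i : ℝ) + 1) = 2 * (((N i + 1)/2 : ℕ) : ℝ) := by exact_mod_cast this
      rw [h3]; ring
    rw [e1, e2]
    simp only [Pi.div_apply]
    field_simp
  have hlim := h2 g g0 g1 grec (fun i => (N i + 1)/2) (fun i => (a i + 1)/2) x hx hmp hptop hratio
  refine hlim.congr fun i => ?_
  rw [hSS _ _ (hm1 i) (hmp i), hSS _ _ (hp1 i) le_rfl, hc, ← hm i, ← hp i]
  norm_num

end Pool.Agent.NH38.Step
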