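import Mathlib

/-!
Step channels: a positive three term recursion whose solutions are nearly constant (helper98).
-/

set_option autoImplicit false

namespace Pool.Agent.NH38.Step.A2

open Finset Filter Topology

/-- the hypotheses on the recursion -/
structure Rec (n : ℕ) (R P Q e : ℕ → ℝ) : Prop where
  eqn : ∀ j, 1 ≤ j → j < n → R (j+1) = P j * R (j-1) + Q j * R j
  P0 : ∀ j, 1 ≤ j → j < n → 0 ≤ P j
  Q0 : ∀ j, 1 ≤ j → j < n → 1 / (2 * (j:ℝ)) ≤ Q j
  sum : ∀ j, 1 ≤ j → j < n → P j + Q j = 1 - e j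
  e0 : ∀ j, 1 ≤ j → j < n → 0 ≤ e j
  e1 : ∀ j, 1 ≤ j → j < n → e j ≤ 1 / (4 * (j:ℝ)^3)
  R0 : R 0 = 0
  R1 : 0 < R 1

variable {n : ℕ} {R P Q e : ℕ → ℝ}

theorem Rec.Qpos (h : Rec n R P Q e) {j : ℕ} (h1 : 1 ≤ j) (h2 : j < n) : 0 ≤ Q j :=
  le_trans (by positivity) (h.Q0 j h1 h2)

theorem Rec.base (h : Rec n R P Q e) : ∀ j, j + 1 ≤ n →
    (0 ≤ R j ∧ R j ≤ R 1) ∧ (0 ≤ R (j+1) ∧ R (j+1) ≤ R 1) := by
  intro j
  induction j with
  | zero => intro _; exact ⟨⟨h.R0.ge, h.R0 ▸ h.R1.le⟩, ⟨h.R1.le, le_rfl⟩⟩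
  | succ j ih =>
    intro hj
    obtain ⟨⟨a1, a2⟩, ⟨b1, b2⟩⟩ := ih (by omega)
    have e1 := h.eqn (j+1) (by omega) (by omega)
    have e2 := h.sum (j+1) (by omega) (by omega)
    have e3 := h.e0 (j+1) (by omega) (by omega)
    have e4 := h.P0 (j+1) (by omega) (by omega)
    have e5 := h.Qpos (j := j+1) (by omega) (by omega)
    rw [show j + 1 - 1 = j by omega] at e1
    refine ⟨⟨b1, b2⟩, ?_, ?_⟩
    · rw [e1]; positivity
    · rw [e1]
      have := mul_le_mul_of_nonneg_left a2 e4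
      have := mul_le_mul_of_nonneg_left b2 e5
      have h3 : (P (j+1) + Q (j+1)) * R 1 ≤ R 1 := by
        rw [e2]; nlinarith [h.R1]
      linarith

theorem Rec.upper (h : Rec n R P Q e) (J : ℕ) : ∀ t, J + t + 1 ≤ n →
    R (J+t) ≤ max (R J) (R (J+1)) ∧ R (J+t+1) ≤ max (R J) (R (J+1)) := by
  intro t
  induction t with
  | zero => intro _; exact ⟨le_max_left _ _, le_max_right _ _⟩
  | succ t ih =>
    intro ht
    obtain ⟨a2, b2⟩ := ih (by omega)
    have e1 := h.eqn (J+t+1) (by omega) (by omega)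
    have e2 := h.sum (J+t+1) (by omega) (by omega)
    have e3 := h.e0 (J+t+1) (by omega) (by omega)
    have e4 := h.P0 (J+t+1) (by omega) (by omega)
    have e5 := h.Qpos (j := J+t+1) (by omega) (by omega)
    rw [show J + t + 1 - 1 = J + t by omega] at e1
    have hM : 0 ≤ max (R J) (R (J+1)) := le_trans (h.base J (by omega)).1.1 (le_max_left _ _)
    refine ⟨by simpa [add_assoc] using b2, ?_⟩
    have e6 : J + (t+1) + 1 = J + t + 1 + 1 := by ring
    rw [e6, e1]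
    have := mul_le_mul_of_nonneg_left a2 e4
    have := mul_le_mul_of_nonneg_left b2 e5
    have h3 : (P (J+t+1) + Q (J+t+1)) * max (R J) (R (J+1)) ≤ max (R J) (R (J+1)) := by
      rw [e2]; nlinarith
    linarith

theorem Rec.lower (h : Rec n R P Q e) (J : ℕ) (hJ : 1 ≤ J) : ∀ t, J + t + 1 ≤ n →
    (1 - 1/4 * (1/(J:ℝ) - 1/((J:ℝ)+t))) * min (R J) (R (J+1)) ≤ R (J+t) ∧
    (1 - 1/4 * (1/(J:ℝ) - 1/((J:ℝ)+t))) * min (R J) (R (J+1)) ≤ R (J+t+1) := by
  have hJ' : (1:ℝ) ≤ J := by exact_mod_cast hJ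
  intro t
  induction t with
  | zero => intro _; simp
  | succ t ih =>
    intro ht
    obtain ⟨a2, b2⟩ := ih (by omega)
    have e1 := h.eqn (J+t+1) (by omega) (by omega)
    have e2 := h.sum (J+t+1) (by omega) (by omega)
    have e3 := h.e0 (J+t+1) (by omega) (by omega)
    have e3' := h.e1 (J+t+1) (by omega) (by omega)
    have e4 := h.P0 (J+t+1) (by omega) (by omega)
    have e5 := h.Qpos (j := J+t+1) (by omega) (by omega)
    rw [show J + t + 1 - 1 = J + t by omega] at e1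
    have hm : 0 ≤ min (R J) (R (J+1)) := le_min (h.base J (by omega)).1.1 (h.base J (by omega)).2.1
    set m := min (R J) (R (J+1)) with hmdef
    set c := 1 - 1/4 * (1/(J:ℝ) - 1/((J:ℝ)+t)) with hc
    have hx : (0:ℝ) < (J:ℝ) + t := by positivity
    have hc1 : c ≤ 1 := by
      have : 1/((J:ℝ)+t) ≤ 1/(J:ℝ) := one_div_le_one_div_of_le (by linarith) (by linarith [(Nat.cast_nonneg t : (0:ℝ) ≤ t)])
      rw [hc]; linarith
    have hc0 : 0 ≤ c := by
      have h1 : 1/(J:ℝ) ≤ 1 := by rw [div_le_one (by linarith)]; exact hJ'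
      have h2 : 0 ≤ 1/((J:ℝ)+t) := by positivity
      rw [hc]; linarith
    have he : e (J+t+1) ≤ 1/4 * (1/((J:ℝ)+t) - 1/((J:ℝ)+t+1)) := by
      refine e3'.trans ?_
      push_cast
      have : 1/((J:ℝ)+t) - 1/((J:ℝ)+t+1) = 1/(((J:ℝ)+t)*((J:ℝ)+t+1)) := by field_simp; ring
      rw [this, one_div_mul_one_div]
      apply one_div_le_one_div_of_le (by positivity)
      have h1 : (0:ℝ) ≤ t := Nat.cast_nonneg t
      nlinarith [mul_pos hx (show (0:ℝ) < (J:ℝ)+t+1 by positivity), sq_nonneg ((J:ℝ)+t+1),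
        mul_pos (mul_pos hx (show (0:ℝ) < (J:ℝ)+t+1 by positivity)) hx]
    have key : (1 - 1/4 * (1/(J:ℝ) - 1/((J:ℝ)+(t+1:ℕ)))) * m ≤ R (J+t+1+1) := by
      rw [e1]
      have i1 := mul_le_mul_of_nonneg_left a2 e4
      have i2 := mul_le_mul_of_nonneg_left b2 e5
      have i3 : (P (J+t+1) + Q (J+t+1)) * (c * m) ≤ P (J+t+1) * R (J+t) + Q (J+t+1) * R (J+t+1) := by
        linarith
      refine le_trans ?_ i3
      rw [e2, ← mul_assoc]
      apply mul_le_mul_of_nonneg_right _ hm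
      push_cast
      have i4 : e (J+t+1) * c ≤ e (J+t+1) := by nlinarith
      have i5 : (1 - e (J+t+1)) * c = c - e (J+t+1) * c := by ring
      rw [i5]
      have i6 : (J:ℝ) + (t+1) = (J:ℝ)+t+1 := by ring
      rw [i6, hc]
      rw [hc] at i4
      linarith
    have mono : (1 - 1/4 * (1/(J:ℝ) - 1/((J:ℝ)+(t+1:ℕ)))) * m ≤ c * m := by
      apply mul_le_mul_of_nonneg_right _ hm
      rw [hc]
      have : 1/((J:ℝ)+(t+1:ℕ)) ≤ 1/((J:ℝ)+t) := by
        apply one_div_le_one_div_of_le hx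
        push_cast; linarith
      linarith
    exact ⟨mono.trans (by simpa [add_assoc] using b2), by
      have e6 : J + (t+1) + 1 = J + t + 1 + 1 := by ring
      rw [e6]; exact key⟩

theorem Rec.second (h : Rec n R P Q e) (hn : 2 ≤ n) : R 1 / 2 ≤ R 2 := by
  have e1 := h.eqn 1 le_rfl (by omega)
  have e2 := h.Q0 1 le_rfl (by omega)
  norm_num at e1 e2
  rw [h.R0] at e1
  rw [e1]
  nlinarith [h.R1]

/-- a lower bound for all terms -/
theorem Rec.ge (h : Rec n R P Q e) (hn : 2 ≤ n) {j : ℕ} (h1 : 1 ≤ j) (h2 : j ≤ n) :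
    3/8 * R 1 ≤ R j := by
  have hs := h.second hn
  have h11 := h.R1
  have hm : R 1 / 2 ≤ min (R 1) (R (1+1)) := le_min (by linarith) hs
  have hc : ∀ t : ℕ, 3/4 ≤ (1 - 1/4 * (1/((1:ℕ):ℝ) - 1/(((1:ℕ):ℝ)+t))) := by
    intro t
    have : 0 ≤ (1+(t:ℝ))⁻¹ := by positivity
    norm_num
    linarith
  rcases Nat.lt_or_ge j n with hlt | hge
  · obtain ⟨t, rfl⟩ : ∃ t, j = 1 + t := ⟨j - 1, by omega⟩
    have := (h.lower 1 le_rfl t (by omega)).1
    have h3 := mul_le_mul (hc t) hm (by linarith) (by linarith [hc t])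
    linarith
  · obtain ⟨t, rfl⟩ : ∃ t, j = 1 + t + 1 := ⟨j - 2, by omega⟩
    have := (h.lower 1 le_rfl t (by omega)).2
    have h3 := mul_le_mul (hc t) hm (by linarith) (by linarith [hc t])
    linarith

theorem Rec.le (h : Rec n R P Q e) (hn : 1 ≤ n) {j : ℕ} (h2 : j ≤ n) : R j ≤ R 1 := by
  rcases Nat.lt_or_ge j n with hlt | hge
  · exact (h.base j (by omega)).1.2
  · obtain ⟨t, rfl⟩ : ∃ t, j = t + 1 := ⟨j - 1, by omega⟩
    exact (h.base t (by omega)).2.2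

/-- the increments -/
theorem Rec.incr (h : Rec n R P Q e) : ∀ j, 1 ≤ j → j < n →
    |R (j+1) - R j| ≤ (2 - 1/(2*(j:ℝ))) / √(2*(j:ℝ)+1) * R 1 := by
  have step : ∀ j, 1 ≤ j → j < n →
      |R (j+1) - R j| ≤ (1 - 1/(2*(j:ℝ))) * |R j - R (j-1)| + 1/(4*(j:ℝ)^3) * R 1 := by
    intro j h1 h2
    have e1 := h.eqn j h1 h2
    have e2 := h.sum j h1 h2
    have e3 := h.e0 j h1 h2
    have e3' := h.e1 j h1 h2
    have e4 := h.P0 j h1 h2
    have e5 := h.Q0 j h1 h2
    have hb := h.base j (by omega)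
    have e6 : R (j+1) - R j = -(P j * (R j - R (j-1))) + -(e j * R j) := by
      rw [e1]
      have : Q j = 1 - e j - P j := by linarith
      rw [this]; ring
    rw [e6]
    refine (abs_add_le _ _).trans ?_
    rw [abs_neg, abs_neg, abs_mul, abs_mul, abs_of_nonneg e4, abs_of_nonneg e3,
      abs_of_nonneg hb.1.1]
    have i1 : P j ≤ 1 - 1/(2*(j:ℝ)) := by linarith
    have i2 := mul_le_mul_of_nonneg_right i1 (abs_nonneg (R j - R (j-1)))
    have i3 : e j * R j ≤ 1/(4*(j:ℝ)^3) * R 1 :=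
      mul_le_mul e3' hb.1.2 hb.1.1 (by positivity)
    linarith
  intro j h1
  induction j, h1 using Nat.le_induction with
  | base =>
    intro h2
    have := step 1 le_rfl h2
    norm_num at this ⊢
    rw [h.R0, sub_zero, abs_of_pos h.R1] at this
    refine this.trans ?_
    have h3 : √3 ≤ 2 := by
      rw [Real.sqrt_le_left (by norm_num)]; norm_num
    have h4 : (0:ℝ) < √3 := by positivity
    have h5 : (3/4 : ℝ) ≤ 3/2/√3 := by
      rw [le_div_iff₀ h4]; linarith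
    nlinarith [h.R1]
  | succ j h1 ih =>
    intro h2
    have ih' := ih (by omega)
    have hs := step (j+1) (by omega) h2
    rw [show j + 1 - 1 = j by omega] at hs
    refine hs.trans ?_
    have hj : (1:ℝ) ≤ j := by exact_mod_cast h1
    push_cast
    set a : ℝ := (j:ℝ) with ha
    have s1 : 0 < √(2*a+1) := by positivity
    have s2 : 0 < √(2*(a+1)+1) := by positivity
    have q1 : √(2*a+1)^2 = 2*a+1 := Real.sq_sqrt (by positivity)
    have q2 : √(2*(a+1)+1)^2 = 2*(a+1)+1 := Real.sq_sqrt (by positivity)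
    -- `(1 - 1/(2(a+1))) / √(2a+1) ≤ 1 / √(2a+3)`
    have k1 : (1 - 1/(2*(a+1))) * √(2*(a+1)+1) ≤ √(2*a+1) := by
      refine le_of_sq_le_sq ?_ s1.le
      rw [mul_pow, q1, q2]
      have : 1 - 1/(2*(a+1)) = (2*a+1)/(2*(a+1)) := by field_simp; ring
      rw [this, div_pow, div_mul_eq_mul_div, div_le_iff₀ (by positivity)]
      nlinarith
    have k2 : √(2*(a+1)+1) ≤ 2*(a+1) := by
      rw [Real.sqrt_le_left (by positivity)]
      nlinarith
    have hR := h.R1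
    have f0 : 0 ≤ 1 - 1/(2*(a+1)) := by
      have : 1/(2*(a+1)) ≤ 1 := by rw [div_le_one (by positivity)]; linarith
      linarith
    have f1 : 0 ≤ 2 - 1/(2*a) := by
      have : 1/(2*a) ≤ 1 := by rw [div_le_one (by positivity)]; linarith
      linarith
    have g1 : (1 - 1/(2*(a+1))) * |R (j+1) - R j| ≤
        (1 - 1/(2*(a+1))) * ((2 - 1/(2*a)) / √(2*a+1) * R 1) :=
      mul_le_mul_of_nonneg_left ih' f0
    have g2 : (1 - 1/(2*(a+1))) * ((2 - 1/(2*a)) / √(2*a+1) * R 1) ≤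
        (2 - 1/(2*a)) / √(2*(a+1)+1) * R 1 := by
      have : (1 - 1/(2*(a+1))) * ((2 - 1/(2*a)) / √(2*a+1) * R 1) =
          ((1 - 1/(2*(a+1))) / √(2*a+1)) * ((2 - 1/(2*a)) * R 1) := by ring
      rw [this]
      have h5 : (1 - 1/(2*(a+1))) / √(2*a+1) ≤ 1 / √(2*(a+1)+1) := by
        rw [div_le_div_iff₀ s1 s2]; linarith
      have h6 := mul_le_mul_of_nonneg_right h5 (mul_nonneg f1 hR.le)
      refine h6.trans (le_of_eq ?_)
      ring
    have g3 : 1/(4*(a+1)^3) ≤ (1/(2*a) - 1/(2*(a+1))) / √(2*(a+1)+1) := by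
      rw [le_div_iff₀ s2]
      have h7 : 1/(2*a) - 1/(2*(a+1)) = 1/(2*a*(a+1)) := by field_simp; ring
      rw [h7]
      calc 1/(4*(a+1)^3) * √(2*(a+1)+1) ≤ 1/(4*(a+1)^3) * (2*(a+1)) :=
            mul_le_mul_of_nonneg_left k2 (by positivity)
        _ = 1/(2*(a+1)*(a+1)) := by field_simp; ring
        _ ≤ 1/(2*a*(a+1)) := by
            apply one_div_le_one_div_of_le (by positivity)
            nlinarith
    have g4 := mul_le_mul_of_nonneg_right g3 hR.le
    calc (1 - 1/(2*(a+1))) * |R (j+1) - R j| + 1/(4*(a+1)^3) * R 1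
        ≤ (2 - 1/(2*a)) / √(2*(a+1)+1) * R 1 +
          (1/(2*a) - 1/(2*(a+1))) / √(2*(a+1)+1) * R 1 := by linarith
      _ = (2 - 1/(2*(a+1))) / √(2*(a+1)+1) * R 1 := by ring

/-- the error function -/
noncomputable def er (J : ℕ) : ℝ := 2 / √(2*(J:ℝ)+1) + 1/(4*(J:ℝ))

theorem er_tendsto : Tendsto er atTop (𝓝 0) := by
  have h1 : Tendsto (fun J : ℕ => 2 / √(2*(J:ℝ)+1)) atTop (𝓝 0) := by
    apply Tendsto.div_atTop tendsto_const_nhds
    apply Real.tendsto_sqrt_atTop.comp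
    exact tendsto_atTop_add_const_right _ _
      (Tendsto.const_mul_atTop (by norm_num) tendsto_natCast_atTop_atTop)
  have h2 : Tendsto (fun J : ℕ => 1 / (4*(J:ℝ))) atTop (𝓝 0) := by
    apply Tendsto.div_atTop tendsto_const_nhds
    exact Tendsto.const_mul_atTop (by norm_num) tendsto_natCast_atTop_atTop
  have h3 := h1.add h2
  rw [add_zero] at h3
  exact h3

/-- the terms are nearly constant -/
theorem Rec.close (h : Rec n R P Q e) {J j : ℕ} (hJ : 1 ≤ J) (hJn : J < n) (hj : J ≤ j)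
    (hjn : j ≤ n) : |R j - R J| ≤ er J * R 1 := by
  have hd := h.incr J hJ hJn
  have hR := h.R1
  have hJ' : (1:ℝ) ≤ J := by exact_mod_cast hJ
  set M := max (R J) (R (J+1)) with hM
  set m := min (R J) (R (J+1)) with hm
  have hMm : M - m = |R (J+1) - R J| := by
    rw [hM, hm, max_sub_min_eq_abs, abs_sub_comm]
  have hm0 : 0 ≤ m := le_min (h.base J (by omega)).1.1 (h.base J (by omega)).2.1
  have hm1 : m ≤ R 1 := (min_le_left _ _).trans (h.base J (by omega)).1.2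
  have hd' : |R (J+1) - R J| ≤ 2 / √(2*(J:ℝ)+1) * R 1 := by
    refine hd.trans ?_
    apply mul_le_mul_of_nonneg_right _ hR.le
    apply div_le_div_of_nonneg_right _ (by positivity)
    have : 0 ≤ 1/(2*(J:ℝ)) := by positivity
    linarith
  have hlow : ∀ t : ℕ, (1 - 1/(4*(J:ℝ))) * m ≤
      (1 - 1/4 * (1/(J:ℝ) - 1/((J:ℝ)+t))) * m := by
    intro t
    apply mul_le_mul_of_nonneg_right _ hm0
    have h1 : 0 ≤ 1/((J:ℝ)+t) := by positivity
    have h2 : 1/(4*(J:ℝ)) = 1/4 * (1/(J:ℝ)) := by rw [one_div_mul_one_div]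
    rw [h2]; linarith
  have hj2 : (1 - 1/(4*(J:ℝ))) * m ≤ R j ∧ R j ≤ M := by
    rcases Nat.lt_or_ge j n with hlt | hge
    · obtain ⟨t, rfl⟩ : ∃ t, j = J + t := ⟨j - J, by omega⟩
      exact ⟨(hlow t).trans (h.lower J hJ t (by omega)).1, (h.upper J t (by omega)).1⟩
    · obtain ⟨t, rfl⟩ : ∃ t, j = J + t + 1 := ⟨j - J - 1, by omega⟩
      exact ⟨(hlow t).trans (h.lower J hJ t (by omega)).2, (h.upper J t (by omega)).2⟩
  have hJ2 : m ≤ R J ∧ R J ≤ M := ⟨min_le_left _ _, le_max_left _ _⟩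
  have i1 : (1 - 1/(4*(J:ℝ))) * m = m - 1/(4*(J:ℝ)) * m := by ring
  have i2 : 1/(4*(J:ℝ)) * m ≤ 1/(4*(J:ℝ)) * R 1 := mul_le_mul_of_nonneg_left hm1 (by positivity)
  have i3 : 0 ≤ 1/(4*(J:ℝ)) * m := by positivity
  unfold er
  rw [add_mul, abs_le]
  constructor <;> linarith [hj2.1, hj2.2, hJ2.1, hJ2.2]

end Pool.Agent.NH38.Step.A2
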