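import Mathlib

/-!
Step channels: the coefficients of the rescaled recursion (helper98).
-/

set_option autoImplicit false

namespace Pool.Agent.NH38.Step.A2

/-- first coefficient -/
noncomputable def Pf (k j : ℝ) : ℝ :=
  (2*k-1)*(3*k+1)*(3*j-2)*(3*j+1)*(3*(2*k+j)+2)*(3*(2*k+j)-1) /
    ((2*k+1)*(3*k-1)*(3*j-1)*(3*j+2)*(3*(2*k+j)+1)*(3*(2*k+j)-2))

/-- second coefficient -/
noncomputable def Qf (k j : ℝ) : ℝ :=
  2*k*((k+j)^2+3*k^2-1)*(3*j+1)*(3*(2*k+j)-1) /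
    (j*(2*k+j)*(2*k+1)*(3*k-1)*(3*j+2)*(3*(2*k+j)-2))

theorem Pf_nonneg {k j : ℝ} (hk : 1 ≤ k) (hj : 1 ≤ j) : 0 ≤ Pf k j := by
  unfold Pf
  have a1 : 0 ≤ 2*k-1 := by linarith
  have a2 : 0 ≤ 3*j-2 := by linarith
  have a3 : 0 ≤ 3*(2*k+j)-1 := by linarith
  have a4 : 0 ≤ 3*k-1 := by linarith
  have a5 : 0 ≤ 3*j-1 := by linarith
  have a6 : 0 ≤ 3*(2*k+j)-2 := by linarith
  positivity

theorem Qf_ge {k j : ℝ} (hk : 1 ≤ k) (hj : 1 ≤ j) : 1/(2*j) ≤ Qf k j := by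
  obtain ⟨a, rfl⟩ : ∃ a, k = 1 + a := ⟨k - 1, by ring⟩
  obtain ⟨b, rfl⟩ : ∃ b, j = 1 + b := ⟨j - 1, by ring⟩
  have ha : 0 ≤ a := by linarith
  have hb : 0 ≤ b := by linarith
  unfold Qf
  have a4 : 0 < 3*(1+a)-1 := by linarith
  have a6 : 0 < 3*(2*(1+a)+(1+b))-2 := by linarith
  rw [div_le_div_iff₀ (by positivity) (by positivity), ← sub_nonneg]
  ring_nf
  positivity

/-- the defect -/
noncomputable def ef (k j : ℝ) : ℝ := 1 - (Pf k j + Qf k j)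

theorem ef_eq {k j : ℝ} (hk : 1 ≤ k) (hj : 1 ≤ j) : ef k j =
    (288*k^5 + 432*k^4*j + 216*k^3*j^2 - 80*k^3 - 108*k^2*j - 54*k*j^2 + 2*k) /
    ((2*k+1)*(3*k-1)*(3*j+2)*(3*(2*k+j)-2)*(3*j-1)*(3*(2*k+j)+1)*j*(2*k+j)) := by
  have a1 : 0 < 2*k+1 := by linarith
  have a2 : 0 < 3*k-1 := by linarith
  have a3 : 0 < 3*j-1 := by linarith
  have a4 : 0 < 3*j+2 := by linarith
  have a5 : 0 < 3*(2*k+j)+1 := by linarith
  have a6 : 0 < 3*(2*k+j)-2 := by linarith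
  have a7 : 0 < j := by linarith
  have a8 : 0 < 2*k+j := by linarith
  have hP : Pf k j = ((2*k-1)*(3*k+1)*(3*j-2)*(3*j+1)*(3*(2*k+j)+2)*(3*(2*k+j)-1)*(j*(2*k+j))) /
      ((2*k+1)*(3*k-1)*(3*j+2)*(3*(2*k+j)-2)*(3*j-1)*(3*(2*k+j)+1)*j*(2*k+j)) := by
    unfold Pf
    rw [div_eq_div_iff (by positivity) (by positivity)]
    ring
  have hQ : Qf k j = (2*k*((k+j)^2+3*k^2-1)*(3*j+1)*(3*(2*k+j)-1)*((3*j-1)*(3*(2*k+j)+1))) /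
      ((2*k+1)*(3*k-1)*(3*j+2)*(3*(2*k+j)-2)*(3*j-1)*(3*(2*k+j)+1)*j*(2*k+j)) := by
    unfold Qf
    rw [div_eq_div_iff (by positivity) (by positivity)]
    ring
  unfold ef
  rw [hP, hQ, ← add_div, one_sub_div (by positivity)]
  congr 1
  ring

theorem ef_nonneg {k j : ℝ} (hk : 1 ≤ k) (hj : 1 ≤ j) : 0 ≤ ef k j := by
  rw [ef_eq hk hj]
  obtain ⟨a, rfl⟩ : ∃ a, k = 1 + a := ⟨k - 1, by ring⟩
  obtain ⟨b, rfl⟩ : ∃ b, j = 1 + b := ⟨j - 1, by ring⟩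
  have ha : 0 ≤ a := by linarith
  have hb : 0 ≤ b := by linarith
  apply div_nonneg
  · ring_nf
    positivity
  · have a4 : 0 < 3*(1+a)-1 := by linarith
    have a6 : 0 < 3*(2*(1+a)+(1+b))-2 := by linarith
    have a7 : 0 < 3*(1+b)-1 := by linarith
    positivity

theorem ef_le {k j : ℝ} (hk : 1 ≤ k) (hj : 1 ≤ j) : ef k j ≤ 1/(4*j^3) := by
  rw [ef_eq hk hj]
  obtain ⟨a, rfl⟩ : ∃ a, k = 1 + a := ⟨k - 1, by ring⟩
  obtain ⟨b, rfl⟩ : ∃ b, j = 1 + b := ⟨j - 1, by ring⟩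
  have ha : 0 ≤ a := by linarith
  have hb : 0 ≤ b := by linarith
  have a4 : 0 < 3*(1+a)-1 := by linarith
  have a6 : 0 < 3*(2*(1+a)+(1+b))-2 := by linarith
  have a7 : 0 < 3*(1+b)-1 := by linarith
  rw [div_le_div_iff₀ (by positivity) (by positivity), ← sub_nonneg]
  ring_nf
  positivity

end Pool.Agent.NH38.Step.A2
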