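import Pool.Agent.NH38.Step.A2a
import Pool.Agent.NH38.Step.A2b

/-!
Step channels: the rescaled sequence satisfies the nearly constant recursion (helper98).
-/

set_option autoImplicit false

namespace Pool.Agent.NH38.Step.A2

/-- the products `∏ (3i+1)/(3i+2)` -/
noncomputable def cc : ℕ → ℝ
  | 0 => 1
  | k+1 => cc k * (3*(k:ℝ)+1) / (3*(k:ℝ)+2)

theorem cc_pos (k : ℕ) : 0 < cc k := by
  induction k with
  | zero => exact one_pos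
  | succ k ih => rw [cc]; positivity

theorem cc_succ (k : ℕ) : cc (k+1) = cc k * ((3*(k:ℝ)+1) / (3*(k:ℝ)+2)) := by
  rw [cc, mul_div_assoc]

/-- the rescaled sequence -/
noncomputable def Rs (n : ℕ) (g : ℕ → ℝ) (j : ℕ) : ℝ :=
  g (n-j) * (cc j * cc (2*n-j) / cc (n-j))

theorem Rs_eqn (n : ℕ) (g : ℕ → ℝ) (k j : ℕ) (hn : n = k + 1 + (j + 1))
    (h : (3 * ((k+1:ℕ):ℝ) + 2) * (2 * ((k+1:ℕ):ℝ) - 1) * g (k+2) +
      2 * ((k+1:ℕ):ℝ) * (((n:ℝ)^2 + 3 * ((k+1:ℕ):ℝ)^2 - 1) / ((n:ℝ)^2 - ((k+1:ℕ):ℝ)^2)) * g (k+1) =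
    (3 * ((k+1:ℕ):ℝ) - 2) * (2 * ((k+1:ℕ):ℝ) + 1) * g k) :
    Rs n g (j+2) = Pf ((k+1:ℕ):ℝ) ((j+1:ℕ):ℝ) * Rs n g j +
      Qf ((k+1:ℕ):ℝ) ((j+1:ℕ):ℝ) * Rs n g (j+1) := by
  have e1 : n - j = k + 2 := by omega
  have e2 : n - (j+1) = k + 1 := by omega
  have e3 : n - (j+2) = k := by omega
  have e4 : 2*n - (j+2) = 2*k + j + 2 := by omega
  have e5 : 2*n - (j+1) = 2*k + j + 3 := by omega
  have e6 : 2*n - j = 2*k + j + 4 := by omega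
  unfold Rs
  rw [e1, e2, e3, e4, e5, e6]
  have ck := cc_pos k
  have cj := cc_pos j
  have cs := cc_pos (2*k+j+2)
  have k1 := cc_succ k
  have k2 := cc_succ (k+1)
  have j1 := cc_succ j
  have j2 := cc_succ (j+1)
  have s1 := cc_succ (2*k+j+2)
  have s2 := cc_succ (2*k+j+2+1)
  rw [show k + 1 + 1 = k + 2 by ring] at k2
  rw [show j + 1 + 1 = j + 2 by ring] at j2
  rw [show 2*k + j + 2 + 1 = 2*k + j + 3 by ring] at s1
  rw [show 2*k + j + 2 + 1 + 1 = 2*k + j + 4 by ring, show 2*k + j + 2 + 1 = 2*k + j + 3 by ring] at s2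
  have hnr : (n:ℝ) = (k:ℝ) + 1 + ((j:ℝ) + 1) := by rw [hn]; push_cast; ring
  set a : ℝ := (k:ℝ) with ha
  set b : ℝ := (j:ℝ) with hb
  have ha0 : 0 ≤ a := Nat.cast_nonneg k
  have hb0 : 0 ≤ b := Nat.cast_nonneg j
  push_cast at h k2 j2 s1 s2 ⊢
  rw [← ha, ← hb] at *
  rw [hnr] at h
  have hg : g k = ((3*(a+1)+2)*(2*(a+1)-1)/((3*(a+1)-2)*(2*(a+1)+1))) * g (k+2) +
      (2*(a+1)*((a+1+(b+1))^2+3*(a+1)^2-1)/((b+1)*(2*(a+1)+(b+1))*((3*(a+1)-2)*(2*(a+1)+1)))) *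
        g (k+1) := by
    have p1 : 0 < (3*(a+1)-2)*(2*(a+1)+1) := by
      have : 0 < 3*(a+1)-2 := by linarith
      positivity
    have p2 : (a+1+(b+1))^2 - (a+1)^2 = (b+1)*(2*(a+1)+(b+1)) := by ring
    have p3 : 0 < (b+1)*(2*(a+1)+(b+1)) := by positivity
    rw [p2] at h
    have : g k = ((3*(a+1)-2)*(2*(a+1)+1) * g k) / ((3*(a+1)-2)*(2*(a+1)+1)) :=
      (mul_div_cancel_left₀ _ p1.ne').symm
    rw [this, ← h]
    set D := (3*(a+1)-2)*(2*(a+1)+1)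
    set E := (b+1)*(2*(a+1)+(b+1))
    field_simp
  rw [hg, k2, j2, s2, k1, j1, s1]
  have q1 : 0 < 3*(a+1)-2 := by linarith
  have q2 : 0 < 3*(a+1)-1 := by linarith
  have q3 : 0 < 3*(b+1)-1 := by linarith
  have q4 : 0 < 3*(2*(a+1)+(b+1))-2 := by linarith
  have r1 : ((3*(a+1)+2)*(2*(a+1)-1)/((3*(a+1)-2)*(2*(a+1)+1))) *
      (cc j * ((3*b+1)/(3*b+2)) * ((3*(b+1)+1)/(3*(b+1)+2)) * cc (2*k+j+2) / cc k) =
      Pf (a+1) (b+1) * (cc j * (cc (2*k+j+2) * ((3*(2*a+b+2)+1)/(3*(2*a+b+2)+2)) *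
        ((3*(2*a+b+3)+1)/(3*(2*a+b+3)+2))) / (cc k * ((3*a+1)/(3*a+2)) *
          ((3*(a+1)+1)/(3*(a+1)+2)))) := by
    unfold Pf
    set C1 := cc j
    set C2 := cc k
    set C3 := cc (2*k+j+2)
    rw [show 3*(a+1)-2 = 3*a+1 by ring, show 3*(a+1)-1 = 3*a+2 by ring,
      show 3*(b+1)-1 = 3*b+2 by ring, show 3*(2*(a+1)+(b+1))-2 = 3*(2*a+b+2)+1 by ring,
      show 3*(2*(a+1)+(b+1))-1 = 3*(2*a+b+2)+2 by ring,
      show 3*(2*(a+1)+(b+1))+1 = 3*(2*a+b+3)+1 by ring,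
      show 3*(2*(a+1)+(b+1))+2 = 3*(2*a+b+3)+2 by ring,
      show 3*(b+1)-2 = 3*b+1 by ring]
    field_simp
  have r2 : (2*(a+1)*((a+1+(b+1))^2+3*(a+1)^2-1)/((b+1)*(2*(a+1)+(b+1))*
        ((3*(a+1)-2)*(2*(a+1)+1)))) *
      (cc j * ((3*b+1)/(3*b+2)) * ((3*(b+1)+1)/(3*(b+1)+2)) * cc (2*k+j+2) / cc k) =
      Qf (a+1) (b+1) * (cc j * ((3*b+1)/(3*b+2)) * (cc (2*k+j+2) * ((3*(2*a+b+2)+1)/(3*(2*a+b+2)+2))) /
        (cc k * ((3*a+1)/(3*a+2)))) := by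
    unfold Qf
    set C1 := cc j
    set C2 := cc k
    set C3 := cc (2*k+j+2)
    rw [show 3*(a+1)-2 = 3*a+1 by ring, show 3*(a+1)-1 = 3*a+2 by ring,
      show 3*(2*(a+1)+(b+1))-2 = 3*(2*a+b+2)+1 by ring,
      show 3*(2*(a+1)+(b+1))-1 = 3*(2*a+b+2)+2 by ring]
    generalize (a+1+(b+1))^2+3*(a+1)^2-1 = W
    field_simp
  rw [add_mul]
  rw [mul_right_comm, r1, mul_right_comm _ (g (k+1)), r2]
  ring

theorem rec_of (n : ℕ) (g : ℕ → ℝ) (h0 : g n = 0) (h1 : 0 < g (n-1))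
    (h : ∀ k : ℕ, 1 ≤ k → k < n →
    (3 * (k:ℝ) + 2) * (2 * k - 1) * g (k+1) +
      2 * k * (((n:ℝ)^2 + 3 * k^2 - 1) / ((n:ℝ)^2 - k^2)) * g k =
    (3 * (k:ℝ) - 2) * (2 * k + 1) * g (k-1)) :
    Rec n (Rs n g) (fun j => Pf ((n-j:ℕ):ℝ) j) (fun j => Qf ((n-j:ℕ):ℝ) j)
      (fun j => ef ((n-j:ℕ):ℝ) j) where
  eqn := by
    intro j hj1 hj2
    obtain ⟨i, rfl⟩ : ∃ i, j = i + 1 := ⟨j - 1, by omega⟩
    obtain ⟨k, hk⟩ : ∃ k, n = k + 1 + (i + 1) := ⟨n - i - 2, by omega⟩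
    have := Rs_eqn n g k i hk (h (k+1) (by omega) (by omega))
    have e : n - (i+1) = k + 1 := by omega
    simp only [e]
    exact this
  P0 := by
    intro j hj1 hj2
    exact Pf_nonneg (by exact_mod_cast (show 1 ≤ n - j by omega)) (by exact_mod_cast hj1)
  Q0 := by
    intro j hj1 hj2
    exact Qf_ge (by exact_mod_cast (show 1 ≤ n - j by omega)) (by exact_mod_cast hj1)
  sum := by
    intro j hj1 hj2
    simp only [ef]
    ring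
  e0 := by
    intro j hj1 hj2
    exact ef_nonneg (by exact_mod_cast (show 1 ≤ n - j by omega)) (by exact_mod_cast hj1)
  e1 := by
    intro j hj1 hj2
    exact ef_le (by exact_mod_cast (show 1 ≤ n - j by omega)) (by exact_mod_cast hj1)
  R0 := by simp [Rs, h0]
  R1 := by
    unfold Rs
    have a := cc_pos 1
    have b := cc_pos (2*n-1)
    have c := cc_pos (n-1)
    positivity

end Pool.Agent.NH38.Step.A2
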