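import Pool.Agent.NH38.Step.A2f

/-!
Step channels: comparison of the scale with the increments of `cardy (x²)` (helper98).
-/

set_option autoImplicit false

namespace Pool.Agent.NH38.Step.A2

open Filter Topology

theorem cube_le {a b : ℝ} (hb : 0 ≤ b) (h : a^3 ≤ b^3) : a ≤ b :=
  le_of_pow_le_pow_left₀ (by norm_num) hb h

/-- the normalisation -/
noncomputable def KK (p : ℕ) : ℝ := (BB^3 * p / (32 * LL)) ^ (((3:ℕ):ℝ)⁻¹)

theorem KK_pos {p : ℕ} (hp : 1 ≤ p) : 0 < KK p := by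
  have hp' : (0:ℝ) < p := by exact_mod_cast hp
  have := BB_pos
  have := LL_pos
  unfold KK
  positivity

theorem KK_cube (p : ℕ) : KK p ^ 3 = BB^3 * p / (32 * LL) := by
  have := BB_pos
  have := LL_pos
  unfold KK
  exact Real.rpow_inv_natCast_pow (by positivity) (by norm_num)

theorem delta_cube {p i : ℕ} (h : i < p) : ∃ u : ℝ, (i:ℝ) < u ∧ u < i + 1 ∧
    (KK p * dF FF p i) ^ 3 = (p:ℝ)^3 / (4 * LL * (u * ((p:ℝ)^2 - u^2)^2)) := by
  obtain ⟨u, h1, h2, h3⟩ := dF_cube h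
  refine ⟨u, h1, h2, ?_⟩
  have hp : (0:ℝ) < p := by exact_mod_cast (by omega : 0 < p)
  have hi : (i:ℝ) + 1 ≤ p := by exact_mod_cast h
  have hi0 : (0:ℝ) ≤ i := Nat.cast_nonneg i
  have hu : 0 < u := by linarith
  have hB := BB_pos
  have hL := LL_pos
  have hw : 0 < (p:ℝ)^2 - u^2 := by nlinarith
  rw [mul_pow, KK_cube, h3]
  generalize (p:ℝ)^2 - u^2 = w at *
  field_simp
  ring

theorem delta_nonneg {p i : ℕ} (h : i < p) : 0 ≤ KK p * dF FF p i :=
  mul_nonneg (KK_pos (by omega)).le (dF_nonneg FF_mono h)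

/-- uniform lower bound for the increments -/
theorem delta_low {p i : ℕ} (h : i < p) :
    (p:ℝ)^3 / (4 * LL * (((i:ℝ)+1) * (((p:ℝ) - i)^2 * ((p:ℝ) + i)^2))) ≤
      (KK p * dF FF p i) ^ 3 := by
  obtain ⟨u, h1, h2, h3⟩ := delta_cube h
  have hp : (0:ℝ) < p := by exact_mod_cast (by omega : 0 < p)
  have hi : (i:ℝ) + 1 ≤ p := by exact_mod_cast h
  have hi0 : (0:ℝ) ≤ i := Nat.cast_nonneg i
  have hu : 0 < u := by linarith
  have hL := LL_pos
  have hw : 0 < (p:ℝ)^2 - u^2 := by nlinarith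
  have hw2 : (p:ℝ)^2 - u^2 ≤ ((p:ℝ) - i) * ((p:ℝ) + i) := by nlinarith
  rw [h3]
  apply div_le_div_of_nonneg_left (by positivity) (by positivity)
  apply mul_le_mul_of_nonneg_left _ (by positivity)
  rw [← mul_pow]
  exact mul_le_mul h2.le (pow_le_pow_left₀ hw.le hw2 2) (by positivity) (by positivity)

theorem t1_unif {p i : ℕ} (h : i < p) :
    vv (2*p) (2*i+1) / (2*(p:ℝ) - 1 - 2*i) ≤ 8 * (KK p * dF FF p i) := by
  have hp : (0:ℝ) < p := by exact_mod_cast (by omega : 0 < p)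
  have hi : (i:ℝ) + 1 ≤ p := by exact_mod_cast h
  have hi0 : (0:ℝ) ≤ i := Nat.cast_nonneg i
  have hL := LL_pos
  apply cube_le (by linarith [delta_nonneg h])
  have h1 := vv_le (n := 2*p) (k := 2*i+1) (by omega)
  have h2 := delta_low h
  have hv := vv_pos (2*p) (2*i+1)
  push_cast at h1
  have hD : 0 < (p:ℝ) - i := by linarith
  have hE : 0 < 2*(p:ℝ) - 1 - 2*i := by linarith
  have a1 : (vv (2*p) (2*i+1) / (2*(p:ℝ) - 1 - 2*i))^3 ≤
      32 * p / (LL * (((i:ℝ)+1) * ((p:ℝ) - i)^2)) := by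
    rw [div_pow]
    calc vv (2*p) (2*i+1)^3 / (2*(p:ℝ) - 1 - 2*i)^3
        ≤ (8 * (2*(p:ℝ) - (2*i+1) + 1) * (2*(p:ℝ) + (2*i+1) + 1) / (LL * (2*i+1+1))) /
          (2*(p:ℝ) - 1 - 2*i)^3 := div_le_div_of_nonneg_right h1 (by positivity)
      _ ≤ (8 * (2*(p:ℝ) - (2*i+1) + 1) * (2*(p:ℝ) + (2*i+1) + 1) / (LL * (2*i+1+1))) /
          ((p:ℝ) - i)^3 := by
          apply div_le_div_of_nonneg_left
          · have : 0 < 2*(p:ℝ) - (2*i+1) + 1 := by linarith
            positivity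
          · positivity
          · exact pow_le_pow_left₀ hD.le (by linarith) 3
      _ = 16 * ((p:ℝ) + i + 1) / (LL * (((i:ℝ)+1) * ((p:ℝ) - i)^2)) := by
          rw [show 2*(p:ℝ) - (2*i+1) + 1 = 2 * ((p:ℝ) - i) by ring]
          generalize (p:ℝ) - i = D at *
          field_simp
          ring
      _ ≤ 32 * p / (LL * (((i:ℝ)+1) * ((p:ℝ) - i)^2)) := by
          apply div_le_div_of_nonneg_right _ (by positivity)
          linarith
  have a2 : 32 * p / (LL * (((i:ℝ)+1) * ((p:ℝ) - i)^2)) ≤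
      512 * ((p:ℝ)^3 / (4 * LL * (((i:ℝ)+1) * (((p:ℝ) - i)^2 * ((p:ℝ) + i)^2)))) := by
    rw [mul_div_assoc', div_le_div_iff₀ (by positivity) (by positivity)]
    have hS : ((p:ℝ) + i)^2 ≤ 4 * (p:ℝ)^2 := by nlinarith
    calc 32 * (p:ℝ) * (4 * LL * (((i:ℝ)+1) * (((p:ℝ) - i)^2 * ((p:ℝ) + i)^2)))
        = (128 * p * LL * ((i:ℝ)+1) * ((p:ℝ) - i)^2) * ((p:ℝ) + i)^2 := by ring
      _ ≤ (128 * p * LL * ((i:ℝ)+1) * ((p:ℝ) - i)^2) * (4 * (p:ℝ)^2) :=
          mul_le_mul_of_nonneg_left hS (by positivity)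
      _ = _ := by ring
  have a3 : (8 * (KK p * dF FF p i))^3 = 512 * (KK p * dF FF p i)^3 := by rw [mul_pow]; norm_num
  rw [a3]
  linarith

theorem t2_unif {p i : ℕ} (h : i < p) :
    vv (2*p) (2*i) / (2*(p:ℝ) + 2*i) ≤ 4 * (KK p * dF FF p i) := by
  have hp : (0:ℝ) < p := by exact_mod_cast (by omega : 0 < p)
  have hi : (i:ℝ) + 1 ≤ p := by exact_mod_cast h
  have hi0 : (0:ℝ) ≤ i := Nat.cast_nonneg i
  have hL := LL_pos
  apply cube_le (by linarith [delta_nonneg h])
  have h1 := vv_le (n := 2*p) (k := 2*i) (by omega)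
  have h2 := delta_low h
  have hv := vv_pos (2*p) (2*i)
  push_cast at h1
  have hD : 0 < (p:ℝ) - i := by linarith
  have hD2 : 0 < 2*(p:ℝ) - 2*i + 1 := by linarith
  have a1 : (vv (2*p) (2*i) / (2*(p:ℝ) + 2*i))^3 ≤
      12 * p / (LL * (((i:ℝ)+1) * ((p:ℝ) + i)^2)) := by
    rw [div_pow]
    calc vv (2*p) (2*i)^3 / (2*(p:ℝ) + 2*i)^3
        ≤ (8 * (2*(p:ℝ) - 2*i + 1) * (2*(p:ℝ) + 2*i + 1) / (LL * (2*i+1))) /
          (2*(p:ℝ) + 2*i)^3 := div_le_div_of_nonneg_right h1 (by positivity)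
      _ ≤ (8 * (3*(p:ℝ)) * (4*(p:ℝ)) / (LL * (i+1))) / (2*(p:ℝ) + 2*i)^3 := by
          apply div_le_div_of_nonneg_right _ (by positivity)
          apply div_le_div₀ (by positivity)
          · apply mul_le_mul _ (by linarith) (by positivity) (by positivity)
            linarith
          · positivity
          · apply mul_le_mul_of_nonneg_left _ hL.le
            linarith
      _ = 12 * (p:ℝ) * (p / ((p:ℝ)+i)) / (LL * (((i:ℝ)+1) * ((p:ℝ) + i)^2)) := by
          field_simp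
          ring
      _ ≤ 12 * (p:ℝ) * 1 / (LL * (((i:ℝ)+1) * ((p:ℝ) + i)^2)) := by
          apply div_le_div_of_nonneg_right _ (by positivity)
          apply mul_le_mul_of_nonneg_left _ (by positivity)
          rw [div_le_one (by positivity)]
          linarith
      _ = _ := by rw [mul_one]
  have a2 : 12 * p / (LL * (((i:ℝ)+1) * ((p:ℝ) + i)^2)) ≤
      64 * ((p:ℝ)^3 / (4 * LL * (((i:ℝ)+1) * (((p:ℝ) - i)^2 * ((p:ℝ) + i)^2)))) := by
    rw [mul_div_assoc', div_le_div_iff₀ (by positivity) (by positivity)]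
    have hS : ((p:ℝ) - i)^2 ≤ (p:ℝ)^2 := by nlinarith
    calc 12 * (p:ℝ) * (4 * LL * (((i:ℝ)+1) * (((p:ℝ) - i)^2 * ((p:ℝ) + i)^2)))
        = (48 * p * LL * ((i:ℝ)+1) * ((p:ℝ) + i)^2) * ((p:ℝ) - i)^2 := by ring
      _ ≤ (48 * p * LL * ((i:ℝ)+1) * ((p:ℝ) + i)^2) * (p:ℝ)^2 :=
          mul_le_mul_of_nonneg_left hS (by positivity)
      _ ≤ (64 * p * LL * ((i:ℝ)+1) * ((p:ℝ) + i)^2) * (p:ℝ)^2 := by
          apply mul_le_mul_of_nonneg_right _ (by positivity)
          have : 0 ≤ p * LL * ((i:ℝ)+1) * ((p:ℝ) + i)^2 := by positivity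
          linarith
      _ = _ := by ring
  have a3 : (4 * (KK p * dF FF p i))^3 = 64 * (KK p * dF FF p i)^3 := by rw [mul_pow]; norm_num
  rw [a3]
  linarith

theorem q4 {A A' b b' d d' c : ℝ} (hc : 0 ≤ c) (hA : 0 ≤ A) (hb : 0 < b) (hb' : 0 < b')
    (hd : 0 < d) (hd' : 0 < d') (h1 : A ≤ c * A') (h2 : b' ≤ c * b) (h3 : d' ≤ c * d) :
    A / (b * d^2) ≤ c^4 * (A' / (b' * d'^2)) := by
  rw [mul_div_assoc', div_le_div_iff₀ (by positivity) (by positivity)]
  have h4 : d'^2 ≤ (c*d)^2 := pow_le_pow_left₀ hd'.le h3 2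
  calc A * (b' * d'^2) ≤ (c * A') * ((c * b) * (c*d)^2) := by
        apply mul_le_mul h1 _ (by positivity) (le_trans hA h1)
        exact mul_le_mul h2 h4 (by positivity) (by positivity)
    _ = _ := by ring

theorem close_terms {p i M : ℕ} (hM : 1 ≤ M) (h1 : M ≤ i) (h2 : i + M < p) :
    (vv (2*p) (2*i+1) / (2*(p:ℝ) - 1 - 2*i) + vv (2*p) (2*i) / (2*(p:ℝ) + 2*i)) / 2 ≤
      (1 + 1/(M:ℝ))^2 * (KK p * dF FF p i) ∧
    KK p * dF FF p i ≤ (1 + 1/(M:ℝ))^2 *
      ((vv (2*p) (2*i+1) / (2*(p:ℝ) - 1 - 2*i) + vv (2*p) (2*i) / (2*(p:ℝ) + 2*i)) / 2) := by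
  obtain ⟨u, u1, u2, u3⟩ := delta_cube (show i < p by omega)
  have hΔ := delta_nonneg (show i < p by omega)
  have hp : (0:ℝ) < p := by exact_mod_cast (by omega : 0 < p)
  have hM' : (1:ℝ) ≤ M := by exact_mod_cast hM
  have hMi : (M:ℝ) ≤ i := by exact_mod_cast h1
  have hMp : (i:ℝ) + M + 1 ≤ p := by exact_mod_cast h2
  have hL := LL_pos
  set Δ := KK p * dF FF p i with hΔdef
  set c : ℝ := 1 + 1/(M:ℝ) with hc
  have hc1 : 1 ≤ c := by rw [hc]; linarith [show 0 < 1/(M:ℝ) by positivity]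
  -- `x ≤ c y` if `x ≤ y + 1` and `M ≤ y`
  have key : ∀ x y : ℝ, x ≤ y + 1 → (M:ℝ) ≤ y → x ≤ c * y := by
    intro x y hxy hy
    have : 1 ≤ 1/(M:ℝ) * y := by
      rw [div_mul_eq_mul_div, le_div_iff₀ (by linarith)]; linarith
    rw [hc]; linarith
  have v1 := vv_upper (n := 2*p) (k := 2*i+1) (by omega) (by omega) (M := M) (by linarith)
    (by push_cast; linarith)
  have v2 := vv_lower (n := 2*p) (k := 2*i+1) (by omega) (by omega) (M := M) (by linarith)
    (by push_cast; linarith)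
  have v3 := vv_upper (n := 2*p) (k := 2*i) (by omega) (by omega) (M := M) (by linarith)
    (by push_cast; linarith)
  have v4 := vv_lower (n := 2*p) (k := 2*i) (by omega) (by omega) (M := M) (by linarith)
    (by push_cast; linarith)
  rw [← hc] at v1 v2 v3 v4
  push_cast at v1 v2 v3 v4
  have w1 := vv_pos (2*p) (2*i+1)
  have w2 := vv_pos (2*p) (2*i)
  set P : ℝ := (p:ℝ) with hP
  set I : ℝ := (i:ℝ) with hI
  have z1 : 0 < 2*P - 1 - 2*I := by linarith
  have z2 : 0 < 2*P + 2*I := by linarith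
  have z3 : 0 < u := by linarith
  have z4 : 0 < P - u := by linarith
  have z5 : 0 < P + u := by linarith
  have z6 : 0 < P - I := by linarith
  have z7 : 0 < I := by linarith
  have z8 : 0 < P + I := by linarith
  have z9 : 0 < c := by linarith
  -- cubes of the two parts of `Δ`
  have c1 : (Δ * (P + u) / P)^3 = ((P + u) / (u * (P - u)^2)) / (4 * LL) := by
    rw [div_pow, mul_pow, u3, show P^2 - u^2 = (P-u)*(P+u) by ring]
    generalize P - u = D at *
    generalize P + u = S at *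
    field_simp
  have c2 : (Δ * (P - u) / P)^3 = ((P - u) / (u * (P + u)^2)) / (4 * LL) := by
    rw [div_pow, mul_pow, u3, show P^2 - u^2 = (P-u)*(P+u) by ring]
    generalize P - u = D at *
    generalize P + u = S at *
    field_simp
  set t1 := vv (2*p) (2*i+1) / (2*P - 1 - 2*I) with ht1
  set t2 := vv (2*p) (2*i) / (2*P + 2*I) with ht2
  have ht1p : 0 < t1 := by positivity
  have ht2p : 0 < t2 := by positivity
  have d1 : t1^3 ≤ c^2 * (((P + (I+1/2)) / ((I+1/2) * (P - (I+1/2))^2)) / (4 * LL)) := by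
    rw [ht1, div_pow, div_le_iff₀ (by positivity)]
    refine v1.trans (le_of_eq ?_)
    rw [show 2*P - (2*I+1) = 2*P - 1 - 2*I by ring, show P - (I+1/2) = (2*P - 1 - 2*I)/2 by ring,
      show P + (I+1/2) = (2*P + (2*I+1))/2 by ring, show I + 1/2 = (2*I+1)/2 by ring]
    generalize 2*P - 1 - 2*I = D at *
    field_simp
    ring
  have d2 : (((P + (I+1/2)) / ((I+1/2) * (P - (I+1/2))^2)) / (4 * LL)) ≤ c * t1^3 := by
    have : (((P + (I+1/2)) / ((I+1/2) * (P - (I+1/2))^2)) / (4 * LL)) =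
        ((2*P - (2*I+1)) * (2*P + (2*I+1)) / (LL * (2*I+1))) / (2*P - 1 - 2*I)^3 := by
      rw [show 2*P - (2*I+1) = 2*P - 1 - 2*I by ring, show P - (I+1/2) = (2*P - 1 - 2*I)/2 by ring,
        show P + (I+1/2) = (2*P + (2*I+1))/2 by ring, show I + 1/2 = (2*I+1)/2 by ring]
      generalize 2*P - 1 - 2*I = D at *
      field_simp
      ring
    rw [this, ht1, div_pow, mul_div_assoc']
    exact div_le_div_of_nonneg_right v2 (by positivity)
  have d3 : t2^3 ≤ c^2 * (((P - I) / (I * (P + I)^2)) / (4 * LL)) := by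
    rw [ht2, div_pow, div_le_iff₀ (by positivity)]
    refine v3.trans (le_of_eq ?_)
    rw [show 2*P - 2*I = 2*(P - I) by ring, show 2*P + 2*I = 2*(P + I) by ring]
    generalize P - I = D at *
    field_simp
    ring
  have d4 : (((P - I) / (I * (P + I)^2)) / (4 * LL)) ≤ c * t2^3 := by
    have : (((P - I) / (I * (P + I)^2)) / (4 * LL)) =
        ((2*P - 2*I) * (2*P + 2*I) / (LL * (2*I))) / (2*P + 2*I)^3 := by
      rw [show 2*P - 2*I = 2*(P - I) by ring, show 2*P + 2*I = 2*(P + I) by ring]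
      generalize P - I = D at *
      field_simp
      ring
    rw [this, ht2, div_pow, mul_div_assoc']
    exact div_le_div_of_nonneg_right v4 (by positivity)
  -- comparison
  have f1 : (P + (I+1/2)) / ((I+1/2) * (P - (I+1/2))^2) ≤ c^4 * ((P + u) / (u * (P - u)^2)) :=
    q4 z9.le (by linarith) (by linarith) z3 (by linarith) z4
      (key _ _ (by linarith) (by linarith)) (key _ _ (by linarith) (by linarith))
      (key _ _ (by linarith) (by linarith))
  have f2 : (P + u) / (u * (P - u)^2) ≤ c^4 * ((P + (I+1/2)) / ((I+1/2) * (P - (I+1/2))^2)) :=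
    q4 z9.le (by linarith) z3 (by linarith) z4 (by linarith)
      (key _ _ (by linarith) (by linarith)) (key _ _ (by linarith) (by linarith))
      (key _ _ (by linarith) (by linarith))
  have f3 : (P - I) / (I * (P + I)^2) ≤ c^4 * ((P - u) / (u * (P + u)^2)) :=
    q4 z9.le z6.le z7 z3 z8 z5
      (key _ _ (by linarith) (by linarith)) (key _ _ (by linarith) (by linarith))
      (key _ _ (by linarith) (by linarith))
  have f4 : (P - u) / (u * (P + u)^2) ≤ c^4 * ((P - I) / (I * (P + I)^2)) :=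
    q4 z9.le z4.le z3 z7 z5 z8
      (key _ _ (by linarith) (by linarith)) (key _ _ (by linarith) (by linarith))
      (key _ _ (by linarith) (by linarith))
  have hpos1 : 0 ≤ Δ * (P + u) / P := by positivity
  have hpos2 : 0 ≤ Δ * (P - u) / P := by positivity
  have g1 : t1 ≤ c^2 * (Δ * (P + u) / P) := by
    apply cube_le (by positivity)
    rw [mul_pow, c1]
    refine d1.trans ?_
    calc c^2 * (((P + (I+1/2)) / ((I+1/2) * (P - (I+1/2))^2)) / (4 * LL))
        ≤ c^2 * ((c^4 * ((P + u) / (u * (P - u)^2))) / (4 * LL)) :=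
          mul_le_mul_of_nonneg_left (div_le_div_of_nonneg_right f1 (by positivity)) (by positivity)
      _ = _ := by ring
  have g2 : Δ * (P + u) / P ≤ c^2 * t1 := by
    apply cube_le (by positivity)
    rw [mul_pow, c1]
    calc (P + u) / (u * (P - u)^2) / (4 * LL)
        ≤ (c^4 * ((P + (I+1/2)) / ((I+1/2) * (P - (I+1/2))^2))) / (4 * LL) :=
          div_le_div_of_nonneg_right f2 (by positivity)
      _ = c^4 * (((P + (I+1/2)) / ((I+1/2) * (P - (I+1/2))^2)) / (4 * LL)) := by ring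
      _ ≤ c^4 * (c * t1^3) := mul_le_mul_of_nonneg_left d2 (by positivity)
      _ = c^5 * t1^3 := by ring
      _ ≤ (c^2)^3 * t1^3 := by
          apply mul_le_mul_of_nonneg_right _ (by positivity)
          rw [← pow_mul]
          exact pow_le_pow_right₀ hc1 (by norm_num)
  have g3 : t2 ≤ c^2 * (Δ * (P - u) / P) := by
    apply cube_le (by positivity)
    rw [mul_pow, c2]
    refine d3.trans ?_
    calc c^2 * (((P - I) / (I * (P + I)^2)) / (4 * LL))
        ≤ c^2 * ((c^4 * ((P - u) / (u * (P + u)^2))) / (4 * LL)) :=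
          mul_le_mul_of_nonneg_left (div_le_div_of_nonneg_right f3 (by positivity)) (by positivity)
      _ = _ := by ring
  have g4 : Δ * (P - u) / P ≤ c^2 * t2 := by
    apply cube_le (by positivity)
    rw [mul_pow, c2]
    calc (P - u) / (u * (P + u)^2) / (4 * LL)
        ≤ (c^4 * ((P - I) / (I * (P + I)^2))) / (4 * LL) :=
          div_le_div_of_nonneg_right f4 (by positivity)
      _ = c^4 * (((P - I) / (I * (P + I)^2)) / (4 * LL)) := by ring
      _ ≤ c^4 * (c * t2^3) := mul_le_mul_of_nonneg_left d4 (by positivity)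
      _ = c^5 * t2^3 := by ring
      _ ≤ (c^2)^3 * t2^3 := by
          apply mul_le_mul_of_nonneg_right _ (by positivity)
          rw [← pow_mul]
          exact pow_le_pow_right₀ hc1 (by norm_num)
  have hsum : (Δ * (P + u) / P + Δ * (P - u) / P) / 2 = Δ := by
    field_simp
    ring
  constructor
  · calc (t1 + t2) / 2 ≤ (c^2 * (Δ * (P + u) / P) + c^2 * (Δ * (P - u) / P)) / 2 := by linarith
      _ = c^2 * ((Δ * (P + u) / P + Δ * (P - u) / P) / 2) := by ring
      _ = _ := by rw [hsum]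
  · calc Δ = (Δ * (P + u) / P + Δ * (P - u) / P) / 2 := hsum.symm
      _ ≤ (c^2 * t1 + c^2 * t2) / 2 := by linarith
      _ = _ := by ring

end Pool.Agent.NH38.Step.A2
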