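import Pool.Agent.NH38.Step.Stubs
import Pool.Agent.NH38.Step.A2g

/-!
Step channels: the limit of the partial sums (helper98).
-/

set_option autoImplicit false

namespace Pool.Agent.NH38.Step.A2

open Filter Topology

theorem g_eq (n : ℕ) (g : ℕ → ℝ) {k : ℕ} (h : k ≤ n) : g k = Rs n g (n-k) * vv n k := by
  unfold Rs vv
  have e1 : n - (n - k) = k := by omega
  have e2 : 2*n - (n - k) = n + k := by omega
  rw [e1, e2]
  have a := cc_pos k
  have b := cc_pos (n-k)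
  have c := cc_pos (n+k)
  field_simp

theorem small_exists {ε : ℝ} (hε : 0 < ε) : ∃ M : ℕ, 1 ≤ M ∧
    16/3 * er M * (1 + 1/(M:ℝ))^2 + ((1 + 1/(M:ℝ))^2 - 1) * (1 + 1/(M:ℝ))^2 ≤ ε := by
  have h1 : Tendsto (fun M : ℕ => 1 + 1/(M:ℝ)) atTop (𝓝 (1 + 0)) :=
    (Tendsto.div_atTop tendsto_const_nhds tendsto_natCast_atTop_atTop).const_add 1
  rw [add_zero] at h1
  have h2 := h1.pow 2
  have h3 := ((er_tendsto.const_mul (16/3)).mul h2).add ((h2.sub_const 1).mul h2)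
  norm_num at h3
  obtain ⟨M, hM1, hM2⟩ := ((h3.eventually (gt_mem_nhds hε)).and (eventually_ge_atTop 1)).exists
  refine ⟨M, hM2, ?_⟩
  have : 1/(M:ℝ) = (M:ℝ)⁻¹ := one_div _
  rw [this]
  exact hM1.le

theorem t_A2' : S_A2 := by
  intro g g0 g1 grec p m x hx hm hp hmp
  set σ : ℕ → ℕ → ℝ := fun p i =>
    (g (2*p) (2*i+1) / (2*(p:ℝ) - 1 - 2*i) + g (2*p) (2*i) / (2*(p:ℝ) + 2*i)) / 2 with hσ
  set K : ℕ → ℝ := fun p => Rs (2*p) (g (2*p)) p * KK p with hK
  have hrec : ∀ p, 1 ≤ p → Rec (2*p) (Rs (2*p) (g (2*p))) (fun j => Pf ((2*p-j:ℕ):ℝ) j)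
      (fun j => Qf ((2*p-j:ℕ):ℝ) j) (fun j => ef ((2*p-j:ℕ):ℝ) j) := by
    intro p hp
    apply rec_of (2*p) (g (2*p)) (g0 p hp) (g1 p hp)
    intro k hk1 hk2
    have := grec p k hk1 hk2
    push_cast
    exact this
  have hRp : ∀ p, 1 ≤ p → 3/8 * Rs (2*p) (g (2*p)) 1 ≤ Rs (2*p) (g (2*p)) p := fun p hp =>
    (hrec p hp).ge (by omega) hp (by omega)
  have hKpos : ∀ p, 1 ≤ p → 0 < K p := by
    intro p hp
    have h1 := hRp p hp
    have h2 := (hrec p hp).R1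
    have h3 := KK_pos hp
    have h4 : 0 < Rs (2*p) (g (2*p)) p := by linarith
    exact mul_pos h4 h3
  have hU : ∀ p, 1 ≤ p → ∀ i, i < p → |σ p i - K p * dF FF p i| ≤ 16 * (K p * dF FF p i) := by
    intro p hp i hi
    have hr := hrec p hp
    have h1 := hRp p hp
    have h2 := hr.R1
    have hΔ := delta_nonneg hi
    have ht1 := t1_unif hi
    have ht2 := t2_unif hi
    have hi' : (i:ℝ) + 1 ≤ p := by exact_mod_cast hi
    have hi0 : (0:ℝ) ≤ i := Nat.cast_nonneg i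
    have z1 : 0 < 2*(p:ℝ) - 1 - 2*i := by linarith
    have z2 : 0 < 2*(p:ℝ) + 2*i := by linarith
    have hv1 := vv_pos (2*p) (2*i+1)
    have hv2 := vv_pos (2*p) (2*i)
    have e1 := g_eq (2*p) (g (2*p)) (show 2*i+1 ≤ 2*p by omega)
    have e2 := g_eq (2*p) (g (2*p)) (show 2*i ≤ 2*p by omega)
    have a1 : 3/8 * Rs (2*p) (g (2*p)) 1 ≤ Rs (2*p) (g (2*p)) (2*p - (2*i+1)) :=
      hr.ge (by omega) (by omega) (by omega)
    have a2 : 3/8 * Rs (2*p) (g (2*p)) 1 ≤ Rs (2*p) (g (2*p)) (2*p - 2*i) :=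
      hr.ge (by omega) (by omega) (by omega)
    have b1 : Rs (2*p) (g (2*p)) (2*p - (2*i+1)) ≤ Rs (2*p) (g (2*p)) 1 :=
      hr.le (by omega) (by omega)
    have b2 : Rs (2*p) (g (2*p)) (2*p - 2*i) ≤ Rs (2*p) (g (2*p)) 1 :=
      hr.le (by omega) (by omega)
    have hs : σ p i = (Rs (2*p) (g (2*p)) (2*p - (2*i+1)) * (vv (2*p) (2*i+1) / (2*(p:ℝ) - 1 - 2*i)) +
        Rs (2*p) (g (2*p)) (2*p - 2*i) * (vv (2*p) (2*i) / (2*(p:ℝ) + 2*i))) / 2 := by
      rw [hσ]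
      simp only
      rw [e1, e2]
      ring
    have hKd : K p * dF FF p i = Rs (2*p) (g (2*p)) p * (KK p * dF FF p i) := by
      rw [hK]; simp only; ring
    rw [hKd]
    set Δ := KK p * dF FF p i
    set R1 := Rs (2*p) (g (2*p)) 1
    set Rp := Rs (2*p) (g (2*p)) p
    set Ra := Rs (2*p) (g (2*p)) (2*p - (2*i+1))
    set Rb := Rs (2*p) (g (2*p)) (2*p - 2*i)
    set t1 := vv (2*p) (2*i+1) / (2*(p:ℝ) - 1 - 2*i)
    set t2 := vv (2*p) (2*i) / (2*(p:ℝ) + 2*i)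
    have t1p : 0 < t1 := by positivity
    have t2p : 0 < t2 := by positivity
    have Rap : 0 ≤ Ra := by linarith
    have Rbp : 0 ≤ Rb := by linarith
    have Rpp : 0 ≤ Rp := by linarith
    have s0 : 0 ≤ σ p i := by rw [hs]; positivity
    have s1 : Ra * t1 ≤ R1 * (8 * Δ) := mul_le_mul b1 ht1 t1p.le h2.le
    have s2 : Rb * t2 ≤ R1 * (4 * Δ) := mul_le_mul b2 ht2 t2p.le h2.le
    have s3 : R1 * Δ ≤ (8/3) * (Rp * Δ) := by
      have := mul_le_mul_of_nonneg_right h1 hΔ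
      linarith
    have s4 : σ p i ≤ 16 * (Rp * Δ) := by
      rw [hs]; linarith
    have s5 : 0 ≤ Rp * Δ := by positivity
    rw [abs_le]
    constructor <;> linarith
  have hP : ∀ ε : ℝ, 0 < ε → ∃ M : ℕ, ∀ p, 1 ≤ p → ∀ i, M ≤ i → i + M < p →
      |σ p i - K p * dF FF p i| ≤ ε * (K p * dF FF p i) := by
    intro ε hε
    obtain ⟨M, hM1, hM2⟩ := small_exists hε
    refine ⟨M, fun p hp i hi1 hi2 => ?_⟩
    have hr := hrec p hp
    have h1 := hRp p hp
    have h2 := hr.R1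
    have hΔ := delta_nonneg (show i < p by omega)
    obtain ⟨c1, c2⟩ := close_terms hM1 hi1 hi2
    have hi' : (i:ℝ) + 1 ≤ p := by exact_mod_cast (show i + 1 ≤ p by omega)
    have hi0 : (0:ℝ) ≤ i := Nat.cast_nonneg i
    have z1 : 0 < 2*(p:ℝ) - 1 - 2*i := by linarith
    have z2 : 0 < 2*(p:ℝ) + 2*i := by linarith
    have hv1 := vv_pos (2*p) (2*i+1)
    have hv2 := vv_pos (2*p) (2*i)
    have e1 := g_eq (2*p) (g (2*p)) (show 2*i+1 ≤ 2*p by omega)
    have e2 := g_eq (2*p) (g (2*p)) (show 2*i ≤ 2*p by omega)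
    have a1 := hr.close hM1 (show M < 2*p by omega) (show M ≤ 2*p - (2*i+1) by omega) (by omega)
    have a2 := hr.close hM1 (show M < 2*p by omega) (show M ≤ 2*p - 2*i by omega) (by omega)
    have a3 := hr.close hM1 (show M < 2*p by omega) (show M ≤ p by omega) (by omega)
    have hs : σ p i = (Rs (2*p) (g (2*p)) (2*p - (2*i+1)) * (vv (2*p) (2*i+1) / (2*(p:ℝ) - 1 - 2*i)) +
        Rs (2*p) (g (2*p)) (2*p - 2*i) * (vv (2*p) (2*i) / (2*(p:ℝ) + 2*i))) / 2 := by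
      rw [hσ]
      simp only
      rw [e1, e2]
      ring
    have hKd : K p * dF FF p i = Rs (2*p) (g (2*p)) p * (KK p * dF FF p i) := by
      rw [hK]; simp only; ring
    rw [hKd]
    have her : 0 ≤ er M := by unfold er; positivity
    set Δ := KK p * dF FF p i
    set R1 := Rs (2*p) (g (2*p)) 1
    set RM := Rs (2*p) (g (2*p)) M
    set Rp := Rs (2*p) (g (2*p)) p
    set Ra := Rs (2*p) (g (2*p)) (2*p - (2*i+1))
    set Rb := Rs (2*p) (g (2*p)) (2*p - 2*i)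
    set t1 := vv (2*p) (2*i+1) / (2*(p:ℝ) - 1 - 2*i)
    set t2 := vv (2*p) (2*i) / (2*(p:ℝ) + 2*i)
    set c := (1 + 1/(M:ℝ))^2
    set E := er M
    have t1p : 0 < t1 := by positivity
    have t2p : 0 < t2 := by positivity
    have Rpp : 0 ≤ Rp := by linarith
    have hc1 : 1 ≤ c := by
      have : (1:ℝ) ≤ 1 + 1/(M:ℝ) := by linarith [show 0 ≤ 1/(M:ℝ) by positivity]
      exact one_le_pow₀ this
    rw [abs_le] at a1 a2 a3
    have hER : E * R1 ≤ 8/3 * (E * Rp) := by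
      have := mul_le_mul_of_nonneg_left h1 her
      linarith
    have b1 : |Ra - Rp| ≤ 16/3 * (E * Rp) := by rw [abs_le]; constructor <;> linarith
    have b2 : |Rb - Rp| ≤ 16/3 * (E * Rp) := by rw [abs_le]; constructor <;> linarith
    have d1 : |Ra * t1 - Rp * t1| ≤ 16/3 * (E * Rp) * t1 := by
      rw [← sub_mul, abs_mul, abs_of_pos t1p]
      exact mul_le_mul_of_nonneg_right b1 t1p.le
    have d2 : |Rb * t2 - Rp * t2| ≤ 16/3 * (E * Rp) * t2 := by
      rw [← sub_mul, abs_mul, abs_of_pos t2p]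
      exact mul_le_mul_of_nonneg_right b2 t2p.le
    rw [abs_le] at d1 d2
    set τ := (t1 + t2) / 2 with hτ
    have hτ0 : 0 ≤ τ := by positivity
    have k1 : |σ p i - Rp * τ| ≤ 16/3 * (E * Rp) * τ := by
      rw [hs, abs_le]
      constructor
      · have : -(16/3 * (E * Rp) * τ) = (-(16/3 * (E * Rp) * t1) + -(16/3 * (E * Rp) * t2)) / 2 := by
          rw [hτ]; ring
        rw [this, hτ]
        linarith [d1.1, d2.1]
      · have : 16/3 * (E * Rp) * τ = (16/3 * (E * Rp) * t1 + 16/3 * (E * Rp) * t2) / 2 := by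
          rw [hτ]; ring
        rw [this, hτ]
        linarith [d1.2, d2.2]
    have k2 : 16/3 * (E * Rp) * τ ≤ 16/3 * (E * Rp) * (c * Δ) :=
      mul_le_mul_of_nonneg_left c1 (by positivity)
    have k3 : |τ - Δ| ≤ (c - 1) * (c * Δ) := by
      rw [abs_le]
      constructor
      · have h5 : (c - 1) * τ ≤ (c - 1) * (c * Δ) := mul_le_mul_of_nonneg_left c1 (by linarith)
        linarith
      · have h6 : (c - 1) * Δ ≤ (c - 1) * (c * Δ) := by
          apply mul_le_mul_of_nonneg_left _ (by linarith)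
          nlinarith
        linarith
    have k4 : |Rp * τ - Rp * Δ| ≤ Rp * ((c - 1) * (c * Δ)) := by
      rw [← mul_sub, abs_mul, abs_of_nonneg Rpp]
      exact mul_le_mul_of_nonneg_left k3 Rpp
    have k5 : |σ p i - Rp * Δ| ≤ 16/3 * (E * Rp) * (c * Δ) + Rp * ((c - 1) * (c * Δ)) := by
      have := abs_sub_le (σ p i) (Rp * τ) (Rp * Δ)
      linarith
    refine k5.trans ?_
    have k6 := mul_le_mul_of_nonneg_right hM2 (mul_nonneg Rpp hΔ)
    refine le_trans (le_of_eq ?_) k6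
    ring
  have hun := unif (σ := σ) (K := K) (F := FF) (C := 16) (p0 := 1) (by norm_num) hKpos FF_cont
    FF_mono FF_zero FF_one hU hP
  exact ratio hKpos FF_cont FF_one hun p m x hx hm hp hmp

end Pool.Agent.NH38.Step.A2
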