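import Pool.Agent.NH38.Step.C4

/-!
Step channels (helper38), task C, part 5: the formula without denominators.
-/

namespace Pool.Agent.NH38.Step

open Pool.Agent.H988R2.Perc hiding X
open Pool.Agent.H988C Polynomial

variable {ι : Type} (x : ι → ℂ)

open Classical in
/-- `∏ (ω_w - ω_j) · RHS` -/
noncomputable def PR (A : List ℂ) (w v : ℂ) (s : Finset ι) : ℂ :=
  (om v - om (q^2*w)) * (∏ j ∈ s, EE (om w) (om (x j))) * zs (w :: A) *
    zs (v :: (A ++ prF x s)) -
  ∑ i ∈ s, (om (q*w) + om (x i) + om v) * (∏ j ∈ s.erase i, (om w - om (x j))) *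
    EE (om (x i)) (om (x i)) *
    (∏ j ∈ s.erase i, EE (om (x i)) (om (x j)) / (om (x i) - om (x j))) * zs (x i :: A) *
    zs (w :: v :: x i :: (A ++ prF x (s.erase i)))

open Classical in
theorem PR_eq (A : List ℂ) (w v : ℂ) (s : Finset ι) (h : ∀ j ∈ s, om w ≠ om (x j)) :
    (∏ j ∈ s, (om w - om (x j))) * RHS x A w v s = PR x A w v s := by
  unfold RHS PR
  have hP : (∏ j ∈ s, (om w - om (x j))) ≠ 0 :=
    Finset.prod_ne_zero_iff.mpr fun j hj => sub_ne_zero.mpr (h j hj)
  rw [mul_sub]
  congr 1
  · have e : (∏ j ∈ s, EE (om w) (om (x j)) / (om w - om (x j))) =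
        (∏ j ∈ s, EE (om w) (om (x j))) / (∏ j ∈ s, (om w - om (x j))) := Finset.prod_div_distrib _ _
    rw [e]
    field_simp
  · rw [Finset.mul_sum]
    refine Finset.sum_congr rfl fun i hi => ?_
    rw [← Finset.mul_prod_erase s _ hi]
    have hi' : om w - om (x i) ≠ 0 := sub_ne_zero.mpr (h i hi)
    field_simp

open Classical in
theorem PR_zero (hx : ∀ i, x i ≠ 0) (s : Finset ι) (i : ι) (hi : i ∈ s) (A : List ℂ)
    (hA : Odd A.length) (w v : ℂ) (hw : w ≠ 0)
    (h : om w = om (x i)) (h2 : ∀ j ∈ s.erase i, om w ≠ om (x j)) : PR x A w v s = 0 := by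
  obtain ⟨m, hm⟩ := hA
  unfold PR
  have hsum := om_sum w
  rw [Finset.sum_eq_single_of_mem i hi]
  · have e1 : zs (x i :: A) = zs (w :: A) := zs_om _ _ _ (hx i) hw h.symm ⟨m, hm⟩
    have e2 : zs (w :: v :: x i :: (A ++ prF x (s.erase i))) = zs (v :: (A ++ prF x s)) := by
      have p0 := prF_erase' x hx hi w hw h
      have hlen : (v :: w :: (A ++ prF x (s.erase i))).length = 2 * (m + (s.erase i).card + 1) + 1 := by
        simp only [List.length_cons]
        rw [List.length_append, prF_length, hm]; omega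
      -- target list
      have p1 : (v :: (A ++ prF x s)).Perm (w⁻¹ :: v :: w :: (A ++ prF x (s.erase i))) := by
        have q1 : (A ++ prF x s).Perm (w :: w⁻¹ :: (A ++ prF x (s.erase i))) := by
          refine (List.Perm.append_left _ p0).trans ?_
          exact List.perm_middle.trans (List.Perm.cons _ List.perm_middle)
        refine (q1.cons _).trans ?_
        refine (List.Perm.cons _ (List.Perm.swap _ _ _)).trans (List.Perm.swap _ _ _)
      have p2 : (w :: v :: x i :: (A ++ prF x (s.erase i))).Perm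
          (x i :: v :: w :: (A ++ prF x (s.erase i))) := by
        have : ∀ (a b c : ℂ) (l : List ℂ), (a :: b :: c :: l).Perm (c :: b :: a :: l) := by
          intro a b c l
          refine (List.Perm.swap _ _ _).trans ?_
          refine (List.Perm.cons _ (List.Perm.swap _ _ _)).trans ?_
          exact List.Perm.swap _ _ _
        exact this _ _ _ _
      have hl1 : Even (v :: (A ++ prF x s)).length := by
        rw [p1.length_eq, List.length_cons, hlen]
        exact ⟨m + (s.erase i).card + 2, by omega⟩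
      have hl2 : Even (w :: v :: x i :: (A ++ prF x (s.erase i))).length := by
        rw [p2.length_eq, List.length_cons]
        have : (v :: w :: (A ++ prF x (s.erase i))).length = 2 * (m + (s.erase i).card + 1) + 1 := hlen
        rw [this]
        exact ⟨m + (s.erase i).card + 2, by omega⟩
      rw [zs_perm hl1 p1, zs_perm hl2 p2]
      have ho : Odd (v :: w :: (A ++ prF x (s.erase i))).length := ⟨_, hlen⟩
      rw [← zs_inv w _ hw ho]
      exact zs_om _ _ _ (hx i) hw h.symm ho
    rw [e1, e2, ← h, ← Finset.mul_prod_erase s _ hi, ← h]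
    have e3 : (∏ j ∈ s.erase i, (om w - om (x j))) *
        (∏ j ∈ s.erase i, EE (om w) (om (x j)) / (om w - om (x j))) =
        ∏ j ∈ s.erase i, EE (om w) (om (x j)) := by
      rw [← Finset.prod_mul_distrib]
      refine Finset.prod_congr rfl fun j hj => ?_
      exact mul_div_cancel₀ _ (sub_ne_zero.mpr (h2 j hj))
    rw [← e3]
    linear_combination (-(∏ j ∈ s.erase i, (om w - om (x j))) * (EE (om w) (om w)) *
      (∏ j ∈ s.erase i, EE (om w) (om (x j)) / (om w - om (x j))) * zs (w :: A) *
      zs (v :: (A ++ prF x s))) * hsum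
  · intro j hj hji
    have : i ∈ s.erase j := Finset.mem_erase.mpr ⟨hji.symm, hi⟩
    have e : (∏ l ∈ s.erase j, (om w - om (x l))) = 0 := by
      apply Finset.prod_eq_zero this
      rw [h, sub_self]
    rw [e]; ring

open Classical in
/-- the polynomial form of the formula -/
noncomputable def GG (A : List ℂ) (w v : ℂ) (s : Finset ι) : ℂ :=
  (v^2 * w + w - q^2 * w^2 * v - q * v) *
    (∏ j ∈ s, ((w^2+1)^2 + (w^2+1) * w * om (x j) + w^2 * ((om (x j))^2 - 3))) *
    Z (w :: A) * Z (v :: (A ++ prF x s)) -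
  ∑ i ∈ s, (w * (q * w^2 * v + q^2 * v + w * v * om (x i) + w * (v^2 + 1))) *
    (∏ j ∈ s.erase i, (w^2 + 1 - w * om (x j))) *
    (EE (om (x i)) (om (x i)) *
      (∏ j ∈ s.erase i, EE (om (x i)) (om (x j)) / (om (x i) - om (x j))) *
      ((x i)^(A.length - 1 + s.card))⁻¹) * Z (x i :: A) *
    Z (w :: v :: x i :: (A ++ prF x (s.erase i)))

/-- power of `q` -/
noncomputable def kap (A : List ℂ) (k : ℕ) : ℂ := q^(A.length + 1 + 2*k)

open Classical in
theorem GG_PR (hx : ∀ i, x i ≠ 0) (s : Finset ι) (A : List ℂ) (hA : Odd A.length)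
    (hA0 : ∀ z ∈ A, z ≠ 0) (w v : ℂ) (hw : w ≠ 0) (hv : v ≠ 0) :
    kap A s.card * A.prod * GG x A w v s =
      A.prod^(A.length - 1) * (w^s.card * cst A w v s.card * PR x A w v s) := by
  obtain ⟨m, hm⟩ := hA
  have hp : A.prod ≠ 0 := List.prod_ne_zero (fun h => hA0 0 h rfl)
  have hq := q_ne_zero
  set k := s.card with hk
  have hcst : cst A w v k = A.prod^(k+1) * (w * v)^(m + 1 + k) *
      q^((m + 1 + k + 1) * (m + 1 + k) + (m+1) * m) := by
    unfold cst
    have : (A.length + 1) / 2 = m + 1 := by omega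
    rw [this, Nat.add_sub_cancel]
  have hlm : A.length - 1 = 2 * m := by omega
  have e1 : Z (w :: A) = zs (w :: A) * ((w * A.prod)^m * q^((m+1) * m)) := by
    have h := zs_mul (l := w :: A) (by
      intro z hz; rcases List.mem_cons.mp hz with rfl | hz
      · exact hw
      · exact hA0 z hz)
    rw [← h, List.prod_cons, List.length_cons]
    have : (A.length + 1) / 2 = m + 1 := by omega
    rw [this, Nat.add_sub_cancel]
  have e2 : Z (v :: (A ++ prF x s)) = zs (v :: (A ++ prF x s)) *
      ((v * A.prod)^(m+k) * q^((m+k+1) * (m+k))) := by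
    have h := zs_mul (l := v :: (A ++ prF x s)) (by
      intro z hz
      simp only [List.mem_cons, List.mem_append] at hz
      rcases hz with rfl | hz | hz
      · exact hv
      · exact hA0 z hz
      · exact prF_ne x hx s z hz)
    rw [← h, List.prod_cons, List.length_cons, List.length_append, List.prod_append,
      prF_length, prF_prod x hx, mul_one]
    have : (A.length + 2 * s.card + 1) / 2 = m + k + 1 := by omega
    rw [this, Nat.add_sub_cancel]
  have b0 : w * v * (om v - om (q^2*w)) = v^2 * w + w - q^2 * w^2 * v - q * v := by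
    rw [om_q2]; unfold om; field_simp; ring
  have b1 : ∀ a : ℂ, w^2 * EE (om w) a = (w^2+1)^2 + (w^2+1) * w * a + w^2 * (a^2 - 3) := by
    intro a; unfold EE om; field_simp; ring
  have b2 : ∀ a : ℂ, w * (om w - a) = w^2 + 1 - w * a := by
    intro a; unfold om; field_simp
  have b3 : ∀ a : ℂ, w * v * (om (q * w) + a + om v) =
      q * w^2 * v + q^2 * v + w * v * a + w * (v^2 + 1) := by
    intro a; rw [om_q]; unfold om; field_simp
  have f1 : (∏ j ∈ s, ((w^2+1)^2 + (w^2+1) * w * om (x j) + w^2 * ((om (x j))^2 - 3))) =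
      w^(2*k) * ∏ j ∈ s, EE (om w) (om (x j)) := by
    rw [pow_mul, hk, ← Finset.prod_const, ← Finset.prod_mul_distrib]
    exact Finset.prod_congr rfl fun j _ => (b1 _).symm
  unfold GG PR
  rw [hcst, hlm, e1, e2, f1, ← b0]
  have hq1 : kap A k * (q^((m+1) * m) * q^((m+k+1) * (m+k))) =
      q^((m + 1 + k + 1) * (m + 1 + k) + (m+1) * m) := by
    unfold kap
    rw [hm]; ring
  rw [mul_sub (kap A k * A.prod)]
  have hsub : ∀ a b c d e : ℂ, a = c * d → b = c * e → a - b = c * (d - e) := by
    intro a b c d e h1 h2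
    rw [h1, h2, mul_sub]
  rw [show ∀ P Q R : ℂ, A.prod^(2*m) * (w^k * P * (Q - R)) = (A.prod^(2*m) * (w^k * P)) * (Q - R) from
    fun P Q R => by ring]
  refine hsub _ _ _ _ _ ?_ ?_
  · linear_combination (A.prod * (w * v * (om v - om (q^2*w))) * w^(2*k) *
      (∏ j ∈ s, EE (om w) (om (x j))) * zs (w :: A) * (w * A.prod)^m *
      zs (v :: (A ++ prF x s)) * (v * A.prod)^(m+k)) * hq1
  · rw [Finset.mul_sum, Finset.mul_sum]
    refine Finset.sum_congr rfl fun i hi => ?_
    have hki : k = (s.erase i).card + 1 := (Finset.card_erase_add_one hi).symm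
    set r := s.erase i with hr
    have e3 : Z (x i :: A) = zs (x i :: A) * ((x i * A.prod)^m * q^((m+1) * m)) := by
      have h := zs_mul (l := x i :: A) (by
        intro z hz; rcases List.mem_cons.mp hz with rfl | hz
        · exact hx i
        · exact hA0 z hz)
      rw [← h, List.prod_cons, List.length_cons]
      have : (A.length + 1) / 2 = m + 1 := by omega
      rw [this, Nat.add_sub_cancel]
    have e4 : Z (w :: v :: x i :: (A ++ prF x r)) = zs (w :: v :: x i :: (A ++ prF x r)) *
        ((w * (v * (x i * A.prod)))^(m+k) * q^((m+k+1) * (m+k))) := by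
      have h := zs_mul (l := w :: v :: x i :: (A ++ prF x r)) (by
        intro z hz
        simp only [List.mem_cons, List.mem_append] at hz
        rcases hz with rfl | rfl | rfl | hz | hz
        · exact hw
        · exact hv
        · exact hx i
        · exact hA0 z hz
        · exact prF_ne x hx _ z hz)
      rw [← h]
      simp only [List.prod_cons, List.length_cons, List.length_append, List.prod_append,
        prF_length, prF_prod x hx, mul_one]
      have : (A.length + 2 * r.card + 1 + 1 + 1) / 2 = m + k + 1 := by omega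
      rw [this, Nat.add_sub_cancel]
    have f2 : (∏ j ∈ r, (w^2 + 1 - w * om (x j))) = w^(k-1) * ∏ j ∈ r, (om w - om (x j)) := by
      have : k - 1 = r.card := by omega
      rw [this, ← Finset.prod_const, ← Finset.prod_mul_distrib]
      exact Finset.prod_congr rfl fun j _ => (b2 _).symm
    rw [e3, e4, f2, ← b3]
    have hxi : (x i)^(2 * m + k) ≠ 0 := pow_ne_zero _ (hx i)
    have hk1 : w * w^(k-1) = w^k := by
      rw [← pow_succ']; congr 1; omega
    have hxx : ((x i)^(2*m+k))⁻¹ * ((x i)^m * (x i)^(m+k)) = 1 := by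
      rw [← pow_add]
      have : m + (m + k) = 2 * m + k := by ring
      rw [this, inv_mul_cancel₀ hxi]
    generalize (∏ j ∈ r, EE (om (x i)) (om (x j)) / (om (x i) - om (x j))) = E1
    generalize EE (om (x i)) (om (x i)) = E2
    generalize (∏ j ∈ r, (om w - om (x j))) = E3
    generalize zs (x i :: A) = Z1
    generalize zs (w :: v :: x i :: (A ++ prF x r)) = Z2
    generalize (om (q * w) + om (x i) + om v) = E4
    generalize ((x i)^(2*m+k))⁻¹ = Xi at *
    have hx1 : (x i * A.prod)^m = (x i)^m * A.prod^m := mul_pow _ _ _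
    have hx2 : (w * (v * (x i * A.prod)))^(m+k) = w^(m+k) * v^(m+k) * (x i)^(m+k) * A.prod^(m+k) := by
      rw [mul_pow, mul_pow, mul_pow]; ring
    rw [hx1, hx2, ← hk1]
    linear_combination (A.prod * w * (w * v * E4) * w^(k-1) * E3 * (E2 * E1) * Z1 * A.prod^m * Z2 *
      w^(m+k) * v^(m+k) * A.prod^(m+k) * (kap A k * (q^((m+1) * m) * q^((m+k+1) * (m+k))))) * hxx +
      (A.prod * w * (w * v * E4) * w^(k-1) * E3 * (E2 * E1) * Z1 * A.prod^m * Z2 *
      w^(m+k) * v^(m+k) * A.prod^(m+k)) * hq1

end Pool.Agent.NH38.Step
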