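import Pool.Agent.NH38.Step.Conf3

set_option autoImplicit false

namespace Pool.Agent.NH38.Step.Conf

open Filter Topology Set Real

section
variable {α β : ℝ} (hα : 0 < α) (hβ : 0 < β)
include hα hβ

/-! ### The derivative has positive real part in the upper half-plane -/

theorem key_neg {z : ℂ} (h : 0 < z.im) : (PP α β z / (QQ z * z)).im < 0 := by
  have hx := xx_lt hα hβ
  have hx0 := xx_pos hα hβ
  have ip : 0 < (z - ((xx α β : ℝ) : ℂ)).im := by simpa using h
  have iq : 0 < (z - ((1 : ℝ) : ℂ)).im := by simpa using h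
  have hz : z ≠ 0 := by rintro rfl; simp at h
  have p1 : 0 < (PP α β z).re := sq_re_pos ip
  have p2 : 0 < (PP α β z).im := sq_im_pos ip
  have q1 : 0 < (QQ z).re := sq_re_pos iq
  have q2 : 0 < (QQ z).im := sq_im_pos iq
  have nQ : QQ z ≠ 0 := by
    intro h0
    rw [h0] at q1
    simp at q1
  have eP := PP_sq (α := α) (β := β) h.le
  have eQ := QQ_sq h.le
  have a1 := congrArg Complex.re eP
  have a2 := congrArg Complex.im eP
  have b1 := congrArg Complex.re eQ
  have b2 := congrArg Complex.im eQ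
  rw [pow_two, Complex.mul_re, Complex.sub_re, Complex.ofReal_re] at a1 b1
  rw [pow_two, Complex.mul_im, Complex.sub_im, Complex.ofReal_im, sub_zero] at a2 b2
  have hn : 0 < Complex.normSq (QQ z * z) := Complex.normSq_pos.2 (mul_ne_zero nQ hz)
  rw [Complex.div_im, ← sub_div, div_neg_iff]
  right
  refine ⟨?_, hn⟩
  rw [Complex.mul_re, Complex.mul_im]
  set u1 := (PP α β z).re
  set u2 := (PP α β z).im
  set v1 := (QQ z).re
  set v2 := (QQ z).im
  -- `u1 v2 > u2 v1`
  have hd : 0 < u1 * v2 - u2 * v1 := by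
    have e : (u1 * v2 - u2 * v1) * (u1 * v1 + u2 * v2) = (v1 * v2) * (1 - xx α β) := by
      have e1 : u1 * u2 = v1 * v2 := by linarith
      have e2 : u1 * u1 - u2 * u2 - (v1 * v1 - v2 * v2) = 1 - xx α β := by linarith
      rw [← e2]
      linear_combination (v2 ^ 2 - v1 ^ 2) * e1
    have h1 : 0 < (u1 * v2 - u2 * v1) * (u1 * v1 + u2 * v2) := by
      rw [e]
      exact mul_pos (mul_pos q1 q2) (by linarith)
    have h2 : 0 < u1 * v1 + u2 * v2 := by positivity
    exact (pos_iff_pos_of_mul_pos h1).2 h2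
  have e3 : z.re = u1 * u1 - u2 * u2 + xx α β := by linarith
  have e4 : z.im = u1 * u2 + u2 * u1 := a2.symm
  rw [e3, e4]
  have e5 : u2 * (v1 * (u1 * u1 - u2 * u2 + xx α β) - v2 * (u1 * u2 + u2 * u1)) -
      u1 * (v1 * (u1 * u2 + u2 * u1) + v2 * (u1 * u1 - u2 * u2 + xx α β)) =
      -((u1 ^ 2 + u2 ^ 2) * (u2 * v1 + u1 * v2)) - xx α β * (u1 * v2 - u2 * v1) := by
    ring
  rw [e5]
  have h3 : 0 < (u1 ^ 2 + u2 ^ 2) * (u2 * v1 + u1 * v2) := by positivity
  have h4 := mul_pos hx0 hd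
  linarith

/-- Noshiro-Warschawski -/
theorem noshiro {z b : ℂ} (hz : 0 < z.im) (hb : 0 ≤ b.im) (hb0 : b ≠ 0) (hzb : z ≠ b) :
    0 < ((starRingEnd ℂ) (z - b) * (cg α β z - cg α β b)).re := by
  set φ : ℝ → ℝ := fun s => ((starRingEnd ℂ) (z - b) * cg α β (b + (s : ℂ) * (z - b))).re with hφ
  have him : ∀ s : ℝ, (b + (s : ℂ) * (z - b)).im = (1 - s) * b.im + s * z.im := by
    intro s
    rw [Complex.add_im, Complex.im_ofReal_mul, Complex.sub_im]
    ring
  have hpos : ∀ s : ℝ, 0 < s → s ≤ 1 → 0 < (b + (s : ℂ) * (z - b)).im := by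
    intro s h0 h1
    rw [him]
    have := mul_nonneg (sub_nonneg.2 h1) hb
    have := mul_pos h0 hz
    linarith
  have hcont : ContinuousOn φ (Icc 0 1) := by
    have h1 : ContinuousOn (fun s : ℝ => cg α β (b + (s : ℂ) * (z - b))) (Icc 0 1) := by
      refine (cg_cont hα hβ).comp (by fun_prop) ?_
      intro s hs
      rcases lt_or_eq_of_le hs.1 with h | h
      · have h2 := hpos s h hs.2
        refine ⟨h2.le, ?_⟩
        intro h3
        have h4 : b + (s : ℂ) * (z - b) = 0 := h3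
        rw [h4] at h2
        simp at h2
      · rw [← h]
        simpa using ⟨hb, hb0⟩
    exact Complex.continuous_re.comp_continuousOn (continuousOn_const.mul h1)
  have hderiv : ∀ s ∈ interior (Icc (0 : ℝ) 1), 0 < deriv φ s := by
    intro s hs
    rw [interior_Icc] at hs
    have h1 := hpos s hs.1 hs.2.le
    have D := cg_deriv hα hβ h1
    have L : HasDerivAt (fun w : ℂ => b + w * (z - b)) (z - b) (s : ℂ) := by
      have := ((hasDerivAt_id (s : ℂ)).mul_const (z - b)).const_add b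
      simpa using this
    have D2 : HasDerivAt (fun w : ℂ => (starRingEnd ℂ) (z - b) * cg α β (b + w * (z - b)))
        ((starRingEnd ℂ) (z - b) * ((((1 / π : ℝ) : ℂ) * (Complex.I * (((α + β : ℝ) : ℂ) *
          (PP α β (b + (s : ℂ) * (z - b)) / (QQ (b + (s : ℂ) * (z - b)) *
            (b + (s : ℂ) * (z - b))))))) * (z - b))) (s : ℂ) :=
      (HasDerivAt.comp (s : ℂ) D L).const_mul _
    have D3 := D2.real_of_complex
    rw [D3.deriv]
    have e : ∀ c w : ℂ, (starRingEnd ℂ) w * (c * w) = ((Complex.normSq w : ℝ) : ℂ) * c := by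
      intro c w
      rw [← Complex.mul_conj]
      ring
    rw [e, Complex.re_ofReal_mul, Complex.re_ofReal_mul, Complex.I_mul_re, Complex.im_ofReal_mul]
    have h2 := key_neg hα hβ h1
    have h3 : 0 < Complex.normSq (z - b) := Complex.normSq_pos.2 (sub_ne_zero.2 hzb)
    have h4 : 0 < -((α + β) * (PP α β (b + (s : ℂ) * (z - b)) / (QQ (b + (s : ℂ) * (z - b)) *
            (b + (s : ℂ) * (z - b)))).im) := by
      have := mul_neg_of_pos_of_neg (add_pos hα hβ) h2
      linarith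
    have h5 : 0 < 1 / π := by positivity
    exact mul_pos h3 (mul_pos h5 h4)
  have hmono := strictMonoOn_of_deriv_pos (convex_Icc 0 1) hcont hderiv
  have h01 := hmono (left_mem_Icc.2 zero_le_one) (right_mem_Icc.2 zero_le_one) zero_lt_one
  have f0 : φ 0 = ((starRingEnd ℂ) (z - b) * cg α β b).re := by
    rw [hφ]; simp
  have f1 : φ 1 = ((starRingEnd ℂ) (z - b) * cg α β z).re := by
    rw [hφ]; simp
  rw [f0, f1] at h01
  rw [mul_sub, Complex.sub_re]
  linarith

theorem cg_inj : InjOn (cg α β) {z : ℂ | 0 < z.im} := by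
  intro z hz w hw h
  by_contra hne
  have hw' : (0 : ℝ) < w.im := hw
  have h1 := noshiro hα hβ hz hw'.le (by rintro rfl; simp at hw') hne
  rw [h, sub_self, mul_zero] at h1
  simp at h1

/-- comparison with a boundary point with the same real part -/
theorem above {z : ℂ} {t : ℝ} (hz : 0 < z.im) (ht : t ≠ 0)
    (h : (cg α β z).re = (cg α β (t : ℂ)).re) : (cg α β (t : ℂ)).im < (cg α β z).im := by
  have hne : z ≠ (t : ℂ) := by
    rintro rfl
    simp at hz
  have h1 := noshiro hα hβ hz (b := (t : ℂ)) (by simp) (by simpa using ht) hne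
  have h2 : ((starRingEnd ℂ) (z - (t : ℂ)) * (cg α β z - cg α β (t : ℂ))).re =
      z.im * ((cg α β z).im - (cg α β (t : ℂ)).im) := by
    rw [Complex.mul_re, Complex.conj_re, Complex.conj_im, Complex.sub_re, Complex.sub_im,
      Complex.sub_re, Complex.sub_im, h, Complex.ofReal_im]
    ring
  rw [h2] at h1
  have := (pos_iff_pos_of_mul_pos h1).1 hz
  linarith

/-! ### Bijections on the real axis -/

theorem bij_left : BijOn (fun t : ℝ => cg α β (t : ℂ)) (Iio 0) {w | w.re = -α} := by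
  refine ⟨fun t ht => re_left hα hβ ht, ?_, ?_⟩
  · intro s hs t ht h
    exact (anti_left hα hβ).injOn hs ht (congrArg Complex.im h)
  · intro w hw
    obtain ⟨R, hR1, hR⟩ := big hα hβ w.im
    obtain ⟨r, hr0, hr1, hr⟩ := small hα hβ w.im
    have h1 : w.im ≤ (cg α β ((-R : ℝ) : ℂ)).im := by
      refine hR _ (by simp) ?_
      rw [Complex.norm_real, norm_eq_abs, abs_neg, abs_of_pos (by linarith)]
    have h2 : (cg α β ((-r : ℝ) : ℂ)).im ≤ w.im := by
      refine hr _ (by simp) ?_ ?_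
      · have : (-r : ℝ) ≠ 0 := by linarith
        exact_mod_cast this
      · rw [Complex.norm_real, norm_eq_abs, abs_neg, abs_of_pos hr0]
    have hm1 : -R ∈ Iio (0 : ℝ) := by simp only [mem_Iio]; linarith
    have hm2 : -r ∈ Iio (0 : ℝ) := by simp only [mem_Iio]; linarith
    obtain ⟨t, ht, he⟩ := isPreconnected_Iio.intermediate_value hm2 hm1
      (cont_im hα hβ fun t ht => ne_of_lt ht) ⟨h2, h1⟩
    exact ⟨t, ht, Complex.ext ((re_left hα hβ ht).trans hw.symm) he⟩

theorem bij_inner : BijOn (fun t : ℝ => cg α β (t : ℂ)) (Ioo 0 (xx α β))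
    {w | w.re = 0 ∧ w.im < 0} := by
  have hx0 := xx_pos hα hβ
  have ex : (cg α β ((xx α β : ℝ) : ℂ)).im = 0 := by rw [cg_x hα hβ]; rfl
  refine ⟨?_, ?_, ?_⟩
  · intro t ht
    refine ⟨re_inner hα hβ ht.1 ht.2.le, ?_⟩
    have := mono_inner hα hβ ⟨ht.1, ht.2.le⟩ ⟨hx0, le_rfl⟩ ht.2
    simp only [ex] at this
    exact this
  · intro s hs t ht h
    exact (mono_inner hα hβ).injOn ⟨hs.1, hs.2.le⟩ ⟨ht.1, ht.2.le⟩ (congrArg Complex.im h)
  · rintro w ⟨hw, hw'⟩
    obtain ⟨r, hr0, hr1, hr⟩ := small hα hβ w.im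
    set r' := min r (xx α β) with hr'
    have hr'0 : 0 < r' := lt_min hr0 hx0
    have h2 : (cg α β ((r' : ℝ) : ℂ)).im ≤ w.im := by
      refine hr _ (by simp) ?_ ?_
      · exact_mod_cast hr'0.ne'
      · rw [Complex.norm_real, norm_eq_abs, abs_of_pos hr'0]
        exact min_le_left _ _
    obtain ⟨t, ht, he⟩ := isPreconnected_Ioc.intermediate_value (a := r') (b := xx α β)
      (⟨hr'0, min_le_right _ _⟩ : r' ∈ Ioc 0 (xx α β)) ⟨hx0, le_rfl⟩
      (cont_im hα hβ fun t ht => ht.1.ne') ⟨h2, by rw [ex]; exact hw'.le⟩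
    have hne : t ≠ xx α β := by
      rintro rfl
      have he' : (cg α β ((xx α β : ℝ) : ℂ)).im = w.im := he
      rw [ex] at he'
      exact hw'.ne he'.symm
    have hlt : t < xx α β := lt_of_le_of_ne ht.2 hne
    exact ⟨t, ⟨ht.1, hlt⟩, Complex.ext ((re_inner hα hβ ht.1 ht.2).trans hw.symm) he⟩

theorem bij_ledge : BijOn (fun t : ℝ => cg α β (t : ℂ)) (Ioo (xx α β) 1)
    {w | w.im = 0 ∧ 0 < w.re ∧ w.re < β} := by
  have hx := xx_lt hα hβ
  have hx0 := xx_pos hα hβ
  have ex : (cg α β ((xx α β : ℝ) : ℂ)).re = 0 := by rw [cg_x hα hβ]; rfl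
  have e1 : (cg α β ((1 : ℝ) : ℂ)).re = β := re_right hα hβ le_rfl
  refine ⟨?_, ?_, ?_⟩
  · intro t ht
    refine ⟨im_ledge hα hβ ht.1.le ht.2.le, ?_, ?_⟩
    · have := mono_ledge hα hβ ⟨le_rfl, hx.le⟩ ⟨ht.1.le, ht.2.le⟩ ht.1
      simp only [ex] at this
      exact this
    · have := mono_ledge hα hβ ⟨ht.1.le, ht.2.le⟩ ⟨hx.le, le_rfl⟩ ht.2
      simp only [e1] at this
      exact this
  · intro s hs t ht h
    exact (mono_ledge hα hβ).injOn ⟨hs.1.le, hs.2.le⟩ ⟨ht.1.le, ht.2.le⟩ (congrArg Complex.re h)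
  · rintro w ⟨hw, hw1, hw2⟩
    have hc : ContinuousOn (fun t : ℝ => (cg α β (t : ℂ)).re) (Icc (xx α β) 1) :=
      cont_re hα hβ fun t ht => (lt_of_lt_of_le hx0 ht.1).ne'
    have h3 := intermediate_value_Ioo hx.le hc
    simp only [ex, e1] at h3
    obtain ⟨t, ht, he⟩ := h3 ⟨hw1, hw2⟩
    exact ⟨t, ht, Complex.ext he ((im_ledge hα hβ ht.1.le ht.2.le).trans hw.symm)⟩

theorem bij_right : BijOn (fun t : ℝ => cg α β (t : ℂ)) (Ioi 1) {w | w.re = β ∧ 0 < w.im} := by
  have hx := xx_lt hα hβ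
  have e1 : (cg α β ((1 : ℝ) : ℂ)).im = 0 := im_ledge hα hβ hx.le le_rfl
  refine ⟨?_, ?_, ?_⟩
  · intro t ht
    simp only [mem_Ioi] at ht
    refine ⟨re_right hα hβ ht.le, ?_⟩
    have := mono_right hα hβ (mem_Ici.2 le_rfl) (mem_Ici.2 ht.le) ht
    simp only [e1] at this
    exact this
  · intro s hs t ht h
    simp only [mem_Ioi] at hs ht
    exact (mono_right hα hβ).injOn (mem_Ici.2 hs.le) (mem_Ici.2 ht.le) (congrArg Complex.im h)
  · rintro w ⟨hw, hw'⟩
    obtain ⟨R, hR1, hR⟩ := big hα hβ w.im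
    have h1 : w.im ≤ (cg α β ((R : ℝ) : ℂ)).im := by
      refine hR _ (by simp) ?_
      rw [Complex.norm_real, norm_eq_abs, abs_of_pos (by linarith)]
    obtain ⟨t, ht, he⟩ := isPreconnected_Ici.intermediate_value (mem_Ici.2 le_rfl)
      (mem_Ici.2 hR1.le) (cont_im hα hβ (s := Ici 1) fun t ht => by
        have : (1 : ℝ) ≤ t := ht
        linarith) ⟨by rw [e1]; exact hw'.le, h1⟩
    have hne : t ≠ 1 := by
      rintro rfl
      have he' : (cg α β ((1 : ℝ) : ℂ)).im = w.im := he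
      rw [e1] at he'
      exact hw'.ne he'
    have hlt : 1 < t := lt_of_le_of_ne ht hne.symm
    exact ⟨t, hlt, Complex.ext ((re_right hα hβ hlt.le).trans hw.symm) he⟩

/-! ### The image -/

/-- the reflected step channel -/
def DD (α β : ℝ) : Set ℂ := {w | -α < w.re ∧ w.re < β ∧ (0 ≤ w.re → 0 < w.im)}

theorem re_ne_left {z : ℂ} (hz : 0 < z.im) : (cg α β z).re ≠ -α := by
  intro h
  obtain ⟨t, ht, he⟩ := (bij_left hα hβ).surjOn (show (⟨-α, (cg α β z).im⟩ : ℂ) ∈ _ from rfl)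
  have he' : cg α β (t : ℂ) = ⟨-α, (cg α β z).im⟩ := he
  have h1 := above hα hβ hz (ne_of_lt ht) (by rw [he', h])
  rw [he'] at h1
  exact lt_irrefl _ h1

theorem re_ne_right {z : ℂ} (hz : 0 < z.im) : (cg α β z).re ≠ β := by
  intro h
  obtain ⟨t, ht, he⟩ := (bij_right hα hβ).surjOn
    (show (⟨β, max 1 (cg α β z).im⟩ : ℂ) ∈ _ from ⟨rfl, lt_max_of_lt_left one_pos⟩)
  have he' : cg α β (t : ℂ) = ⟨β, max 1 (cg α β z).im⟩ := he
  simp only [mem_Ioi] at ht
  have h1 := above hα hβ hz (by linarith) (by rw [he', h])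
  rw [he'] at h1
  exact absurd (le_max_right 1 (cg α β z).im) (not_le.2 h1)

theorem cont_H : ContinuousOn (cg α β) {z : ℂ | 0 < z.im} :=
  (cg_cont hα hβ).mono fun z hz => by
    have hz' : 0 < z.im := hz
    exact ⟨hz'.le, by rintro rfl; simp at hz'⟩

omit hα hβ in
theorem H_convex : Convex ℝ {z : ℂ | 0 < z.im} := convex_halfSpace_im_gt 0

/-- an interior point with real part in the right range -/
theorem exists_mid : ∃ z : ℂ, 0 < z.im ∧ -α < (cg α β z).re ∧ (cg α β z).re < β := by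
  have hx := xx_lt hα hβ
  have hx0 := xx_pos hα hβ
  set b : ℝ := (xx α β + 1) / 2 with hb
  have hb1 : xx α β < b := by rw [hb]; linarith
  have hb2 : b < 1 := by rw [hb]; linarith
  obtain ⟨-, g1, g2⟩ := (bij_ledge hα hβ).mapsTo (⟨hb1, hb2⟩ : b ∈ Ioo (xx α β) 1)
  have hc : ContinuousOn (fun s : ℝ => (cg α β ((b : ℂ) + (s : ℂ) * Complex.I)).re) (Ici 0) := by
    refine Complex.continuous_re.comp_continuousOn ((cg_cont hα hβ).comp (by fun_prop) ?_)
    intro s hs
    have hs' : (0 : ℝ) ≤ s := hs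
    refine ⟨by simpa using hs', ?_⟩
    intro h
    have := congrArg Complex.re h
    simp at this
    linarith
  have hc0 := hc 0 (mem_Ici.2 le_rfl)
  have hval : (cg α β ((b : ℂ) + ((0 : ℝ) : ℂ) * Complex.I)).re = (cg α β (b : ℂ)).re := by simp
  have hev : ∀ᶠ s : ℝ in 𝓝[Ici 0] 0, (cg α β ((b : ℂ) + (s : ℂ) * Complex.I)).re ∈ Ioo (-α) β := by
    refine hc0.eventually (Ioo_mem_nhds ?_ ?_)
    · show -α < (cg α β ((b : ℂ) + ((0 : ℝ) : ℂ) * Complex.I)).re
      rw [hval]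
      have : 0 < (cg α β (b : ℂ)).re := g1
      linarith
    · show (cg α β ((b : ℂ) + ((0 : ℝ) : ℂ) * Complex.I)).re < β
      rw [hval]; exact g2
  have hev2 : ∀ᶠ s : ℝ in 𝓝[>] 0, (cg α β ((b : ℂ) + (s : ℂ) * Complex.I)).re ∈ Ioo (-α) β :=
    hev.filter_mono (nhdsWithin_mono _ Ioi_subset_Ici_self)
  have hev3 : ∀ᶠ s : ℝ in 𝓝[>] 0, s ∈ Ioi (0 : ℝ) := self_mem_nhdsWithin
  obtain ⟨s, hs1, hs2⟩ := (hev2.and hev3).exists
  refine ⟨(b : ℂ) + (s : ℂ) * Complex.I, ?_, hs1.1, hs1.2⟩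
  have : (0 : ℝ) < s := hs2
  simpa using this

theorem re_range {z : ℂ} (hz : 0 < z.im) : -α < (cg α β z).re ∧ (cg α β z).re < β := by
  obtain ⟨z0, h0, h1, h2⟩ := exists_mid hα hβ
  have hpre : IsPreconnected {z : ℂ | 0 < z.im} := H_convex.isPreconnected
  have hc : ContinuousOn (fun z => (cg α β z).re) {z : ℂ | 0 < z.im} :=
    Complex.continuous_re.comp_continuousOn (cont_H hα hβ)
  constructor
  · by_contra hn
    obtain ⟨w, hw, he⟩ := hpre.intermediate_value hz h0 hc ⟨not_lt.1 hn, h1.le⟩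
    exact re_ne_left hα hβ hw he
  · by_contra hn
    obtain ⟨w, hw, he⟩ := hpre.intermediate_value h0 hz hc ⟨h2.le, not_lt.1 hn⟩
    exact re_ne_right hα hβ hw he

theorem cg_mapsTo : MapsTo (cg α β) {z : ℂ | 0 < z.im} (DD α β) := by
  intro z hz
  have hx := xx_lt hα hβ
  have hx0 := xx_pos hα hβ
  obtain ⟨h1, h2⟩ := re_range hα hβ hz
  refine ⟨h1, h2, fun h3 => ?_⟩
  rcases lt_or_eq_of_le h3 with h4 | h4
  · obtain ⟨t, ht, he⟩ := (bij_ledge hα hβ).surjOn
      (show (((cg α β z).re : ℝ) : ℂ) ∈ _ from ⟨Complex.ofReal_im _, by simpa using h4,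
        by simpa using h2⟩)
    have he' : cg α β (t : ℂ) = (((cg α β z).re : ℝ) : ℂ) := he
    have h5 := above hα hβ hz (hx0.trans ht.1).ne' (by rw [he', Complex.ofReal_re])
    rw [he', Complex.ofReal_im] at h5
    exact h5
  · have h5 := above hα hβ hz hx0.ne' (by rw [cg_x hα hβ, ← h4]; rfl)
    rw [cg_x hα hβ] at h5
    exact h5

omit hα hβ in
theorem cg_boundary_not (hα : 0 < α) (hβ : 0 < β) {t : ℝ} (ht : t ≠ 0) :
    cg α β (t : ℂ) ∉ DD α β := by
  rintro ⟨h1, h2, h3⟩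
  rcases lt_or_gt_of_ne ht with h | h
  · rw [re_left hα hβ h] at h1
    exact lt_irrefl _ h1
  · rcases le_or_gt t (xx α β) with h4 | h4
    · have h5 := h3 (re_inner hα hβ h h4).ge
      have h6 : (cg α β (t : ℂ)).im ≤ 0 := by
        rcases lt_or_eq_of_le h4 with h7 | h7
        · exact ((bij_inner hα hβ).mapsTo (⟨h, h7⟩ : t ∈ Ioo 0 (xx α β))).2.le
        · rw [h7, cg_x hα hβ]; exact le_rfl
      linarith
    · rcases le_or_gt t 1 with h5 | h5
      · rcases lt_or_eq_of_le h5 with h6 | h6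
        · obtain ⟨g1, g2, g3⟩ := (bij_ledge hα hβ).mapsTo (⟨h4, h6⟩ : t ∈ Ioo (xx α β) 1)
          have g1' : (cg α β (t : ℂ)).im = 0 := g1
          have g2' : 0 < (cg α β (t : ℂ)).re := g2
          have := h3 g2'.le
          linarith
        · rw [re_right hα hβ h6.ge] at h2
          exact lt_irrefl _ h2
      · rw [re_right hα hβ h5.le] at h2
        exact lt_irrefl _ h2

omit hα hβ in
theorem DD_preconnected (hα : 0 < α) (hβ : 0 < β) : IsPreconnected (DD α β) := by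
  have e : DD α β = {w : ℂ | -α < w.re ∧ w.re < 0} ∪ {w : ℂ | (-α < w.re ∧ w.re < β) ∧ 0 < w.im} := by
    ext w
    constructor
    · rintro ⟨h1, h2, h3⟩
      rcases lt_or_ge w.re 0 with h | h
      · exact Or.inl ⟨h1, h⟩
      · exact Or.inr ⟨⟨h1, h2⟩, h3 h⟩
    · rintro (⟨h1, h2⟩ | ⟨⟨h1, h2⟩, h3⟩)
      · exact ⟨h1, by linarith, fun h => absurd h2 (not_lt.2 h)⟩
      · exact ⟨h1, h2, fun _ => h3⟩
  rw [e]
  have c1 : Convex ℝ {w : ℂ | -α < w.re ∧ w.re < 0} :=
    (convex_halfSpace_re_gt (-α)).inter (convex_halfSpace_re_lt 0)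
  have c2 : Convex ℝ {w : ℂ | (-α < w.re ∧ w.re < β) ∧ 0 < w.im} :=
    ((convex_halfSpace_re_gt (-α)).inter (convex_halfSpace_re_lt β)).inter
      (convex_halfSpace_im_gt 0)
  refine IsPreconnected.union (⟨-α / 2, 1⟩ : ℂ) ?_ ?_ c1.isPreconnected c2.isPreconnected
  · refine ⟨?_, ?_⟩
    · show -α < -α / 2
      linarith
    · show -α / 2 < 0
      linarith
  · refine ⟨⟨?_, ?_⟩, ?_⟩
    · show -α < -α / 2
      linarith
    · show -α / 2 < β
      linarith
    · exact one_pos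

theorem image_open : IsOpen (cg α β '' {z : ℂ | 0 < z.im}) := by
  have hopen : IsOpen {z : ℂ | 0 < z.im} := isOpen_lt continuous_const Complex.continuous_im
  have hd : DifferentiableOn ℂ (cg α β) {z : ℂ | 0 < z.im} := fun z hz =>
    (cg_deriv hα hβ hz).differentiableAt.differentiableWithinAt
  have han : AnalyticOnNhd ℂ (cg α β) {z : ℂ | 0 < z.im} := hd.analyticOnNhd hopen
  rcases han.is_constant_or_isOpen H_convex.isPreconnected with h | h
  · obtain ⟨w, hw⟩ := h
    exfalso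
    have h1 : Complex.I = 2 * Complex.I := cg_inj hα hβ (by simp) (by simp)
      ((hw _ (by simp)).trans (hw _ (by simp)).symm)
    have h2 := congrArg Complex.im h1
    simp at h2
  · exact h _ Subset.rfl hopen

theorem image_closed : closure (cg α β '' {z : ℂ | 0 < z.im}) ∩ DD α β ⊆
    cg α β '' {z : ℂ | 0 < z.im} := by
  rintro ζ ⟨hc, hD⟩
  obtain ⟨R, hR1, hR⟩ := big hα hβ (ζ.im + 1)
  obtain ⟨r, hr0, hr1, hr⟩ := small hα hβ (ζ.im - 1)
  set K : Set ℂ := {z | 0 ≤ z.im ∧ r ≤ ‖z‖ ∧ ‖z‖ ≤ R} with hK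
  have hKc : IsCompact K := by
    have h1 : IsClosed K := by
      refine IsClosed.inter (isClosed_le continuous_const Complex.continuous_im) ?_
      exact IsClosed.inter (isClosed_le continuous_const continuous_norm)
        (isClosed_le continuous_norm continuous_const)
    refine (isCompact_closedBall (0 : ℂ) R).of_isClosed_subset h1 ?_
    rintro z ⟨_, _, h2⟩
    simpa using h2
  have hKne : ∀ z ∈ K, z ≠ 0 := by
    rintro z ⟨_, h2, _⟩ rfl
    simp at h2
    linarith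
  have himg : IsCompact (cg α β '' K) :=
    hKc.image_of_continuousOn ((cg_cont hα hβ).mono fun z hz => ⟨hz.1, hKne z hz⟩)
  have hmem : ζ ∈ cg α β '' K := by
    rw [← himg.isClosed.closure_eq]
    rw [mem_closure_iff_nhds] at hc ⊢
    intro t ht
    have hU : {w : ℂ | ζ.im - 1 < w.im ∧ w.im < ζ.im + 1} ∈ 𝓝 ζ := by
      have ho : IsOpen {w : ℂ | ζ.im - 1 < w.im ∧ w.im < ζ.im + 1} :=
        (isOpen_lt continuous_const Complex.continuous_im).inter
          (isOpen_lt Complex.continuous_im continuous_const)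
      exact ho.mem_nhds ⟨by linarith, by linarith⟩
    obtain ⟨w, ⟨hw1, hw2⟩, z, hz, rfl⟩ := hc _ (inter_mem ht hU)
    have hz' : 0 < z.im := hz
    have hz0 : z ≠ 0 := by rintro rfl; simp at hz'
    refine ⟨cg α β z, hw1, z, ⟨hz'.le, ?_, ?_⟩, rfl⟩
    · by_contra hn
      have := hr z hz'.le hz0 (not_le.1 hn).le
      linarith [hw2.1]
    · by_contra hn
      have := hR z hz'.le (not_le.1 hn).le
      linarith [hw2.2]
  obtain ⟨z, hz, rfl⟩ := hmem
  rcases lt_or_eq_of_le hz.1 with h | h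
  · exact ⟨z, h, rfl⟩
  · exfalso
    have e : z = ((z.re : ℝ) : ℂ) := by
      apply Complex.ext
      · simp
      · simp [← h]
    have hne : z.re ≠ 0 := by
      intro h0
      apply hKne z hz
      rw [e, h0]
      simp
    rw [e] at hD
    exact cg_boundary_not hα hβ hne hD

theorem cg_bijOn : BijOn (cg α β) {z : ℂ | 0 < z.im} (DD α β) := by
  refine ⟨cg_mapsTo hα hβ, cg_inj hα hβ, ?_⟩
  refine (DD_preconnected hα hβ).subset_of_closure_inter_subset (image_open hα hβ) ?_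
    (image_closed hα hβ)
  refine ⟨cg α β Complex.I, cg_mapsTo hα hβ (by simp), ?_⟩
  exact ⟨Complex.I, by simp, rfl⟩

end

end Pool.Agent.NH38.Step.Conf
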