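import Pool.Agent.NH38.Step.Stubs
import Pool.Agent.NH38.Step.Conf4

set_option autoImplicit false

/-!
Task F of the step channels (helper46): the conformal map of the upper half-plane onto the step
channel.
-/

namespace Pool.Agent.NH38.Step

open Filter Topology Set

/-- the step channel and its reflection -/
theorem conj_mem_Dom {α β : ℝ} {w : ℂ} :
    (starRingEnd ℂ) w ∈ Dom α β ↔ w ∈ Conf.DD α β := by
  unfold Dom Conf.DD
  simp only [Complex.conj_re, Complex.conj_im, mem_ofPred_eq, neg_lt_zero]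

theorem bij_conj {S : Set ℝ} {g : ℝ → ℂ} {A B : Set ℂ} (h : BijOn g S A)
    (hAB : ∀ w, (starRingEnd ℂ) w ∈ B ↔ w ∈ A) :
    BijOn (fun t => (starRingEnd ℂ) (g t)) S B := by
  refine ⟨fun t ht => (hAB _).2 (h.mapsTo ht), ?_, ?_⟩
  · intro s hs t ht he
    exact h.injOn hs ht ((starRingEnd ℂ).injective he)
  · intro w hw
    have h1 : (starRingEnd ℂ) w ∈ A := by
      rw [← hAB, Complex.conj_conj]
      exact hw
    obtain ⟨t, ht, he⟩ := h.surjOn h1
    refine ⟨t, ht, ?_⟩
    show (starRingEnd ℂ) (g t) = w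
    rw [he, Complex.conj_conj]

theorem t_F : S_F := by
  intro α β hα hβ
  refine ⟨fun z => (starRingEnd ℂ) (Conf.cg α β z), ?_⟩
  have hxx : ((α / (α + β)) ^ 2 : ℝ) = Conf.xx α β := rfl
  rw [hxx]
  refine
    { holo := ?_
      bij := ?_
      cont := ?_
      leftWall := ?_
      innerWall := ?_
      corner := ?_
      ledge := ?_
      corner' := ?_
      rightWall := ?_ }
  · have e : (fun z => (starRingEnd ℂ) ((starRingEnd ℂ) (Conf.cg α β z))) = Conf.cg α β := by
      funext z
      rw [Complex.conj_conj]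
    rw [e]
    exact fun z hz => (Conf.cg_deriv hα hβ hz).differentiableAt.differentiableWithinAt
  · have h := Conf.cg_bijOn hα hβ
    refine ⟨fun z hz => conj_mem_Dom.2 (h.mapsTo hz), ?_, ?_⟩
    · intro s hs t ht he
      exact h.injOn hs ht ((starRingEnd ℂ).injective he)
    · intro w hw
      have h1 : (starRingEnd ℂ) w ∈ Conf.DD α β := by
        rw [← conj_mem_Dom, Complex.conj_conj]
        exact hw
      obtain ⟨z, hz, he⟩ := h.surjOn h1
      refine ⟨z, hz, ?_⟩
      show (starRingEnd ℂ) (Conf.cg α β z) = w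
      rw [he, Complex.conj_conj]
  · exact Complex.continuous_conj.comp_continuousOn (Conf.cg_cont hα hβ)
  · exact bij_conj (Conf.bij_left hα hβ) fun w => by simp
  · exact bij_conj (Conf.bij_inner hα hβ) fun w => by simp
  · show (starRingEnd ℂ) (Conf.cg α β _) = 0
    rw [Conf.cg_x hα hβ, map_zero]
  · exact bij_conj (Conf.bij_ledge hα hβ) fun w => by simp
  · show (starRingEnd ℂ) (Conf.cg α β 1) = (β : ℂ)
    rw [Conf.cg_one hα hβ, Complex.conj_ofReal]
  · exact bij_conj (Conf.bij_right hα hβ) fun w => by simp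

end Pool.Agent.NH38.Step
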