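import Mathlib

set_option autoImplicit false

/-!
The conformal map of the upper half-plane onto the (reflected) step channel (helper46, task F of
helper38).  With `N = α + β`, `a = α / N`, `x = a^2`, `P = √(z-x)`, `Q = √(z-1)`:
`g z = (i/π) (2 N log (P+Q) - 2 α log (P+aQ) + α log z - β log (1-x)) + β`,
`g' z = (i N/π) P / (Q z)`.
-/

namespace Pool.Agent.NH38.Step.Conf

open Filter Topology Set Real

/-! ### Square root on the closed upper half-plane -/

/-- square root on the closed upper half-plane, with values in the closed first quadrant -/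
noncomputable def sq (z : ℂ) : ℂ :=
  ((√((‖z‖ + z.re) / 2) : ℝ) : ℂ) + ((√((‖z‖ - z.re) / 2) : ℝ) : ℂ) * Complex.I

theorem sq_re (z : ℂ) : (sq z).re = √((‖z‖ + z.re) / 2) := by simp [sq]

theorem sq_im (z : ℂ) : (sq z).im = √((‖z‖ - z.re) / 2) := by simp [sq]

theorem sq_re_nonneg (z : ℂ) : 0 ≤ (sq z).re := by rw [sq_re]; exact sqrt_nonneg _

theorem sq_im_nonneg (z : ℂ) : 0 ≤ (sq z).im := by rw [sq_im]; exact sqrt_nonneg _

theorem sq_re_pos {z : ℂ} (h : 0 < z.im) : 0 < (sq z).re := by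
  rw [sq_re]
  have := Complex.abs_re_lt_norm.2 h.ne'
  have := neg_abs_le z.re
  exact sqrt_pos.2 (by linarith)

theorem sq_im_pos {z : ℂ} (h : 0 < z.im) : 0 < (sq z).im := by
  rw [sq_im]
  have := Complex.abs_re_lt_norm.2 h.ne'
  have := le_abs_self z.re
  exact sqrt_pos.2 (by linarith)

theorem continuous_sq : Continuous sq := by
  unfold sq
  fun_prop

theorem sq_sq {z : ℂ} (h : 0 ≤ z.im) : sq z ^ 2 = z := by
  have h1 : 0 ≤ (‖z‖ + z.re) / 2 := by
    have := Complex.abs_re_le_norm z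
    have := neg_abs_le z.re
    linarith
  have h2 : 0 ≤ (‖z‖ - z.re) / 2 := by
    have := Complex.abs_re_le_norm z
    have := le_abs_self z.re
    linarith
  have h3 : √((‖z‖ + z.re) / 2) * √((‖z‖ - z.re) / 2) = z.im / 2 := by
    rw [← sqrt_mul h1]
    have h4 : (‖z‖ + z.re) / 2 * ((‖z‖ - z.re) / 2) = (z.im / 2) ^ 2 := by
      have h5 : ‖z‖ ^ 2 = z.re * z.re + z.im * z.im := by
        rw [Complex.sq_norm, Complex.normSq_apply]
      nlinarith
    rw [h4, sqrt_sq (by linarith)]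
  apply Complex.ext
  · rw [pow_two, Complex.mul_re, sq_re, sq_im, mul_self_sqrt h1, mul_self_sqrt h2]
    ring
  · rw [pow_two, Complex.mul_im, sq_re, sq_im]
    linarith

theorem hasDerivAt_sq {z : ℂ} (h : 0 < z.im) : HasDerivAt sq (1 / (2 * sq z)) z := by
  have hne : sq z ≠ 0 := by
    intro h0
    have := sq_re_pos h
    rw [h0] at this
    simp at this
  have h1 : HasDerivAt (fun w : ℂ => w ^ 2) (2 * sq z) (sq z) := by
    simpa using hasDerivAt_pow 2 (sq z)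
  have h2 : ∀ᶠ w in 𝓝 z, sq w ^ 2 = w := by
    have h3 : ∀ᶠ w : ℂ in 𝓝 z, 0 < w.im :=
      Complex.continuous_im.continuousAt.eventually_const_lt h
    filter_upwards [h3] with w hw
    exact sq_sq hw.le
  have h4 := HasDerivAt.of_local_left_inverse (f := fun w : ℂ => w ^ 2) (g := sq)
    continuous_sq.continuousAt h1 (mul_ne_zero two_ne_zero hne) h2
  rwa [one_div]

theorem sq_ofReal_nonneg {t : ℝ} (h : 0 ≤ t) : sq (t : ℂ) = ((√t : ℝ) : ℂ) := by
  unfold sq
  rw [Complex.norm_real, norm_eq_abs, abs_of_nonneg h, Complex.ofReal_re]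
  simp

theorem sq_ofReal_nonpos {t : ℝ} (h : t ≤ 0) : sq (t : ℂ) = Complex.I * ((√(-t) : ℝ) : ℂ) := by
  unfold sq
  rw [Complex.norm_real, norm_eq_abs, abs_of_nonpos h, Complex.ofReal_re]
  have e : (-t - t) / 2 = -t := by ring
  rw [e]
  simp [mul_comm]

theorem norm_sq_sq {z : ℂ} (h : 0 ≤ z.im) : ‖sq z‖ ^ 2 = ‖z‖ := by
  rw [← norm_pow, sq_sq h]

/-- derivative along the real axis -/
theorem hasDerivAt_sq_real {c t : ℝ} (h : t ≠ c) :
    HasDerivAt (fun t : ℝ => sq ((t : ℂ) - (c : ℂ))) (1 / (2 * sq ((t : ℂ) - (c : ℂ)))) t := by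
  rcases lt_or_gt_of_ne h with h | h
  · have e : (fun t : ℝ => sq ((t : ℂ) - (c : ℂ))) =ᶠ[𝓝 t]
        fun t : ℝ => Complex.I * ((√(c - t) : ℝ) : ℂ) := by
      filter_upwards [eventually_lt_nhds h] with s hs
      rw [← Complex.ofReal_sub, sq_ofReal_nonpos (by linarith), neg_sub]
    have h1 : HasDerivAt (fun t : ℝ => √(c - t)) (-1 / (2 * √(c - t))) t :=
      ((hasDerivAt_id t).const_sub c).sqrt (by simp only [id]; linarith)
    have h2 := (h1.ofReal_comp).const_mul Complex.I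
    have h3 := h2.congr_of_eventuallyEq e
    have hpos : 0 < √(c - t) := sqrt_pos.2 (by linarith)
    have hne : ((√(c - t) : ℝ) : ℂ) ≠ 0 := by exact_mod_cast hpos.ne'
    have hI := Complex.I_ne_zero
    have e5 : 1 / (2 * sq ((t : ℂ) - (c : ℂ))) = Complex.I * ((-1 / (2 * √(c - t)) : ℝ) : ℂ) := ?_
    · rw [e5]; exact h3
    rw [← Complex.ofReal_sub, sq_ofReal_nonpos (by linarith), neg_sub]
    push_cast
    rw [div_eq_iff (by
      exact mul_ne_zero two_ne_zero (mul_ne_zero hI hne))]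
    have h4 : Complex.I * (-1 / (2 * ((√(c - t) : ℝ) : ℂ))) * (2 * (Complex.I * ((√(c - t) : ℝ) : ℂ)))
        = -(Complex.I * Complex.I) * (((√(c - t) : ℝ) : ℂ) / ((√(c - t) : ℝ) : ℂ)) := by
      field_simp
    rw [h4, Complex.I_mul_I, div_self hne]
    norm_num
  · have e : (fun t : ℝ => sq ((t : ℂ) - (c : ℂ))) =ᶠ[𝓝 t]
        fun t : ℝ => ((√(t - c) : ℝ) : ℂ) := by
      filter_upwards [eventually_gt_nhds h] with s hs
      rw [← Complex.ofReal_sub, sq_ofReal_nonneg (by linarith)]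
    have h1 : HasDerivAt (fun t : ℝ => √(t - c)) (1 / (2 * √(t - c))) t :=
      ((hasDerivAt_id t).sub_const c).sqrt (by simp only [id]; linarith)
    have h3 := (h1.ofReal_comp).congr_of_eventuallyEq e
    have e5 : 1 / (2 * sq ((t : ℂ) - (c : ℂ))) = ((1 / (2 * √(t - c)) : ℝ) : ℂ) := by
      rw [← Complex.ofReal_sub, sq_ofReal_nonneg (by linarith)]
      push_cast
      rfl
    rw [e5]; exact h3

/-! ### Sums in the closed first quadrant -/

theorem quad_slit {A B : ℂ} {c : ℝ} (hc : 0 < c) (a1 : 0 ≤ A.re) (a2 : 0 ≤ A.im) (b1 : 0 ≤ B.re)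
    (b2 : 0 ≤ B.im) (h : A ≠ B) : A + (c : ℂ) * B ∈ Complex.slitPlane := by
  rw [Complex.mem_slitPlane_iff]
  simp only [Complex.add_re, Complex.re_ofReal_mul, Complex.add_im, Complex.im_ofReal_mul]
  by_contra hn
  push Not at hn
  obtain ⟨h1, h2⟩ := hn
  have m1 := mul_nonneg hc.le b1
  have m2 := mul_nonneg hc.le b2
  have e1 : A.re = 0 := by linarith
  have e2 : c * B.re = 0 := by linarith
  have e3 : A.im = 0 := by linarith
  have e4 : c * B.im = 0 := by linarith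
  have e5 : B.re = 0 := by
    rcases mul_eq_zero.1 e2 with h | h
    · exact absurd h hc.ne'
    · exact h
  have e6 : B.im = 0 := by
    rcases mul_eq_zero.1 e4 with h | h
    · exact absurd h hc.ne'
    · exact h
  exact h (Complex.ext (e1.trans e5.symm) (e3.trans e6.symm))

theorem quad_norm_ge {A B : ℂ} {c : ℝ} (hc : 0 ≤ c) (a1 : 0 ≤ A.re) (a2 : 0 ≤ A.im) (b1 : 0 ≤ B.re)
    (b2 : 0 ≤ B.im) : ‖A‖ ^ 2 + c ^ 2 * ‖B‖ ^ 2 ≤ ‖A + (c : ℂ) * B‖ ^ 2 := by
  rw [Complex.sq_norm, Complex.sq_norm, Complex.sq_norm, Complex.normSq_apply,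
    Complex.normSq_apply, Complex.normSq_apply]
  simp only [Complex.add_re, Complex.re_ofReal_mul, Complex.add_im, Complex.im_ofReal_mul]
  have h1 := mul_nonneg (mul_nonneg hc a1) b1
  have h2 := mul_nonneg (mul_nonneg hc a2) b2
  nlinarith

theorem quad_norm_le {A B : ℂ} {c : ℝ} (hc : 0 ≤ c) (hc1 : c ≤ 1) :
    ‖A + (c : ℂ) * B‖ ^ 2 ≤ 2 * (‖A‖ ^ 2 + ‖B‖ ^ 2) := by
  have h1 : ‖A + (c : ℂ) * B‖ ≤ ‖A‖ + ‖B‖ := by
    refine (norm_add_le _ _).trans ?_
    rw [norm_mul, Complex.norm_real, norm_eq_abs, abs_of_nonneg hc]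
    have := mul_le_mul_of_nonneg_right hc1 (norm_nonneg B)
    linarith
  have h2 : ‖A + (c : ℂ) * B‖ ^ 2 ≤ (‖A‖ + ‖B‖) ^ 2 := pow_le_pow_left₀ (norm_nonneg _) h1 2
  nlinarith [sq_nonneg (‖A‖ - ‖B‖)]

end Pool.Agent.NH38.Step.Conf
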