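import Pool.Agent.NH38.Step.Conf1

set_option autoImplicit false

namespace Pool.Agent.NH38.Step.Conf

open Filter Topology Set Real

/-- the parameter `a` -/
noncomputable def aa (α β : ℝ) : ℝ := α / (α + β)

/-- the cross-ratio -/
noncomputable def xx (α β : ℝ) : ℝ := (α / (α + β)) ^ 2

/-- `√(z-x)` -/
noncomputable def PP (α β : ℝ) (z : ℂ) : ℂ := sq (z - ((xx α β : ℝ) : ℂ))

/-- `√(z-1)` -/
noncomputable def QQ (z : ℂ) : ℂ := sq (z - ((1 : ℝ) : ℂ))

/-- the combination of logarithms -/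
noncomputable def WW (α β : ℝ) (z : ℂ) : ℂ :=
  ((2 * (α + β) : ℝ) : ℂ) * Complex.log (PP α β z + QQ z) -
    ((2 * α : ℝ) : ℂ) * Complex.log (PP α β z + (aa α β : ℂ) * QQ z) +
    (α : ℂ) * Complex.log z - ((β * log (1 - xx α β) : ℝ) : ℂ)

/-- the conformal map onto the reflected step channel -/
noncomputable def cg (α β : ℝ) (z : ℂ) : ℂ := ((1 / π : ℝ) : ℂ) * (Complex.I * WW α β z) + (β : ℂ)

theorem cg_re (α β : ℝ) (z : ℂ) : (cg α β z).re = β - 1 / π * (2 * (α + β) *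
    (PP α β z + QQ z).arg - 2 * α * (PP α β z + (aa α β : ℂ) * QQ z).arg + α * z.arg) := by
  unfold cg WW
  rw [Complex.add_re, Complex.re_ofReal_mul, Complex.I_mul_re, Complex.sub_im, Complex.add_im,
    Complex.sub_im, Complex.im_ofReal_mul, Complex.im_ofReal_mul, Complex.im_ofReal_mul,
    Complex.ofReal_re, Complex.ofReal_im, Complex.log_im, Complex.log_im, Complex.log_im]
  ring

theorem cg_im (α β : ℝ) (z : ℂ) : (cg α β z).im = 1 / π * (2 * (α + β) *
    log ‖PP α β z + QQ z‖ - 2 * α * log ‖PP α β z + (aa α β : ℂ) * QQ z‖ + α * log ‖z‖ -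
    β * log (1 - xx α β)) := by
  unfold cg WW
  rw [Complex.add_im, Complex.im_ofReal_mul, Complex.I_mul_im, Complex.sub_re, Complex.add_re,
    Complex.sub_re, Complex.re_ofReal_mul, Complex.re_ofReal_mul, Complex.re_ofReal_mul,
    Complex.ofReal_re, Complex.ofReal_im, Complex.log_re, Complex.log_re, Complex.log_re, add_zero]

theorem alg_id {p q z a N : ℂ} (hp : p ≠ 0) (hq : q ≠ 0) (hz : z ≠ 0) (h0 : p + q ≠ 0)
    (ha : p + a * q ≠ 0) (h1 : p ^ 2 = z - a ^ 2) (h2 : q ^ 2 = z - 1) :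
    2 * N * ((1 / (2 * p) + 1 / (2 * q)) / (p + q)) -
      2 * (N * a) * ((1 / (2 * p) + a * (1 / (2 * q))) / (p + a * q)) + N * a * (1 / z) =
      N * (p / (q * z)) := by
  have e1 : (1 / (2 * p) + 1 / (2 * q)) / (p + q) = 1 / (2 * p * q) := by
    field_simp
    ring
  have e2 : (1 / (2 * p) + a * (1 / (2 * q))) / (p + a * q) =
      (q + a * p) / (2 * p * q * (p + a * q)) := by
    field_simp
  rw [e1, e2]
  have e4 : z * (p + a * q) - a * (q + a * p) * z + a * p * q * (p + a * q) -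
      p * p * (p + a * q) = 0 := by
    linear_combination (-p) * h1 + (a ^ 2 * p) * h2
  obtain ⟨s, hs⟩ : ∃ s, s = p + a * q := ⟨_, rfl⟩
  rw [← hs] at ha e4 ⊢
  have e3 : 2 * N * (1 / (2 * p * q)) - 2 * (N * a) * ((q + a * p) / (2 * p * q * s)) +
      N * a * (1 / z) - N * (p / (q * z)) =
      N * (z * s - a * (q + a * p) * z + a * p * q * s - p * p * s) /
        (p * q * s * z) := by
    field_simp
    try ring
  rw [e4, mul_zero, zero_div] at e3
  exact sub_eq_zero.1 e3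

section
variable {α β : ℝ} (hα : 0 < α) (hβ : 0 < β)
include hα hβ

theorem aa_pos : 0 < aa α β := div_pos hα (add_pos hα hβ)

theorem aa_lt : aa α β < 1 := by
  unfold aa
  rw [div_lt_one (add_pos hα hβ)]
  linarith

theorem xx_pos : 0 < xx α β := pow_pos (aa_pos hα hβ) 2

theorem xx_lt : xx α β < 1 := pow_lt_one₀ (aa_pos hα hβ).le (aa_lt hα hβ) two_ne_zero

theorem N_aa : (α + β) * aa α β = α := by
  unfold aa
  rw [mul_div_cancel₀ _ (add_pos hα hβ).ne']

omit hα hβ in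
theorem PP_sq {z : ℂ} (h : 0 ≤ z.im) : PP α β z ^ 2 = z - ((xx α β : ℝ) : ℂ) := by
  unfold PP
  exact sq_sq (by simpa using h)

omit hα hβ in
theorem QQ_sq {z : ℂ} (h : 0 ≤ z.im) : QQ z ^ 2 = z - ((1 : ℝ) : ℂ) := by
  unfold QQ
  exact sq_sq (by simpa using h)

theorem PP_ne_QQ {z : ℂ} (h : 0 ≤ z.im) : PP α β z ≠ QQ z := by
  intro e
  have h1 := PP_sq (α := α) (β := β) h
  rw [e, QQ_sq h] at h1
  have h2 : ((1 : ℝ) : ℂ) = ((xx α β : ℝ) : ℂ) := sub_right_injective h1
  have h3 : (1 : ℝ) = xx α β := by exact_mod_cast h2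
  exact (xx_lt hα hβ).ne' h3

theorem slit1 {z : ℂ} (h : 0 ≤ z.im) : PP α β z + QQ z ∈ Complex.slitPlane := by
  have := quad_slit (A := PP α β z) (B := QQ z) one_pos (sq_re_nonneg _) (sq_im_nonneg _)
    (sq_re_nonneg _) (sq_im_nonneg _) (PP_ne_QQ hα hβ h)
  simpa using this

theorem slita {z : ℂ} (h : 0 ≤ z.im) :
    PP α β z + (aa α β : ℂ) * QQ z ∈ Complex.slitPlane :=
  quad_slit (A := PP α β z) (B := QQ z) (aa_pos hα hβ) (sq_re_nonneg _) (sq_im_nonneg _)
    (sq_re_nonneg _) (sq_im_nonneg _) (PP_ne_QQ hα hβ h)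

omit hα hβ in
theorem PP_cont : Continuous (PP α β) := continuous_sq.comp (by fun_prop)

omit hα hβ in
theorem QQ_cont : Continuous QQ := continuous_sq.comp (by fun_prop)

omit hα hβ in
theorem clog_cont {z : ℂ} (h0 : 0 ≤ z.im) (hz : z ≠ 0) :
    ContinuousWithinAt Complex.log {z | 0 ≤ z.im} z := by
  by_cases h : z ∈ Complex.slitPlane
  · exact (continuousAt_clog h).continuousWithinAt
  · have h1 : z.re ≤ 0 ∧ z.im = 0 := by
      rw [Complex.mem_slitPlane_iff] at h
      push Not at h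
      exact h
    refine Complex.continuousWithinAt_log_of_re_neg_of_im_zero ?_ h1.2
    rcases lt_or_eq_of_le h1.1 with h2 | h2
    · exact h2
    · exact absurd (Complex.ext h2 h1.2) hz

theorem cg_cont : ContinuousOn (cg α β) {z : ℂ | 0 ≤ z.im ∧ z ≠ 0} := by
  rintro z ⟨h0, h1⟩
  have c1 : ContinuousAt (fun z => Complex.log (PP α β z + QQ z)) z :=
    (PP_cont.add QQ_cont).continuousAt.clog (slit1 hα hβ h0)
  have c2 : ContinuousAt (fun z => Complex.log (PP α β z + (aa α β : ℂ) * QQ z)) z :=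
    (PP_cont.add (QQ_cont.const_mul _)).continuousAt.clog (slita hα hβ h0)
  have c3 : ContinuousWithinAt Complex.log {z : ℂ | 0 ≤ z.im ∧ z ≠ 0} z :=
    (clog_cont h0 h1).mono fun w hw => hw.1
  unfold cg WW
  exact ((((((c1.continuousWithinAt.const_mul _).sub (c2.continuousWithinAt.const_mul _)).add
    (c3.const_mul _)).sub continuousWithinAt_const).const_mul _).const_mul _).add
    continuousWithinAt_const

/-- the derivative -/
theorem cg_deriv {z : ℂ} (h : 0 < z.im) :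
    HasDerivAt (cg α β) (((1 / π : ℝ) : ℂ) * (Complex.I * (((α + β : ℝ) : ℂ) *
      (PP α β z / (QQ z * z))))) z := by
  have hz : z ≠ 0 := by rintro rfl; simp at h
  have hzs : z ∈ Complex.slitPlane := Or.inr h.ne'
  have ip : 0 < (z - ((xx α β : ℝ) : ℂ)).im := by simpa using h
  have iq : 0 < (z - ((1 : ℝ) : ℂ)).im := by simpa using h
  have dP : HasDerivAt (PP α β) (1 / (2 * PP α β z)) z := by
    have h1 : HasDerivAt (fun w : ℂ => sq (w - ((xx α β : ℝ) : ℂ)))
        (1 / (2 * sq (z - ((xx α β : ℝ) : ℂ))) * 1) z :=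
      HasDerivAt.comp z (hasDerivAt_sq ip) ((hasDerivAt_id z).sub_const _)
    rw [mul_one] at h1
    exact h1
  have dQ : HasDerivAt QQ (1 / (2 * QQ z)) z := by
    have h1 : HasDerivAt (fun w : ℂ => sq (w - ((1 : ℝ) : ℂ)))
        (1 / (2 * sq (z - ((1 : ℝ) : ℂ))) * 1) z :=
      HasDerivAt.comp z (hasDerivAt_sq iq) ((hasDerivAt_id z).sub_const _)
    rw [mul_one] at h1
    exact h1
  have nP : PP α β z ≠ 0 := by
    intro h0
    have := sq_re_pos ip
    have e : (PP α β z).re = 0 := by rw [h0]; rfl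
    exact this.ne' e
  have nQ : QQ z ≠ 0 := by
    intro h0
    have := sq_re_pos iq
    have e : (QQ z).re = 0 := by rw [h0]; rfl
    exact this.ne' e
  have d1 := (dP.add dQ).clog (slit1 hα hβ h.le)
  have d2 := (dP.add (dQ.const_mul (aa α β : ℂ))).clog (slita hα hβ h.le)
  have d3 : HasDerivAt Complex.log (1 / z) z := by
    simpa using Complex.hasDerivAt_log hzs
  have D := ((((((d1.const_mul ((2 * (α + β) : ℝ) : ℂ)).sub
    (d2.const_mul ((2 * α : ℝ) : ℂ))).add (d3.const_mul (α : ℂ))).sub_const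
      ((β * log (1 - xx α β) : ℝ) : ℂ)).const_mul Complex.I).const_mul
      ((1 / π : ℝ) : ℂ)).add_const (β : ℂ)
  have e := alg_id (N := ((α + β : ℝ) : ℂ)) (a := (aa α β : ℂ)) nP nQ hz
    (Complex.slitPlane_ne_zero (slit1 hα hβ h.le)) (Complex.slitPlane_ne_zero (slita hα hβ h.le))
    (by rw [PP_sq h.le]; simp [xx, aa]) (by rw [QQ_sq h.le]; simp)
  have eN : ((α + β : ℝ) : ℂ) * (aa α β : ℂ) = (α : ℂ) := by
    exact_mod_cast N_aa hα hβ
  rw [← e, eN]
  refine D.congr_deriv ?_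
  push_cast
  rfl

/-- the derivative along the real axis -/
theorem cg_deriv_real {t : ℝ} (h0 : t ≠ 0) (hx : t ≠ xx α β) (h1 : t ≠ 1) :
    HasDerivAt (fun t : ℝ => cg α β (t : ℂ)) (((1 / π : ℝ) : ℂ) * (Complex.I *
      (((α + β : ℝ) : ℂ) * (PP α β (t : ℂ) / (QQ (t : ℂ) * (t : ℂ)))))) t := by
  have hz : (t : ℂ) ≠ 0 := by exact_mod_cast h0
  have him : 0 ≤ (t : ℂ).im := by simp
  have dP : HasDerivAt (fun t : ℝ => PP α β (t : ℂ)) (1 / (2 * PP α β (t : ℂ))) t :=
    hasDerivAt_sq_real hx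
  have dQ : HasDerivAt (fun t : ℝ => QQ (t : ℂ)) (1 / (2 * QQ (t : ℂ))) t :=
    hasDerivAt_sq_real h1
  have nP : PP α β (t : ℂ) ≠ 0 := by
    intro h
    have h2 := PP_sq (α := α) (β := β) him
    rw [h, zero_pow two_ne_zero] at h2
    have h3 : (t : ℂ) = ((xx α β : ℝ) : ℂ) := (sub_eq_zero.1 h2.symm)
    exact hx (by exact_mod_cast h3)
  have nQ : QQ (t : ℂ) ≠ 0 := by
    intro h
    have h2 := QQ_sq him
    rw [h, zero_pow two_ne_zero] at h2
    have h3 : (t : ℂ) = ((1 : ℝ) : ℂ) := (sub_eq_zero.1 h2.symm)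
    exact h1 (by exact_mod_cast h3)
  have d1 := (dP.add dQ).clog_real (slit1 hα hβ him)
  have d2 := (dP.add (dQ.const_mul (aa α β : ℂ))).clog_real (slita hα hβ him)
  have d3 : HasDerivAt (fun t : ℝ => Complex.log (t : ℂ)) (1 / (t : ℂ)) t := by
    rcases lt_or_gt_of_ne h0 with hlt | hgt
    · have e : (fun t : ℝ => Complex.log (t : ℂ)) =ᶠ[𝓝 t]
          fun t : ℝ => ((log t : ℝ) : ℂ) + (π : ℂ) * Complex.I := by
        filter_upwards [eventually_lt_nhds hlt] with s hs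
        apply Complex.ext
        · simp [Complex.log_re]
        · simp [Complex.log_im, Complex.arg_ofReal_of_neg hs]
      have h3 := (((Real.hasDerivAt_log h0).ofReal_comp).add_const
        ((π : ℂ) * Complex.I)).congr_of_eventuallyEq e
      refine h3.congr_deriv ?_
      push_cast
      simp
    · have e : (fun t : ℝ => Complex.log (t : ℂ)) =ᶠ[𝓝 t] fun t : ℝ => ((log t : ℝ) : ℂ) := by
        filter_upwards [eventually_gt_nhds hgt] with s hs
        rw [Complex.ofReal_log hs.le]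
      have h3 := ((Real.hasDerivAt_log h0).ofReal_comp).congr_of_eventuallyEq e
      refine h3.congr_deriv ?_
      push_cast
      simp
  have D := ((((((d1.const_mul ((2 * (α + β) : ℝ) : ℂ)).sub
    (d2.const_mul ((2 * α : ℝ) : ℂ))).add (d3.const_mul (α : ℂ))).sub_const
      ((β * log (1 - xx α β) : ℝ) : ℂ)).const_mul Complex.I).const_mul
      ((1 / π : ℝ) : ℂ)).add_const (β : ℂ)
  have e := alg_id (N := ((α + β : ℝ) : ℂ)) (a := (aa α β : ℂ)) nP nQ hz
    (Complex.slitPlane_ne_zero (slit1 hα hβ him)) (Complex.slitPlane_ne_zero (slita hα hβ him))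
    (by rw [PP_sq him]; simp [xx, aa]) (by rw [QQ_sq him]; simp)
  have eN : ((α + β : ℝ) : ℂ) * (aa α β : ℂ) = (α : ℂ) := by
    exact_mod_cast N_aa hα hβ
  rw [← e, eN]
  refine D.congr_deriv ?_
  push_cast
  rfl

end

end Pool.Agent.NH38.Step.Conf
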