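import Pool.Agent.NH38.Step.Conf2

set_option autoImplicit false

namespace Pool.Agent.NH38.Step.Conf

open Filter Topology Set Real

/-! ### Values on the real axis -/

theorem arg_I_mul {r : ℝ} (hr : 0 < r) : (Complex.I * (r : ℂ)).arg = π / 2 := by
  rw [mul_comm, Complex.arg_real_mul _ hr, Complex.arg_I]

section
variable {α β : ℝ} (hα : 0 < α) (hβ : 0 < β)

theorem PP_le {t : ℝ} (h : t ≤ xx α β) :
    PP α β (t : ℂ) = Complex.I * ((√(xx α β - t) : ℝ) : ℂ) := by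
  unfold PP
  rw [← Complex.ofReal_sub, sq_ofReal_nonpos (by linarith), neg_sub]

theorem PP_ge {t : ℝ} (h : xx α β ≤ t) : PP α β (t : ℂ) = ((√(t - xx α β) : ℝ) : ℂ) := by
  unfold PP
  rw [← Complex.ofReal_sub, sq_ofReal_nonneg (by linarith)]

theorem QQ_le {t : ℝ} (h : t ≤ 1) : QQ (t : ℂ) = Complex.I * ((√(1 - t) : ℝ) : ℂ) := by
  unfold QQ
  rw [← Complex.ofReal_sub, sq_ofReal_nonpos (by linarith), neg_sub]

theorem QQ_ge {t : ℝ} (h : 1 ≤ t) : QQ (t : ℂ) = ((√(t - 1) : ℝ) : ℂ) := by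
  unfold QQ
  rw [← Complex.ofReal_sub, sq_ofReal_nonneg (by linarith)]

include hα hβ

theorem args_le {t : ℝ} (h : t ≤ xx α β) : (PP α β (t : ℂ) + QQ (t : ℂ)).arg = π / 2 ∧
    (PP α β (t : ℂ) + (aa α β : ℂ) * QQ (t : ℂ)).arg = π / 2 := by
  have hx := xx_lt hα hβ
  have ha := aa_pos hα hβ
  have hV : 0 < √(1 - t) := sqrt_pos.2 (by linarith)
  have hU : 0 ≤ √(xx α β - t) := sqrt_nonneg _
  rw [PP_le h, QQ_le (by linarith)]
  constructor
  · rw [← mul_add, ← Complex.ofReal_add]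
    exact arg_I_mul (by linarith)
  · have e : Complex.I * ((√(xx α β - t) : ℝ) : ℂ) + (aa α β : ℂ) *
        (Complex.I * ((√(1 - t) : ℝ) : ℂ)) =
        Complex.I * ((√(xx α β - t) + aa α β * √(1 - t) : ℝ) : ℂ) := by
      push_cast
      ring
    rw [e]
    exact arg_I_mul (by have := mul_pos ha hV; linarith)

theorem re_left {t : ℝ} (h : t < 0) : (cg α β (t : ℂ)).re = -α := by
  obtain ⟨h1, h2⟩ := args_le hα hβ (h.le.trans (xx_pos hα hβ).le)
  rw [cg_re, h1, h2, Complex.arg_ofReal_of_neg h]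
  have := pi_pos
  field_simp
  ring

theorem re_inner {t : ℝ} (h0 : 0 < t) (h : t ≤ xx α β) : (cg α β (t : ℂ)).re = 0 := by
  obtain ⟨h1, h2⟩ := args_le hα hβ h
  rw [cg_re, h1, h2, Complex.arg_ofReal_of_nonneg h0.le]
  have := pi_pos
  field_simp
  ring

theorem re_right {t : ℝ} (h : 1 ≤ t) : (cg α β (t : ℂ)).re = β := by
  have hx := xx_lt hα hβ
  have ha := aa_pos hα hβ
  rw [cg_re, PP_ge (by linarith), QQ_ge h, ← Complex.ofReal_add, ← Complex.ofReal_mul,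
    ← Complex.ofReal_add, Complex.arg_ofReal_of_nonneg (by positivity),
    Complex.arg_ofReal_of_nonneg (by positivity), Complex.arg_ofReal_of_nonneg (by linarith)]
  ring

theorem im_ledge {t : ℝ} (h0 : xx α β ≤ t) (h1 : t ≤ 1) : (cg α β (t : ℂ)).im = 0 := by
  have hx := xx_lt hα hβ
  have hx0 := xx_pos hα hβ
  have ha := aa_pos hα hβ
  have hU : √(t - xx α β) ^ 2 = t - xx α β := sq_sqrt (by linarith)
  have hV : √(1 - t) ^ 2 = 1 - t := sq_sqrt (by linarith)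
  have n1 : ‖PP α β (t : ℂ) + QQ (t : ℂ)‖ ^ 2 = 1 - xx α β := by
    rw [PP_ge h0, QQ_le h1, Complex.sq_norm, Complex.normSq_apply]
    simp only [Complex.add_re, Complex.ofReal_re, Complex.I_mul_re, Complex.ofReal_im, neg_zero,
      add_zero, Complex.add_im, Complex.I_mul_im, zero_add]
    nlinarith
  have n2 : ‖PP α β (t : ℂ) + (aa α β : ℂ) * QQ (t : ℂ)‖ ^ 2 = t * (1 - xx α β) := by
    rw [PP_ge h0, QQ_le h1, Complex.sq_norm, Complex.normSq_apply]
    simp only [Complex.add_re, Complex.ofReal_re, Complex.re_ofReal_mul, Complex.I_mul_re,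
      Complex.ofReal_im, neg_zero, mul_zero,
      add_zero, Complex.add_im, Complex.im_ofReal_mul, Complex.I_mul_im, zero_add]
    have e : aa α β ^ 2 = xx α β := rfl
    nlinarith
  have l1 : 2 * log ‖PP α β (t : ℂ) + QQ (t : ℂ)‖ = log (1 - xx α β) := by
    rw [← n1, log_pow]; norm_num
  have l2 : 2 * log ‖PP α β (t : ℂ) + (aa α β : ℂ) * QQ (t : ℂ)‖ = log t + log (1 - xx α β) := by
    rw [← log_mul (by linarith) (by linarith), ← n2, log_pow]; norm_num
  rw [cg_im, Complex.norm_real, norm_eq_abs, abs_of_nonneg (by linarith : (0:ℝ) ≤ t)]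
  have e : 2 * (α + β) * log ‖PP α β (t : ℂ) + QQ (t : ℂ)‖ -
      2 * α * log ‖PP α β (t : ℂ) + (aa α β : ℂ) * QQ (t : ℂ)‖ + α * log t -
      β * log (1 - xx α β) = 0 := by
    linear_combination (α + β) * l1 - α * l2
  rw [e, mul_zero]

theorem cg_x : cg α β ((xx α β : ℝ) : ℂ) = 0 := by
  have hx := xx_lt hα hβ
  have hx0 := xx_pos hα hβ
  exact Complex.ext (re_inner hα hβ hx0 le_rfl) (im_ledge hα hβ le_rfl hx.le)

theorem cg_one : cg α β 1 = (β : ℂ) := by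
  have hx := xx_lt hα hβ
  have e : (1 : ℂ) = ((1 : ℝ) : ℂ) := by simp
  rw [e]
  exact Complex.ext ((re_right hα hβ le_rfl).trans (Complex.ofReal_re β).symm)
    ((im_ledge hα hβ hx.le le_rfl).trans (Complex.ofReal_im β).symm)

/-! ### Monotonicity on the real axis -/

theorem cont_real : ContinuousOn (fun t : ℝ => cg α β (t : ℂ)) {t | t ≠ 0} := by
  refine (cg_cont hα hβ).comp Complex.continuous_ofReal.continuousOn ?_
  intro t ht
  exact ⟨by simp, by simpa using ht⟩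

theorem cont_im {s : Set ℝ} (h : ∀ t ∈ s, t ≠ 0) :
    ContinuousOn (fun t : ℝ => (cg α β (t : ℂ)).im) s :=
  Complex.continuous_im.comp_continuousOn ((cont_real hα hβ).mono h)

theorem cont_re {s : Set ℝ} (h : ∀ t ∈ s, t ≠ 0) :
    ContinuousOn (fun t : ℝ => (cg α β (t : ℂ)).re) s :=
  Complex.continuous_re.comp_continuousOn ((cont_real hα hβ).mono h)

/-- the derivative of the imaginary part for `t < x` -/
theorem deriv_im_lt {t : ℝ} (h0 : t ≠ 0) (h : t < xx α β) :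
    HasDerivAt (fun t : ℝ => (cg α β (t : ℂ)).im)
      (1 / π * ((α + β) * (√(xx α β - t) / (√(1 - t) * t)))) t := by
  have hx := xx_lt hα hβ
  have D := cg_deriv_real hα hβ h0 h.ne (by linarith)
  have D2 := Complex.imCLM.hasFDerivAt.comp_hasDerivAt t D
  refine D2.congr_deriv ?_
  rw [PP_le h.le, QQ_le (by linarith)]
  have e : Complex.I * ((√(xx α β - t) : ℝ) : ℂ) / (Complex.I * ((√(1 - t) : ℝ) : ℂ) * (t : ℂ)) =
      ((√(xx α β - t) / (√(1 - t) * t) : ℝ) : ℂ) := by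
    push_cast
    rw [mul_assoc, mul_div_mul_left _ _ Complex.I_ne_zero]
  rw [e]
  simp only [Complex.imCLM_apply, Complex.im_ofReal_mul, Complex.I_mul_im, Complex.re_ofReal_mul,
    Complex.ofReal_re]

/-- the derivative of the imaginary part for `t > 1` -/
theorem deriv_im_gt {t : ℝ} (h : 1 < t) :
    HasDerivAt (fun t : ℝ => (cg α β (t : ℂ)).im)
      (1 / π * ((α + β) * (√(t - xx α β) / (√(t - 1) * t)))) t := by
  have hx := xx_lt hα hβ
  have D := cg_deriv_real hα hβ (by linarith) (by linarith) h.ne'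
  have D2 := Complex.imCLM.hasFDerivAt.comp_hasDerivAt t D
  refine D2.congr_deriv ?_
  rw [PP_ge (by linarith), QQ_ge h.le, ← Complex.ofReal_mul, ← Complex.ofReal_div]
  simp only [Complex.imCLM_apply, Complex.im_ofReal_mul, Complex.I_mul_im, Complex.re_ofReal_mul,
    Complex.ofReal_re]

/-- the derivative of the real part for `x < t < 1` -/
theorem deriv_re_mid {t : ℝ} (h0 : xx α β < t) (h : t < 1) :
    HasDerivAt (fun t : ℝ => (cg α β (t : ℂ)).re)
      (1 / π * ((α + β) * (√(t - xx α β) / (√(1 - t) * t)))) t := by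
  have hx := xx_lt hα hβ
  have hx0 := xx_pos hα hβ
  have D := cg_deriv_real hα hβ (by linarith) (by linarith) h.ne
  have D2 := Complex.reCLM.hasFDerivAt.comp_hasDerivAt t D
  refine D2.congr_deriv ?_
  rw [PP_ge h0.le, QQ_le h.le]
  have e : ((√(t - xx α β) : ℝ) : ℂ) / (Complex.I * ((√(1 - t) : ℝ) : ℂ) * (t : ℂ)) =
      -(Complex.I * ((√(t - xx α β) / (√(1 - t) * t) : ℝ) : ℂ)) := by
    push_cast
    rw [mul_assoc, div_mul_eq_div_div_swap, Complex.div_I]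
    ring
  rw [e]
  simp only [Complex.reCLM_apply, Complex.re_ofReal_mul, Complex.I_mul_re, Complex.im_ofReal_mul,
    Complex.neg_im, Complex.I_mul_im, Complex.ofReal_re]
  ring

theorem anti_left : StrictAntiOn (fun t : ℝ => (cg α β (t : ℂ)).im) (Iio 0) := by
  have hx := xx_lt hα hβ
  have hx0 := xx_pos hα hβ
  apply strictAntiOn_of_deriv_neg (convex_Iio 0)
  · exact cont_im hα hβ fun t ht => (ne_of_lt ht)
  · intro t ht
    rw [interior_Iio] at ht
    simp only [mem_Iio] at ht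
    rw [(deriv_im_lt hα hβ ht.ne (by linarith)).deriv]
    have hU : 0 < √(xx α β - t) := sqrt_pos.2 (by linarith)
    have hV : 0 < √(1 - t) := sqrt_pos.2 (by linarith)
    have h1 : √(xx α β - t) / (√(1 - t) * t) < 0 :=
      div_neg_of_pos_of_neg hU (mul_neg_of_pos_of_neg hV ht)
    have h2 : (α + β) * (√(xx α β - t) / (√(1 - t) * t)) < 0 :=
      mul_neg_of_pos_of_neg (by linarith) h1
    exact mul_neg_of_pos_of_neg (by positivity) h2

theorem mono_inner : StrictMonoOn (fun t : ℝ => (cg α β (t : ℂ)).im) (Ioc 0 (xx α β)) := by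
  have hx := xx_lt hα hβ
  apply strictMonoOn_of_deriv_pos (convex_Ioc _ _)
  · exact cont_im hα hβ fun t ht => ht.1.ne'
  · intro t ht
    rw [interior_Ioc] at ht
    rw [(deriv_im_lt hα hβ ht.1.ne' ht.2).deriv]
    have hU : 0 < √(xx α β - t) := sqrt_pos.2 (by linarith [ht.2])
    have hV : 0 < √(1 - t) := sqrt_pos.2 (by linarith [ht.2])
    have := ht.1
    positivity

theorem mono_ledge : StrictMonoOn (fun t : ℝ => (cg α β (t : ℂ)).re) (Icc (xx α β) 1) := by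
  have hx := xx_lt hα hβ
  have hx0 := xx_pos hα hβ
  apply strictMonoOn_of_deriv_pos (convex_Icc _ _)
  · exact cont_re hα hβ fun t ht => (lt_of_lt_of_le hx0 ht.1).ne'
  · intro t ht
    rw [interior_Icc] at ht
    rw [(deriv_re_mid hα hβ ht.1 ht.2).deriv]
    have hU : 0 < √(t - xx α β) := sqrt_pos.2 (by linarith [ht.1])
    have hV : 0 < √(1 - t) := sqrt_pos.2 (by linarith [ht.2])
    have : 0 < t := hx0.trans ht.1
    positivity

theorem mono_right : StrictMonoOn (fun t : ℝ => (cg α β (t : ℂ)).im) (Ici 1) := by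
  have hx := xx_lt hα hβ
  apply strictMonoOn_of_deriv_pos (convex_Ici 1)
  · refine cont_im hα hβ fun t ht => ?_
    have : (1 : ℝ) ≤ t := ht
    linarith
  · intro t ht
    rw [interior_Ici] at ht
    simp only [mem_Ioi] at ht
    rw [(deriv_im_gt hα hβ ht).deriv]
    have hU : 0 < √(t - xx α β) := sqrt_pos.2 (by linarith)
    have hV : 0 < √(t - 1) := sqrt_pos.2 (by linarith)
    have : 0 < t := by linarith
    positivity

/-! ### Behaviour at `0` and at infinity -/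

theorem norm_facts {z : ℂ} (h : 0 ≤ z.im) :
    ‖PP α β z‖ ^ 2 = ‖z - ((xx α β : ℝ) : ℂ)‖ ∧ ‖QQ z‖ ^ 2 = ‖z - ((1 : ℝ) : ℂ)‖ ∧
    1 - xx α β ≤ ‖PP α β z‖ ^ 2 + ‖QQ z‖ ^ 2 := by
  have h1 : ‖PP α β z‖ ^ 2 = ‖z - ((xx α β : ℝ) : ℂ)‖ := norm_sq_sq (by simpa using h)
  have h2 : ‖QQ z‖ ^ 2 = ‖z - ((1 : ℝ) : ℂ)‖ := norm_sq_sq (by simpa using h)
  refine ⟨h1, h2, ?_⟩
  rw [h1, h2]
  have h3 : ‖((1 : ℝ) : ℂ) - ((xx α β : ℝ) : ℂ)‖ = 1 - xx α β := by
    rw [← Complex.ofReal_sub, Complex.norm_real, norm_eq_abs,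
      abs_of_nonneg (by linarith [xx_lt hα hβ])]
  rw [← h3]
  have h4 : ((1 : ℝ) : ℂ) - ((xx α β : ℝ) : ℂ) = (z - ((xx α β : ℝ) : ℂ)) - (z - ((1 : ℝ) : ℂ)) := by
    ring
  rw [h4]
  exact norm_sub_le _ _

theorem two_log {w : ℂ} (c : ℝ) : 2 * c * log ‖w‖ = c * log (‖w‖ ^ 2) := by
  rw [log_pow]; push_cast; ring

theorem im_lower {z : ℂ} (h : 0 ≤ z.im) : 1 / π * (α * (log ‖z‖ - log 2)) ≤ (cg α β z).im := by
  have hx := xx_lt hα hβ
  have ha := aa_pos hα hβ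
  have ha1 := aa_lt hα hβ
  obtain ⟨h1, h2, h3⟩ := norm_facts hα hβ h
  set S := ‖PP α β z‖ ^ 2 + ‖QQ z‖ ^ 2 with hS
  have hS0 : 0 < S := by linarith
  have n1 : S ≤ ‖PP α β z + QQ z‖ ^ 2 := by
    have := quad_norm_ge (A := PP α β z) (B := QQ z) zero_le_one (sq_re_nonneg _) (sq_im_nonneg _)
      (sq_re_nonneg _) (sq_im_nonneg _)
    simpa using this
  have n2 : ‖PP α β z + (aa α β : ℂ) * QQ z‖ ^ 2 ≤ 2 * S :=
    quad_norm_le ha.le ha1.le
  have n3 : 0 < ‖PP α β z + (aa α β : ℂ) * QQ z‖ ^ 2 := by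
    have := Complex.slitPlane_ne_zero (slita hα hβ h)
    positivity
  have l1 : log S ≤ log (‖PP α β z + QQ z‖ ^ 2) := log_le_log hS0 n1
  have l2 : log (‖PP α β z + (aa α β : ℂ) * QQ z‖ ^ 2) ≤ log 2 + log S := by
    rw [← log_mul two_ne_zero hS0.ne']
    exact log_le_log n3 n2
  have l3 : log (1 - xx α β) ≤ log S := log_le_log (by linarith) h3
  rw [cg_im]
  refine mul_le_mul_of_nonneg_left ?_ (by positivity)
  rw [two_log hα hβ (α + β), two_log hα hβ α]
  have m1 := mul_le_mul_of_nonneg_left l1 (add_pos hα hβ).le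
  have m2 := mul_le_mul_of_nonneg_left l2 hα.le
  have m3 := mul_le_mul_of_nonneg_left l3 hβ.le
  nlinarith

theorem im_upper : ∃ C : ℝ, ∀ z : ℂ, 0 ≤ z.im → ‖z‖ ≤ 1 →
    (cg α β z).im ≤ 1 / π * (α * log ‖z‖ + C) := by
  have hx := xx_lt hα hβ
  have hx0 := xx_pos hα hβ
  have ha := aa_pos hα hβ
  have ha1 := aa_lt hα hβ
  refine ⟨(α + β) * log 2 - α * log (aa α β ^ 2) + β * log 4 - β * log (1 - xx α β), ?_⟩
  intro z h hz
  obtain ⟨h1, h2, h3⟩ := norm_facts hα hβ h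
  set S := ‖PP α β z‖ ^ 2 + ‖QQ z‖ ^ 2 with hS
  have hS0 : 0 < S := by linarith
  have hS4 : S ≤ 4 := by
    rw [hS, h1, h2]
    have e1 := norm_sub_le z ((xx α β : ℝ) : ℂ)
    have e2 := norm_sub_le z ((1 : ℝ) : ℂ)
    rw [Complex.norm_real, norm_eq_abs, abs_of_pos hx0] at e1
    rw [Complex.norm_real, norm_eq_abs, abs_of_pos one_pos] at e2
    linarith
  have n1 : ‖PP α β z + QQ z‖ ^ 2 ≤ 2 * S := by
    have := quad_norm_le (A := PP α β z) (B := QQ z) zero_le_one le_rfl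
    simpa using this
  have n2 : aa α β ^ 2 * S ≤ ‖PP α β z + (aa α β : ℂ) * QQ z‖ ^ 2 := by
    have := quad_norm_ge (A := PP α β z) (B := QQ z) ha.le (sq_re_nonneg _) (sq_im_nonneg _)
      (sq_re_nonneg _) (sq_im_nonneg _)
    have e : aa α β ^ 2 * ‖PP α β z‖ ^ 2 ≤ 1 * ‖PP α β z‖ ^ 2 :=
      mul_le_mul_of_nonneg_right (by nlinarith) (by positivity)
    rw [hS]
    linarith
  have n3 : 0 < ‖PP α β z + QQ z‖ ^ 2 := by
    have := Complex.slitPlane_ne_zero (slit1 hα hβ h)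
    positivity
  have l1 : log (‖PP α β z + QQ z‖ ^ 2) ≤ log 2 + log S := by
    rw [← log_mul two_ne_zero hS0.ne']
    exact log_le_log n3 n1
  have l2 : log (aa α β ^ 2) + log S ≤ log (‖PP α β z + (aa α β : ℂ) * QQ z‖ ^ 2) := by
    rw [← log_mul (by positivity) hS0.ne']
    exact log_le_log (by positivity) n2
  have l3 : log S ≤ log 4 := log_le_log hS0 hS4
  rw [cg_im]
  refine mul_le_mul_of_nonneg_left ?_ (by positivity)
  rw [two_log hα hβ (α + β), two_log hα hβ α]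
  have m1 := mul_le_mul_of_nonneg_left l1 (add_pos hα hβ).le
  have m2 := mul_le_mul_of_nonneg_left l2 hα.le
  have m3 := mul_le_mul_of_nonneg_left l3 hβ.le
  nlinarith

theorem big (M : ℝ) : ∃ R : ℝ, 1 < R ∧ ∀ z : ℂ, 0 ≤ z.im → R ≤ ‖z‖ → M ≤ (cg α β z).im := by
  refine ⟨max 2 (2 * exp (π * M / α)), lt_max_of_lt_left (by norm_num), ?_⟩
  intro z h hz
  have hz1 : 2 * exp (π * M / α) ≤ ‖z‖ := (le_max_right _ _).trans hz
  have hz0 : 0 < ‖z‖ := lt_of_lt_of_le (by positivity) hz1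
  refine le_trans ?_ (im_lower hα hβ h)
  have h1 : log (2 * exp (π * M / α)) ≤ log ‖z‖ := log_le_log (by positivity) hz1
  rw [log_mul two_ne_zero (exp_pos _).ne', log_exp] at h1
  have h2 : π * M / α ≤ log ‖z‖ - log 2 := by linarith
  rw [div_le_iff₀ hα] at h2
  rw [one_div, inv_mul_eq_div, le_div_iff₀ pi_pos]
  linarith

theorem small (M : ℝ) : ∃ r : ℝ, 0 < r ∧ r < 1 ∧ ∀ z : ℂ, 0 ≤ z.im → z ≠ 0 → ‖z‖ ≤ r →
    (cg α β z).im ≤ M := by
  obtain ⟨C, hC⟩ := im_upper hα hβ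
  refine ⟨min (1 / 2) (exp ((π * M - C) / α)), by positivity,
    lt_of_le_of_lt (min_le_left _ _) (by norm_num), ?_⟩
  intro z h hz0 hz
  have hz1 : ‖z‖ ≤ exp ((π * M - C) / α) := hz.trans (min_le_right _ _)
  have hz2 : ‖z‖ ≤ 1 := (hz.trans (min_le_left _ _)).trans (by norm_num)
  have hzp : 0 < ‖z‖ := norm_pos_iff.2 hz0
  refine (hC z h hz2).trans ?_
  have h1 : log ‖z‖ ≤ (π * M - C) / α := by
    rw [← log_exp ((π * M - C) / α)]
    exact log_le_log hzp hz1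
  rw [le_div_iff₀ hα] at h1
  rw [one_div, inv_mul_eq_div, div_le_iff₀ pi_pos]
  linarith

end

end Pool.Agent.NH38.Step.Conf
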