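import Pool.Agent.NH38.Step.Stubs2
import Pool.Agent.H136R2.Cardy.Basic

/-!
Step channels, task H (helper90), part A: residue functionals on Laurent polynomials.
-/

namespace Pool.Agent.NH38.Step.Hom

open Pool.Agent.H988R2.Perc (q q_spec q_cube q_ne_zero q_ne_one q_sq_ne_one mu)
open LaurentPolynomial (T C invert)

abbrev LP := LaurentPolynomial ℂ

/-! ## residues over `ℚ` -/

theorem R_shiftX (m : ℕ) (c : ℚ) (r : ℕ) (F : Polynomial ℚ) :
    H337CB.R m (c + r) F = H337CB.R m c (Polynomial.X^r * F) := by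
  unfold H337CB.R
  rw [H337CB.pw_add, H337CB.pw_nat, map_mul H337CB.ev, map_pow H337CB.ev, H337CB.ev_X, mul_assoc]

theorem R_top (m r d : ℕ) (F : Polynomial ℚ) (hF : F.natDegree ≤ d) (h : r + d = m) :
    H337CB.R m r F = F.coeff d := by
  rw [H337CB.R_eq_sum' m _ F d hF, Finset.sum_range_succ, Finset.sum_eq_zero, zero_add]
  · rw [← Nat.cast_add, Ring.choose_natCast, h, Nat.choose_self]; simp
  · intro k hk
    rw [Finset.mem_range] at hk
    rw [← Nat.cast_add, Ring.choose_natCast, Nat.choose_eq_zero_of_lt (by omega), Nat.cast_zero,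
      mul_zero]

theorem R_deg (m r d : ℕ) (F : Polynomial ℚ) (hF : F.natDegree ≤ d) (h : r + d < m) :
    H337CB.R m r F = 0 := by
  rw [H337CB.R_eq_sum' m _ F d hF, Finset.sum_eq_zero]
  intro k hk
  rw [Finset.mem_range] at hk
  rw [← Nat.cast_add, Ring.choose_natCast, Nat.choose_eq_zero_of_lt (by omega), Nat.cast_zero,
      mul_zero]

theorem R_neg_one (m : ℕ) (F : Polynomial ℚ) (hF : F.natDegree ≤ m) :
    H337CB.R m (-1) F = (-1)^m * F.coeff 0 := by
  rw [H337CB.R_eq_sum' m _ F m hF, Finset.sum_range_succ', Finset.sum_eq_zero, zero_add]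
  · have := H337CB.choose_refl ((m : ℕ) : ℚ) m
    rw [show (((m : ℕ) : ℚ) - 1 - ((m : ℕ) : ℚ)) = (-1:ℚ) + ((0 : ℕ) : ℚ) by push_cast; ring,
      Ring.choose_natCast, Nat.choose_self] at this
    rw [this]; push_cast; ring
  · intro k hk
    rw [Finset.mem_range] at hk
    rw [show (-1:ℚ) + ((k + 1 : ℕ) : ℚ) = ((k : ℕ) : ℚ) by push_cast; ring, Ring.choose_natCast,
      Nat.choose_eq_zero_of_lt hk, Nat.cast_zero, mul_zero]

theorem P_coeff_zero (n : ℕ) : (H337CB.P n).coeff 0 = 1 := by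
  rw [Polynomial.coeff_zero_eq_eval_zero, H337CB.eval_zero_P]

theorem Ps_coeff_top (n : ℕ) : (H337CB.Ps n).coeff n = 1 := by
  rw [← H337CB.reflect_P n, Polynomial.coeff_reflect, Polynomial.revAt_le le_rfl, Nat.sub_self,
    P_coeff_zero]

/-- `U` for `Ps` instead of `P` -/
noncomputable def UUs (a N : ℕ) : ℚ := H337CB.R (a + N) (-1/3) (H337CB.Ps a * H337CB.Ps N)

theorem UUs_eq (a N : ℕ) (h : a ≤ N) : UUs a N = (-1)^(a+N) * UU a N := by
  unfold UUs UU
  have hd : (H337CB.P a * H337CB.P N).natDegree ≤ a + N :=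
    Polynomial.natDegree_mul_le.trans (add_le_add (H337CB.natDegree_P_le _) (H337CB.natDegree_P_le _))
  have h1 := H337CB.R_refl (a + N) (-2/3) _ _ hd
  rw [Polynomial.reflect_mul _ _ (H337CB.natDegree_P_le _) (H337CB.natDegree_P_le _),
    H337CB.reflect_P, H337CB.reflect_P] at h1
  have h2 := H337CB.R_swap (a + N) N (by omega) (-2/3) (H337CB.P a)
  have e1 : ((a + N : ℕ) : ℚ) - 1 - (-2/3) - ((a + N : ℕ) : ℚ) = -1/3 := by ring
  rw [e1] at h1
  rw [h1]
  congr 1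
  rw [mul_comm (H337CB.P a) (H337CB.P N), ← h2, mul_comm (H337CB.Ps N)]
  norm_num

/-- the moment identity -/
theorem R_moment (a N : ℕ) (ha : 1 ≤ a) (h : a + 1 ≤ N) (haN : Even (a + N)) :
    H337CB.R (N + a + 1) (-1/3) ((H337CB.P a + H337CB.Ps a) * H337CB.Ps N) = - UU a N := by
  obtain ⟨b, rfl⟩ : ∃ b, a = b + 1 := ⟨a - 1, by omega⟩
  have key : ∀ (p0 p1 p2 : Polynomial ℚ), (3 * (b:Polynomial ℚ) + 5) * p2 =
      (6 * (b:Polynomial ℚ) + 9) * (1 + Polynomial.X) * p1 - (3 * (b:Polynomial ℚ) + 4) *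
        (Polynomial.X - 1)^2 * p0 →
      (6 * (b:ℚ) + 9) * (H337CB.R (b + 1 + N) (-1/3) (p1 * H337CB.Ps N) +
        2 * H337CB.R (N + (b+1) + 1) (-1/3) (p1 * H337CB.Ps N)) =
      (3 * (b:ℚ) + 5) * H337CB.R (b + 2 + N) (-1/3) (p2 * H337CB.Ps N) +
      (3 * (b:ℚ) + 4) * H337CB.R (b + N) (-1/3) (p0 * H337CB.Ps N) := by
    intro p0 p1 p2 hp
    have e0 : ((6 * b + 9 : ℕ) : Polynomial ℚ) * (2 * (p1 * H337CB.Ps N) -
        (1 - Polynomial.X) * (p1 * H337CB.Ps N)) =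
        ((3 * b + 5 : ℕ) : Polynomial ℚ) * (p2 * H337CB.Ps N) +
        ((3 * b + 4 : ℕ) : Polynomial ℚ) * ((1 - Polynomial.X)^2 * (p0 * H337CB.Ps N)) := by
      push_cast
      linear_combination (-H337CB.Ps N) * hp
    have e1 := congrArg (H337CB.R (b + N + 2) (-1/3)) e0
    rw [H337CB.R_nat, H337CB.R_sub, H337CB.R_add, H337CB.R_nat, H337CB.R_nat, H337CB.R_shift2,
      H337CB.R_shift1, show (2 : Polynomial ℚ) = ((2:ℕ) : Polynomial ℚ) by norm_num,
      H337CB.R_nat] at e1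
    rw [show b + 1 + N = b + N + 1 by ring, show N + (b+1) + 1 = b + N + 2 by ring,
      show b + 2 + N = b + N + 2 by ring]
    push_cast at e1
    linear_combination e1
  have k1 := key _ _ _ (H337CB.P_rec b)
  have k2 := key _ _ _ (H337CB.Ps_rec b)
  have s0 := UUs_eq b N (by omega)
  have s1 := UUs_eq (b+1) N (by omega)
  have s2 := UUs_eq (b+2) N (by omega)
  have g1 : (-1 : ℚ)^(b + 1 + N) = 1 := haN.neg_one_pow
  have g0 : (-1 : ℚ)^(b + N) = -1 := by
    apply Odd.neg_one_pow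
    obtain ⟨r, hr⟩ := haN
    exact ⟨r - 1, by omega⟩
  have g2 : (-1 : ℚ)^(b + 2 + N) = -1 := by
    apply Odd.neg_one_pow
    obtain ⟨r, hr⟩ := haN
    exact ⟨r, by omega⟩
  rw [g0] at s0
  rw [g1] at s1
  rw [g2] at s2
  unfold UUs at s0 s1 s2
  rw [add_mul, H337CB.R_add]
  unfold UU at s0 s1 s2 ⊢
  have h3 : (6 * (b:ℚ) + 9) ≠ 0 := by positivity
  apply mul_left_cancel₀ h3
  linear_combination (1/2) * k1 + (1/2) * k2 - (1/2) * (6 * (b:ℚ) + 9) * s1 +
    (1/2) * (3 * (b:ℚ) + 5) * s2 + (1/2) * (3 * (b:ℚ) + 4) * s0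

/-- the big residue -/
theorem R_big (a N m : ℕ) (ha : 1 ≤ a) (h : a + 2 ≤ N) (haN : Even (a + N)) (hm : m = N + a + 1) :
    H337CB.R m (2/3) (H337CB.P a * H337CB.Ps N) + H337CB.R m (-2/3) (H337CB.P a * H337CB.Ps N)
    - H337CB.R m (1/3) (H337CB.P a * H337CB.Ps N) - H337CB.R m (-1/3) (H337CB.P a * H337CB.Ps N)
    - (H337CB.R m 1 (H337CB.Ps a * H337CB.Ps N) + H337CB.R m (-1/3) (H337CB.Ps a * H337CB.Ps N)
    - H337CB.R m (2/3) (H337CB.Ps a * H337CB.Ps N) - H337CB.R m 0 (H337CB.Ps a * H337CB.Ps N)) =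
    -2 * (1 - UU a N) := by
  have hsw : ∀ (c : ℚ) (G : Polynomial ℚ), H337CB.R m (c + 1/3) (G * H337CB.Ps N) =
      H337CB.R m c (G * H337CB.P N) := by
    intro c G
    rw [mul_comm G, mul_comm G]
    exact H337CB.R_swap m N (by omega) c G
  have dPP : (H337CB.P a * H337CB.P N).natDegree ≤ a + N :=
    Polynomial.natDegree_mul_le.trans (add_le_add (H337CB.natDegree_P_le _) (H337CB.natDegree_P_le _))
  have dSP : (H337CB.Ps a * H337CB.P N).natDegree ≤ a + N :=
    Polynomial.natDegree_mul_le.trans (add_le_add (H337CB.natDegree_Ps_le _) (H337CB.natDegree_P_le _))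
  have dSS : (H337CB.Ps a * H337CB.Ps N).natDegree ≤ a + N :=
    Polynomial.natDegree_mul_le.trans (add_le_add (H337CB.natDegree_Ps_le _) (H337CB.natDegree_Ps_le _))
  have odd_m : (-1 : ℚ)^m = -1 := by
    apply Odd.neg_one_pow
    obtain ⟨r, hr⟩ := haN
    exact ⟨r, by omega⟩
  have t1 : H337CB.R m (2/3) (H337CB.P a * H337CB.Ps N) = H337CB.R m (1/3) (H337CB.P a * H337CB.P N) := by
    rw [← hsw]; norm_num
  have t2 : H337CB.R m (-2/3) (H337CB.P a * H337CB.Ps N) = -1 := by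
    rw [show (-2/3 : ℚ) = -1 + 1/3 by norm_num, hsw, R_neg_one m _ (by omega), odd_m,
      Polynomial.mul_coeff_zero, P_coeff_zero, P_coeff_zero]; norm_num
  have t3 : H337CB.R m (1/3) (H337CB.P a * H337CB.Ps N) = 0 := by
    rw [show (1/3 : ℚ) = ((0:ℕ):ℚ) + 1/3 by norm_num, hsw, R_deg m 0 _ _ dPP (by omega)]
  have t5 : H337CB.R m 1 (H337CB.Ps a * H337CB.Ps N) = 1 := by
    rw [show (1 : ℚ) = ((1:ℕ):ℚ) by norm_num, R_top m 1 _ _ dSS (by omega),
      Polynomial.coeff_mul_add_eq_of_natDegree_le (H337CB.natDegree_Ps_le _) (H337CB.natDegree_Ps_le _),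
      Ps_coeff_top, Ps_coeff_top]
    norm_num
  have t8 : H337CB.R m 0 (H337CB.Ps a * H337CB.Ps N) = 0 := by
    have := R_deg m 0 _ _ dSS (by omega)
    simpa using this
  have t7 : H337CB.R m (2/3) (H337CB.Ps a * H337CB.Ps N) = H337CB.R m (1/3) (H337CB.Ps a * H337CB.P N) := by
    rw [← hsw]; norm_num
  have hmq : (m : ℚ) = (a:ℚ) + N + 1 := by rw [hm]; push_cast; ring
  have r1 := H337CB.R_refl m (1/3) _ _ dPP
  rw [Polynomial.reflect_mul _ _ (H337CB.natDegree_P_le _) (H337CB.natDegree_P_le _),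
    H337CB.reflect_P, H337CB.reflect_P, odd_m] at r1
  have r2 := H337CB.R_refl m (1/3) _ _ dSP
  rw [Polynomial.reflect_mul _ _ (H337CB.natDegree_Ps_le _) (H337CB.natDegree_P_le _),
    H337CB.reflect_P, H337CB.reflect_Ps, odd_m] at r2
  have e1 : (m:ℚ) - 1 - 1/3 - ((a + N : ℕ) : ℚ) = -1/3 := by rw [hmq]; push_cast; ring
  rw [e1] at r1 r2
  have hmom := R_moment a N ha (by omega) haN
  rw [← hm, add_mul, H337CB.R_add] at hmom
  rw [t1, t2, t3, t5, t7, t8]
  linear_combination r1 + r2 + (-2) * hmom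

/-! ## Laurent polynomials and power series -/

noncomputable def kp : PowerSeries ℚ →+* PowerSeries ℂ := PowerSeries.map (algebraMap ℚ ℂ)

theorem pw_zero : H337CB.pw 0 = 1 := by
  have := H337CB.pw_nat 0
  simpa using this

noncomputable def wU : (PowerSeries ℂ)ˣ where
  val := kp (H337CB.pw (1/3))
  inv := kp (H337CB.pw (-1/3))
  val_inv := by
    rw [← map_mul, ← H337CB.pw_add, show (1/3 + -1/3 : ℚ) = 0 by norm_num, pw_zero, map_one]
  inv_val := by
    rw [← map_mul, ← H337CB.pw_add, show (-1/3 + 1/3 : ℚ) = 0 by norm_num, pw_zero, map_one]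

theorem wU_pow (n : ℕ) : ((wU ^ n : (PowerSeries ℂ)ˣ) : PowerSeries ℂ) = kp (H337CB.pw ((n:ℚ)/3)) := by
  induction n with
  | zero => simp [pw_zero]
  | succ n ih =>
    rw [pow_succ, Units.val_mul, ih, show ((n+1 : ℕ) : ℚ)/3 = (n:ℚ)/3 + 1/3 by push_cast; ring,
      H337CB.pw_add, map_mul]
    rfl

theorem wU_zpow (n : ℤ) : ((wU ^ n : (PowerSeries ℂ)ˣ) : PowerSeries ℂ) = kp (H337CB.pw ((n:ℚ)/3)) := by
  obtain ⟨k, rfl | rfl⟩ := n.eq_nat_or_neg
  · rw [zpow_natCast, wU_pow]; simp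
  · rw [zpow_neg, zpow_natCast]
    rw [Units.inv_eq_of_mul_eq_one_right (a := kp (H337CB.pw (((-(k:ℤ) : ℤ) : ℚ)/3)))]
    rw [wU_pow, ← map_mul, ← H337CB.pw_add]
    rw [show (k:ℚ)/3 + ((-(k:ℤ) : ℤ) : ℚ)/3 = 0 by push_cast; ring, pw_zero, map_one]

/-- expansion at `w = 1`, `T = w³ = 1 + y` -/
noncomputable def rho : LP →+* PowerSeries ℂ :=
  LaurentPolynomial.eval₂ (PowerSeries.C : ℂ →+* PowerSeries ℂ) wU

theorem rho_T (n : ℤ) : rho (T n) = kp (H337CB.pw ((n:ℚ)/3)) := by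
  unfold rho
  rw [LaurentPolynomial.eval₂_T, wU_zpow]

theorem rho_C (c : ℂ) : rho (C c) = PowerSeries.C c := by
  unfold rho
  rw [LaurentPolynomial.eval₂_C]

/-- value at `w = 1` -/
noncomputable def e1 : LP →+* ℂ := (PowerSeries.constantCoeff (R := ℂ)).comp rho

theorem kp_const (f : PowerSeries ℚ) :
    PowerSeries.constantCoeff (kp f) = ((PowerSeries.constantCoeff f : ℚ) : ℂ) := by
  unfold kp
  rw [← PowerSeries.coeff_zero_eq_constantCoeff_apply, PowerSeries.coeff_map,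
    PowerSeries.coeff_zero_eq_constantCoeff_apply]
  rfl

theorem kp_coeff (n : ℕ) (f : PowerSeries ℚ) :
    PowerSeries.coeff n (kp f) = ((PowerSeries.coeff n f : ℚ) : ℂ) := by
  unfold kp
  rw [PowerSeries.coeff_map]
  rfl

theorem e1_T (n : ℤ) : e1 (T n) = 1 := by
  unfold e1
  rw [RingHom.comp_apply, rho_T, kp_const]
  unfold H337CB.pw
  rw [PowerSeries.binomialSeries_constantCoeff]
  simp

theorem e1_C (c : ℂ) : e1 (C c) = c := by
  unfold e1
  rw [RingHom.comp_apply, rho_C]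
  simp

theorem e1_toLaurent (p : Polynomial ℂ) : e1 (Polynomial.toLaurent p) = p.eval 1 := by
  induction p using Polynomial.induction_on' with
  | add p r hp hr => rw [map_add, map_add, hp, hr, Polynomial.eval_add]
  | monomial n c =>
    rw [← Polynomial.C_mul_X_pow_eq_monomial, map_mul, Polynomial.toLaurent_C,
      Polynomial.toLaurent_X_pow, map_mul, e1_T, e1_C]
    simp

theorem e1_invert (p : LP) : e1 (invert p) = e1 p := by
  induction p using LaurentPolynomial.induction_on' with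
  | add p r hp hr => rw [map_add, map_add, hp, hr, map_add]
  | C_mul_T n c => simp [e1_T, e1_C]

/-- the residue functional -/
noncomputable def RR (N j : ℕ) (h : LP) : ℂ :=
  PowerSeries.coeff (2*N-1) (rho h * kp (H337CB.pw ((j:ℚ) - 1/3) * H337CB.ev (H337CB.Ps N)))

variable (N j : ℕ)

theorem RR_add (f g : LP) : RR N j (f + g) = RR N j f + RR N j g := by
  unfold RR; rw [map_add, add_mul, map_add]

theorem RR_sub (f g : LP) : RR N j (f - g) = RR N j f - RR N j g := by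
  unfold RR; rw [map_sub, sub_mul, map_sub]

theorem RR_C (c : ℂ) (f : LP) : RR N j (C c * f) = c * RR N j f := by
  unfold RR; rw [map_mul rho, rho_C, mul_assoc, PowerSeries.coeff_C_mul]

theorem RR_smul (c : ℂ) (f : LP) : RR N j (c • f) = c * RR N j f := by
  rw [LaurentPolynomial.smul_eq_C_mul, RR_C]

theorem RR_zero : RR N j 0 = 0 := by unfold RR; simp

/-- `F(T)` with `T = w³` -/
noncomputable def polyL : Polynomial ℚ →+* LP :=
  Polynomial.eval₂RingHom ((C : ℂ →+* LP).comp (algebraMap ℚ ℂ)) (T 3)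

theorem polyL_X : polyL Polynomial.X = T 3 := by simp [polyL]

theorem kp_C (c : ℚ) : kp (PowerSeries.C c) = PowerSeries.C (c : ℂ) := by
  unfold kp; simp

theorem rho_polyL (F : Polynomial ℚ) : rho (polyL F) = kp (H337CB.ev F) := by
  have : rho.comp polyL = kp.comp (H337CB.ev : Polynomial ℚ →+* PowerSeries ℚ) := by
    apply Polynomial.ringHom_ext
    · intro c
      simp only [RingHom.comp_apply, polyL, Polynomial.coe_eval₂RingHom, Polynomial.eval₂_C]
      rw [rho_C]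
      have : (H337CB.ev : Polynomial ℚ →+* PowerSeries ℚ) (Polynomial.C c) = PowerSeries.C c := by
        show H337CB.ev (Polynomial.C c) = _
        unfold H337CB.ev
        rw [Polynomial.aeval_C]
        rfl
      rw [this, kp_C]
      simp
    · rw [RingHom.comp_apply, RingHom.comp_apply, polyL_X, rho_T]
      have : (H337CB.ev : Polynomial ℚ →+* PowerSeries ℚ) Polynomial.X = 1 + PowerSeries.X :=
        H337CB.ev_X
      rw [this]
      have h := H337CB.pw_nat 1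
      rw [show ((3:ℤ):ℚ)/3 = ((1:ℕ):ℚ) by norm_num, h, pow_one]
  exact congrArg (fun f : Polynomial ℚ →+* PowerSeries ℂ => f F) this

theorem rho_T3 : rho (T 3 - 1) = PowerSeries.X := by
  rw [← polyL_X, map_sub, rho_polyL, H337CB.ev_X, map_one, map_add, map_one]
  unfold kp
  rw [PowerSeries.map_X]
  ring

theorem RR_gen (e : ℤ) (k : ℕ) (F : Polynomial ℚ) (hk : 2 * k ≤ 2 * N - 1) :
    RR N j (T e * (T 3 - 1)^(2*k) * polyL F) =
      ((H337CB.R (2*N-1-2*k) ((e:ℚ)/3 + j - 1/3) (F * H337CB.Ps N) : ℚ) : ℂ) := by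
  unfold RR H337CB.R
  rw [map_mul rho, map_mul rho, map_pow rho, rho_T3, rho_T, rho_polyL]
  have : kp (H337CB.pw ((e:ℚ)/3)) * PowerSeries.X^(2*k) * kp (H337CB.ev F) *
      kp (H337CB.pw ((j:ℚ) - 1/3) * H337CB.ev (H337CB.Ps N)) =
      PowerSeries.X^(2*k) * kp (H337CB.pw ((e:ℚ)/3 + j - 1/3) * H337CB.ev (F * H337CB.Ps N)) := by
    rw [show (e:ℚ)/3 + j - 1/3 = (e:ℚ)/3 + (j - 1/3) by ring, H337CB.pw_add]
    simp only [map_mul]
    ring
  rw [this, PowerSeries.coeff_X_pow_mul', if_pos hk, kp_coeff]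

theorem RR_T (e : ℤ) : RR N j (T e) =
    ((H337CB.R (2*N-1) ((e:ℚ)/3 + j - 1/3) (H337CB.Ps N) : ℚ) : ℂ) := by
  have := RR_gen N j e 0 1 (by omega)
  simpa using this

end Pool.Agent.NH38.Step.Hom
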