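import Pool.Agent.NH38.Step.HomA

/-!
Step channels, task H (helper90), part B: the spaces `V_m`, the core identity.
-/

namespace Pool.Agent.NH38.Step.Hom

open Pool.Agent.H988R2.Perc (q q_spec q_cube q_ne_zero q_ne_one q_sq_ne_one mu)
open LaurentPolynomial (T C invert)

noncomputable def dl : LP := T 1 - T (-1)
noncomputable def oL : LP := T 1 + T (-1)
noncomputable def bs (i : ℕ) : LP := T (mu i : ℤ) - T (-(mu i : ℤ))
noncomputable def VV (m : ℕ) : Submodule ℂ LP := Submodule.span ℂ (bs '' Set.Iio m)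

theorem bs_mem {i m : ℕ} (h : i < m) : bs i ∈ VV m := Submodule.subset_span ⟨i, h, rfl⟩

theorem VV_mono {m n : ℕ} (h : m ≤ n) : VV m ≤ VV n :=
  Submodule.span_mono (Set.image_mono (Set.Iio_subset_Iio h))

theorem invert_VV {m : ℕ} {F : LP} (h : F ∈ VV m) : invert F = -F := by
  unfold VV at h
  induction h using Submodule.span_induction with
  | mem x hx =>
    obtain ⟨i, _, rfl⟩ := hx
    unfold bs
    rw [map_sub, LaurentPolynomial.invert_T, LaurentPolynomial.invert_T]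
    simp
  | zero => simp
  | add x y _ _ hx hy => rw [map_add, hx, hy]; ring
  | smul a x _ hx => rw [map_smul, hx]; simp

theorem mu_cases (i : ℕ) : (∃ r, i = 2 * r ∧ mu i = 3 * r + 1) ∨ (∃ r, i = 2*r+1 ∧ mu i = 3*r+2) := by
  unfold mu
  rcases Nat.even_or_odd' i with ⟨r, rfl | rfl⟩
  · exact Or.inl ⟨r, rfl, by omega⟩
  · exact Or.inr ⟨r, rfl, by omega⟩

theorem R_swapN (m N : ℕ) (hm : m < 2 * N + 1) (c : ℚ) :
    H337CB.R m (c + 1/3) (H337CB.Ps N) = H337CB.R m c (H337CB.P N) := by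
  have := H337CB.R_swap m N hm c 1
  simpa using this

theorem RR_bs (N j i : ℕ) (hN : N = 2*j+1) (hi : i < N - 1) : RR N j (bs i) = 0 := by
  unfold bs
  rw [RR_sub, RR_T, RR_T]
  rcases mu_cases i with ⟨r, h1, h2⟩ | ⟨r, h1, h2⟩
  · rw [h2]
    have a1 : H337CB.R (2*N-1) ((((3*r+1 : ℕ) : ℤ) : ℚ)/3 + j - 1/3) (H337CB.Ps N) = 0 := by
      rw [show (((3*r+1 : ℕ) : ℤ) : ℚ)/3 + j - 1/3 = ((r + j : ℕ) : ℚ) by push_cast; ring]
      exact R_deg _ _ N _ (H337CB.natDegree_Ps_le _) (by omega)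
    have a2 : H337CB.R (2*N-1) (((-((3*r+1 : ℕ) : ℤ) : ℤ) : ℚ)/3 + j - 1/3) (H337CB.Ps N) = 0 := by
      obtain ⟨s, hs⟩ : ∃ s, j = r + 1 + s := ⟨j - r - 1, by omega⟩
      rw [show ((-((3*r+1 : ℕ) : ℤ) : ℤ) : ℚ)/3 + j - 1/3 = ((s : ℕ) : ℚ) + 1/3 by
        rw [hs]; push_cast; ring, R_swapN _ _ (by omega)]
      exact R_deg _ _ N _ (H337CB.natDegree_P_le _) (by omega)
    rw [a1, a2]; simp
  · rw [h2]
    have a1 : H337CB.R (2*N-1) ((((3*r+2 : ℕ) : ℤ) : ℚ)/3 + j - 1/3) (H337CB.Ps N) = 0 := by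
      rw [show (((3*r+2 : ℕ) : ℤ) : ℚ)/3 + j - 1/3 = ((r + j : ℕ) : ℚ) + 1/3 by push_cast; ring,
        R_swapN _ _ (by omega)]
      exact R_deg _ _ N _ (H337CB.natDegree_P_le _) (by omega)
    have a2 : H337CB.R (2*N-1) (((-((3*r+2 : ℕ) : ℤ) : ℤ) : ℚ)/3 + j - 1/3) (H337CB.Ps N) = 0 := by
      obtain ⟨s, hs⟩ : ∃ s, j = r + 1 + s := ⟨j - r - 1, by omega⟩
      rw [show ((-((3*r+2 : ℕ) : ℤ) : ℤ) : ℚ)/3 + j - 1/3 = ((s : ℕ) : ℚ) by
        rw [hs]; push_cast; ring]
      exact R_deg _ _ N _ (H337CB.natDegree_Ps_le _) (by omega)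
    rw [a1, a2]; simp

theorem RR_VV (N j : ℕ) (hN : N = 2*j+1) {F : LP} (h : F ∈ VV (N-1)) : RR N j F = 0 := by
  unfold VV at h
  induction h using Submodule.span_induction with
  | mem x hx =>
    obtain ⟨i, hi, rfl⟩ := hx
    exact RR_bs N j i hN hi
  | zero => exact RR_zero N j
  | add x y _ _ hx hy => rw [RR_add, hx, hy]; ring
  | smul a x _ hx => rw [RR_smul, hx]; simp

theorem RR_bs_top (N j : ℕ) (hN : N = 2*j+1) : RR N j (bs (N-1)) = 2 := by
  unfold bs
  have hmu : mu (N-1) = 3*j+1 := by unfold mu; omega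
  rw [RR_sub, RR_T, RR_T, hmu]
  have a1 : H337CB.R (2*N-1) ((((3*j+1 : ℕ) : ℤ) : ℚ)/3 + j - 1/3) (H337CB.Ps N) = 1 := by
    rw [show (((3*j+1 : ℕ) : ℤ) : ℚ)/3 + j - 1/3 = ((2*j : ℕ) : ℚ) by push_cast; ring]
    rw [R_top (2*N-1) (2*j) N _ (H337CB.natDegree_Ps_le _) (by omega), Ps_coeff_top]
  have a2 : H337CB.R (2*N-1) (((-((3*j+1 : ℕ) : ℤ) : ℤ) : ℚ)/3 + j - 1/3) (H337CB.Ps N) = -1 := by
    rw [show ((-((3*j+1 : ℕ) : ℤ) : ℤ) : ℚ)/3 + j - 1/3 = -1 + 1/3 by push_cast; ring,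
      R_swapN _ _ (by omega), R_neg_one _ _ ((H337CB.natDegree_P_le _).trans (by omega)),
      P_coeff_zero]
    rw [Odd.neg_one_pow ⟨N - 1, by omega⟩]
    norm_num
  rw [a1, a2]; norm_num

/-! ### orders -/

theorem T_mul_neg (n : ℤ) : (T n : LP) * T (-n) = 1 := by
  rw [← LaurentPolynomial.T_add]; simp

theorem fac_dl (n : ℕ) : dl * (oL - 2)^n = T (-((n:ℤ)+1)) * (T 1 + 1) * (T 1 - 1)^(2*n+1) := by
  have h0 : (T 1 : LP) * T (-1) = 1 := T_mul_neg 1
  have h1 : dl = T (-1) * (T 1 + 1) * (T 1 - 1) := by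
    unfold dl
    linear_combination (-(T 1 : LP)) * h0
  have h2 : oL - 2 = T (-1) * (T 1 - 1)^2 := by
    unfold oL
    linear_combination (2 - (T 1 : LP)) * h0
  have h3 : (T (-((n:ℤ)+1)) : LP) = T (-1) * (T (-1))^n := by
    rw [LaurentPolynomial.T_pow, ← LaurentPolynomial.T_add]
    congr 1; ring
  rw [h1, h2, h3, mul_pow, ← pow_mul]
  ring

/-- `ρ(w-1) = y u` -/
theorem rho_T1 : ∃ u : PowerSeries ℂ, rho (T 1 - 1) = PowerSeries.X * u ∧
    PowerSeries.constantCoeff u = 1/3 := by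
  have h : rho (T 1 - 1) = kp (H337CB.pw (1/3)) - 1 := by
    rw [map_sub, map_one, rho_T]; norm_num
  have h0 : PowerSeries.constantCoeff (rho (T 1 - 1)) = 0 := by
    rw [h, map_sub, kp_const, map_one]
    unfold H337CB.pw
    rw [PowerSeries.binomialSeries_constantCoeff]
    simp
  obtain ⟨u, hu⟩ := PowerSeries.X_dvd_iff.mpr h0
  refine ⟨u, hu, ?_⟩
  have h1 : PowerSeries.coeff 1 (rho (T 1 - 1)) = PowerSeries.constantCoeff u := by
    rw [hu, show (1:ℕ) = 0 + 1 from rfl, mul_comm, PowerSeries.coeff_succ_mul_X]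
    simp
  rw [← h1, h, map_sub, kp_coeff, H337CB.pw_coeff]
  rw [Ring.choose_one_right, PowerSeries.coeff_one]
  norm_num

theorem Ps_eval_one_pos (n : ℕ) : 0 < (H337CB.Ps n).eval 1 := by
  have key : ∀ n, 0 < (H337CB.Ps n).eval 1 ∧ 0 < (H337CB.Ps (n+1)).eval 1 := by
    intro n
    induction n with
    | zero => rw [H337CB.Ps_zero, zero_add, H337CB.Ps_one]; norm_num
    | succ n ih =>
      refine ⟨ih.2, ?_⟩
      have h2 := congrArg (Polynomial.eval 1) (H337CB.Ps_rec n)
      simp only [Polynomial.eval_mul, Polynomial.eval_add, Polynomial.eval_sub, Polynomial.eval_pow,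
        Polynomial.eval_X, Polynomial.eval_one, Polynomial.eval_natCast,
        Polynomial.eval_ofNat] at h2
      have h3 : 0 < (3 * (n:ℚ) + 5) := by positivity
      have h4 : 0 < (6 * (n:ℚ) + 9) * (1 + 1) * Polynomial.eval 1 (H337CB.Ps (n+1)) := by
        have := ih.2
        positivity
      have h5 : 0 < (3 * (n:ℚ) + 5) * Polynomial.eval 1 (H337CB.Ps (n+2)) := by
        rw [h2]; ring_nf; ring_nf at h4; exact h4
      exact (mul_pos_iff_of_pos_left h3).mp h5
  exact (key n).1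

theorem const_ev (F : Polynomial ℚ) : PowerSeries.constantCoeff (H337CB.ev F) = F.eval 1 := by
  have : (PowerSeries.constantCoeff (R := ℚ)).comp (H337CB.ev : Polynomial ℚ →+* PowerSeries ℚ) =
      Polynomial.evalRingHom 1 := by
    apply Polynomial.ringHom_ext
    · intro c
      have : (H337CB.ev : Polynomial ℚ →+* PowerSeries ℚ) (Polynomial.C c) = PowerSeries.C c := by
        show H337CB.ev (Polynomial.C c) = _
        unfold H337CB.ev
        rw [Polynomial.aeval_C]
        rfl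
      rw [RingHom.comp_apply, this]
      simp
    · have : (H337CB.ev : Polynomial ℚ →+* PowerSeries ℚ) Polynomial.X = 1 + PowerSeries.X :=
        H337CB.ev_X
      rw [RingHom.comp_apply, this]
      simp
  exact congrArg (fun f : Polynomial ℚ →+* ℚ => f F) this

theorem const_pw (c : ℚ) : PowerSeries.constantCoeff (H337CB.pw c) = 1 := by
  unfold H337CB.pw
  rw [PowerSeries.binomialSeries_constantCoeff]

/-- the constant `c0` -/
theorem RR_lead (N j : ℕ) (hN : 1 ≤ N) : ∃ c0 : ℂ, c0 ≠ 0 ∧ ∀ g : LP,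
    RR N j (g * (dl * (oL - 2)^(N-1))) = c0 * e1 g := by
  obtain ⟨u, hu, hu1⟩ := rho_T1
  refine ⟨2 * (1/3)^(2*N-1) * (((H337CB.Ps N).eval 1 : ℚ) : ℂ), ?_, ?_⟩
  · refine mul_ne_zero (mul_ne_zero two_ne_zero (pow_ne_zero _ (by norm_num))) ?_
    exact_mod_cast (Ps_eval_one_pos N).ne'
  · intro g
    unfold RR
    have h1 : rho (g * (dl * (oL - 2)^(N-1))) * kp (H337CB.pw ((j:ℚ) - 1/3) * H337CB.ev (H337CB.Ps N)) =
        PowerSeries.X^(2*N-1) * (rho g * rho (T (-(((N-1 : ℕ):ℤ)+1)) * (T 1 + 1)) * u^(2*N-1) *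
          kp (H337CB.pw ((j:ℚ) - 1/3) * H337CB.ev (H337CB.Ps N))) := by
      rw [fac_dl, map_mul, map_mul rho (T (-(((N-1 : ℕ):ℤ)+1)) * (T 1 + 1)), map_pow, hu,
        show 2*(N-1)+1 = 2*N-1 by omega, mul_pow]
      ring
    rw [h1, PowerSeries.coeff_X_pow_mul', if_pos le_rfl, Nat.sub_self,
      PowerSeries.coeff_zero_eq_constantCoeff_apply]
    rw [map_mul PowerSeries.constantCoeff, map_mul PowerSeries.constantCoeff,
      map_mul PowerSeries.constantCoeff, map_pow, hu1, kp_const,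
      map_mul PowerSeries.constantCoeff, const_pw, const_ev]
    have h2 : PowerSeries.constantCoeff (rho (T (-(((N-1 : ℕ):ℤ)+1)) * (T 1 + 1))) = 2 := by
      have : e1 (T (-(((N-1 : ℕ):ℤ)+1)) * (T 1 + 1)) = 2 := by
        rw [map_mul, map_add, e1_T, e1_T, map_one]; norm_num
      exact this
    rw [h2]
    have h3 : PowerSeries.constantCoeff (rho g) = e1 g := rfl
    rw [h3]
    push_cast
    ring

theorem RR_high (N j : ℕ) (hN : 1 ≤ N) {h : LP} (hd : PowerSeries.X^(2*N) ∣ rho h) :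
    RR N j h = 0 := by
  obtain ⟨g, hg⟩ := hd
  unfold RR
  rw [hg, mul_assoc, PowerSeries.coeff_X_pow_mul', if_neg (by omega)]

/-- `A = ω_{qw}`, `B = ω_{q²w}` -/
noncomputable def oA : LP := C q * T 1 + C (q^2) * T (-1)
noncomputable def oB : LP := C (q^2) * T 1 + C q * T (-1)

theorem invert_oA : invert oA = oB := by
  unfold oA oB
  simp only [map_add, map_mul, LaurentPolynomial.invert_C, LaurentPolynomial.invert_T, neg_neg]
  ring

theorem invert_oB : invert oB = oA := by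
  unfold oA oB
  simp only [map_add, map_mul, LaurentPolynomial.invert_C, LaurentPolynomial.invert_T, neg_neg]
  ring

theorem C_q_sum : (C (q^2) : LP) + C q + 1 = 0 := by
  have := congrArg (C : ℂ → LP) q_spec
  simpa [map_add] using this

theorem oA_oB : oA + oB = -oL := by
  unfold oA oB oL
  linear_combination (T 1 + T (-1)) * C_q_sum

theorem oA_sub_oB : oA - oB = C (q - q^2) * dl := by
  unfold oA oB dl
  rw [map_sub]
  ring

theorem invert_dl : invert dl = -dl := by
  unfold dl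
  rw [map_sub, LaurentPolynomial.invert_T, LaurentPolynomial.invert_T]
  simp

theorem invert_oL : invert oL = oL := by
  unfold oL
  rw [map_add, LaurentPolynomial.invert_T, LaurentPolynomial.invert_T]
  simp only [neg_neg]
  ring

theorem q_sub_ne : q - q^2 ≠ 0 := by
  intro h
  have : q * (1 - q) = 0 := by linear_combination h
  rcases mul_eq_zero.1 this with h | h
  · exact q_ne_zero h
  · exact q_ne_one (by linear_combination -h)

/-- first half of the core: reduction to `RR ((1+om) K)` -/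
theorem core1 (N j : ℕ) (hN : N = 2*j+1) (g K G0 G1 : LP) (hG0 : G0 ∈ VV (N-1)) (hG1 : G1 ∈ VV (N-1))
    (hK : invert K = -K)
    (L1 : g * (dl * (oL - 2)^(N-1)) = (2 - oB) * K - oA * G0 - G1) :
    RR N j (g * (dl * (oL - 2)^(N-1))) = RR N j ((1 + oL) * K) := by
  obtain ⟨c0, _, hc0⟩ := RR_lead N j (by omega)
  set f := g * (dl * (oL - 2)^(N-1)) with hf
  have hif : invert f = - (invert g * (dl * (oL - 2)^(N-1))) := by
    rw [hf, map_mul, map_mul, map_pow, map_sub, invert_dl, invert_oL]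
    rw [show invert (2 : LP) = 2 from map_ofNat invert 2]
    ring
  have hsum : f + invert f = (oA - oB) * (K - G0) := by
    have h1 : invert f = (2 - oA) * (-K) - oB * (-G0) - (-G1) := by
      rw [L1, map_sub, map_sub, map_mul, map_mul, map_sub, invert_oA, invert_oB, hK,
        invert_VV hG0, invert_VV hG1, show invert (2 : LP) = 2 from map_ofNat invert 2]
    rw [h1, L1]; ring
  have hRsum : RR N j (f + invert f) = 0 := by
    rw [RR_add, hf, hc0, ← hf, hif]
    have : RR N j (-(invert g * (dl * (oL - 2)^(N-1)))) = - (c0 * e1 (invert g)) := by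
      rw [← hc0]
      have := RR_sub N j 0 (invert g * (dl * (oL - 2)^(N-1)))
      rw [RR_zero, zero_sub, zero_sub] at this
      exact this
    rw [this, e1_invert]; ring
  -- order of `K - G0`
  obtain ⟨u, hu, hu1⟩ := rho_T1
  have hord : PowerSeries.X^(2*N-2) ∣ rho (K - G0) := by
    have h1 : PowerSeries.X^(2*N-1) ∣ rho (f + invert f) := by
      have h2 : f + invert f = (g - invert g) * (dl * (oL - 2)^(N-1)) := by
        rw [hif, hf]; ring
      rw [h2, fac_dl, map_mul, map_mul, map_pow, hu, mul_pow,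
        show 2*(N-1)+1 = 2*N-1 by omega]
      exact Dvd.intro (rho (g - invert g) * rho (T (-(((N-1 : ℕ):ℤ)+1)) * (T 1 + 1)) * u^(2*N-1)) (by ring)
    rw [hsum, oA_sub_oB] at h1
    have h3 : dl = T (-1) * (T 1 + 1) * (T 1 - 1) := by
      have := fac_dl 0
      simpa using this
    have h4 : rho (C (q - q^2) * dl * (K - G0)) =
        PowerSeries.X * ((PowerSeries.C (q - q^2) * rho (T (-1) * (T 1 + 1)) * u) * rho (K - G0)) := by
      rw [h3, map_mul, map_mul, map_mul rho (T (-1) * (T 1 + 1)), hu, rho_C]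
      ring
    rw [h4, show 2*N-1 = (2*N-2) + 1 by omega, pow_succ'] at h1
    have h5 := (mul_dvd_mul_iff_left PowerSeries.X_ne_zero).mp h1
    have h6 : IsUnit (PowerSeries.C (q - q^2) * rho (T (-1) * (T 1 + 1)) * u) := by
      rw [PowerSeries.isUnit_iff_constantCoeff]
      rw [map_mul, map_mul, hu1]
      have h7 : PowerSeries.constantCoeff (rho (T (-1) * (T 1 + 1))) = 2 := by
        have : e1 (T (-1) * (T 1 + 1)) = 2 := by
          rw [map_mul, map_add, e1_T, e1_T, map_one]; norm_num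
        exact this
      rw [h7, isUnit_iff_ne_zero]
      simp only [PowerSeries.constantCoeff_C]
      exact mul_ne_zero (mul_ne_zero q_sub_ne two_ne_zero) (by norm_num)
    exact (h6.dvd_mul_left).mp h5
  have hhigh : RR N j ((oL - 2) * (K - G0)) = 0 := by
    apply RR_high N j (by omega)
    have h0 : (T 1 : LP) * T (-1) = 1 := T_mul_neg 1
    have h2 : oL - 2 = T (-1) * (T 1 - 1)^2 := by
      unfold oL
      linear_combination (2 - (T 1 : LP)) * h0
    obtain ⟨r, hr⟩ := hord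
    rw [map_mul, hr, h2, map_mul, map_pow, hu, show 2 * N = (2*N-2) + 2 by omega, pow_add]
    exact Dvd.intro (rho (T (-1)) * u^2 * r) (by
      rw [show 2 * N - 2 + 2 - 2 = 2 * N - 2 by omega]; ring)
  have hA : RR N j ((oA + 1) * (K - G0)) = 0 := by
    have h1 : (oA + 1) * (K - G0) = C (-1/2) * ((oL - 2) * (K - G0)) + C (1/2) * (f + invert f) := by
      have h2 : (C (-1/2) : LP) = - C (1/2) := by rw [← map_neg]; congr 1; norm_num
      have h3 : (C (1/2) : LP) * 2 = 1 := by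
        rw [show (2:LP) = C 2 from (map_ofNat C 2).symm, ← map_mul]; norm_num
      rw [hsum, h2]
      have h4 := oA_oB
      linear_combination (-(oA + 1) * (K - G0)) * h3 + (C (1/2) * (K - G0)) * h4
    rw [h1, RR_add, RR_C, RR_C, hhigh, hRsum]; ring
  have hAG : RR N j (oA * G0) = RR N j (oA * K) + RR N j K := by
    have h1 : oA * G0 = oA * K + K - (oA + 1) * (K - G0) - G0 := by ring
    rw [h1, RR_sub, RR_sub, RR_add, hA, RR_VV N j hN hG0]; ring
  have hfin : (1 + oL) * K = (2 - oB) * K - oA * K - K := by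
    linear_combination K * oA_oB
  rw [hfin, RR_sub, RR_sub, L1, RR_sub, RR_sub, hAG, RR_VV N j hN hG1]
  ring

end Pool.Agent.NH38.Step.Hom
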