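import Pool.Agent.NH38.Step.HomB

/-!
Step channels, task H (helper90), part C: the element `Δ`, uniqueness, the core identity.
-/

namespace Pool.Agent.NH38.Step.Hom

open Pool.Agent.H988R2.Perc (q q_spec q_cube q_ne_zero q_ne_one q_sq_ne_one mu)
open LaurentPolynomial (T C invert)

/-- `Δ_(a+1) = - w T^(-n) (P_a(T) - w P*_a(T))`, `a + 1 = 2n` -/
noncomputable def Dlt (a n : ℕ) : LP :=
  T (1 - 3 * n) * (T 1 * polyL (H337CB.Ps a) - polyL (H337CB.P a))

theorem polyL_sum (F : Polynomial ℚ) (d : ℕ) (hF : F.natDegree ≤ d) :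
    polyL F = ∑ i ∈ Finset.range (d+1), C ((F.coeff i : ℚ) : ℂ) * T (3 * i) := by
  have h := F.as_sum_range' (d+1) (by omega)
  conv_lhs => rw [h]
  rw [map_sum]
  refine Finset.sum_congr rfl fun i _ => ?_
  rw [← Polynomial.C_mul_X_pow_eq_monomial, map_mul, map_pow, polyL_X, LaurentPolynomial.T_pow]
  have : polyL (Polynomial.C (F.coeff i)) = C ((F.coeff i : ℚ) : ℂ) := by
    simp [polyL]
  rw [this, mul_comm (i:ℤ) 3]

theorem Dlt_eq (a n : ℕ) (h : a + 1 = 2 * n) : Dlt a n = ∑ i ∈ Finset.range (a+1),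
    C (((H337CB.P a).coeff i : ℚ) : ℂ) * (T (3 * n - 1 - 3 * i) - T (-(3 * n - 1 - 3 * i))) := by
  unfold Dlt
  rw [mul_sub, polyL_sum _ a (H337CB.natDegree_P_le a), polyL_sum _ a (H337CB.natDegree_Ps_le a),
    ← Finset.sum_range_reflect (fun i => C (((H337CB.Ps a).coeff i : ℚ) : ℂ) * T (3 * i)),
    Finset.mul_sum, Finset.mul_sum, Finset.mul_sum, ← Finset.sum_sub_distrib]
  refine Finset.sum_congr rfl fun i hi => ?_
  rw [Finset.mem_range] at hi
  have h1 : (H337CB.Ps a).coeff (a + 1 - 1 - i) = (H337CB.P a).coeff i := by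
    rw [← H337CB.reflect_P a, Polynomial.coeff_reflect, Polynomial.revAt_le (by omega)]
    congr 1; omega
  rw [h1]
  have h2 : (T (3 * n - 1 - 3 * i) : LP) = T (1 - 3 * n) * (T 1 * T (3 * ((a + 1 - 1 - i : ℕ) : ℤ))) := by
    rw [← LaurentPolynomial.T_add, ← LaurentPolynomial.T_add]
    congr 1
    have : ((a + 1 - 1 - i : ℕ) : ℤ) = (a:ℤ) - i := by
      have : a + 1 - 1 - i = a - i := by omega
      rw [this, Nat.cast_sub (by omega)]
    rw [this]
    have h' : (a:ℤ) + 1 = 2 * n := by exact_mod_cast h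
    linarith
  have h3 : (T (-(3 * n - 1 - 3 * i)) : LP) = T (1 - 3 * n) * T (3 * i) := by
    rw [← LaurentPolynomial.T_add]
    congr 1; ring
  rw [h2, h3]
  ring

theorem Dlt_mem (a n : ℕ) (h : a + 1 = 2 * n) : Dlt a n - bs a ∈ VV a := by
  rw [Dlt_eq a n h, Finset.sum_range_succ']
  have h0 : C (((H337CB.P a).coeff 0 : ℚ) : ℂ) * (T (3 * n - 1 - 3 * ((0:ℕ):ℤ)) -
      T (-(3 * n - 1 - 3 * ((0:ℕ):ℤ)))) = bs a := by
    rw [P_coeff_zero]
    have hmu : (mu a : ℤ) = 3 * n - 1 := by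
      have : mu a + 1 = 3 * n := by unfold mu; omega
      have : (mu a : ℤ) + 1 = 3 * n := by exact_mod_cast this
      linarith
    unfold bs
    rw [hmu]
    simp
  rw [h0, add_sub_cancel_right]
  refine Submodule.sum_mem _ fun i hi => ?_
  rw [Finset.mem_range] at hi
  rw [← LaurentPolynomial.smul_eq_C_mul]
  apply Submodule.smul_mem
  rcases le_or_gt n (i+1) with h1 | h1
  · obtain ⟨r, hr⟩ : ∃ r, i + 1 = n + r := ⟨i + 1 - n, by omega⟩
    have h2 : (T (3 * n - 1 - 3 * ((i+1 : ℕ):ℤ)) - T (-(3 * n - 1 - 3 * ((i+1 : ℕ):ℤ))) : LP) =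
        - bs (2 * r) := by
      unfold bs
      have : mu (2*r) = 3 * r + 1 := by unfold mu; omega
      rw [this, hr]
      push_cast
      rw [show (3 * (n:ℤ) - 1 - 3 * (n + r)) = -(3 * r + 1) by ring, neg_neg]
      ring
    rw [h2]
    exact Submodule.neg_mem _ (bs_mem (by omega))
  · obtain ⟨r, hr⟩ : ∃ r, n = i + 1 + 1 + r := ⟨n - (i + 1) - 1, by omega⟩
    have h2 : (T (3 * n - 1 - 3 * ((i+1 : ℕ):ℤ)) - T (-(3 * n - 1 - 3 * ((i+1 : ℕ):ℤ))) : LP) =
        bs (2 * r + 1) := by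
      unfold bs
      have : mu (2*r+1) = 3 * r + 2 := by unfold mu; omega
      rw [this, hr]
      push_cast
      congr 2 <;> ring
    rw [h2]
    exact bs_mem (by omega)

/-! ### uniqueness -/

theorem rho_order {f : Polynomial ℂ} {n : ℕ}
    (h : PowerSeries.X^n ∣ rho (Polynomial.toLaurent f)) : (Polynomial.X - 1)^n ∣ f := by
  by_cases hf : f = 0
  · rw [hf]; exact dvd_zero _
  obtain ⟨g, hg, hg1⟩ := Polynomial.exists_eq_pow_rootMultiplicity_mul_and_not_dvd f hf 1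
  obtain ⟨u, hu, hu1⟩ := rho_T1
  set r := Polynomial.rootMultiplicity 1 f with hr
  have hX : (Polynomial.X - Polynomial.C 1 : Polynomial ℂ) = Polynomial.X - 1 := by rw [Polynomial.C_1]
  rw [hX] at hg hg1
  have h1 : rho (Polynomial.toLaurent f) = PowerSeries.X^r * (u^r * rho (Polynomial.toLaurent g)) := by
    rw [hg, map_mul, map_mul, map_pow, map_pow, map_sub, Polynomial.toLaurent_X, map_one, hu, mul_pow,
      mul_assoc]
  have hunit : IsUnit (u^r * rho (Polynomial.toLaurent g)) := by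
    rw [PowerSeries.isUnit_iff_constantCoeff, map_mul, map_pow, hu1, isUnit_iff_ne_zero]
    refine mul_ne_zero (pow_ne_zero _ (by norm_num)) ?_
    have h2 : PowerSeries.constantCoeff (rho (Polynomial.toLaurent g)) = g.eval 1 := e1_toLaurent g
    rw [h2]
    intro h3
    apply hg1
    rw [← hX, Polynomial.dvd_iff_isRoot]
    exact h3
  rw [h1] at h
  have h4 : PowerSeries.X^n ∣ (PowerSeries.X^r : PowerSeries ℂ) := (hunit.dvd_mul_right).mp h
  have h5 : n ≤ r := by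
    by_contra hlt
    push Not at hlt
    rw [PowerSeries.X_pow_dvd_iff] at h4
    have := h4 r hlt
    rw [PowerSeries.coeff_X_pow, if_pos rfl] at this
    exact one_ne_zero this
  rw [hg]
  exact Dvd.dvd.mul_right (pow_dvd_pow _ h5) _

theorem coeff_VV {m : ℕ} {F : LP} (h : F ∈ VV m) (e : ℤ)
    (he : ∀ i < m, e ≠ mu i ∧ e ≠ -(mu i : ℤ)) : F.coeff e = 0 := by
  unfold VV at h
  induction h using Submodule.span_induction with
  | mem x hx =>
    obtain ⟨i, hi, rfl⟩ := hx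
    unfold bs
    have h1 := he i hi
    rw [AddMonoidAlgebra.coeff_sub]
    simp only [Finsupp.coe_sub, Pi.sub_apply, LaurentPolynomial.T_apply]
    rw [if_neg (fun h => h1.1 h.symm), if_neg (fun h => h1.2 h.symm), sub_zero]
  | zero => simp
  | add x y _ _ hx hy => simp [hx, hy]
  | smul a x _ hx => simp [hx]

theorem coeff_toL (f : Polynomial ℂ) (e : ℕ) : (Polynomial.toLaurent f).coeff (e:ℤ) = f.coeff e := by
  rw [LaurentPolynomial.coeff_toLaurent]
  exact Finsupp.mapDomain_apply Nat.castEmbedding.injective _ _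

theorem coeff_toL_neg (f : Polynomial ℂ) (e : ℤ) (he : e < 0) : (Polynomial.toLaurent f).coeff e = 0 := by
  rw [LaurentPolynomial.coeff_toLaurent]
  apply Finsupp.mapDomain_notin_range
  rintro ⟨n, hn⟩
  have : ((n : ℕ) : ℤ) = e := hn
  omega

theorem coeff_mul_T (F : LP) (n e : ℤ) : (F * T n).coeff e = F.coeff (e - n) := by
  rw [LaurentPolynomial.T]
  have := AddMonoidAlgebra.coeff_mul_single_eq_coeff_mul (x := F) (r := (1:ℂ)) (m := n) (m₁ := e)
    (e - n) (by intros; constructor <;> intro h <;> omega)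
  simpa using this

theorem VV_unique {m : ℕ} {F : LP} (h : F ∈ VV m) (hd : PowerSeries.X^(2*m) ∣ rho F) : F = 0 := by
  obtain ⟨n, f, hf⟩ := F.exists_T_pow
  have h1 : (Polynomial.X - 1)^(2*m) ∣ f := by
    apply rho_order
    rw [hf, map_mul]
    exact Dvd.dvd.mul_right hd _
  have h2 : f = 0 := by
    apply Pool.Agent.H136R2.Cardy.van (k := 2*m)
      (((Finset.range m).image (fun i => (mu i + n : ℕ))) ∪
        ((Finset.range m).image (fun i => (n - mu i : ℕ)))) _ _ h1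
    · intro e he
      by_contra hcon
      apply he
      rw [← coeff_toL, hf, coeff_mul_T]
      apply coeff_VV h
      intro i hi
      rw [Finset.mem_union, Finset.mem_image, Finset.mem_image, not_or] at hcon
      constructor
      · intro h5
        exact hcon.1 ⟨i, Finset.mem_range.mpr hi, by omega⟩
      · intro h5
        exact hcon.2 ⟨i, Finset.mem_range.mpr hi, by omega⟩
    · refine (Finset.card_union_le _ _).trans ?_
      have h1 := (Finset.card_image_le (s := Finset.range m) (f := fun i => (mu i + n : ℕ)))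
      have h2 := (Finset.card_image_le (s := Finset.range m) (f := fun i => (n - mu i : ℕ)))
      rw [Finset.card_range] at h1 h2
      omega
  rw [h2, map_zero] at hf
  have h5 : F * T n * T (-n) = 0 := by rw [← hf, zero_mul]
  rwa [LaurentPolynomial.mul_T_assoc, add_neg_cancel, LaurentPolynomial.T_zero, mul_one] at h5

theorem rho_Dlt (a n : ℕ) : PowerSeries.X^(2*a+1) ∣ rho (Dlt a n) := by
  unfold Dlt
  rw [map_mul, map_sub, map_mul rho (T 1), rho_polyL, rho_polyL, rho_T 1]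
  obtain ⟨r, hr⟩ := H337CB.pade_ps a
  have h1 : kp (H337CB.pw (((1:ℤ):ℚ)/3)) * kp (H337CB.ev (H337CB.Ps a)) - kp (H337CB.ev (H337CB.P a)) =
      PowerSeries.X^(2*a+1) * kp r := by
    rw [← map_mul, ← map_sub]
    have : (((1:ℤ):ℚ)/3) = 1/3 := by norm_num
    rw [this, hr, map_mul, map_pow]
    congr 2
    unfold kp
    rw [PowerSeries.map_X]
  rw [h1]
  exact Dvd.intro (rho (T (1 - 3 * n)) * kp r) (by ring)

theorem D_eq (a n : ℕ) (h : a + 1 = 2 * n) (d : LP) (ca : ℂ)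
    (L2 : dl * (oL - 2)^a * d - C ca * bs a ∈ VV a) : dl * (oL - 2)^a * d = C ca * Dlt a n := by
  have h1 : dl * (oL - 2)^a * d - C ca * Dlt a n ∈ VV a := by
    have h2 : dl * (oL - 2)^a * d - C ca * Dlt a n =
        (dl * (oL - 2)^a * d - C ca * bs a) - C ca * (Dlt a n - bs a) := by ring
    rw [h2]
    refine Submodule.sub_mem _ L2 ?_
    rw [← LaurentPolynomial.smul_eq_C_mul]
    exact Submodule.smul_mem _ _ (Dlt_mem a n h)
  have h3 := VV_unique h1 (by
    obtain ⟨u, hu, hu1⟩ := rho_T1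
    have h4 : PowerSeries.X^(2*a+1) ∣ rho (dl * (oL - 2)^a * d) := by
      rw [fac_dl, map_mul, map_mul, map_pow, hu, mul_pow]
      exact Dvd.intro (rho (T (-((a:ℤ)+1)) * (T 1 + 1)) * u^(2*a+1) * rho d) (by ring)
    have h5 : PowerSeries.X^(2*a+1) ∣ rho (C ca * Dlt a n) := by
      rw [map_mul]
      exact Dvd.dvd.mul_left (rho_Dlt a n) _
    rw [map_sub]
    exact (pow_dvd_pow _ (by omega)).trans (dvd_sub h4 h5))
  exact sub_eq_zero.mp h3

/-- the value of the residue of `(1+om) K` -/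
theorem core2 (a k N j n : ℕ) (ha : a + 1 = 2 * n) (hN : N = a + 2*k + 2) (hj : N = 2*j+1) :
    RR N j ((1 + oL) * ((T 3 + T (-3) - 2)^k * (oL - 2) * Dlt a n)) = 2 * (1 - ((UU a N : ℚ) : ℂ)) := by
  have h3 : (T 3 + T (-3) - 2 : LP) = T (-3) * (T 3 - 1)^2 := by
    have h0 : (T 3 : LP) * T (-3) = 1 := T_mul_neg 3
    linear_combination (2 - (T 3 : LP)) * h0
  have h4 : (T 3 + T (-3) - 2 : LP)^k = T (-3 * k) * (T 3 - 1)^(2*k) := by
    rw [h3, mul_pow, ← pow_mul, LaurentPolynomial.T_pow]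
    congr 2; ring
  have h5 : (1 + oL) * (oL - 2) = T 2 + T (-2) - T 1 - T (-1) := by
    have h0 : (T 1 : LP) * T (-1) = 1 := T_mul_neg 1
    have h2 : (T 2 : LP) = T 1 * T 1 := by rw [← LaurentPolynomial.T_add]; rfl
    have h2' : (T (-2) : LP) = T (-1) * T (-1) := by rw [← LaurentPolynomial.T_add]; rfl
    rw [h2, h2']
    unfold oL
    linear_combination 2 * h0
  have hjn : (j : ℤ) = k + n := by omega
  have hT : ∀ u : ℤ, (T (-3 * k) : LP) * T (1 - 3 * n) * T u = T (u + 1 - 3 * j) := by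
    intro u
    rw [← LaurentPolynomial.T_add, ← LaurentPolynomial.T_add, hjn]
    congr 1; ring
  have hT' : ∀ u : ℤ, (T (-3 * k) : LP) * T (1 - 3 * n) * T 1 * T u = T (u + 2 - 3 * j) := by
    intro u
    rw [← LaurentPolynomial.T_add, ← LaurentPolynomial.T_add, ← LaurentPolynomial.T_add, hjn]
    congr 1; ring
  have h6 : (1 + oL) * ((T 3 + T (-3) - 2)^k * (oL - 2) * Dlt a n) =
      (T (2 + 2 - 3 * j) * (T 3 - 1)^(2*k) * polyL (H337CB.Ps a)
      + T (-2 + 2 - 3 * j) * (T 3 - 1)^(2*k) * polyL (H337CB.Ps a)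
      - T (1 + 2 - 3 * j) * (T 3 - 1)^(2*k) * polyL (H337CB.Ps a)
      - T (-1 + 2 - 3 * j) * (T 3 - 1)^(2*k) * polyL (H337CB.Ps a))
      - (T (2 + 1 - 3 * j) * (T 3 - 1)^(2*k) * polyL (H337CB.P a)
      + T (-2 + 1 - 3 * j) * (T 3 - 1)^(2*k) * polyL (H337CB.P a)
      - T (1 + 1 - 3 * j) * (T 3 - 1)^(2*k) * polyL (H337CB.P a)
      - T (-1 + 1 - 3 * j) * (T 3 - 1)^(2*k) * polyL (H337CB.P a)) := by
    rw [← hT 2, ← hT (-2), ← hT 1, ← hT (-1), ← hT' 2, ← hT' (-2), ← hT' 1, ← hT' (-1), h4]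
    unfold Dlt
    linear_combination (T (-3 * k) * (T 3 - 1)^(2*k) * (T (1 - 3 * n) *
      (T 1 * polyL (H337CB.Ps a) - polyL (H337CB.P a)))) * h5
  have hk : 2 * k ≤ 2 * N - 1 := by omega
  rw [h6]
  simp only [RR_add, RR_sub, RR_gen N j _ k _ hk]
  have hbig := R_big a N (2*N-1-2*k) (by omega) (by omega) ⟨n + j, by omega⟩ (by omega)
  have c1 : (((2 + 1 - 3 * j : ℤ) : ℚ)/3 + j - 1/3) = 2/3 := by push_cast; ring
  have c2 : (((-2 + 1 - 3 * j : ℤ) : ℚ)/3 + j - 1/3) = -2/3 := by push_cast; ring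
  have c3 : (((1 + 1 - 3 * j : ℤ) : ℚ)/3 + j - 1/3) = 1/3 := by push_cast; ring
  have c4 : (((-1 + 1 - 3 * j : ℤ) : ℚ)/3 + j - 1/3) = -1/3 := by push_cast; ring
  have c5 : (((2 + 2 - 3 * j : ℤ) : ℚ)/3 + j - 1/3) = 1 := by push_cast; ring
  have c6 : (((-2 + 2 - 3 * j : ℤ) : ℚ)/3 + j - 1/3) = -1/3 := by push_cast; ring
  have c7 : (((1 + 2 - 3 * j : ℤ) : ℚ)/3 + j - 1/3) = 2/3 := by push_cast; ring
  have c8 : (((-1 + 2 - 3 * j : ℤ) : ℚ)/3 + j - 1/3) = 0 := by push_cast; ring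
  rw [c1, c2, c3, c4, c5, c6, c7, c8]
  have hbig' := congrArg (fun x : ℚ => (x : ℂ)) hbig
  push_cast at hbig'
  linear_combination -hbig'

/-- **the core identity** -/
theorem core (a k N j n : ℕ) (ha : a + 1 = 2 * n) (hN : N = a + 2*k + 2) (hj : N = 2*j+1)
    (g t d G0 G1 : LP) (ca z1 : ℂ) (hG0 : G0 ∈ VV (N-1)) (hG1 : G1 ∈ VV (N-1))
    (L1 : g * (dl * (oL - 2)^(N-1)) = (2 - oB) * ((T 3 + T (-3) - 2)^k * (oL - 2) *
      (dl * (oL - 2)^a * d) * C z1) - oA * G0 - G1)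
    (L2 : dl * (oL - 2)^a * d - C ca * bs a ∈ VV a)
    (L3 : t * (dl * (oL - 2)^(N-1)) - C (ca * z1) * bs (N-1) ∈ VV (N-1)) :
    e1 g = (1 - ((UU a N : ℚ) : ℂ)) * e1 t := by
  have hD := D_eq a n ha d ca L2
  rw [hD] at L1
  have hinvD : invert (C ca * Dlt a n) = - (C ca * Dlt a n) := by
    have h1 : C ca * Dlt a n ∈ VV (a+1) := by
      have h2 : C ca * Dlt a n = C ca * (Dlt a n - bs a) + C ca * bs a := by ring
      rw [h2, ← LaurentPolynomial.smul_eq_C_mul, ← LaurentPolynomial.smul_eq_C_mul]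
      exact Submodule.add_mem _ (Submodule.smul_mem _ _ (VV_mono (by omega) (Dlt_mem a n ha)))
        (Submodule.smul_mem _ _ (bs_mem (by omega)))
    exact invert_VV h1
  have hT3 : invert (T 3 + T (-3) - 2 : LP) = T 3 + T (-3) - 2 := by
    rw [map_sub, map_add, LaurentPolynomial.invert_T, LaurentPolynomial.invert_T,
      show invert (2 : LP) = 2 from map_ofNat invert 2, neg_neg]
    ring
  have h1 := core1 N j hj g _ G0 G1 hG0 hG1 (by
    rw [map_mul, map_mul, map_mul, map_pow, hT3, map_sub, invert_oL, hinvD,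
      show invert (2 : LP) = 2 from map_ofNat invert 2, LaurentPolynomial.invert_C]
    ring) L1
  have h2 : (1 + oL) * ((T 3 + T (-3) - 2)^k * (oL - 2) * (C ca * Dlt a n) * C z1) =
      C (ca * z1) * ((1 + oL) * ((T 3 + T (-3) - 2)^k * (oL - 2) * Dlt a n)) := by
    rw [map_mul]; ring
  obtain ⟨c0, hc0, hc⟩ := RR_lead N j (by omega)
  rw [h2, RR_C, core2 a k N j n ha hN hj, hc] at h1
  have h3 := RR_VV N j hj L3
  rw [RR_sub, RR_C, RR_bs_top N j hj, hc] at h3
  apply mul_left_cancel₀ hc0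
  linear_combination h1 - (1 - ((UU a N : ℚ) : ℂ)) * h3

end Pool.Agent.NH38.Step.Hom
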