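import Pool.Agent.NH38.Step.HomC
import Pool.Agent.H492C.H2

/-!
Step channels, task H (helper90), part D: `Z (w :: S)` as a Laurent polynomial in `w`.
-/

namespace Pool.Agent.NH38.Step.Hom

open Pool.Agent.H988R2.Perc hiding X
open LaurentPolynomial (T C invert)

/-! ### evaluation -/

noncomputable def eL (w : ℂ) (hw : w ≠ 0) : LP →+* ℂ :=
  LaurentPolynomial.eval₂ (RingHom.id ℂ) (Units.mk0 w hw)

theorem eL_T (w : ℂ) (hw : w ≠ 0) (n : ℤ) : eL w hw (T n) = w^n := by
  unfold eL
  rw [LaurentPolynomial.eval₂_T]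
  simp

theorem eL_C (w : ℂ) (hw : w ≠ 0) (c : ℂ) : eL w hw (C c) = c := by
  unfold eL
  rw [LaurentPolynomial.eval₂_C]
  rfl

theorem eL_poly (w : ℂ) (hw : w ≠ 0) (p : Polynomial ℂ) :
    eL w hw (Polynomial.toLaurent p) = p.eval w := by
  unfold eL
  rw [LaurentPolynomial.eval₂_toLaurent]
  simp [Polynomial.eval₂_id]

theorem eL_invert (w : ℂ) (hw : w ≠ 0) (F : LP) :
    eL w hw (invert F) = eL w⁻¹ (inv_ne_zero hw) F := by
  induction F using LaurentPolynomial.induction_on' with
  | add p r hp hr => rw [map_add, map_add, hp, hr, map_add]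
  | C_mul_T n c =>
    rw [map_mul, LaurentPolynomial.invert_C, LaurentPolynomial.invert_T, map_mul, map_mul, eL_C,
      eL_C, eL_T, eL_T, zpow_neg, inv_zpow]

/-- Laurent polynomials are determined by their values on an infinite set -/
theorem LP_ext (D : Set ℂ) (hD : D.Infinite) (F G : LP)
    (h : ∀ w (hw : w ≠ 0), w ∈ D → eL w hw F = eL w hw G) : F = G := by
  obtain ⟨n, f, hf⟩ := (F - G).exists_T_pow
  have h1 : f = 0 := by
    apply Polynomial.eq_zero_of_infinite_isRoot
    refine Set.Infinite.mono (s := D \ {0}) ?_ (hD.sdiff (Set.finite_singleton 0))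
    intro w hw
    have hw0 : w ≠ 0 := hw.2
    show f.eval w = 0
    rw [← eL_poly w hw0, hf, map_mul, map_sub, h w hw0 hw.1, sub_self, zero_mul]
  rw [h1, map_zero] at hf
  have h5 : (F - G) * T n * T (-n) = 0 := by rw [← hf, zero_mul]
  rw [LaurentPolynomial.mul_T_assoc, add_neg_cancel, LaurentPolynomial.T_zero, mul_one] at h5
  exact sub_eq_zero.mp h5

theorem eL_oL (w : ℂ) (hw : w ≠ 0) : eL w hw oL = om w := by
  unfold oL om
  rw [map_add, eL_T, eL_T]
  simp

theorem eL_dl (w : ℂ) (hw : w ≠ 0) : eL w hw dl = w - w⁻¹ := by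
  unfold dl
  rw [map_sub, eL_T, eL_T]
  simp

theorem q_inv' : q⁻¹ = q^2 := q_inv

theorem eL_oA (w : ℂ) (hw : w ≠ 0) : eL w hw oA = om (q * w) := by
  unfold oA om
  rw [map_add, map_mul, map_mul, eL_T, eL_T, eL_C, eL_C, mul_inv, q_inv]
  simp

theorem eL_oB (w : ℂ) (hw : w ≠ 0) : eL w hw oB = om (q^2 * w) := by
  unfold oB om
  rw [map_add, map_mul, map_mul, eL_T, eL_T, eL_C, eL_C, mul_inv, q_sq_inv]
  simp

/-! ### membership in `V_m` -/

theorem mem_VV (m : ℕ) (F : LP) (top : ℂ) (hinv : invert F = -F)
    (h : ∀ e : ℤ, 0 < e → (∀ i < m, e ≠ mu i) → F.coeff e = if e = mu m then top else 0) :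
    F - C top * bs m ∈ VV m := by
  classical
  have hmu : ∀ i j, mu i = mu j → i = j := by intro i j; unfold mu; omega
  have hmu0 : ∀ i, 0 < mu i := by intro i; unfold mu; omega
  have hneg : ∀ e, F.coeff (-e) = - F.coeff e := by
    intro e
    rw [← LaurentPolynomial.invert_apply, hinv]
    simp
  have key : F - C top * bs m = ∑ i ∈ Finset.range m, F.coeff (mu i) • bs i := by
    have hbs : ∀ (i : ℕ) (e : ℤ), (bs i).coeff e = (if (mu i : ℤ) = e then 1 else 0) -
        (if -(mu i : ℤ) = e then 1 else 0) := by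
      intro i e
      unfold bs
      rw [AddMonoidAlgebra.coeff_sub]
      simp only [Finsupp.coe_sub, Pi.sub_apply, LaurentPolynomial.T_apply]
    have hpos : ∀ e : ℤ, 0 < e → (F - C top * bs m).coeff e =
        (∑ i ∈ Finset.range m, F.coeff (mu i) • bs i).coeff e := by
      intro e he
      have h1 : ∀ i, (bs i).coeff e = if (mu i : ℤ) = e then 1 else 0 := by
        intro i
        rw [hbs, if_neg (show ¬ -(mu i : ℤ) = e by have := hmu0 i; omega), sub_zero]
      have h2 : (∑ i ∈ Finset.range m, F.coeff (mu i) • bs i).coeff e =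
          ∑ i ∈ Finset.range m, F.coeff (mu i) * (if (mu i : ℤ) = e then 1 else 0) := by
        rw [AddMonoidAlgebra.coeff_sum, Finsupp.finsetSum_apply]
        refine Finset.sum_congr rfl fun i _ => ?_
        rw [AddMonoidAlgebra.coeff_smul, Finsupp.smul_apply, h1, smul_eq_mul]
      have h3 : (F - C top * bs m).coeff e = F.coeff e - top * (if (mu m : ℤ) = e then 1 else 0) := by
        rw [← LaurentPolynomial.smul_eq_C_mul, AddMonoidAlgebra.coeff_sub, Finsupp.sub_apply,
          AddMonoidAlgebra.coeff_smul, Finsupp.smul_apply, h1, smul_eq_mul]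
      rw [h2, h3]
      by_cases hex : ∃ i < m, e = mu i
      · obtain ⟨i, hi, rfl⟩ := hex
        rw [Finset.sum_eq_single_of_mem i (Finset.mem_range.mpr hi)]
        · rw [if_pos rfl, if_neg]
          · ring
          · intro h4
            have := hmu m i (by exact_mod_cast h4)
            omega
        · intro j _ hj
          rw [if_neg, mul_zero]
          intro h4
          exact hj (hmu j i (by exact_mod_cast h4))
      · push Not at hex
        rw [h e he hex, Finset.sum_eq_zero]
        · by_cases h4 : e = mu m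
          · rw [if_pos h4, if_pos h4.symm]; ring
          · rw [if_neg h4, if_neg (fun h => h4 h.symm)]; ring
        · intro i hi
          rw [if_neg (fun h4 => hex i (Finset.mem_range.mp hi) h4.symm), mul_zero]
    have hL : invert (F - C top * bs m) = - (F - C top * bs m) := by
      rw [map_sub, map_mul, hinv, LaurentPolynomial.invert_C, invert_VV (bs_mem (Nat.lt_succ_self m))]
      ring
    have hR : invert (∑ i ∈ Finset.range m, F.coeff (mu i) • bs i) =
        - (∑ i ∈ Finset.range m, F.coeff (mu i) • bs i) := by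
      apply invert_VV (m := m)
      refine Submodule.sum_mem _ fun i hi => Submodule.smul_mem _ _ (bs_mem (Finset.mem_range.mp hi))
    apply LaurentPolynomial.ext
    intro e
    rcases lt_trichotomy e 0 with he | he | he
    · have h1 := hpos (-e) (by omega)
      have h2 : ∀ G : LP, (-G).coeff e = -(G.coeff e) := by intro G; simp
      rw [← LaurentPolynomial.invert_apply, ← LaurentPolynomial.invert_apply, hL, hR, h2, h2] at h1
      exact neg_injective h1
    · subst he
      have h1 : ∀ G : LP, invert G = -G → G.coeff 0 = 0 := by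
        intro G hG
        have h2 : (invert G).coeff 0 = G.coeff 0 := by simp
        rw [hG] at h2
        have h3 : - G.coeff 0 = G.coeff 0 := by simpa using h2
        exact self_eq_neg.mp h3.symm
      rw [h1 _ hL, h1 _ hR]
    · exact hpos e he
  rw [key]
  exact Submodule.sum_mem _ fun i hi => Submodule.smul_mem _ _ (bs_mem (Finset.mem_range.mp hi))

end Pool.Agent.NH38.Step.Hom
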