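import Pool.Agent.NH38.Step.HomD

/-!
Step channels, task H (helper90), part E: vanishing coefficients of `Z (w :: S)`.
-/

namespace Pool.Agent.NH38.Step.Hom

open Pool.Agent.H988R2.Perc hiding X
open LaurentPolynomial (T C invert)
open Pool.Agent.H492C.H2 (kap Gf ddl_fact lam_ex)

/-- `(X²-1) ∏ (X-c)(cX-1) P` -/
noncomputable def QS (S : List ℂ) (P : Polynomial ℂ) : Polynomial ℂ :=
  (Polynomial.X^2 - 1) * (S.map (fun c => (Polynomial.X - Polynomial.C c) *
    (Polynomial.C c * Polynomial.X - 1))).prod * P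

noncomputable def GS (S : List ℂ) (w : ℂ) : ℂ := (w^2 - 1) * (S.map (fun c => (w - c) * (c * w - 1))).prod

theorem QS_eval (S : List ℂ) (P : Polynomial ℂ) (w : ℂ) : (QS S P).eval w = GS S w * P.eval w := by
  have h : ∀ S : List ℂ, ((S.map (fun c => (Polynomial.X - Polynomial.C c) *
    (Polynomial.C c * Polynomial.X - 1))).prod).eval w = (S.map (fun c => (w - c) * (c * w - 1))).prod := by
    intro S
    induction S with
    | nil => simp
    | cons c S ih =>
      rw [List.map_cons, List.prod_cons, Polynomial.eval_mul, ih, List.map_cons, List.prod_cons]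
      simp
  unfold QS GS
  rw [Polynomial.eval_mul, Polynomial.eval_mul, h]
  simp

theorem QS_deg (S : List ℂ) (P : Polynomial ℂ) (d : ℕ) (hP : P.natDegree ≤ d) :
    (QS S P).natDegree ≤ 2 + 2 * S.length + d := by
  have h : ∀ S : List ℂ, ((S.map (fun c => (Polynomial.X - Polynomial.C c) *
    (Polynomial.C c * Polynomial.X - 1))).prod).natDegree ≤ 2 * S.length := by
    intro S
    induction S with
    | nil => simp
    | cons c S ih =>
      rw [List.map_cons, List.prod_cons, List.length_cons]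
      refine Polynomial.natDegree_mul_le.trans ?_
      have : ((Polynomial.X - Polynomial.C c) * (Polynomial.C c * Polynomial.X - 1)).natDegree ≤ 2 := by
        compute_degree
      omega
  unfold QS
  refine Polynomial.natDegree_mul_le.trans (add_le_add (Polynomial.natDegree_mul_le.trans
    (add_le_add ?_ (h S))) hP)
  compute_degree

theorem GS_ofFn (m : ℕ) (x : Fin m → ℂ) (w : ℂ) : GS (List.ofFn x) w = Gf m x w := by
  unfold GS Gf
  rw [List.map_ofFn, List.prod_ofFn]
  congr 1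
  refine Finset.prod_congr rfl fun i _ => ?_
  simp only [Function.comp]
  ring

/-- expansion along the row of `w` -/
theorem dV_exp (m K : ℕ) (x : Fin m → ℂ) : ∃ c : Fin (m+1) → ℂ, ∀ w : ℂ,
    dV K mu (Fin.cons w x : Fin (m+1) → ℂ) =
      ∑ j : Fin (m+1), (w^(K + mu j) - w^(K - mu j)) * c j := by
  refine ⟨fun j => (-1)^(j:ℕ) * (Matrix.of fun i k : Fin m =>
    (x i)^(K + mu (j.succAbove k)) - (x i)^(K - mu (j.succAbove k))).det, ?_⟩
  intro w
  unfold dV
  rw [Matrix.det_succ_row_zero]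
  refine Finset.sum_congr rfl fun j _ => ?_
  have : (Matrix.of fun i j : Fin (m+1) => (Fin.cons w x : Fin (m+1) → ℂ) i ^ (K + mu j) -
      (Fin.cons w x : Fin (m+1) → ℂ) i ^ (K - mu j)).submatrix Fin.succ j.succAbove =
      (Matrix.of fun i k : Fin m =>
    (x i)^(K + mu (j.succAbove k)) - (x i)^(K - mu (j.succAbove k))) := by
    ext i k
    simp
  rw [this]
  simp only [Matrix.of_apply, Fin.cons_zero]
  ring

theorem ent (m : ℕ) (x : Fin m → ℂ) (w : ℂ) (i : Fin (m+1)) :
    (w :: List.ofFn x).getD i 0 = (Fin.cons w x : Fin (m+1) → ℂ) i := by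
  refine Fin.cases ?_ (fun j => ?_) i
  · simp
  · simp

/-- the key identity -/
theorem keyE (n : ℕ) (m : ℕ) (hm : m + 1 = 2 * n) (x : Fin m → ℂ) (hx : ∀ i, x i ≠ 0) (w : ℂ) (hw : w ≠ 0) :
    Z (w :: List.ofFn x) * (kap m x * Gf m x w) =
      q^(n*(n-1)) * (∏ i, x i) * dV (mu m) mu (Fin.cons w x : Fin (m+1) → ℂ) := by
  have h := Z_det n (w :: List.ofFn x) (by simp; omega)
  have hz : ∀ i, (Fin.cons w x : Fin (m+1) → ℂ) i ≠ 0 := by
    intro i
    refine Fin.cases ?_ (fun j => ?_) i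
    · simpa using hw
    · simpa using hx j
  have e1 : ddl (2*n) (w :: List.ofFn x) = dV (m+1) (fun j => j+1) (Fin.cons w x : Fin (m+1) → ℂ) := by
    rw [← hm, ddl_eq]
    congr 1
    funext i
    exact ent m x w i
  have e2 : dmu (2*n) (w :: List.ofFn x) = dV (mu m) mu (Fin.cons w x : Fin (m+1) → ℂ) := by
    rw [← hm, dmu_eq, Nat.add_sub_cancel]
    congr 1
    funext i
    exact ent m x w i
  have h2 := ddl_fact m x hx w hw
  rw [dV_eq (m+2) (fun j => j+1) (fun j hj => by omega) _ hz] at h2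
  have h3 : dV (m+1) (fun j => j+1) (Fin.cons w x : Fin (m+1) → ℂ) =
      (∏ i, (Fin.cons w x : Fin (m+1) → ℂ) i)^(m+1) *
        (Matrix.of fun i j : Fin (m+1) => sL ((j:ℕ)+1) ((Fin.cons w x : Fin (m+1) → ℂ) i)).det :=
    dV_eq (m+1) (fun j => j+1) (fun j hj => by omega) _ hz
  have h4 : (∏ i, (Fin.cons w x : Fin (m+1) → ℂ) i) = w * ∏ i, x i := by
    rw [Fin.prod_univ_succ]; simp
  rw [e1, e2] at h
  have h5 : (∏ i, x i) * dV (m+1) (fun j => j+1) (Fin.cons w x : Fin (m+1) → ℂ) = kap m x * Gf m x w := by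
    apply mul_left_cancel₀ hw
    rw [h3]
    rw [pow_succ, h4] at h2
    rw [h4]
    linear_combination h2
  rw [← h5]
  linear_combination (∏ i, x i) * h

theorem coeff_gen (n m : ℕ) (hm : m + 1 = 2 * n) (x : Fin m → ℂ) (hx : ∀ i, x i ≠ 0)
    (hk : kap m x ≠ 0) (P : Polynomial ℂ) (hP : ∀ w, Z (w :: List.ofFn x) = P.eval w)
    (e : ℕ) (he : e % 3 = 2) : (QS (List.ofFn x) P).coeff e = 0 := by
  obtain ⟨c, hc⟩ := dV_exp m (mu m) x
  have h1 : Polynomial.C (kap m x) * QS (List.ofFn x) P =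
      Polynomial.C (q^(n*(n-1)) * ∏ i, x i) * ∑ j : Fin (m+1),
        (Polynomial.X^(mu m + mu j) - Polynomial.X^(mu m - mu j)) * Polynomial.C (c j) := by
    apply Polynomial.eq_of_infinite_eval_eq
    refine Set.Infinite.mono (s := {w : ℂ | w ≠ 0}) ?_ ?_
    · intro w hw
      have hw' : w ≠ 0 := hw
      have h := keyE n m hm x hx w hw'
      rw [hc, hP] at h
      simp only [Set.mem_ofPred_eq, Polynomial.eval_mul, Polynomial.eval_C, QS_eval, GS_ofFn,
        Polynomial.eval_finsetSum, Polynomial.eval_sub, Polynomial.eval_pow, Polynomial.eval_X]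
      rw [← h]
      ring
    · exact (Set.finite_singleton (0:ℂ)).infinite_compl
  have h2 := congrArg (fun p : Polynomial ℂ => p.coeff e) h1
  simp only [Polynomial.coeff_C_mul, Polynomial.finsetSum_coeff, Polynomial.coeff_mul_C,
    Polynomial.coeff_sub, Polynomial.coeff_X_pow] at h2
  have h3 : ∀ j : Fin (m+1), (((if e = mu m + mu j then (1:ℂ) else 0) -
      (if e = mu m - mu j then (1:ℂ) else 0)) * c j) = 0 := by
    intro j
    have hj := j.2
    have e1 : e ≠ mu m + mu j := by unfold mu; omega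
    have e2 : e ≠ mu m - mu j := by unfold mu; omega
    rw [if_neg e1, if_neg e2]
    ring
  rw [Finset.sum_eq_zero (fun j _ => h3 j), mul_zero] at h2
  exact (mul_eq_zero.1 h2).resolve_left hk

/-! ### polynomial dependence on `S` -/

theorem PD_prod (N : ℕ) (w : ℂ) (M : ℕ) :
    PD N (2*M) (fun l => ∏ i ∈ Finset.range M, ((w - l.getD i 0) * (l.getD i 0 * w - 1))) := by
  induction M with
  | zero => simpa using PD.const N 0 1
  | succ M ih =>
    have h1 : PD N 1 (fun l => w - l.getD M 0) := by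
      refine ((PD.const N 1 w).add ((PD.coord N M).smul (-1))).congr ?_
      intro l _
      ring
    have h2 : PD N 1 (fun l => l.getD M 0 * w - 1) := by
      refine (((PD.coord N M).smul w).add (PD.const N 1 (-1))).congr ?_
      intro l _
      ring
    refine ((ih.mul (h1.mul h2)).congr ?_)
    intro l _
    rw [Finset.prod_range_succ]

theorem map_prod (f : ℂ → ℂ) (l : List ℂ) :
    (l.map f).prod = ∏ i ∈ Finset.range l.length, f (l.getD i 0) := by
  induction l with
  | nil => simp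
  | cons c l ih =>
    rw [List.map_cons, List.prod_cons, List.length_cons, Finset.prod_range_succ', ih, mul_comm]
    simp

theorem PD_GS (N : ℕ) (w : ℂ) : PD N (2*N) (fun l => GS l w) := by
  refine ((PD_prod N w N).smul (w^2-1)).congr ?_
  intro l hl
  unfold GS
  rw [map_prod, hl]

theorem kap_ne (m : ℕ) (x : Fin m → ℂ) (hx : ∀ i, x i ≠ 0) (h1 : ∀ i, (x i)^6 ≠ 1)
    (h2 : ∀ i j, i ≠ j → (x i)^6 ≠ (x j)^6 ∧ (x i)^6 ≠ ((x j)⁻¹)^6) : kap m x ≠ 0 := by
  unfold kap Pool.Agent.H492C.H2.VV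
  have hX : ∏ j, x j ≠ 0 := Finset.prod_ne_zero_iff.2 (fun j _ => hx j)
  refine mul_ne_zero (mul_ne_zero (pow_ne_zero _ hX) (mul_ne_zero ?_ ?_)) ?_
  · refine Finset.prod_ne_zero_iff.2 fun j _ => ?_
    intro h
    apply h1 j
    have h3 : (x j) * (x j) = 1 := by
      have := hx j
      field_simp at h
      linear_combination h
    have : (x j)^6 = ((x j) * (x j))^3 := by ring
    rw [this, h3, one_pow]
  · refine Finset.prod_ne_zero_iff.2 fun i _ => Finset.prod_ne_zero_iff.2 fun j hj => ?_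
    have hij : i ≠ j := by
      rw [Finset.mem_Ioi] at hj
      exact hj.ne
    intro h
    have hi0 := hx i
    have hj0 := hx j
    have h3 : (x j - x i) * (x j * x i - 1) = 0 := by
      field_simp at h
      linear_combination h
    rcases mul_eq_zero.mp h3 with h4 | h4
    · apply (h2 i j hij).1
      rw [sub_eq_zero.mp h4]
    · apply (h2 i j hij).2
      have : x i = (x j)⁻¹ := by
        field_simp
        linear_combination h4
      rw [this]
  · exact mul_ne_zero (pow_ne_zero _ (by norm_num)) (inv_ne_zero hX)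

/-- **vanishing coefficients** -/
theorem zc (n : ℕ) (hn : 1 ≤ n) (S : List ℂ) (hS : S.length = 2*n-1) (P : Polynomial ℂ)
    (hd : P.natDegree ≤ 2*n-2) (hP : ∀ w, Z (w :: S) = P.eval w) (e : ℕ) (he : e % 3 = 2) :
    (QS S P).coeff e = 0 := by
  obtain ⟨c, hc⟩ := lam_ex (2 + 2 * (2*n-1) + (2*n-2)) e
  set D := 2 + 2 * (2*n-1) + (2*n-2) with hD
  have hval : ∀ (S : List ℂ), S.length = 2*n-1 → ∀ (P : Polynomial ℂ), P.natDegree ≤ 2*n-2 →
      (∀ w, Z (w :: S) = P.eval w) → (QS S P).coeff e =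
        ∑ j ∈ Finset.range (D+1), c j * (GS S (j:ℂ) * Z ((j:ℂ) :: S)) := by
    intro S hS P hd hP
    rw [hc _ ((QS_deg S P (2*n-2) hd).trans (by rw [hS]))]
    refine Finset.sum_congr rfl fun j _ => ?_
    rw [QS_eval, hP]
  have hpd : PD (2*n-1) (2*(2*n-1) + (2*n-2))
      (fun S => ∑ j ∈ Finset.range (D+1), c j * (GS S (j:ℂ) * Z ((j:ℂ) :: S))) := by
    apply PD.sum
    intro j _
    apply PD.smul
    apply PD.mul (PD_GS _ _)
    have h1 := Z_pd (2*n) ⟨n, by ring⟩
    have h2 : PD (([(j:ℂ)] : List ℂ).length + (2*n-1)) (2*n-2) Z := by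
      have : ([(j:ℂ)] : List ℂ).length + (2*n-1) = 2*n := by simp; omega
      rw [this]; exact h1
    exact h2.sliceLeft [(j:ℂ)]
  rw [hval S hS P hd hP]
  refine PD.generic hpd badSet ?_ S hS
  intro l hl hgen
  set y : Fin (2*n-1) → ℂ := fun i => l.getD i 0 with hy
  have hy0 : ∀ i, y i ≠ 0 := fun i => (notMem_badSet (hgen i i.2)).1
  have hy1 : ∀ i, (y i)^6 ≠ 1 := fun i => (notMem_badSet (hgen i i.2)).2.1
  have hy2 : ∀ i j : Fin (2*n-1), (j:ℕ) < i → (y i)^6 ≠ (y j)^6 ∧ (y i)^6 ≠ ((y j)⁻¹)^6 := by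
    intro i j hij
    apply (notMem_badSet (hgen i i.2)).2.2
    rw [hy]
    simp only
    rw [List.getD_eq_getElem l 0 (by omega)]
    rw [List.mem_take_iff_getElem]
    exact ⟨j, by omega, rfl⟩
  have hy3 : ∀ i j, i ≠ j → (y i)^6 ≠ (y j)^6 ∧ (y i)^6 ≠ ((y j)⁻¹)^6 := by
    intro i j hij
    rcases lt_or_gt_of_ne (fun h => hij (Fin.ext h) : (i:ℕ) ≠ j) with h | h
    · obtain ⟨h1, h2⟩ := hy2 j i h
      refine ⟨h1.symm, fun h3 => h2 ?_⟩
      rw [inv_pow] at h3 ⊢
      rw [h3, inv_inv]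
    · exact hy2 i j h
  have hly : l = List.ofFn y := by
    apply List.ext_getElem
    · simp [hl]
    · intro i h1 h2
      rw [List.getElem_ofFn]
      show l[i] = l.getD i 0
      rw [List.getD_eq_getElem l 0 h1]
  obtain ⟨P', hd', hP'⟩ := (Z_pd (2*n) ⟨n, by ring⟩).univ [] l (by simp [hl]; omega)
  rw [← hval l hl P' hd' hP', hly]
  exact coeff_gen n (2*n-1) (by omega) y hy0 (kap_ne _ _ hy0 hy1 hy3) P' (by
    intro w
    rw [← hly]
    exact hP' w) e he

end Pool.Agent.NH38.Step.Hom
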