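import Pool.Agent.NH38.Step.HomE

/-!
Step channels, task H (helper90), part F: `Z (w :: S)` in `V_m`.
-/

namespace Pool.Agent.NH38.Step.Hom

open Pool.Agent.H988R2.Perc hiding X
open LaurentPolynomial (T C invert)

/-- `(w - 1/w) ∏ (om_w - om_c)` -/
noncomputable def phiL (S : List ℂ) : LP := dl * (S.map (fun c => oL - C (om c))).prod

noncomputable def phi (S : List ℂ) (w : ℂ) : ℂ := (w - w⁻¹) * (S.map (fun c => om w - om c)).prod

theorem eL_phiL (S : List ℂ) (w : ℂ) (hw : w ≠ 0) : eL w hw (phiL S) = phi S w := by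
  unfold phiL phi
  rw [map_mul, eL_dl]
  congr 1
  induction S with
  | nil => simp
  | cons c S ih =>
    rw [List.map_cons, List.prod_cons, List.map_cons, List.prod_cons, map_mul, ih, map_sub, eL_oL, eL_C]

theorem QS_toL (S : List ℂ) (hS : ∀ c ∈ S, c ≠ 0) (P : Polynomial ℂ) :
    Polynomial.toLaurent (QS S P) = phiL S * Polynomial.toLaurent P * C S.prod * T (S.length + 1) := by
  have h0 : (T 1 : LP) * T (-1) = 1 := T_mul_neg 1
  have h : ∀ S : List ℂ, (∀ c ∈ S, c ≠ 0) → Polynomial.toLaurent ((S.map (fun c => (Polynomial.X - Polynomial.C c) *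
    (Polynomial.C c * Polynomial.X - 1))).prod) = (S.map (fun c => oL - C (om c))).prod * C S.prod *
      T (S.length) := by
    intro S hS
    induction S with
    | nil => simp
    | cons c S ih =>
      have hc : c ≠ 0 := hS c List.mem_cons_self
      have ih' := ih (fun d hd => hS d (List.mem_cons_of_mem _ hd))
      have h1 : Polynomial.toLaurent ((Polynomial.X - Polynomial.C c) *
        (Polynomial.C c * Polynomial.X - 1)) = (oL - C (om c)) * C c * T 1 := by
        rw [map_mul, map_sub, map_sub, map_mul, Polynomial.toLaurent_X, Polynomial.toLaurent_C, map_one]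
        have h2 : (C (om c) : LP) * C c = C c * C c + 1 := by
          rw [← map_mul, ← map_mul]
          unfold om
          rw [add_mul, inv_mul_cancel₀ hc, map_add, map_one]
        unfold oL
        linear_combination (-(C c : LP)) * h0 + (T 1 : LP) * h2
      rw [List.map_cons, List.prod_cons, List.map_cons, List.prod_cons, List.prod_cons, map_mul, ih', h1,
        List.length_cons, map_mul C]
      push_cast
      rw [LaurentPolynomial.T_add]
      ring
  unfold QS phiL
  rw [map_mul, map_mul, h S hS, map_sub, map_pow, Polynomial.toLaurent_X, map_one]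
  have h2 : (T 1 : LP)^2 - 1 = dl * T 1 := by
    unfold dl
    linear_combination h0
  rw [h2, LaurentPolynomial.T_add]
  ring

theorem QS_top (S : List ℂ) (P : Polynomial ℂ) (d : ℕ) (hP : P.natDegree ≤ d) :
    (QS S P).coeff (2 + 2 * S.length + d) = S.prod * P.coeff d := by
  have h : ∀ S : List ℂ, ((S.map (fun c => (Polynomial.X - Polynomial.C c) *
    (Polynomial.C c * Polynomial.X - 1))).prod).natDegree ≤ 2 * S.length ∧
    ((S.map (fun c => (Polynomial.X - Polynomial.C c) *
    (Polynomial.C c * Polynomial.X - 1))).prod).coeff (2 * S.length) = S.prod := by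
    intro S
    induction S with
    | nil => simp
    | cons c S ih =>
      rw [List.map_cons, List.prod_cons, List.length_cons, List.prod_cons]
      have h2 : ((Polynomial.X - Polynomial.C c) * (Polynomial.C c * Polynomial.X - 1)).natDegree ≤ 2 := by
        compute_degree
      have h3 : ((Polynomial.X - Polynomial.C c) * (Polynomial.C c * Polynomial.X - 1)).coeff 2 = c := by
        have : ((Polynomial.X - Polynomial.C c) * (Polynomial.C c * Polynomial.X - 1)) =
          Polynomial.C c * Polynomial.X^2 + Polynomial.C (-(1 + c^2)) * Polynomial.X + Polynomial.C c := by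
          simp only [map_neg, map_add, map_one, map_pow]
          ring
        rw [this, Polynomial.coeff_add, Polynomial.coeff_add, Polynomial.coeff_C_mul_X_pow,
          Polynomial.coeff_C_mul_X, Polynomial.coeff_C]
        norm_num
      constructor
      · refine Polynomial.natDegree_mul_le.trans ?_
        have := ih.1
        omega
      · rw [show 2 * (S.length + 1) = 2 + 2 * S.length by ring,
          Polynomial.coeff_mul_add_eq_of_natDegree_le h2 ih.1, h3, ih.2]
  have h2 : (Polynomial.X^2 - 1 : Polynomial ℂ).natDegree ≤ 2 := by compute_degree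
  have h3 : (Polynomial.X^2 - 1 : Polynomial ℂ).coeff 2 = 1 := by
    simp [Polynomial.coeff_one]
  unfold QS
  rw [Polynomial.coeff_mul_add_eq_of_natDegree_le
    (Polynomial.natDegree_mul_le.trans (add_le_add h2 (h S).1)) hP,
    Polynomial.coeff_mul_add_eq_of_natDegree_le h2 (h S).1, h3, (h S).2, one_mul]

/-- symmetry of `P` -/
theorem sym_P (S : List ℂ) (r : ℕ) (hS : S.length = 2*r+1) (P : Polynomial ℂ)
    (hP : ∀ w, Z (w :: S) = P.eval w) :
    invert (Polynomial.toLaurent P * T (-(r:ℤ))) = Polynomial.toLaurent P * T (-(r:ℤ)) := by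
  apply LP_ext Set.univ Set.infinite_univ
  intro w hw _
  rw [eL_invert, map_mul, map_mul, eL_poly, eL_poly, eL_T, eL_T, ← hP, ← hP,
    Z_inv w S hw ⟨r, hS⟩, hS]
  rw [zpow_neg, zpow_neg, inv_zpow, inv_inv, zpow_natCast,
    show 2*r+1-1 = r + r by omega, pow_add]
  have : w^r ≠ 0 := pow_ne_zero _ hw
  field_simp

theorem sym_coeff (S : List ℂ) (r : ℕ) (hS : S.length = 2*r+1) (P : Polynomial ℂ)
    (hP : ∀ w, Z (w :: S) = P.eval w) : P.coeff (2*r) = P.eval 0 := by
  have h := sym_P S r hS P hP
  have h1 := congrArg (fun F : LP => F.coeff (-(r:ℤ))) h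
  simp only [LaurentPolynomial.invert_apply, neg_neg] at h1
  rw [coeff_mul_T, coeff_mul_T] at h1
  have e1 : (r:ℤ) - -(r:ℤ) = ((2*r : ℕ) : ℤ) := by push_cast; ring
  have e2 : -(r:ℤ) - -(r:ℤ) = ((0 : ℕ) : ℤ) := by push_cast; ring
  rw [e1, e2, coeff_toL, coeff_toL] at h1
  rw [h1, Polynomial.coeff_zero_eq_eval_zero]

/-- `zs (w :: S)` as a Laurent polynomial in `w`, `|S| = 2r + 1` -/
noncomputable def zsL (r : ℕ) (S : List ℂ) (P : Polynomial ℂ) : LP :=
  Polynomial.toLaurent P * T (-(r:ℤ)) * C ((S.prod^r * q^((r+1)*r))⁻¹)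

theorem eL_zsL (S : List ℂ) (r : ℕ) (hS : S.length = 2*r+1) (P : Polynomial ℂ)
    (hP : ∀ w, Z (w :: S) = P.eval w) (w : ℂ) (hw : w ≠ 0) : eL w hw (zsL r S P) = zs (w :: S) := by
  unfold zsL zs
  rw [map_mul, map_mul, eL_poly, eL_T, eL_C, ← hP, List.length_cons, List.prod_cons, hS]
  have h1 : (2*r+1+1)/2 = r + 1 := by omega
  rw [h1, Nat.add_sub_cancel, zpow_neg, zpow_natCast, mul_pow, div_eq_mul_inv, mul_assoc, ← mul_inv]
  congr 2
  ring

theorem coeff_C_mul' (c : ℂ) (F : LP) (e : ℤ) : (F * C c).coeff e = F.coeff e * c := by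
  rw [mul_comm, ← LaurentPolynomial.smul_eq_C_mul, AddMonoidAlgebra.coeff_smul, Finsupp.smul_apply,
    smul_eq_mul, mul_comm]

theorem invert_phiL (S : List ℂ) : invert (phiL S) = - phiL S := by
  have h : invert ((S.map (fun c => oL - C (om c))).prod) = (S.map (fun c => oL - C (om c))).prod := by
    induction S with
    | nil => simp
    | cons c S ih =>
      rw [List.map_cons, List.prod_cons, map_mul, ih, map_sub, invert_oL, LaurentPolynomial.invert_C]
  unfold phiL
  rw [map_mul, h, invert_dl]
  ring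

theorem FS_mem (S : List ℂ) (r : ℕ) (hS : S.length = 2*r+1) (h0 : ∀ c ∈ S, c ≠ 0) (P : Polynomial ℂ)
    (hd : P.natDegree ≤ 2*r) (hP : ∀ w, Z (w :: S) = P.eval w) :
    phiL S * zsL r S P - C (P.eval 0 * (S.prod^r * q^((r+1)*r))⁻¹) * bs (2*r+1) ∈ VV (2*r+1) := by
  have hprod : S.prod ≠ 0 := List.prod_ne_zero (fun h => h0 0 h rfl)
  have hF : phiL S * zsL r S P = Polynomial.toLaurent (QS S P) * T (-(3*(r:ℤ)+2)) *
      C (S.prod⁻¹ * (S.prod^r * q^((r+1)*r))⁻¹) := by
    rw [QS_toL S h0, hS]
    unfold zsL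
    have h1 : (T (((2*r+1 : ℕ) : ℤ) + 1) : LP) * T (-(3*(r:ℤ)+2)) = T (-(r:ℤ)) := by
      rw [← LaurentPolynomial.T_add]; congr 1; push_cast; ring
    have h2 : (C S.prod : LP) * C (S.prod⁻¹ * (S.prod^r * q^((r+1)*r))⁻¹) =
        C ((S.prod^r * q^((r+1)*r))⁻¹) := by
      rw [← map_mul, ← mul_assoc, mul_inv_cancel₀ hprod, one_mul]
    calc phiL S * (Polynomial.toLaurent P * T (-(r:ℤ)) * C ((S.prod^r * q^((r+1)*r))⁻¹))
        = phiL S * Polynomial.toLaurent P * (T (((2*r+1 : ℕ) : ℤ) + 1) * T (-(3*(r:ℤ)+2))) *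
          (C S.prod * C (S.prod⁻¹ * (S.prod^r * q^((r+1)*r))⁻¹)) := by rw [h1, h2]; ring
      _ = _ := by ring
  apply mem_VV
  · rw [map_mul, invert_phiL]
    unfold zsL
    rw [map_mul, sym_P S r hS P hP, LaurentPolynomial.invert_C]
    ring
  · intro e he hei
    rw [hF, coeff_C_mul', coeff_mul_T]
    obtain ⟨k, hk⟩ : ∃ k : ℕ, e = k := ⟨e.toNat, by omega⟩
    have e1 : e - -(3*(r:ℤ)+2) = ((k + 3*r+2 : ℕ) : ℤ) := by rw [hk]; push_cast; ring
    rw [e1, coeff_toL]
    have hmu : mu (2*r+1) = 3*r+2 := by unfold mu; omega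
    rw [hmu]
    by_cases hk3 : k % 3 = 0
    · rw [zc (r+1) (by omega) S (by omega) P (by omega) hP _ (by omega), zero_mul, if_neg]
      rw [hk]; intro h
      have : k = 3 * r + 2 := by exact_mod_cast h
      omega
    · by_cases hk4 : k = 3 * r + 2
      · rw [if_pos (by rw [hk, hk4])]
        have h1 := QS_top S P (2*r) hd
        rw [hS] at h1
        rw [show k + 3*r+2 = 2 + 2 * (2*r+1) + 2*r by omega, h1, sym_coeff S r hS P hP]
        field_simp
      · have hk5 : 3 * r + 2 < k := by
          by_contra hlt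
          push Not at hlt
          have hk6 : k < 3 * r + 2 := lt_of_le_of_ne hlt hk4
          rcases (by omega : k % 3 = 1 ∨ k % 3 = 2) with h | h
          · apply hei (2 * (k/3)) (by omega)
            rw [hk]
            have : mu (2 * (k/3)) = k := by unfold mu; omega
            rw [this]
          · apply hei (2 * (k/3) + 1) (by omega)
            rw [hk]
            have : mu (2 * (k/3) + 1) = k := by unfold mu; omega
            rw [this]
        rw [if_neg (by rw [hk]; intro h; have : k = 3 * r + 2 := by exact_mod_cast h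
                       omega)]
        have h1 := QS_deg S P (2*r) hd
        rw [Polynomial.coeff_eq_zero_of_natDegree_lt (by rw [hS] at h1; omega), zero_mul]

theorem FS_mem' (S : List ℂ) (r : ℕ) (hS : S.length = 2*r+1) (h0 : ∀ c ∈ S, c ≠ 0) (P : Polynomial ℂ)
    (hd : P.natDegree ≤ 2*r) (hP : ∀ w, Z (w :: S) = P.eval w) :
    phiL S * zsL r S P ∈ VV (2*r+2) := by
  have h1 := FS_mem S r hS h0 P hd hP
  have h2 : phiL S * zsL r S P = (phiL S * zsL r S P - C (P.eval 0 * (S.prod^r * q^((r+1)*r))⁻¹) *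
    bs (2*r+1)) + C (P.eval 0 * (S.prod^r * q^((r+1)*r))⁻¹) * bs (2*r+1) := by ring
  rw [h2]
  refine Submodule.add_mem _ (VV_mono (by omega) h1) ?_
  rw [← LaurentPolynomial.smul_eq_C_mul]
  exact Submodule.smul_mem _ _ (bs_mem (by omega))

theorem om_one : om 1 = 2 := by unfold om; norm_num

theorem phiL_on (n : ℕ) : phiL (on n) = dl * (oL - 2)^n := by
  unfold phiL on
  rw [List.map_replicate, List.prod_replicate, om_one]
  congr 2

/-- the odd case at the homogeneous point -/
theorem Fodd_mem (j : ℕ) (P : Polynomial ℂ) (hd : P.natDegree ≤ 2*j)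
    (hP : ∀ w, Z (w :: (on (2*j) ++ [0])) = P.eval w) :
    Polynomial.toLaurent P * T (-(j:ℤ)) * (dl * (oL - 2)^(2*j)) - C (P.eval 0) * bs (2*j) ∈ VV (2*j) := by
  have hS : (on (2*j) ++ [0]).length = 2*j+1 := by simp [on]
  have h0 : ∀ c ∈ on (2*j), c ≠ 0 := by
    intro c hc
    rw [List.eq_of_mem_replicate hc]; exact one_ne_zero
  have hQ : Polynomial.toLaurent P * T (-(j:ℤ)) * (dl * (oL - 2)^(2*j)) =
      Polynomial.toLaurent (QS (on (2*j)) P) * T (-(3*(j:ℤ)+1)) := by
    rw [QS_toL _ h0, phiL_on]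
    have h1 : (on (2*j)).length = 2*j := by simp [on]
    have h2 : (on (2*j)).prod = 1 := by simp [on]
    rw [h1, h2, map_one, mul_one]
    have h3 : (T (((2*j : ℕ) : ℤ) + 1) : LP) * T (-(3*(j:ℤ)+1)) = T (-(j:ℤ)) := by
      rw [← LaurentPolynomial.T_add]; congr 1; push_cast; ring
    rw [← h3]; ring
  have hz : ∀ e, e % 3 = 1 → (QS (on (2*j)) P).coeff e = 0 := by
    intro e he
    have h1 := zc (j+1) (by omega) _ (by rw [hS]; omega) P (by omega) hP (e+1) (by omega)
    have h2 : QS (on (2*j) ++ [0]) P = - (Polynomial.X * QS (on (2*j)) P) := by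
      unfold QS
      rw [List.map_append, List.prod_append]
      simp only [List.map_cons, List.map_nil, List.prod_cons, List.prod_nil, map_zero, zero_mul,
        sub_zero, zero_sub, mul_one]
      ring
    rw [h2, Polynomial.coeff_neg, Polynomial.coeff_X_mul] at h1
    exact neg_eq_zero.mp h1
  apply mem_VV
  · rw [map_mul, sym_P _ j hS P hP, ← phiL_on, invert_phiL]
    ring
  · intro e he hei
    rw [hQ, coeff_mul_T]
    obtain ⟨k, hk⟩ : ∃ k : ℕ, e = k := ⟨e.toNat, by omega⟩
    have e1 : e - -(3*(j:ℤ)+1) = ((k + 3*j+1 : ℕ) : ℤ) := by rw [hk]; push_cast; ring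
    rw [e1, coeff_toL]
    have hmu : mu (2*j) = 3*j+1 := by unfold mu; omega
    rw [hmu]
    by_cases hk3 : k % 3 = 0
    · rw [hz _ (by omega), if_neg]
      rw [hk]; intro h
      have : k = 3 * j + 1 := by exact_mod_cast h
      omega
    · by_cases hk4 : k = 3 * j + 1
      · rw [if_pos (by rw [hk, hk4])]
        have h1 := QS_top (on (2*j)) P (2*j) hd
        have h2 : (on (2*j)).prod = 1 := by simp [on]
        have h3 : (on (2*j)).length = 2*j := by simp [on]
        rw [h2, one_mul, h3] at h1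
        rw [show k + 3*j+1 = 2 + 2 * (2*j) + 2*j by omega, h1, sym_coeff _ j hS P hP]
      · have hk5 : 3 * j + 1 < k := by
          by_contra hlt
          push Not at hlt
          have hk6 : k < 3 * j + 1 := lt_of_le_of_ne hlt hk4
          rcases (by omega : k % 3 = 1 ∨ k % 3 = 2) with h | h
          · apply hei (2 * (k/3)) (by omega)
            rw [hk]
            have : mu (2 * (k/3)) = k := by unfold mu; omega
            rw [this]
          · apply hei (2 * (k/3) + 1) (by omega)
            rw [hk]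
            have : mu (2 * (k/3) + 1) = k := by unfold mu; omega
            rw [this]
        rw [if_neg (by rw [hk]; intro h; have : k = 3 * j + 1 := by exact_mod_cast h
                       omega)]
        have h1 := QS_deg (on (2*j)) P (2*j) hd
        have h3 : (on (2*j)).length = 2*j := by simp [on]
        rw [Polynomial.coeff_eq_zero_of_natDegree_lt (by rw [h3] at h1; omega)]

end Pool.Agent.NH38.Step.Hom
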