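import Pool.Agent.NH38.Step.HomF

/-!
Step channels, task H (helper90), part G: polynomial dependence of `GQ`, `TQ`; the generic family.
-/

namespace Pool.Agent.NH38.Step.Hom

open Pool.Agent.H988R2.Perc hiding X
open Pool.Agent.H988C
open LaurentPolynomial (T C invert)
open Filter Topology

/-- continuity along lists of functions -/
theorem PD_contL {N d : ℕ} {F : List ℂ → ℂ} (hF : PD N d F) (L : List (ℂ → ℂ)) (hL : L.length = N)
    (hc : ∀ f ∈ L, ContinuousAt f 0) : ContinuousAt (fun s => F (L.map (fun f => f s))) 0 := by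
  subst hL
  have h1 := hF.cont (fun i : Fin L.length => L[i]) 0 (fun i => hc _ (List.getElem_mem _))
  have h2 : (fun s => F (L.map (fun f => f s))) = fun s => F (List.ofFn fun i : Fin L.length => L[i] s) := by
    funext s
    congr 1
    apply List.ext_getElem
    · simp
    · intro i h1 h2
      simp
  rw [h2]
  exact h1

theorem tri_fin (a b : ℕ) (ha : Odd a) {ι : Type} (s : Finset ι) (x : ι → St) (c : ι → ℂ) (g h : St →₀ ℂ) :
    tri a b ha (∑ i ∈ s, Finsupp.single (x i) (c i)) g h =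
      ∑ i ∈ s, c i * tri a b ha (Finsupp.single (x i) 1) g h := by
  classical
  have h0 : ∀ (f1 f2 : St →₀ ℂ), tri a b ha (f1 + f2) g h = tri a b ha f1 g h + tri a b ha f2 g h := by
    intro f1 f2
    unfold tri
    rw [Finsupp.sum_add_index']
    · intro R; simp
    · intro R x y
      rw [← Finsupp.sum_add]
      refine Finsupp.sum_congr fun R1 _ => ?_
      rw [← Finsupp.sum_add]
      refine Finsupp.sum_congr fun R2 _ => ?_
      ring
  have h1 : ∀ R c, tri a b ha (Finsupp.single R c) g h = c * tri a b ha (Finsupp.single R 1) g h := by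
    intro R c
    unfold tri
    rw [Finsupp.sum_single_index (by simp), Finsupp.sum_single_index (by simp), Finsupp.mul_sum]
    refine Finsupp.sum_congr fun R1 _ => ?_
    rw [Finsupp.mul_sum]
    refine Finsupp.sum_congr fun R2 _ => ?_
    ring
  induction s using Finset.induction_on with
  | empty => simp [tri]
  | insert i s hi ih => rw [Finset.sum_insert hi, Finset.sum_insert hi, h0, ih, h1]

theorem GQ_pd (A : List ℂ) (ha : Odd A.length) (m : ℕ) (hm : Even m) :
    ∃ F : List ℂ → ℂ, PD (A.length + m + 3) (A.length + m + 1) F ∧ ∀ (w : ℂ) (Y : List ℂ) (v : ℂ),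
      Y.length = m → GQ A ha w Y v = F (A ++ w :: (Y ++ [v, 0])) := by
  have hE : Even (A.length + m + 3) := by
    obtain ⟨r, hr⟩ := ha
    obtain ⟨s, hs⟩ := hm
    exact ⟨r + s + 2, by omega⟩
  refine ⟨fun l => ∑ w' ∈ Pool.Agent.H988R2.Perc.LP (A.length + m + 3), tri A.length (m + 1) ha
    (Finsupp.single (Phi ((A.length + m + 3)/2) w') 1) (Psi (A.map (fun x => x⁻¹) ++ [0]))
    (Finsupp.single St.bot 1) * Fw w' l, ?_, ?_⟩
  · apply PD.sum
    intro w' hw'
    apply PD.smul
    exact (Fw_V hw').pd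
  · intro w Y v hY
    unfold GQ
    rw [hY]
    have hl : (A ++ w :: (Y ++ [v, 0])).length = A.length + m + 3 := by simp [hY]; omega
    have hPsi : Psi (A ++ w :: (Y ++ [v, 0])) = ∑ w' ∈ Pool.Agent.H988R2.Perc.LP (A.length + m + 3),
        Finsupp.single (Phi ((A.length + m + 3)/2) w') (Fw w' (A ++ w :: (Y ++ [v, 0]))) := by
      unfold Psi
      rw [hl]
    rw [hPsi, tri_fin]
    refine Finset.sum_congr rfl fun w' _ => ?_
    ring

theorem TQ_pd (A : List ℂ) (ha : Odd A.length) (m : ℕ) (hm : Even m) :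
    ∃ F : List ℂ → ℂ, PD (A.length + m + 3) (A.length + m + 1) F ∧ ∀ (w : ℂ) (Y : List ℂ) (v : ℂ),
      Y.length = m → TQ A w Y v = F (A ++ w :: (Y ++ [v, 0])) := by
  have hE : Even (A.length + m + 3) := by
    obtain ⟨r, hr⟩ := ha
    obtain ⟨s, hs⟩ := hm
    exact ⟨r + s + 2, by omega⟩
  refine ⟨fun l => Z (A.map (fun x => x⁻¹) ++ [0]) * Z l, ?_, ?_⟩
  · exact (Z_pd _ hE).smul _
  · intro w Y v _
    unfold TQ
    ring

/-! ### the family -/

noncomputable def xs (k : ℕ) (s : ℂ) (i : Fin k) : ℂ := 1 + ((i:ℕ) + 1 : ℂ) * s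

theorem xs_zero (k : ℕ) (i : Fin k) : xs k 0 i = 1 := by simp [xs]

theorem xs_cont (k : ℕ) (i : Fin k) : Continuous (fun s => xs k s i) := by
  unfold xs; fun_prop

theorem xs_deriv (k : ℕ) (i : Fin k) : HasDerivAt (fun s => xs k s i) ((i:ℕ) + 1 : ℂ) 0 := by
  unfold xs
  have h := ((hasDerivAt_id (0:ℂ)).const_mul ((i:ℕ) + 1 : ℂ)).const_add 1
  simpa using h

theorem xs_pow_deriv (k : ℕ) (i : Fin k) : HasDerivAt (fun s => (xs k s i)^6) (6 * ((i:ℕ) + 1 : ℂ)) 0 := by
  have h := (xs_deriv k i).pow 6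
  have e : (((6:ℕ):ℂ) * xs k 0 i ^ (6-1) * ((i:ℕ) + 1 : ℂ)) = 6 * ((i:ℕ) + 1 : ℂ) := by
    rw [xs_zero]; norm_num
  rw [e] at h
  exact h

theorem ev_gen (k : ℕ) : ∀ᶠ s in 𝓝[≠] (0:ℂ), Gen (xs k s) := by
  have h1 : ∀ᶠ s in 𝓝[≠] (0:ℂ), ∀ i : Fin k, xs k s i ≠ 0 := by
    rw [Filter.eventually_all]
    intro i
    have h : ContinuousAt (fun s => xs k s i) 0 := (xs_cont k i).continuousAt
    exact (h.eventually_ne (by rw [xs_zero]; exact one_ne_zero)).filter_mono nhdsWithin_le_nhds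
  have h2 : ∀ᶠ s in 𝓝[≠] (0:ℂ), ∀ i : Fin k, (xs k s i)^6 ≠ 1 := by
    rw [Filter.eventually_all]
    intro i
    refine (xs_pow_deriv k i).eventually_ne ?_
    have : (((i:ℕ) + 1 : ℕ) : ℂ) ≠ 0 := Nat.cast_ne_zero.mpr (by omega)
    push_cast at this
    exact mul_ne_zero (by norm_num) this
  have h3 : ∀ᶠ s in 𝓝[≠] (0:ℂ), ∀ i j : Fin k, i ≠ j → (xs k s i)^6 ≠ (xs k s j)^6 := by
    rw [Filter.eventually_all]
    intro i
    rw [Filter.eventually_all]
    intro j
    by_cases hij : i = j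
    · exact Filter.Eventually.of_forall fun s h => absurd hij h
    · have h := (xs_pow_deriv k i).sub (xs_pow_deriv k j)
      have hne : 6 * ((i:ℕ) + 1 : ℂ) - 6 * ((j:ℕ) + 1 : ℂ) ≠ 0 := by
        intro h0
        apply hij
        apply Fin.ext
        have : ((i:ℕ) : ℂ) = (j:ℕ) := by linear_combination (1/6) * h0
        exact_mod_cast this
      filter_upwards [h.eventually_ne (c := 0) hne] with s hs _
      exact sub_ne_zero.mp hs
  have h4 : ∀ᶠ s in 𝓝[≠] (0:ℂ), ∀ i j : Fin k, i ≠ j → (xs k s i * xs k s j)^6 ≠ 1 := by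
    rw [Filter.eventually_all]
    intro i
    rw [Filter.eventually_all]
    intro j
    have h := (xs_pow_deriv k i).mul (xs_pow_deriv k j)
    have hne : 6 * ((i:ℕ) + 1 : ℂ) * (xs k 0 j)^6 + (xs k 0 i)^6 * (6 * ((j:ℕ) + 1 : ℂ)) ≠ 0 := by
      rw [xs_zero, xs_zero]
      have : (((i:ℕ) + (j:ℕ) + 2 : ℕ) : ℂ) ≠ 0 := Nat.cast_ne_zero.mpr (by omega)
      push_cast at this
      intro h0
      apply this
      linear_combination (1/6) * h0
    filter_upwards [h.eventually_ne (c := 1) hne] with s hs _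
    rw [mul_pow]
    exact hs
  filter_upwards [h1, h2, h3, h4] with s e1 e2 e3 e4
  exact ⟨fun i => ⟨e1 i, e2 i⟩, fun i j hij => ⟨e3 i j hij, e4 i j hij⟩⟩

/-- the domain for `w` -/
def DD : Set ℂ := {w | 2 ≤ ‖w‖}

theorem DD_ne {w : ℂ} (h : w ∈ DD) : w ≠ 0 := by
  intro h0
  have h1 : (2:ℝ) ≤ ‖w‖ := h
  rw [h0, norm_zero] at h1
  norm_num at h1

theorem DD_inf : DD.Infinite := by
  refine Set.infinite_of_injective_forall_mem (f := fun n : ℕ => ((n:ℂ) + 2)) ?_ ?_
  · intro a b h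
    have : (a:ℂ) = b := by simpa using h
    exact_mod_cast this
  · intro n
    show (2:ℝ) ≤ ‖(n:ℂ) + 2‖
    have : (n:ℂ) + 2 = ((n + 2 : ℕ) : ℂ) := by push_cast; ring
    rw [this, Complex.norm_natCast]
    push_cast
    have : (0:ℝ) ≤ n := Nat.cast_nonneg n
    linarith

theorem om_ne {w x : ℂ} (hw : w ∈ DD) (hx : x ≠ 0) (h1 : ‖x‖ < 2) (h2 : ‖x⁻¹‖ < 2) : om w ≠ om x := by
  have hw0 := DD_ne hw
  have hw2 : (2:ℝ) ≤ ‖w‖ := hw
  intro h
  unfold om at h
  have h3 : (w - x) * (w * x - 1) = 0 := by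
    field_simp at h
    linear_combination h
  rcases mul_eq_zero.mp h3 with h4 | h4
  · rw [sub_eq_zero.mp h4] at hw2
    linarith
  · have : w = x⁻¹ := by
      field_simp
      linear_combination h4
    rw [this] at hw2
    linarith

theorem ev_om (k : ℕ) : ∀ᶠ s in 𝓝[≠] (0:ℂ), ∀ w ∈ DD, ∀ i : Fin k, om w ≠ om (xs k s i) := by
  have h1 : ∀ᶠ s in 𝓝[≠] (0:ℂ), ∀ i : Fin k, xs k s i ≠ 0 ∧ ‖xs k s i‖ < 2 ∧ ‖(xs k s i)⁻¹‖ < 2 := by
    rw [Filter.eventually_all]
    intro i
    have h : ContinuousAt (fun s => xs k s i) 0 := (xs_cont k i).continuousAt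
    have h0 := h.eventually_ne (y := 0) (by rw [xs_zero]; exact one_ne_zero)
    have h2 : ContinuousAt (fun s => ‖xs k s i‖) 0 := h.norm
    have h3 : ContinuousAt (fun s => ‖(xs k s i)⁻¹‖) 0 :=
      (h.inv₀ (by rw [xs_zero]; exact one_ne_zero)).norm
    have h2' := h2.eventually_lt (continuousAt_const (y := (2:ℝ))) (by
      simp only [xs_zero]; norm_num)
    have h3' := h3.eventually_lt (continuousAt_const (y := (2:ℝ))) (by
      simp only [xs_zero]; norm_num)
    filter_upwards [nhdsWithin_le_nhds h0, nhdsWithin_le_nhds h2', nhdsWithin_le_nhds h3'] with s a b c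
    exact ⟨a, b, c⟩
  filter_upwards [h1] with s hs w hw i
  exact om_ne hw (hs i).1 (hs i).2.1 (hs i).2.2

/-! ### lists -/

noncomputable def Lx (k : ℕ) : List (ℂ → ℂ) :=
  (Finset.univ : Finset (Fin k)).toList.flatMap (fun i => [fun s => xs k s i, fun s => (xs k s i)⁻¹])

theorem Lx_map (k : ℕ) (s : ℂ) : (Lx k).map (fun f => f s) = prF (xs k s) Finset.univ := by
  unfold Lx prF prs
  rw [List.map_flatMap, List.flatMap_map]
  rfl

theorem Lx_len (k : ℕ) : (Lx k).length = 2 * k := by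
  have h := congrArg List.length (Lx_map k 0)
  rw [List.length_map] at h
  rw [h]
  unfold prF
  rw [prs_length, List.length_map, Finset.length_toList, Finset.card_univ, Fintype.card_fin]

theorem Lx_cont (k : ℕ) : ∀ f ∈ Lx k, ContinuousAt f 0 := by
  intro f hf
  unfold Lx at hf
  rw [List.mem_flatMap] at hf
  obtain ⟨i, _, hi⟩ := hf
  have h : ContinuousAt (fun s => xs k s i) 0 := (xs_cont k i).continuousAt
  rcases List.mem_cons.mp hi with rfl | hi
  · exact h
  · rcases List.mem_cons.mp hi with rfl | hi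
    · exact h.inv₀ (by rw [xs_zero]; exact one_ne_zero)
    · exact absurd hi List.not_mem_nil

theorem prF_zero (k : ℕ) : prF (xs k 0) Finset.univ = on (2*k) := by
  unfold on
  rw [List.eq_replicate_iff]
  constructor
  · rw [← Lx_map, List.length_map, Lx_len]
  · intro b hb
    unfold prF prs at hb
    rw [List.mem_flatMap] at hb
    obtain ⟨c, hc, hb⟩ := hb
    rw [List.mem_map] at hc
    obtain ⟨i, _, rfl⟩ := hc
    rw [xs_zero] at hb
    simpa using hb

/-- constant functions -/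
theorem mapc (l : List ℂ) (s : ℂ) : (l.map (fun c => (fun _ : ℂ => c))).map (fun f => f s) = l := by
  rw [List.map_map]
  simp [Function.comp_def]

theorem mapc_cont (l : List ℂ) : ∀ f ∈ l.map (fun c => (fun _ : ℂ => c)), ContinuousAt f 0 := by
  intro f hf
  rw [List.mem_map] at hf
  obtain ⟨c, _, rfl⟩ := hf
  exact continuousAt_const

/-- continuity at `0` of `F (U ++ prF (xs k s) ++ V)` -/
theorem cont_mid {N d : ℕ} {F : List ℂ → ℂ} (hF : PD N d F) (k : ℕ) (U V : List ℂ)
    (h : U.length + 2 * k + V.length = N) :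
    ContinuousAt (fun s => F (U ++ (prF (xs k s) Finset.univ ++ V))) 0 := by
  have h1 := PD_contL hF (U.map (fun c => (fun _ : ℂ => c)) ++ (Lx k ++ V.map (fun c => (fun _ : ℂ => c))))
    (by simp [Lx_len]; omega) (by
      intro f hf
      rw [List.mem_append, List.mem_append] at hf
      rcases hf with hf | hf | hf
      · exact mapc_cont U f hf
      · exact Lx_cont k f hf
      · exact mapc_cont V f hf)
  have h2 : (fun s => F (U ++ (prF (xs k s) Finset.univ ++ V))) = fun s =>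
      F ((U.map (fun c => (fun _ : ℂ => c)) ++ (Lx k ++ V.map (fun c => (fun _ : ℂ => c)))).map
        (fun f => f s)) := by
    funext s
    rw [List.map_append, List.map_append, mapc, mapc, Lx_map]
  rw [h2]
  exact h1

end Pool.Agent.NH38.Step.Hom
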