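import Pool.Agent.NH38.Step.Stubs
import Pool.Agent.H863R4.AllPar

/-!
Step channels: task G (all widths, the scaling limit), by helper91.
-/

namespace Pool.Agent.NH38.Step

open Pool.Agent.H988R2.Perc hiding X
open Filter Topology MeasureTheory

theorem cross_mono_left' {a a' : ℕ} (h : a ≤ a') (b : ℕ) : Cross a b ⊆ Cross a' b := by
  rintro ω ⟨x, y, h1, h2, h3, h4⟩
  refine ⟨x, y, h1, h2, h3, h4.lift id ?_⟩
  rintro p q ⟨e1, e2, e3, e4, e5, e6⟩
  have : (a:ℤ) ≤ a' := by exact_mod_cast h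
  show SAdj a' b ω p q
  exact ⟨e1, by linarith, e3, by linarith, e5, e6⟩

theorem cross_succ_right (a b : ℕ) : Cross a (b + 1) ⊆ Cross a b := by
  rintro ω ⟨x, y, h1, h2, h3, h4⟩
  have key : ∀ z, Relation.ReflTransGen (SAdj a (b+1) ω) x z →
      (Relation.ReflTransGen (SAdj a b ω) x z ∧ z.1 - z.2 ≤ b) ∨
        ∃ y : ℤ × ℤ, y.1 - y.2 = b ∧ Relation.ReflTransGen (SAdj a b ω) x y := by
    intro z hz
    induction hz with
    | refl => left; exact ⟨Relation.ReflTransGen.refl, by omega⟩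
    | tail hpq hqr ih =>
      rename_i q r
      rcases ih with ⟨i1, i2⟩ | i3
      · by_cases hq : q.1 - q.2 = b
        · right; exact ⟨q, hq, i1⟩
        · left
          obtain ⟨e1, e2, e3, e4, e5, e6⟩ := hqr
          have hs := Pool.Agent.H863R4.col_step e1
          have hr : r.1 - r.2 ≤ b := by omega
          exact ⟨i1.tail ⟨e1, e2, i2, e4, hr, e6⟩, hr⟩
      · right; exact i3
  rcases key y h4 with ⟨_, h5⟩ | ⟨y', h5, h6⟩
  · exfalso
    push_cast at h3
    omega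
  · exact ⟨x, y', h1, h2, h5, h6⟩

theorem cross_anti_right' (a : ℕ) {b b' : ℕ} (h : b ≤ b') : Cross a b' ⊆ Cross a b := by
  induction b', h using Nat.le_induction with
  | base => exact subset_rfl
  | succ n hn ih => exact (cross_succ_right a n).trans ih

theorem cross_mono_left {a a' : ℕ} (h : a ≤ a') (b : ℕ) :
    perc.real (Cross a b) ≤ perc.real (Cross a' b) :=
  measureReal_mono (cross_mono_left' h b)

theorem cross_anti_right (a : ℕ) {b b' : ℕ} (h : b ≤ b') :
    perc.real (Cross a b') ≤ perc.real (Cross a b) :=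
  measureReal_mono (cross_anti_right' a h)

open Pool.Agent.H863R4 in
/-- translation -/
theorem cross_eq {a : ℕ} (ha : Odd a) (b : ℕ) :
    perc.real (Cross a b) = perc.real (StepCross a (a + b)) := by
  obtain ⟨k, hk⟩ := ha
  have hkz : (a:ℤ) = 2 * k + 1 := by exact_mod_cast hk
  rw [← perc_map (sh (k + 1) (-k)) (StepCross a (a + b))]
  congr 1
  have hstep : ∀ (ω : Conf) (x y : ℤ × ℤ), SAdj a b ω x y ↔
      StepAdj a (a+b) (fun i => ω ((sh (k+1) (-k)).symm i)) (x.1 + (k+1), x.2 + (-k))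
        (y.1 + (k+1), y.2 + (-k)) := by
    intro ω x y
    unfold SAdj StepAdj
    rw [openAdj_sh]
    simp only
    push_cast
    constructor
    · rintro ⟨e1, e2, e3, e4, e5, e6⟩
      exact ⟨e1, ⟨by omega, by omega⟩, ⟨by omega, by omega⟩, by omega⟩
    · rintro ⟨e1, ⟨e2, e3⟩, ⟨e4, e5⟩, e6⟩
      exact ⟨e1, by omega, by omega, by omega, by omega, by omega⟩
  ext ω
  constructor
  · rintro ⟨x, y, h1, h2, h3, h4⟩
    refine ⟨(x.1 + (k+1), x.2 + (-k)), (y.1 + (k+1), y.2 + (-k)), ?_, ?_, ?_, ?_⟩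
    · show x.1 + (k+1) - (x.2 + (-k)) = (a:ℤ); omega
    · show 1 ≤ x.1 + (k+1) + (x.2 + (-k)); omega
    · show y.1 + (k+1) - (y.2 + (-k)) = ((a+b : ℕ) : ℤ); push_cast; omega
    · exact h4.lift (fun z : ℤ × ℤ => (z.1 + (k+1), z.2 + (-k))) fun p q hpq => (hstep ω p q).mp hpq
  · rintro ⟨x, y, h1, h2, h3, h4⟩
    refine ⟨(x.1 - (k+1), x.2 - (-k)), (y.1 - (k+1), y.2 - (-k)), ?_, ?_, ?_, ?_⟩
    · show x.1 - (k+1) - (x.2 - (-k)) = 0; omega
    · show 0 ≤ x.1 - (k+1) + (x.2 - (-k)); omega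
    · show y.1 - (k+1) - (y.2 - (-k)) = (b:ℤ); push_cast at h3; omega
    · refine h4.lift (fun z : ℤ × ℤ => (z.1 - (k+1), z.2 - (-k))) fun p q hpq => ?_
      show SAdj a b ω (p.1 - (k+1), p.2 - (-k)) (q.1 - (k+1), q.2 - (-k))
      rw [hstep]
      simpa using hpq

/-! ## the limit for all widths -/

/-- even number below -/
def ed (n : ℕ) : ℕ := if n % 2 = 0 then n else n - 1
/-- even number above -/
def eu (n : ℕ) : ℕ := if n % 2 = 0 then n else n + 1

theorem ed_even (n : ℕ) : Even (ed n) := by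
  rw [Nat.even_iff]; unfold ed; split_ifs <;> omega
theorem eu_even (n : ℕ) : Even (eu n) := by
  rw [Nat.even_iff]; unfold eu; split_ifs <;> omega
theorem ed_le (n : ℕ) : ed n ≤ n := by unfold ed; split_ifs <;> omega
theorem ed_pos {n : ℕ} (h : 2 ≤ n) : 0 < ed n := by unfold ed; split_ifs <;> omega
theorem le_eu (n : ℕ) : n ≤ eu n := by unfold eu; split_ifs <;> omega
theorem ed_dist (n : ℕ) : |(ed n : ℝ) - n| ≤ 1 := by
  have h1 : ed n ≤ n + 1 := by unfold ed; split_ifs <;> omega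
  have h2 : n ≤ ed n + 1 := by unfold ed; split_ifs <;> omega
  have h1' : (ed n : ℝ) ≤ n + 1 := by exact_mod_cast h1
  have h2' : (n : ℝ) ≤ ed n + 1 := by exact_mod_cast h2
  rw [abs_le]; constructor <;> linarith
theorem eu_dist (n : ℕ) : |(eu n : ℝ) - n| ≤ 1 := by
  have h1 : eu n ≤ n + 1 := by unfold eu; split_ifs <;> omega
  have h2 : n ≤ eu n + 1 := by unfold eu; split_ifs <;> omega
  have h1' : (eu n : ℝ) ≤ n + 1 := by exact_mod_cast h1
  have h2' : (n : ℝ) ≤ eu n + 1 := by exact_mod_cast h2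
  rw [abs_le]; constructor <;> linarith

/-- the limit for odd `a`, even `b` -/
theorem odd_tendsto (hE : S_Exact) (hA : S_Asy) {a b : ℕ → ℕ} {x : ℝ} (hx : x ∈ Set.Icc (0:ℝ) 1)
    (ha : ∀ n, Odd (a n)) (hb : ∀ n, Even (b n)) (hb' : ∀ᶠ n in atTop, 0 < b n)
    (h1 : Tendsto (fun n => (a n : ℝ) + b n) atTop atTop)
    (h2 : Tendsto (fun n => (a n : ℝ) / (a n + b n)) atTop (𝓝 x)) :
    Tendsto (fun n => perc.real (Cross (a n) (b n))) atTop (𝓝 (cardy (x^2))) := by
  have hodd : ∀ n, Odd (a n + b n) := fun n => (ha n).add_even (hb n)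
  have h1' : Tendsto (fun n => a n + b n) atTop atTop := by
    rw [← tendsto_natCast_atTop_iff (R := ℝ)]
    refine h1.congr fun n => ?_
    push_cast
    rfl
  have h2' : Tendsto (fun n => (a n : ℝ) / ((a n + b n : ℕ) : ℝ)) atTop (𝓝 x) := by
    refine h2.congr fun n => ?_
    push_cast
    rfl
  refine (hA a (fun n => a n + b n) x hx ha hodd (fun n => Nat.le_add_right _ _) h1' h2').congr' ?_
  filter_upwards [hb'] with n hn
  rw [cross_eq (ha n), hE (a n) (a n + b n) (ha n) (hodd n) (by omega)]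

/-- **The limit, all widths.** -/
theorem cross_tendsto (hE : S_Exact) (hA : S_Asy) (a b : ℕ → ℕ) (x : ℝ) (hx : x ∈ Set.Icc (0:ℝ) 1)
    (ha : ∀ᶠ n in atTop, 1 ≤ a n) (hb : ∀ᶠ n in atTop, 2 ≤ b n)
    (h1 : Tendsto (fun n => (a n : ℝ) + b n) atTop atTop)
    (h2 : Tendsto (fun n => (a n : ℝ) / (a n + b n)) atTop (𝓝 x)) :
    Tendsto (fun n => perc.real (Cross (a n) (b n))) atTop (𝓝 (cardy (x^2))) := by
  obtain ⟨g1, g2⟩ := Pool.Agent.H863R4.ratio_lim (a' := fun n => Pool.Agent.H863R4.od (a n))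
    (b' := fun n => eu (b n)) h1 h2 (fun n => Pool.Agent.H863R4.od_dist _) (fun n => eu_dist _)
  have h3 := odd_tendsto hE hA hx (fun n => Pool.Agent.H863R4.od_odd (a n))
    (fun n => eu_even (b n)) (hb.mono fun n hn => by have := le_eu (b n); omega) g1 g2
  obtain ⟨g3, g4⟩ := Pool.Agent.H863R4.ratio_lim (a' := fun n => Pool.Agent.H863R4.ou (a n))
    (b' := fun n => ed (b n)) h1 h2 (fun n => Pool.Agent.H863R4.ou_dist _) (fun n => ed_dist _)
  have h4 := odd_tendsto hE hA hx (fun n => Pool.Agent.H863R4.ou_odd (a n))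
    (fun n => ed_even (b n)) (hb.mono fun n hn => ed_pos hn) g3 g4
  refine tendsto_of_tendsto_of_tendsto_of_le_of_le' h3 h4 ?_ ?_
  · filter_upwards [ha] with n hn
    exact (cross_mono_left (Pool.Agent.H863R4.od_le (by omega)) _).trans
      (cross_anti_right _ (le_eu _))
  · refine Eventually.of_forall fun n => ?_
    exact (cross_mono_left (Pool.Agent.H863R4.le_ou _) _).trans (cross_anti_right _ (ed_le _))

theorem t_G : S_G := by
  intro hE hA α β hα hβ δ a b hδ hδ0 ha hb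
  have hab : 0 < α + β := add_pos hα hβ
  have x0 : 0 < α / (α + β) := div_pos hα hab
  have x1 : α / (α + β) < 1 := by rw [div_lt_one hab]; linarith
  have hinv : Tendsto (fun n => (δ n)⁻¹) atTop atTop :=
    (tendsto_nhdsWithin_iff.mpr ⟨hδ0, Eventually.of_forall hδ⟩).inv_tendsto_nhdsGT_zero
  have hsum : Tendsto (fun n => δ n * ((a n : ℝ) + b n)) atTop (𝓝 (α + β)) := by
    refine (ha.add hb).congr fun n => by ring
  have lim : ∀ (c : ℕ → ℝ) (γ : ℝ), 0 < γ → Tendsto (fun n => δ n * c n) atTop (𝓝 γ) →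
      Tendsto c atTop atTop := by
    intro c γ hγ hc
    have := hinv.atTop_mul_pos hγ hc
    refine this.congr fun n => ?_
    rw [← mul_assoc, inv_mul_cancel₀ (hδ n).ne', one_mul]
  have ea : ∀ᶠ n in atTop, 1 ≤ a n := by
    filter_upwards [(lim _ _ hα ha).eventually_ge_atTop 1] with n hn
    exact_mod_cast hn
  have eb : ∀ᶠ n in atTop, 2 ≤ b n := by
    filter_upwards [(lim _ _ hβ hb).eventually_ge_atTop 2] with n hn
    exact_mod_cast hn
  apply cross_tendsto hE hA a b _ ⟨x0.le, x1.le⟩ ea eb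
  · exact lim _ _ hab hsum
  · refine (ha.div hsum hab.ne').congr fun n => ?_
    simp only [Pi.div_apply]
    rw [mul_div_mul_left _ _ (hδ n).ne']

end Pool.Agent.NH38.Step
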