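import Pool.Agent.NH38.Step.A1
import Pool.Agent.NH38.Step.A2
import Pool.Agent.NH38.Step.Perc2
import Pool.Agent.NH38.Step.Conf
import Pool.Agent.NH38.Step.Lim
import Pool.Agent.NH38.Step.DA
import Pool.Agent.NH38.Step.DB
import Pool.Agent.NH38.Step.Hom
import Pool.Agent.NH38.Step.C10

/-!
Step channels (helper38): assembly.
-/

namespace Pool.Agent.NH38.Step

theorem generic : S_C := t_C t_D1 t_D1T t_D2 t_D3 t_D4 t_D5 t_D6 t_D7 t_D8 t_D9

theorem algebra : S_Alg := t_H generic

theorem exact_formula : S_Exact := exact_of t_P t_T algebra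

theorem asy : S_Asy := t_Asy t_A1a t_A1b t_A1c t_A2

theorem scaling : S_Lim := t_G exact_formula asy

end Pool.Agent.NH38.Step
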