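import Pool.Agent.NH38.Step.Stubs
import Pool.Agent.H980R3.Slit.All

/-!
Step channels: the percolation link, pointwise part (helper2).  The step channel is the slit strip
of the configuration in which the edges of the upper right strip are closed.
-/

namespace Pool.Agent.NH38.Step

open Pool.Agent.H988R2.Perc Pool.Agent.H980R3.Slit Relation

namespace PL

/-- the edges of the upper right strip -/
def Up (a : ℕ) : Edge → Prop
  | (u, v, false) => 1 ≤ u + v ∧ (a : ℤ) < u + 1 - v
  | (u, v, true) => 1 ≤ u + v ∧ (a : ℤ) < u - v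

instance (a : ℕ) : DecidablePred (Up a) := fun e => by
  obtain ⟨u, v, c⟩ := e
  cases c <;> (unfold Up; infer_instance)

/-- close the edges of the upper right strip -/
def cl (a : ℕ) (ω : Conf) : Conf := fun e => if Up a e then false else ω e

theorem up_edgeOf (a : ℕ) (i r : ℤ) : Up a (edgeOf i r) ↔ 0 ≤ r ∧ (a : ℤ) < i := by
  unfold edgeOf
  split_ifs with h
  · simp only [Up]; omega
  · simp only [Up]; omega

theorem cl_of_not {a : ℕ} {ω : Conf} {e : Edge} (h : ¬ Up a e) : cl a ω e = ω e := by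
  unfold cl; rw [if_neg h]

theorem cl_of_up {a : ℕ} {ω : Conf} {e : Edge} (h : Up a e) : cl a ω e = false := by
  unfold cl; rw [if_pos h]

theorem cl_true {a : ℕ} {ω : Conf} {e : Edge} : cl a ω e = true ↔ ¬ Up a e ∧ ω e = true := by
  by_cases h : Up a e
  · rw [cl_of_up h]; simp [h]
  · rw [cl_of_not h]; simp [h]

theorem slit_iff (a b : ℕ) (ω : Conf) (x y : ℤ × ℤ) :
    SlitAdj a b (cl a ω) x y ↔ StepAdj a (a+b+1) ω x y := by
  obtain ⟨x1, x2⟩ := x
  obtain ⟨y1, y2⟩ := y
  unfold SlitAdj StepAdj OpenAdj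
  simp only [cl_true, Up, Prod.mk.injEq]
  push_cast
  constructor
  · rintro ⟨h, h1, h2, h3⟩
    refine ⟨?_, h1, h2, ?_⟩
    · rcases h with ⟨e, h4, h5⟩ | ⟨e, h4, h5⟩ | ⟨e, h4, h5⟩ | ⟨e, h4, h5⟩
      · exact Or.inl ⟨e, h5⟩
      · exact Or.inr (Or.inl ⟨e, h5⟩)
      · exact Or.inr (Or.inr (Or.inl ⟨e, h5⟩))
      · exact Or.inr (Or.inr (Or.inr ⟨e, h5⟩))
    · rcases h with ⟨e, h4, h5⟩ | ⟨e, h4, h5⟩ | ⟨e, h4, h5⟩ | ⟨e, h4, h5⟩ <;> omega
  · rintro ⟨h, h1, h2, h3⟩
    refine ⟨?_, h1, h2, ?_⟩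
    · rcases h with ⟨e, h5⟩ | ⟨e, h5⟩ | ⟨e, h5⟩ | ⟨e, h5⟩
      · exact Or.inl ⟨e, by omega, h5⟩
      · exact Or.inr (Or.inl ⟨e, by omega, h5⟩)
      · exact Or.inr (Or.inr (Or.inl ⟨e, by omega, h5⟩))
      · exact Or.inr (Or.inr (Or.inr ⟨e, by omega, h5⟩))
    · omega

theorem stepCross_eq (a b : ℕ) (ω : Conf) :
    ω ∈ StepCross a (a+b+1) ↔ cl a ω ∈ SlitCross a b := by
  have e : SlitAdj a b (cl a ω) = StepAdj a (a+b+1) ω := by
    funext x y; exact propext (slit_iff a b ω x y)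
  unfold StepCross SlitCross
  simp only [Set.mem_ofPred_eq, e]
  push_cast
  rfl

/-- the window event of the step channel -/
def WinT (a b M : ℕ) : Set Conf :=
  {ω | conn3 a b (X (a+b+1) (actBit (oPast ω M)) M) (X a (actBit (oFut ω M)) M) St.bot}

theorem past_cl (a L M : ℕ) (ω : Conf) :
    X L (actBit (oPast (cl a ω) M)) M = X L (actBit (oPast ω M)) M := by
  apply T23.X_congr
  intro k i hk h1 h2
  have : oPast (cl a ω) M k i = oPast ω M k i := by
    unfold oPast
    refine cl_of_not fun h => ?_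
    rw [up_edgeOf] at h
    omega
  simp only [actBit, this]

theorem fut_cl (a M : ℕ) (ω : Conf) :
    X a (actBit (oFut (cl a ω) M)) M = X a (actBit (oFut ω M)) M := by
  apply T23.X_congr
  intro k i hk h1 h2
  have : oFut (cl a ω) M k i = oFut ω M k i := by
    unfold oFut
    refine cl_of_not fun h => ?_
    rw [up_edgeOf] at h
    omega
  simp only [actBit, this]

theorem futR_cl (a b M : ℕ) (ω : Conf) (ha : Odd a) (hb : Odd b) (x y : ℕ)
    (h : (X b (actBit (oFutR a (cl a ω) M)) M).rel x y) : x = y := by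
  by_contra hne
  have ho : x % 2 = 1 ∧ y % 2 = 1 := by
    rcases (X b (actBit (oFutR a (cl a ω) M)) M).odd _ _ h with h' | h'
    · exact absurd h' hne
    · exact h'
  have hs : x ≤ b ∧ y ≤ b := by
    rcases X_supp b hb M _ _ _ h with h' | h'
    · exact absurd h' hne
    · exact h'
  have h4 := (t_C03 a b M (cl a ω) x y ha hb ho.1 ho.2 hs.1 hs.2).1 h
  have key : ∀ p q : ℤ × ℤ, EqvGen (E2 a b M (cl a ω)) p q →
      p = q ∨ (p.1 = a + b + 1 ∧ q.1 = a + b + 1) := by
    intro p q hpq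
    induction hpq with
    | rel p q h =>
      rcases h with ⟨i, r, g1, g2, g3, g4, g5, g6⟩ | h
      · exfalso
        have := (cl_true.1 g5).1
        rw [up_edgeOf] at this
        omega
      · exact Or.inr h
    | refl p => exact Or.inl rfl
    | symm p q _ ih =>
      rcases ih with h | h
      · exact Or.inl h.symm
      · exact Or.inr ⟨h.2, h.1⟩
    | trans p q r _ _ ih1 ih2 =>
      rcases ih1 with h | h
      · subst h; exact ih2
      · rcases ih2 with k | k
        · subst k; exact Or.inr h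
        · exact Or.inr ⟨h.1, k.2⟩
  rcases key _ _ h4 with h5 | h5
  · have := congrArg Prod.fst h5
    simp only at this
    omega
  · simp only at h5
    omega

theorem conn3_triv (a b : ℕ) (R R1 R2 : St) (h : ∀ x y, R2.rel x y → x = y) :
    conn3 a b R R1 R2 ↔ conn3 a b R R1 St.bot := by
  have e : J3 a R R1 R2 = J3 a R R1 St.bot := by
    funext x y
    apply propext
    unfold J3
    constructor
    · rintro (k | k | ⟨k1, k2, k3⟩)
      · exact Or.inl k
      · exact Or.inr (Or.inl k)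
      · exact Or.inr (Or.inr ⟨k1, k2, h _ _ k3⟩)
    · rintro (k | k | ⟨k1, k2, k3⟩)
      · exact Or.inl k
      · exact Or.inr (Or.inl k)
      · refine Or.inr (Or.inr ⟨k1, k2, ?_⟩)
        have k3' : x - (a+1) = y - (a+1) := k3
        rw [k3']
        exact R2.eqv.refl _
  unfold conn3
  rw [e]

theorem winT_iff (a b M : ℕ) (ω : Conf) (ha : Odd a) (hb : Odd b) :
    cl a ω ∈ WinS a b M ↔ ω ∈ WinT a b M := by
  unfold WinS WinT
  simp only [Set.mem_ofPred_eq]
  rw [past_cl, fut_cl]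
  exact conn3_triv a b _ _ _ (fun x y h => futR_cl a b M ω ha hb x y h)

theorem winT_mono {a b : ℕ} (ha : Odd a) (hb : Odd b) : Monotone (WinT a b) := by
  intro M M' hM ω h
  rw [← winT_iff a b M' ω ha hb]
  have h' := (winT_iff a b M ω ha hb).2 h
  exact winS_mono (t_C04 t_C01 t_C02 t_C03) (t_C05 t_C01 t_C02 t_C03) ha hb hM h'

theorem iUnion_winT {a b : ℕ} (ha : Odd a) (hb : Odd b) :
    ⋃ M, WinT a b M = StepCross a (a+b+1) := by
  ext ω
  rw [stepCross_eq, ← iUnion_winS (t_C04 t_C01 t_C02 t_C03) (t_C05 t_C01 t_C02 t_C03) t_C06 t_C07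
    ha hb, Set.mem_iUnion, Set.mem_iUnion]
  exact exists_congr fun M => (winT_iff a b M ω ha hb).symm

end PL

end Pool.Agent.NH38.Step
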