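import Pool.Agent.NH38.Step.Defs

/-!
Step channels (helper38): statements of the tasks (nothing is proved here).
-/

namespace Pool.Agent.NH38.Step

open Pool.Agent.H988R2.Perc hiding X
open Pool.Agent.H988C Polynomial Filter Topology

/-! ## TASK A1: algebra of the numbers `U(a,N)` -/

/-- `g_k^{(n)} = 2 (n-k) (U(k,n-1) - U(k-1,n))`, with the convention `U(-1,N) = -U(0,N)` -/
noncomputable def gg (n : ℕ) : ℕ → ℚ
  | 0 => 2 * n * (UU 0 (n-1) + UU 0 n)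
  | k+1 => 2 * ((n:ℚ) - (k+1)) * (UU (k+1) (n-1) - UU k n)

/-- three term recursion -/
def S_A1a : Prop := ∀ n k : ℕ, 1 ≤ k → k < n →
  (3 * (k:ℚ) + 2) * (2 * k - 1) * gg n (k+1) +
    2 * k * (((n:ℚ)^2 + 3 * k^2 - 1) / (n^2 - k^2)) * gg n k =
  (3 * (k:ℚ) - 2) * (2 * k + 1) * gg n (k-1)

/-- `U(2m-1, 2p-1)` as a sum -/
def S_A1b : Prop := ∀ p m : ℕ, 1 ≤ m → m ≤ p →
  UU (2*m-1) (2*p-1) = ∑ i ∈ Finset.range m,
    (gg (2*p) (2*i+1) / (2*(p:ℚ) - 1 - 2*i) + gg (2*p) (2*i) / (2*(p:ℚ) + 2*i)) / 2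

/-- the diagonal -/
def S_A1c : Prop := ∀ n : ℕ, UU n n = 1

/-! ## TASK A2: analysis -/

/-- partial sums -/
noncomputable def SS (g : ℕ → ℕ → ℝ) (p m : ℕ) : ℝ := ∑ i ∈ Finset.range m,
    (g (2*p) (2*i+1) / (2*(p:ℝ) - 1 - 2*i) + g (2*p) (2*i) / (2*(p:ℝ) + 2*i)) / 2

def S_A2 : Prop := ∀ g : ℕ → ℕ → ℝ, (∀ p, 1 ≤ p → g (2*p) (2*p) = 0) →
  (∀ p, 1 ≤ p → 0 < g (2*p) (2*p-1)) →
  (∀ p k : ℕ, 1 ≤ k → k < 2*p →
    (3 * (k:ℝ) + 2) * (2 * k - 1) * g (2*p) (k+1) +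
      2 * k * (((2*p:ℝ)^2 + 3 * k^2 - 1) / ((2*p:ℝ)^2 - k^2)) * g (2*p) k =
    (3 * (k:ℝ) - 2) * (2 * k + 1) * g (2*p) (k-1)) →
  ∀ (p m : ℕ → ℕ) (x : ℝ), x ∈ Set.Icc (0:ℝ) 1 → (∀ i, m i ≤ p i) → Tendsto p atTop atTop →
    Tendsto (fun i => (m i : ℝ) / p i) atTop (𝓝 x) →
    Tendsto (fun i => SS g (p i) (m i) / SS g (p i) (p i)) atTop (𝓝 (cardy (x^2)))

/-- the asymptotics of `U` -/
def S_Asy : Prop := ∀ (a N : ℕ → ℕ) (x : ℝ), x ∈ Set.Icc (0:ℝ) 1 → (∀ i, Odd (a i)) →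
  (∀ i, Odd (N i)) → (∀ i, a i ≤ N i) → Tendsto N atTop atTop →
  Tendsto (fun i => (a i : ℝ) / N i) atTop (𝓝 x) →
  Tendsto (fun i => ((UU (a i) (N i) : ℚ) : ℝ)) atTop (𝓝 (cardy (x^2)))

/-! ## TASK P: percolation link -/

theorem on_odd {a : ℕ} (ha : Odd a) : Odd (on a).length := by simpa [on] using ha

def S_P : Prop := ∀ (a k : ℕ) (ha : Odd a),
  ((perc.real (StepCross a (a + 2*k + 2)) : ℝ) : ℂ) * TQ (on a) 1 (on (2*k)) 1 =
    GQ (on a) (on_odd ha) 1 (on (2*k)) 1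

/-- the total mass is not zero -/
def S_T : Prop := ∀ a k : ℕ, Odd a → TQ (on a) 1 (on (2*k)) 1 ≠ 0

/-! ## the algebraic part (output) -/

def S_Alg : Prop := ∀ (a k : ℕ) (ha : Odd a),
  GQ (on a) (on_odd ha) 1 (on (2*k)) 1 = ((UU a (a + 2*k + 2) : ℚ) : ℂ) * TQ (on a) 1 (on (2*k)) 1

/-- the exact formula -/
def S_Exact : Prop := ∀ a L : ℕ, Odd a → Odd L → a < L →
  perc.real (StepCross a L) = ((UU a L : ℚ) : ℝ)

theorem exact_of (hP : S_P) (hT : S_T) (hA : S_Alg) : S_Exact := by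
  intro a L ha hL haL
  obtain ⟨k, hk⟩ : ∃ k, L = a + 2*k + 2 := by
    obtain ⟨i, hi⟩ := ha
    obtain ⟨j, hj⟩ := hL
    exact ⟨j - i - 1, by omega⟩
  subst hk
  have h := hP a k ha
  rw [hA a k ha] at h
  have h2 := mul_right_cancel₀ (hT a k ha) h
  exact_mod_cast h2

/-! ## TASK F: the conformal map -/

/-- the step channel `{-α < X < β, Y < 0} ∪ {-α < X < 0}` -/
def Dom (α β : ℝ) : Set ℂ := {w | -α < w.re ∧ w.re < β ∧ (0 ≤ w.re → w.im < 0)}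

/-- `f` is an orientation reversing conformal map of the upper half-plane onto the step channel,
with the boundary correspondence: left wall, right wall of the upper arm, corner `0`, ledge,
corner `β`, right wall of the lower arm = `(-∞,0)`, `(0,x)`, `x`, `(x,1)`, `1`, `(1,∞)`. -/
structure Uniformizes (α β x : ℝ) (f : ℂ → ℂ) : Prop where
  /-- the complex conjugate of `f` is holomorphic in the upper half-plane -/
  holo : DifferentiableOn ℂ (fun z => (starRingEnd ℂ) (f z)) {z | 0 < z.im}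
  /-- `f` is a bijection of the upper half-plane onto the step channel -/
  bij : Set.BijOn f {z | 0 < z.im} (Dom α β)
  /-- `f` is continuous up to the boundary (without `0`) -/
  cont : ContinuousOn f {z : ℂ | 0 ≤ z.im ∧ z ≠ 0}
  /-- `(-∞,0)` is mapped to the left wall -/
  leftWall : Set.BijOn (fun t : ℝ => f t) (Set.Iio 0) {w | w.re = -α}
  /-- `(0,x)` is mapped to the right wall of the upper arm -/
  innerWall : Set.BijOn (fun t : ℝ => f t) (Set.Ioo 0 x) {w | w.re = 0 ∧ 0 < w.im}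
  /-- `x` is mapped to the inner corner -/
  corner : f (x : ℂ) = 0
  /-- `(x,1)` is mapped to the ledge -/
  ledge : Set.BijOn (fun t : ℝ => f t) (Set.Ioo x 1) {w | w.im = 0 ∧ 0 < w.re ∧ w.re < β}
  /-- `1` is mapped to the outer corner -/
  corner' : f 1 = (β : ℂ)
  /-- `(1,∞)` is mapped to the right wall of the lower arm -/
  rightWall : Set.BijOn (fun t : ℝ => f t) (Set.Ioi 1) {w | w.re = β ∧ w.im < 0}

def S_F : Prop := ∀ α β : ℝ, 0 < α → 0 < β → ∃ f : ℂ → ℂ, Uniformizes α β ((α / (α + β))^2) f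

/-! ## TASK G: all widths, the scaling limit -/

/-- The column of the vertex `(u,v)` is `u - v`, its height is `u + v`. Open edges of the step
channel: both ends have their column in `[-a, b]`; the edges with both ends at height `≥ 0` and an
end in a column `> 0` are removed. -/
def SAdj (a b : ℕ) (ω : Conf) (x y : ℤ × ℤ) : Prop :=
  OpenAdj ω x y ∧ -(a:ℤ) ≤ x.1 - x.2 ∧ x.1 - x.2 ≤ b ∧ -(a:ℤ) ≤ y.1 - y.2 ∧ y.1 - y.2 ≤ b ∧
    ¬ (0 ≤ x.1 + x.2 ∧ 0 ≤ y.1 + y.2 ∧ (0 < x.1 - x.2 ∨ 0 < y.1 - y.2))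

/-- There is an open path of the step channel from a vertex of the right wall of the upper arm
(column `0`, height `≥ 0`) to a vertex of the right wall of the lower arm (column `b`). -/
def Cross (a b : ℕ) : Set Conf :=
  {ω | ∃ x y : ℤ × ℤ, x.1 - x.2 = 0 ∧ 0 ≤ x.1 + x.2 ∧ y.1 - y.2 = b ∧
    Relation.ReflTransGen (SAdj a b ω) x y}

/-- the scaling limit -/
def S_Lim : Prop := ∀ (α β : ℝ), 0 < α → 0 < β → ∀ (δ : ℕ → ℝ) (a b : ℕ → ℕ), (∀ n, 0 < δ n) →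
  Tendsto δ atTop (𝓝 0) → Tendsto (fun n => δ n * a n) atTop (𝓝 α) →
  Tendsto (fun n => δ n * b n) atTop (𝓝 β) →
  Tendsto (fun n => perc.real (Cross (a n) (b n))) atTop (𝓝 (cardy ((α / (α + β))^2)))

/-- TASK G: prove `S_Exact → S_Asy → S_Lim` -/
def S_G : Prop := S_Exact → S_Asy → S_Lim

end Pool.Agent.NH38.Step
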