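import Pool.Agent.NH38.Step.Stubs
import Pool.Agent.H988R2.Perc.T14

/-!
Step channels (helper38): statements of the qKZ tasks (nothing is proved here).
-/

namespace Pool.Agent.NH38.Step

open Pool.Agent.H988R2.Perc hiding X
open Pool.Agent.H988C Polynomial Filter Topology

/-! ## TASK D: the qKZ facts for `GQ` -/

/-- degree in `w` -/
def S_D1 : Prop := ∀ (A Y : List ℂ) (ha : Odd A.length) (_ : Even Y.length) (v : ℂ),
  ∃ P : ℂ[X], P.natDegree ≤ A.length + Y.length + 1 ∧ ∀ w, GQ A ha w Y v = P.eval w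

def S_D1T : Prop := ∀ (A Y : List ℂ) (_ : Odd A.length) (_ : Even Y.length) (v : ℂ),
  ∃ P : ℂ[X], P.natDegree ≤ A.length + Y.length + 1 ∧ ∀ w, TQ A w Y v = P.eval w

/-- joint polynomiality along polynomial families of parameters -/
def S_D2 : Prop := ∀ (A Y : List ℂ[X]) (v : ℂ[X]) (ha : Odd A.length) (_ : Even Y.length),
  ∃ Q : ℂ[X][X], Q.natDegree ≤ A.length + Y.length + 1 ∧
    ∀ s W : ℂ, (∀ x ∈ A, x.eval s ≠ 0) → (Q.map (evalRingHom s)).eval W =
      ((A.map (fun p => p.eval s)).prod) ^ (A.length - 1) *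
        GQ (A.map (fun p => p.eval s)) (by simpa using ha) W (Y.map (fun p => p.eval s)) (v.eval s)

/-- symmetry in the variables of `A` -/
def S_D3 : Prop := ∀ (A A' Y : List ℂ) (ha : Odd A.length) (ha' : Odd A'.length) (w v : ℂ)
  (_ : Even Y.length) (_ : A.Perm A') (_ : ∀ z ∈ A, z ≠ 0), GQ A ha w Y v = GQ A' ha' w Y v

/-- cup relation: `w = q² u^{±1}`, `u` a variable of the upper strip -/
def S_D4 : Prop := ∀ (A Y : List ℂ) (u v : ℂ) (hA : Even A.length) (_ : Even Y.length) (_ : u ≠ 0)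
  (_ : ∀ z ∈ A, z ≠ 0) (_ : ∀ z ∈ Y, z ≠ 0) (_ : v ≠ 0),
  GQ (A ++ [u]) (by simpa using hA.add_one) (q^2 * u) Y v *
      (u^(A.length + Y.length + 2) * fac u⁻¹ (A ++ (Y ++ [v, 0]))) =
    GQ (A ++ [u]) (by simpa using hA.add_one) (q^2 * u⁻¹) Y v * fac u (A ++ (Y ++ [v, 0]))

/-- recursion: the strand `w` and its right neighbour -/
def S_D5 : Prop := ∀ (A Y : List ℂ) (ha : Odd A.length) (_ : Even Y.length) (w y v : ℂ),
  GQ A ha w ((q^2 * w) :: y :: Y) v = fac w (A ++ y :: (Y ++ [v, 0])) * GQ A ha y Y v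

/-- `GQ` only depends on the multiset of the reflected pairs -/
def S_D6 : Prop := ∀ (A X X' : List ℂ) (ha : Odd A.length) (w v : ℂ) (_ : X.Perm X')
  (_ : ∀ z ∈ X, z ≠ 0), GQ A ha w (prs X) v = GQ A ha w (prs X') v

/-- inversion of a reflected variable -/
def S_D7 : Prop := ∀ (A Y1 Y2 : List ℂ) (ha : Odd A.length) (_ : Even Y1.length) (_ : Even Y2.length)
  (w x y v : ℂ), GQ A ha w (Y1 ++ x :: y :: Y2) v = GQ A ha w (Y1 ++ y :: x :: Y2) v

/-- bottom coefficient -/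
def S_D8 : Prop := ∀ (A Y : List ℂ) (ha : Odd A.length) (_ : Even Y.length) (v : ℂ)
  (_ : ∀ z ∈ Y, z ≠ 0) (_ : v ≠ 0), GQ A ha 0 Y v = -q^2 * TQ A 0 Y v

/-- top coefficient -/
def S_D9 : Prop := ∀ (A Y : List ℂ) (ha : Odd A.length) (_ : Even Y.length) (v : ℂ) (p t : ℂ[X])
  (_ : p.natDegree ≤ A.length + Y.length + 1) (_ : t.natDegree ≤ A.length + Y.length + 1)
  (_ : ∀ W, GQ A ha W Y v = p.eval W) (_ : ∀ W, TQ A W Y v = t.eval W),
  p.coeff (A.length + Y.length + 1) = -q * t.coeff (A.length + Y.length + 1)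

/-! ## TASK C: the generic formula -/

/-- `E(a,b) = a² + ab + b² - 3` -/
noncomputable def EE (a b : ℂ) : ℂ := a^2 + a*b + b^2 - 3

/-- normalised `Z` for lists of even length -/
noncomputable def zs (l : List ℂ) : ℂ :=
  Z l / (l.prod^(l.length/2 - 1) * q^((l.length/2) * (l.length/2 - 1)))

/-- the reflected pairs of a finite family -/
noncomputable def prF {ι : Type} (x : ι → ℂ) (s : Finset ι) : List ℂ := prs (s.toList.map x)

theorem prs_length (X : List ℂ) : (prs X).length = 2 * X.length := by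
  induction X with
  | nil => rfl
  | cons x X ih =>
    have : prs (x :: X) = x :: x⁻¹ :: prs X := rfl
    rw [this, List.length_cons, List.length_cons, ih, List.length_cons]; ring

open Classical in
/-- the formula -/
noncomputable def RHS {ι : Type} (x : ι → ℂ) (A : List ℂ) (w v : ℂ) (s : Finset ι) : ℂ :=
  (om v - om (q^2*w)) * (∏ j ∈ s, EE (om w) (om (x j)) / (om w - om (x j))) * zs (w :: A) *
    zs (v :: (A ++ prF x s)) -
  ∑ i ∈ s, (om (q*w) + om (x i) + om v) / (om w - om (x i)) * EE (om (x i)) (om (x i)) *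
    (∏ j ∈ s.erase i, EE (om (x i)) (om (x j)) / (om (x i) - om (x j))) * zs (x i :: A) *
    zs (w :: v :: x i :: (A ++ prF x (s.erase i)))

/-- the normalisation of `TQ` -/
noncomputable def cst (A : List ℂ) (w v : ℂ) (k : ℕ) : ℂ :=
  A.prod^(k+1) * (w * v)^((A.length+1)/2 + k) *
    q^(((A.length+1)/2 + k + 1) * ((A.length+1)/2 + k) + (A.length+1)/2 * ((A.length+1)/2 - 1))

/-- generic position -/
def Gen {ι : Type} (x : ι → ℂ) : Prop :=
  (∀ i, x i ≠ 0 ∧ (x i)^6 ≠ 1) ∧ ∀ i j, i ≠ j → (x i)^6 ≠ (x j)^6 ∧ (x i * x j)^6 ≠ 1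

def S_C : Prop := ∀ {ι : Type} (x : ι → ℂ), Gen x → ∀ (s : Finset ι) (A : List ℂ) (ha : Odd A.length),
  (∀ z ∈ A, z ≠ 0) → ∀ v w : ℂ, v ≠ 0 → w ≠ 0 → (∀ i ∈ s, om w ≠ om (x i)) →
  TQ A w (prF x s) v - GQ A ha w (prF x s) v = cst A w v s.card * RHS x A w v s

/-! ## TASK H: the homogeneous limit -/

/-- TASK H: from the generic formula to `S_Alg` (with the joint polynomiality, if needed) -/
def S_H : Prop := S_C → S_Alg

end Pool.Agent.NH38.Step
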