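import Pool.Agent.NH38.Step.Main
import Pool.Agent.H980R4.Rect

/-!
Step channels (helper38): bounded step domains.
-/

namespace Pool.Agent.NH38.Step

open Pool.Agent.H988R2.Perc hiding X
open Filter Topology MeasureTheory
open Pool.Agent.H980R4.Rect (Vert SS_symm vert_real)

/-- The right wall of the upper arm is joined to the right wall of the lower arm by an open path of
the bounded step domain (heights in `[-H,H]`). -/
def CrossH (a b H : ℕ) : Set Conf :=
  {ω | ∃ x y : ℤ × ℤ, x.1 - x.2 = 0 ∧ 0 ≤ x.1 + x.2 ∧ x.1 + x.2 ≤ H ∧ y.1 - y.2 = b ∧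
    Relation.ReflTransGen (fun p r => SAdj a b ω p r ∧ |p.1 + p.2| ≤ H ∧ |r.1 + r.2| ≤ H) x y}

theorem crossH_sub (a b H : ℕ) : CrossH a b H ⊆ Cross a b := by
  rintro ω ⟨x, y, h1, h2, -, h3, h4⟩
  exact ⟨x, y, h1, h2, h3, Relation.ReflTransGen.mono (fun p r h => h.1) _ _ h4⟩

theorem SS_of {a b : ℕ} {ω : Conf} {p r : ℤ × ℤ}
    (h : Relation.ReflTransGen (SAdj a b ω) p r) :
    Relation.ReflTransGen (Pool.Agent.H980R4.Rect.SS (-(a:ℤ)) (a+b) ω) p r := by
  refine Relation.ReflTransGen.mono ?_ _ _ h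
  rintro x y ⟨h1, h2, h3, h4, h5, -⟩
  refine ⟨h1, h2, ?_, h4, ?_⟩ <;> push_cast <;> linarith

theorem low {a b : ℕ} {ω : Conf} {x y : ℤ × ℤ} (hx : x.1 - x.2 ≤ 0)
    (h : Relation.ReflTransGen (SAdj a b ω) x y) :
    y.1 - y.2 ≤ 0 ∨ ∃ z : ℤ × ℤ, z.1 + z.2 ≤ 0 ∧
      Relation.ReflTransGen (SAdj a b ω) x z := by
  induction h with
  | refl => exact Or.inl hx
  | @tail y' y'' h1 h2 ih =>
    rcases ih with ih | ih
    · by_cases c1 : y'.1 + y'.2 ≤ 0
      · exact Or.inr ⟨y', c1, h1⟩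
      · by_cases c2 : y''.1 + y''.2 ≤ 0
        · exact Or.inr ⟨y'', c2, h1.tail h2⟩
        · left
          by_contra c3
          exact h2.2.2.2.2.2 ⟨by omega, by omega, Or.inr (by omega)⟩
    · exact Or.inr ih

theorem crossH_diff {a b : ℕ} (hb0 : 1 ≤ b) (H : ℕ) :
    Cross a b \ CrossH a b H ⊆
      Vert (-(a:ℤ)) (a+b) 0 H ∪ Vert (-(a:ℤ)) (a+b) (-(H:ℤ)) 0 := by
  rintro ω ⟨⟨x, y, hx1, hx2, hy, hr⟩, hn⟩
  by_contra hV
  rw [Set.mem_union, not_or] at hV
  obtain ⟨hV1, hV2⟩ := hV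
  obtain ⟨z, hz, hxz⟩ : ∃ z : ℤ × ℤ, z.1 + z.2 ≤ 0 ∧
      Relation.ReflTransGen (SAdj a b ω) x z := by
    rcases low (le_of_eq hx1) hr with h | h
    · exfalso
      rw [hy] at h
      omega
    · exact h
  have hb : ∀ p : ℤ × ℤ, Relation.ReflTransGen (SAdj a b ω) x p →
      |p.1 + p.2| ≤ H := by
    intro p hp
    have hp' := SS_of hp
    have hz' := SS_symm (SS_of hxz)
    rw [abs_le]
    constructor
    · by_contra hc
      exact hV2 ⟨p, x, by omega, by omega, SS_symm hp'⟩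
    · by_contra hc
      exact hV1 ⟨z, p, hz, by omega, hz'.trans hp'⟩
  apply hn
  refine ⟨x, y, hx1, hx2, ?_, hy, ?_⟩
  · have := hb x Relation.ReflTransGen.refl
    exact (le_abs_self _).trans this
  · clear hy
    induction hr with
    | refl => exact Relation.ReflTransGen.refl
    | tail h1 h2 ih => exact ih.tail ⟨h2, hb _ h1, hb _ (h1.tail h2)⟩

/-- comparison of the bounded domain with the channel, all parities -/
theorem rect_channel {a b : ℕ} (hb0 : 1 ≤ b) (H : ℕ) :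
    |perc.real (CrossH a b H) - perc.real (Cross a b)| ≤
      2 * (1 - (1/2 : ℝ)^188)^(H / (100 * (a + b))) := by
  have h0 : perc.real (CrossH a b H) ≤ perc.real (Cross a b) := measureReal_mono (crossH_sub a b H)
  have h1 : Cross a b ⊆ CrossH a b H ∪
      (Vert (-(a:ℤ)) (a+b) 0 H ∪ Vert (-(a:ℤ)) (a+b) (-(H:ℤ)) 0) := by
    intro ω hω
    by_cases hc : ω ∈ CrossH a b H
    · exact Or.inl hc
    · exact Or.inr (crossH_diff hb0 H ⟨hω, hc⟩)
  have h2 : perc.real (Cross a b) ≤ perc.real (CrossH a b H) +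
      (perc.real (Vert (-(a:ℤ)) (a+b) 0 H) + perc.real (Vert (-(a:ℤ)) (a+b) (-(H:ℤ)) 0)) :=
    (measureReal_mono h1).trans ((measureReal_union_le _ _).trans
      (add_le_add_right (measureReal_union_le _ _) _))
  have h3 := vert_real (-(a:ℤ)) (L := a+b) (by omega) 0 H
  have h4 := vert_real (-(a:ℤ)) (L := a+b) (by omega) (-(H:ℤ)) H
  rw [zero_add] at h3
  rw [neg_add_cancel] at h4
  rw [abs_le]
  have h5 : (0:ℝ) ≤ (1 - (1/2 : ℝ)^188)^(H / (100 * (a + b))) := measureReal_nonneg.trans h3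
  constructor <;> linarith

end Pool.Agent.NH38.Step
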